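import Pool.Agent.H322R2.DFin

/-!
Covering finite sets of integer points by collinear sets.
-/

open Polynomial Finset

namespace Pool.Agent.H674R3

open Pool.Agent.H322R2

/-- `T` is covered by at most `N` collinear sets -/
def Cov (T : Finset (ℤ × ℤ)) (N : ℕ) : Prop :=
  ∃ S : Finset (Finset (ℤ × ℤ)), S.card ≤ N ∧ (∀ s ∈ S, Col s) ∧ ∀ P ∈ T, ∃ s ∈ S, P ∈ s

lemma Cov.mono {T T' : Finset (ℤ × ℤ)} {N N' : ℕ} (h : Cov T N) (hT : T' ⊆ T) (hN : N ≤ N') :
    Cov T' N' := by
  obtain ⟨S, h1, h2, h3⟩ := h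
  exact ⟨S, h1.trans hN, h2, fun P hP => h3 P (hT hP)⟩

lemma Cov.union {T T' U : Finset (ℤ × ℤ)} {N N' : ℕ} (h : Cov T N) (h' : Cov T' N')
    (hU : ∀ P ∈ U, P ∈ T ∨ P ∈ T') : Cov U (N + N') := by
  classical
  obtain ⟨S, h1, h2, h3⟩ := h
  obtain ⟨S', h1', h2', h3'⟩ := h'
  refine ⟨S ∪ S', (Finset.card_union_le _ _).trans (Nat.add_le_add h1 h1'), ?_, ?_⟩
  · intro s hs
    rcases Finset.mem_union.1 hs with h | h
    · exact h2 s h
    · exact h2' s h
  · intro P hP
    rcases hU P hP with h | h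
    · obtain ⟨s, hs, hPs⟩ := h3 P h
      exact ⟨s, Finset.mem_union_left _ hs, hPs⟩
    · obtain ⟨s, hs, hPs⟩ := h3' P h
      exact ⟨s, Finset.mem_union_right _ hs, hPs⟩

lemma Cov.of_col {T : Finset (ℤ × ℤ)} (h : Col T) : Cov T 1 := by
  classical
  refine ⟨{T}, by simp, ?_, ?_⟩
  · intro s hs
    rw [Finset.mem_singleton] at hs
    rw [hs]; exact h
  · intro P hP
    exact ⟨T, Finset.mem_singleton_self _, hP⟩

lemma Cov.of_card {T : Finset (ℤ × ℤ)} {N : ℕ} (h : T.card ≤ N) : Cov T N := by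
  classical
  refine ⟨T.image (fun P => {P}), (Finset.card_image_le).trans h, ?_, ?_⟩
  · intro s hs
    rw [Finset.mem_image] at hs
    obtain ⟨P, _, rfl⟩ := hs
    intro P' hP' Q' hQ' R' hR'
    rw [Finset.mem_singleton] at hP' hQ' hR'
    rw [hP', hQ', hR']; ring
  · intro P hP
    exact ⟨{P}, Finset.mem_image_of_mem _ hP, Finset.mem_singleton_self _⟩

lemma Cov.classes {κ : Type*} [DecidableEq κ] {T : Finset (ℤ × ℤ)} {N : ℕ} (f : ℤ × ℤ → κ)
    (S : Finset κ) (hf : ∀ P ∈ T, f P ∈ S)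
    (h : ∀ k ∈ S, Cov (T.filter (fun P => f P = k)) N) : Cov T (N * S.card) := by
  classical
  induction S using Finset.induction_on generalizing T with
  | empty =>
    refine ⟨∅, by simp, by simp, ?_⟩
    intro P hP
    exact absurd (hf P hP) (Finset.notMem_empty _)
  | insert k S hk ih =>
    have h1 := ih (T := T.filter (fun P => f P ≠ k)) (by
      intro P hP
      rw [Finset.mem_filter] at hP
      rcases Finset.mem_insert.1 (hf P hP.1) with h | h
      · exact absurd h hP.2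
      · exact h) (by
      intro k' hk'
      apply (h k' (Finset.mem_insert_of_mem hk')).mono _ le_rfl
      intro P hP
      rw [Finset.mem_filter, Finset.mem_filter] at hP
      rw [Finset.mem_filter]
      exact ⟨hP.1.1, hP.2⟩)
    have h2 := h k (Finset.mem_insert_self _ _)
    rw [Finset.card_insert_of_notMem hk]
    have h3 : N * (S.card + 1) = N * S.card + N := by ring
    rw [h3]
    apply h1.union h2
    intro P hP
    by_cases hPk : f P = k
    · right; rw [Finset.mem_filter]; exact ⟨hP, hPk⟩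
    · left; rw [Finset.mem_filter]; exact ⟨hP, hPk⟩

section

variable {η β Q2 Z X : ℝ} (hQ2 : 0 ≤ Q2) (hZ : 1 ≤ Z) (hX0 : 0 < X) (hX : 8 * Z * Q2 < X)

include hQ2 hZ hX0 hX in
lemma cov_wins (n : ℕ) (T : Finset (ℤ × ℤ))
    (ha : ∀ P ∈ T, X ≤ |(P.1 : ℝ)| ∧ |(P.1 : ℝ)| ≤ X * Z ^ (n + 1))
    (hn : ∀ P ∈ T, |(P.2 : ℝ) - η * P.1 - β| ≤ Q2 / (P.1 : ℝ) ^ 2) : Cov T (n + 1) := by
  classical
  induction n generalizing T with
  | zero =>
    rw [zero_add]
    apply Cov.of_col
    exact col_win hQ2 hZ hX0 hX T (by simpa using ha) hn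
  | succ n ih =>
    have h1 := ih (T.filter fun P : ℤ × ℤ => |(P.1 : ℝ)| ≤ X * Z ^ (n + 1))
      (by
        intro P hP
        rw [Finset.mem_filter] at hP
        exact ⟨(ha P hP.1).1, hP.2⟩)
      (by
        intro P hP
        rw [Finset.mem_filter] at hP
        exact hn P hP.1)
    have hXX : X ≤ X * Z ^ (n + 1) := by
      apply le_mul_of_one_le_right hX0.le (one_le_pow₀ hZ)
    have h2 : Cov (T.filter fun P : ℤ × ℤ => ¬ |(P.1 : ℝ)| ≤ X * Z ^ (n + 1)) 1 := by
      apply Cov.of_col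
      apply col_win (X := X * Z ^ (n + 1)) hQ2 hZ (by linarith) (by linarith)
      · intro P hP
        rw [Finset.mem_filter] at hP
        refine ⟨(not_le.1 hP.2).le, ?_⟩
        have := (ha P hP.1).2
        rw [pow_succ] at this
        linarith
      · intro P hP
        rw [Finset.mem_filter] at hP
        exact hn P hP.1
    apply h1.union h2
    intro P hP
    by_cases hPk : |(P.1 : ℝ)| ≤ X * Z ^ (n + 1)
    · left; rw [Finset.mem_filter]; exact ⟨hP, hPk⟩
    · right; rw [Finset.mem_filter]; exact ⟨hP, hPk⟩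

end

end Pool.Agent.H674R3
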