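import Pool.Agent.H674R3.CovA

/-!
The large integer points of the curves `G + R = 0`, `deg R ≤ d - 4`, of bounded height lie on few
lines (monic case). The proof of `flex_cover` is the one of `flex_root` (`H322R2/DFlex.lean`) with
another last step.
-/

open Polynomial Finset

namespace Pool.Agent.H674R3

open Pool.Agent.H322R2

theorem flex_cover {d : ℕ} (hd : 4 ≤ d) {G : ℤ[X][X]} (hm : G.Monic) (hdeg : G.natDegree = d)
    (hT : TD d G) {H : ℝ} (hH : 1 ≤ H) (hG : pn (pn zn) G ≤ H)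
    (hirr : Irreducible ((lead d G).map (Int.castRingHom ℚ))) (η : ℝ)
    (hη : evf η (lead d G) = 0) (hflex : evf η (gp d G) = 0) (T : Finset (ℤ × ℤ))
    (hP : ∀ P ∈ T, (2 + 2 * H) ^ (E1 d) ≤ |(P.1 : ℝ)| ∧ |(P.2 : ℝ) / P.1 - η| ≤ cR d (2 * H) ∧
      ∃ R : ℤ[X][X], TD (d - 4) R ∧ pn (pn zn) R ≤ H ∧ Prime (G + R) ∧ ev P.1 P.2 (G + R) = 0) :
    Cov T (8 * kap d) := by
  rcases T.eq_empty_or_nonempty with hT0 | hT0
  · rw [hT0]; exact Cov.of_card (by simp)
  have hd0 : 0 < d := by omega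
  obtain ⟨H', hH'⟩ : ∃ H', H' = 2 * H := ⟨_, rfl⟩
  have hH'2 : 2 ≤ H' := by linarith
  have hH'1 : 1 ≤ H' := by linarith
  obtain ⟨hgm, hgd⟩ := lead_monic hm hdeg
  obtain ⟨g, hg⟩ : ∃ g, g = lead d G := ⟨_, rfl⟩
  have hpg : pn zn (lead d G) ≤ H := (pn_lead_le hdeg.le).trans hG
  have hηH : |η| ≤ H := root_norm_le (lead d G) hgm H hH hpg η hη
  have hgd' : (derivative (lead d G)).natDegree ≤ d := (natDegree_derivative_le _).trans (by omega)
  have hpd : pn zn (derivative (lead d G)) ≤ d * H' := by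
    refine (pn_derivative_le zn _).trans ?_
    rw [hgd]
    exact mul_le_mul_of_nonneg_left (by linarith) (by positivity)
  have hdR : (4 : ℝ) ≤ d := by exact_mod_cast hd
  have hder0 : derivative (lead d G) ≠ 0 := by
    intro h
    have h1 := natDegree_eq_zero_of_derivative_eq_zero h
    omega
  have hder : 1 ≤ |evf η (derivative (lead d G))| * cD d H' :=
    one_le_of_root (lead d G) d hd0 hgm hgd (derivative (lead d G))
      (nrm_ne_of_irr_deg hgm hgd hirr _ hder0 (by
        have := natDegree_derivative_le (lead d G); omega))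
      (1 + H') (d * H') (by linarith) (by linarith) hpd (by nlinarith) hgd' η hη
      (by rw [Real.norm_eq_abs]; linarith)
  obtain ⟨D, hD⟩ : ∃ D, D = |evf η (derivative (lead d G))| := ⟨_, rfl⟩
  have hcD := one_le_cD hd0 hH'1
  have hcS := one_le_cS (d := d) hH'1
  have hD0 : 0 < |evf η (derivative (lead d G))| := by
    by_contra hcon
    have : |evf η (derivative (lead d G))| = 0 := le_antisymm (not_lt.1 hcon) (abs_nonneg _)
    rw [this, zero_mul] at hder
    linarith
  have hS1 := one_le_cSS hd hH'1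
  have hMS : H' * (1 + |η|) ^ d ≤ cSS d H' * |evf η (derivative (lead d G))| := by
    have h1 : H' * (1 + |η|) ^ d ≤ cS d H' := by
      unfold cS
      apply mul_le_mul_of_nonneg_left _ (by linarith)
      exact pow_le_pow_left₀ (by positivity) (by linarith) _
    refine h1.trans ?_
    unfold cSS
    calc cS d H' = 1 * cS d H' := (one_mul _).symm
      _ ≤ (|evf η (derivative (lead d G))| * cD d H') * cS d H' :=
          mul_le_mul_of_nonneg_right hder (by linarith)
      _ = _ := by ring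
  obtain ⟨K, hK⟩ : ∃ K, K = 2 + H' := ⟨_, rfl⟩
  have hKH : 2 + 2 * H = K := by rw [hK, hH']
  rw [hKH] at hP
  rw [← hH'] at hP
  have hK4 : 4 ≤ K := by linarith
  have hK1 : 1 ≤ K := by linarith
  obtain ⟨Q, hQ⟩ : ∃ Q, Q = K ^ (64 * d ^ 3) := ⟨_, rfl⟩
  have hd3 : 0 < 64 * d ^ 3 := by positivity
  have hKQ : K ≤ Q := by
    rw [hQ]
    calc K = K ^ 1 := (pow_one _).symm
      _ ≤ _ := pow_le_pow_right₀ hK1 hd3
  have hQ2 : 2 ≤ Q := by linarith
  have hSK := cSS_le hd hH'1
  have hQle := cQ_le hd hH'1 hH'2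
  rw [← hK] at hSK hQle
  rw [← hQ] at hQle
  -- bounds for the coefficients
  obtain ⟨hb, hgm1, hk⟩ := bgk_le (M := H') (by omega) hT (by linarith) hS1 hD0 hMS
  have hS5Q : 13 * cSS d H' ^ 5 ≤ Q := by
    refine le_trans ?_ hQle
    have h1 : cSS d H' ^ 5 ≤ (36 * cSS d H' ^ 5) ^ d := by
      have h2 : 1 ≤ cSS d H' ^ 5 := one_le_pow₀ hS1
      calc cSS d H' ^ 5 ≤ 36 * cSS d H' ^ 5 := by linarith
        _ = (36 * cSS d H' ^ 5) ^ 1 := (pow_one _).symm
        _ ≤ _ := pow_le_pow_right₀ (by linarith) (by omega)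
    have h3 : 13 * cSS d H' ^ 5 ≤ (36 * cSS d H' ^ 5) ^ d := by
      have h2 : 1 ≤ cSS d H' ^ 5 := one_le_pow₀ hS1
      calc 13 * cSS d H' ^ 5 ≤ 36 * cSS d H' ^ 5 := by linarith
        _ = (36 * cSS d H' ^ 5) ^ 1 := (pow_one _).symm
        _ ≤ _ := pow_le_pow_right₀ (by linarith) (by omega)
    refine h3.trans ?_
    apply le_mul_of_one_le_left (by positivity)
    linarith
  have hS15 : cSS d H' ≤ cSS d H' ^ 5 := by
    calc cSS d H' = cSS d H' ^ 1 := (pow_one _).symm
      _ ≤ _ := pow_le_pow_right₀ hS1 (by norm_num)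
  have hS35 : cSS d H' ^ 3 ≤ cSS d H' ^ 5 := pow_le_pow_right₀ hS1 (by norm_num)
  have hS50 : 0 < cSS d H' ^ 5 := by positivity
  have hbQ : |bet d G η| ≤ Q := by linarith
  have hgQ : |gam d G η| ≤ Q := by linarith
  have hkQ : |kpp d G η| ≤ Q := by linarith
  have hηQ : |η| ≤ Q := by linarith
  have hgam : gam d G η = 0 := by
    have hgp := evf_gp (by omega) hT η (abs_pos.1 hD0)
    rw [hflex, eq_comm, neg_eq_zero] at hgp
    rcases mul_eq_zero.1 hgp with h | h
    · rcases mul_eq_zero.1 h with h | h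
      · norm_num at h
      · exact absurd h (pow_ne_zero _ (abs_pos.1 hD0))
    · exact h
  -- the points
  have hPQ : ∀ P ∈ T, Nr η (bet d G η) (gam d G η) (kpp d G η) Q P.1 P.2 := by
    intro P hPT
    obtain ⟨h1, h2, R, hR1, hR2, hR3, hR4⟩ := hP P hPT
    have hT' := TD_add hd hT hR1
    have hlead := lead_add_of_TD (G := G) hd hR1 0 (by omega)
    rw [Nat.sub_zero] at hlead
    have hpn' : pn (pn zn) (G + R) ≤ H' := (map_add_le_add _ _ _).trans (by linarith)
    have h3 := exp_lemma (M := H') (S := cSS d H') (G := G + R) (η := η) (by omega) hT' hpn' hS1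
      (by rw [hlead]; exact hη) (by rw [hlead]; exact hD0) (by rw [hlead]; exact hMS) hR4
      (by
        refine le_trans ?_ h1
        have h4 : (d : ℝ) + 1 ≤ K ^ d := by rw [hK]; exact d1_le_pow hd0 hH'1
        calc 34 * ((d : ℝ) + 1) * cSS d H' ^ 6 ≤ K ^ 3 * K ^ d * (K ^ (3 * d ^ 2 + 4 * d + 1)) ^ 6 := by
              apply mul_le_mul _ (pow_le_pow_left₀ (by linarith) hSK 6) (by positivity)
                (by positivity)
              apply mul_le_mul _ h4 (by positivity) (by positivity)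
              calc (34 : ℝ) ≤ 4 ^ 3 := by norm_num
                _ ≤ K ^ 3 := pow_le_pow_left₀ (by norm_num) hK4 3
          _ = K ^ (3 + d + (3 * d ^ 2 + 4 * d + 1) * 6) := by
              rw [← pow_mul, ← pow_add, ← pow_add]
          _ ≤ K ^ (E1 d) := by
              apply pow_le_pow_right₀ hK1
              unfold E1
              have h5 := one_le_kap d
              have h6 : 3 + d + (3 * d ^ 2 + 4 * d + 1) * 6 ≤ 64 * d ^ 5 := by
                have h7 : d ^ 2 ≤ d ^ 5 := Nat.pow_le_pow_right hd0 (by norm_num)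
                have h8 : d ≤ d ^ 5 := Nat.le_self_pow (by norm_num) d
                omega
              calc _ ≤ 64 * d ^ 5 := h6
                _ ≤ 1280 * d ^ 5 * 1 := by omega
                _ ≤ _ := Nat.mul_le_mul_left _ h5)
      (by
        refine h2.trans (le_of_eq ?_)
        unfold cR cSS
        congr 1; ring)
    rw [bet_add hd hT hR1, gam_add hd hT hR1, kpp_add hd hT hR1] at h3
    exact h3.mono hQle
  -- the smallest point
  obtain ⟨P0, hP0, hmin⟩ := Finset.exists_min_image T (fun P => |(P.1 : ℝ)|) hT0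
  obtain ⟨X0, hX0⟩ : ∃ X0, X0 = |(P0.1 : ℝ)| := ⟨_, rfl⟩
  have hX0K : K ^ (E1 d) ≤ X0 := by rw [hX0]; exact (hP P0 hP0).1
  have hX01 : 1 ≤ X0 := (one_le_pow₀ hK1).trans hX0K
  obtain ⟨e, he⟩ : ∃ e, e = 4 := ⟨_, rfl⟩
  have he0 : e ≠ 0 := by rw [he]; positivity
  obtain ⟨Z, hZ⟩ : ∃ Z : ℝ, Z = X0 ^ ((e : ℝ)⁻¹) := ⟨_, rfl⟩
  have hZ0 : 0 ≤ Z := by rw [hZ]; positivity
  have hZe : Z ^ e = X0 := by
    rw [hZ]
    exact Real.rpow_inv_natCast_pow (by linarith) he0
  have hQe : Q ^ e ≤ X0 := by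
    refine le_trans ?_ hX0K
    rw [hQ, ← pow_mul]
    apply pow_le_pow_right₀ hK1
    unfold E1
    have h5 := one_le_kap d
    calc 64 * d ^ 3 * e ≤ 1280 * d ^ 5 * 1 := by
          have : d ^ 3 ≤ d ^ 5 := Nat.pow_le_pow_right hd0 (by norm_num)
          rw [he]; omega
      _ ≤ _ := Nat.mul_le_mul_left _ h5
  have hQZ : Q ≤ Z := by
    rw [← hZe] at hQe
    exact le_of_pow_le_pow_left₀ he0 hZ0 hQe
  have hZ3 : 3 ≤ Z := by linarith
  have hZ1 : 1 ≤ Z := by linarith
  have hX0p : 0 < X0 := by linarith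
  have hwin : 8 * Z * (2 * Q) < X0 := by
    have h1 : 16 < Z ^ 2 := by
      have h2 : K ^ 2 ≤ Q := by
        rw [hQ]
        exact pow_le_pow_right₀ hK1 (by have : 0 < d ^ 3 := by positivity
                                        omega)
      have h3 : 16 ≤ K ^ 2 := by nlinarith
      nlinarith
    rw [← hZe, he]
    have h4 : Z ^ 4 = Z * (Z * Z ^ 2) := by ring
    rw [h4]
    have h5 : Q * 16 < Z * Z ^ 2 := by nlinarith
    nlinarith
  -- Thue's principle
  have hbB : bB d H' ≤ X0 ∧ bB d H' ^ (kap d) ≤ X0 := by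
    have h5 := one_le_kap d
    have h6 : bB d H' ^ (kap d) ≤ X0 := by
      refine le_trans ?_ hX0K
      unfold bB
      rw [← hK, ← pow_mul]
      apply pow_le_pow_right₀ hK1
      unfold E1
      apply Nat.mul_le_mul_right
      have : d ^ 2 ≤ d ^ 5 := Nat.pow_le_pow_right hd0 (by norm_num)
      omega
    have h7 : 1 ≤ bB d H' := one_le_pow₀ (by linarith)
    refine ⟨le_trans ?_ h6, h6⟩
    calc bB d H' = bB d H' ^ 1 := (pow_one _).symm
      _ ≤ _ := pow_le_pow_right₀ h7 h5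
  have hgd0 : 0 < (lead d G).natDegree := by omega
  have hPt : ∀ P ∈ T, ∃ G' : ℤ[X][X], Pt (os hgm) (sR η hη) d G' H' (AdjoinRoot.root (lead d G))
      P.1 P.2 := by
    intro P hPT
    obtain ⟨h1, h2, R, hR1, hR2, hR3, hR4⟩ := hP P hPT
    have hT' := TD_add hd hT hR1
    have hlead := lead_add_of_TD (G := G) hd hR1 0 (by omega)
    rw [Nat.sub_zero] at hlead
    have hpn' : pn (pn zn) (G + R) ≤ H' := (map_add_le_add _ _ _).trans (by linarith)
    have hRn : R.natDegree < G.natDegree := by have := hR1.1; omega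
    have hdeg' : R.degree < G.degree := degree_lt_degree hRn
    refine ⟨G + R, ⟨hm.add_of_left hdeg', ?_, hR3, hT', hH'1, hpn', ?_, ?_, ?_, ?_, hR4,
      by rw [sR_root]; exact h2⟩⟩
    · rw [natDegree_add_eq_left_of_natDegree_lt hRn, hdeg]
    · rw [hlead]; exact evf_root
    · exact (os_root hgm).trans (by linarith)
    · rw [sR_root]; linarith
    · rw [hlead, sR_root]; exact hder
  have hle : ∀ P ∈ T, |(P.1 : ℝ)| ≤ X0 * Z ^ (e * (2 * kap d)) := by
    intro P hPT
    obtain ⟨G1, hP1⟩ := hPt P0 hP0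
    obtain ⟨G2, hP2⟩ := hPt P hPT
    have h1 := two_int (by omega) (os_one hgm) (abs_sR_le hgm hgd0 η hη)
      (AdjoinRoot.powerBasisAux' hgm) 1 (le_refl _) (abs_repr_le hgm hgd0)
      (by rw [Fintype.card_fin]; exact hgd0) (by rw [Fintype.card_fin]; omega) hP1 hP2
      (by rw [← hX0]; exact hbB.2)
    rw [← hX0, mul_one] at h1
    refine h1.trans ?_
    rw [pow_mul, hZe]
    have h7 : 1 ≤ bB d H' := one_le_pow₀ (by linarith)
    calc (X0 * bB d H') ^ kap d ≤ (X0 ^ 2) ^ kap d := by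
          apply pow_le_pow_left₀ (by positivity)
          rw [sq]; exact mul_le_mul_of_nonneg_left hbB.1 (by linarith)
      _ = X0 ^ (2 * kap d) := by rw [← pow_mul]
      _ ≤ X0 * X0 ^ (2 * kap d) := le_mul_of_one_le_left (by positivity) hX01
  have hn : e * (2 * kap d) = (e * (2 * kap d) - 1) + 1 := by
    have h5 := one_le_kap d
    have : 0 < e * (2 * kap d) := Nat.mul_pos (Nat.pos_of_ne_zero he0) (by omega)
    omega
  have hfin := cov_wins (η := η) (β := bet d G η) (Q2 := 2 * Q) (Z := Z) (X := X0) (by linarith) hZ1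
    hX0p hwin (e * (2 * kap d) - 1) T
    (by
      intro P hPT
      rw [← hn]
      refine ⟨?_, hle P hPT⟩
      rw [hX0]; exact hmin P hPT)
    (by
      intro P hPT
      have h1 := hPQ P hPT
      unfold Nr at h1
      rw [hgam, zero_div, sub_zero] at h1
      have hXP : X0 ≤ |(P.1 : ℝ)| := by rw [hX0]; exact hmin P hPT
      have hP1 : 1 ≤ |(P.1 : ℝ)| := hX01.trans hXP
      have hP0 : 0 < |(P.1 : ℝ)| := by linarith
      have h2 : |kpp d G η / (P.1 : ℝ) ^ 2| ≤ Q / |(P.1 : ℝ)| ^ 2 := by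
        rw [abs_div, abs_pow]
        exact div_le_div_of_nonneg_right hkQ (by positivity)
      have h3 : Q / |(P.1 : ℝ)| ^ 3 ≤ Q / |(P.1 : ℝ)| ^ 2 := by
        apply div_le_div_of_nonneg_left (by linarith) (by positivity)
        exact pow_le_pow_right₀ hP1 (by norm_num)
      have h4 : (P.2 : ℝ) - η * P.1 - bet d G η
          = ((P.2 : ℝ) - η * P.1 - bet d G η - kpp d G η / (P.1 : ℝ) ^ 2)
            + kpp d G η / (P.1 : ℝ) ^ 2 := by ring
      rw [h4]
      refine (abs_add_le _ _).trans ?_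
      have h5 : 2 * Q / (P.1 : ℝ) ^ 2 = Q / |(P.1 : ℝ)| ^ 2 + Q / |(P.1 : ℝ)| ^ 2 := by
        rw [sq_abs]; ring
      rw [h5]
      linarith)
  rw [← hn] at hfin
  refine hfin.mono (Finset.Subset.refl _) (le_of_eq ?_)
  rw [he]; ring


theorem mono_cover {d : ℕ} (hd : 4 ≤ d) {G : ℤ[X][X]} (hm : G.Monic) (hdeg : G.natDegree = d)
    (hT : TD d G) {H : ℝ} (hH : 1 ≤ H) (hG : pn (pn zn) G ≤ H)
    (hirr : Irreducible ((lead d G).map (Int.castRingHom ℚ)))
    (T : Finset (ℤ × ℤ))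
    (hP : ∀ P ∈ T, (2 + 2 * H) ^ (E1 d) ≤ |(P.1 : ℝ)| ∧
      ∃ R : ℤ[X][X], TD (d - 4) R ∧ pn (pn zn) R ≤ H ∧ Prime (G + R) ∧ ev P.1 P.2 (G + R) = 0) :
    Cov T ((160 * d ^ 2 * kap d + 8 * kap d) * d) := by
  classical
  have hd0 : 0 < d := by omega
  obtain ⟨hgm, hgd⟩ := lead_monic hm hdeg
  have hder0 : derivative (lead d G) ≠ 0 := by
    intro h
    have h1 := natDegree_eq_zero_of_derivative_eq_zero h
    omega
  have hn := nrm_ne_of_irr_deg hgm hgd hirr _ hder0 (by
        have := natDegree_derivative_le (lead d G); omega)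
  have hsel : ∀ P ∈ T, ∃ η : ℝ, evf η (lead d G) = 0 ∧ |(P.2 : ℝ) / P.1 - η| ≤ cR d (2 * H) := by
    intro P hPT
    obtain ⟨h1, R, hR1, hR2, hR3, hR4⟩ := hP P hPT
    have hT' := TD_add hd hT hR1
    have hlead := lead_add_of_TD (G := G) hd hR1 0 (by omega)
    rw [Nat.sub_zero] at hlead
    have hpn' : pn (pn zn) (G + R) ≤ 2 * H := (map_add_le_add _ _ _).trans (by linarith)
    have hRn : R.natDegree < G.natDegree := by have := hR1.1; omega
    have hm' : (G + R).Monic := hm.add_of_left (degree_lt_degree hRn)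
    have hdeg' : (G + R).natDegree = d := by
      rw [natDegree_add_eq_left_of_natDegree_lt hRn, hdeg]
    have hP1 : (1 : ℝ) ≤ |(P.1 : ℝ)| := (one_le_pow₀ (by linarith)).trans h1
    have hP0 : P.1 ≠ 0 := by
      intro h; rw [h] at hP1; simp at hP1; linarith
    obtain ⟨η, e1, e2, -, -⟩ := root_sel hd0 hm' hdeg' hT' (show 1 ≤ 2 * H by linarith) hpn'
      (by rw [hlead]; exact hn) P.1 P.2 hP0 hR4 (by
        refine (thr_le hd0 (show 1 ≤ 2 * H by linarith)).trans (le_trans ?_ h1)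
        apply pow_le_pow_right₀ (by linarith)
        unfold E1
        have h5 := one_le_kap d
        have h6 : d ^ 3 ≤ d ^ 5 := Nat.pow_le_pow_right hd0 (by norm_num)
        calc 128 * d ^ 3 ≤ 1280 * d ^ 5 * 1 := by omega
          _ ≤ _ := Nat.mul_le_mul_left _ h5)
    rw [hlead] at e1
    exact ⟨η, e1, e2⟩
  choose! f hf1 hf2 using hsel
  obtain ⟨S, hS⟩ : ∃ S, S = ((lead d G).map (Int.castRingHom ℝ)).roots.toFinset := ⟨_, rfl⟩
  have hg0 : (lead d G).map (Int.castRingHom ℝ) ≠ 0 := (hgm.map _).ne_zero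
  have hmem : ∀ η : ℝ, η ∈ S ↔ evf η (lead d G) = 0 := by
    intro η
    rw [hS, Multiset.mem_toFinset, mem_roots hg0, IsRoot.def, eval_map, evf, coe_eval₂RingHom]
  have hScard : S.card ≤ d := by
    rw [hS]
    refine (Multiset.toFinset_card_le _).trans ((card_roots' _).trans ?_)
    rw [hgm.natDegree_map, hgd]
  have h1 := Cov.classes (T := T) (N := 160 * d ^ 2 * kap d + 8 * kap d) f S
    (fun P hPT => (hmem _).2 (hf1 P hPT)) (by
      intro η hη
      have hη0 := (hmem η).1 hη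
      have hP' : ∀ P ∈ T.filter (fun P => f P = η), (2 + 2 * H) ^ (E1 d) ≤ |(P.1 : ℝ)| ∧
          |(P.2 : ℝ) / P.1 - η| ≤ cR d (2 * H) ∧
          ∃ R : ℤ[X][X], TD (d - 4) R ∧ pn (pn zn) R ≤ H ∧ Prime (G + R) ∧
            ev P.1 P.2 (G + R) = 0 := by
        intro P hPT
        rw [Finset.mem_filter] at hPT
        obtain ⟨h1, h2⟩ := hP P hPT.1
        refine ⟨h1, ?_, h2⟩
        have := hf2 P hPT.1
        rwa [hPT.2] at this
      by_cases hflex : evf η (gp d G) = 0
      · exact (flex_cover hd hm hdeg hT hH hG hirr η hη0 hflex (T.filter (fun P => f P = η))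
          hP').mono (Finset.Subset.refl _) (by omega)
      · have := root_count hd hm hdeg hT hH hG hirr η hη0 hflex (T.filter (fun P => f P = η)) hP'
        exact Cov.of_card (by omega))
  exact h1.mono (Finset.Subset.refl _) (Nat.mul_le_mul_left _ hScard)

end Pool.Agent.H674R3
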