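import Pool.Agent.H674R3.SiegelC

/-!
The form of `main4` in which the size of an integer point is compared with the height of its own
curve only.
-/

open Polynomial Finset

namespace Pool.Agent.H674R3

open Pool.Agent.H322R2

/-- the part of `F` of degree larger than `d - 4` -/
noncomputable def topP (d : ℕ) (F : MvPolynomial (Fin 2) ℤ) : MvPolynomial (Fin 2) ℤ :=
  ∑ m ∈ F.support.filter (fun m => d < (m.sum fun _ e => e) + 4),
    MvPolynomial.monomial m (F.coeff m)

lemma coeff_topP (d : ℕ) (F : MvPolynomial (Fin 2) ℤ) (m : Fin 2 →₀ ℕ) :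
    (topP d F).coeff m = if d < (m.sum fun _ e => e) + 4 then F.coeff m else 0 := by
  classical
  unfold topP
  rw [MvPolynomial.coeff_sum]
  simp only [MvPolynomial.coeff_monomial]
  rw [Finset.sum_ite_eq' (F.support.filter (fun m => d < (m.sum fun _ e => e) + 4)) m
    (fun m => F.coeff m)]
  by_cases h : d < (m.sum fun _ e => e) + 4
  · rw [if_pos h]
    by_cases h2 : m ∈ F.support
    · rw [if_pos (Finset.mem_filter.2 ⟨h2, h⟩)]
    · rw [if_neg (fun h3 => h2 (Finset.mem_filter.1 h3).1), MvPolynomial.notMem_support_iff.1 h2]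
  · rw [if_neg h]
    apply if_neg
    intro h3
    rw [Finset.mem_filter] at h3
    exact h h3.2

lemma totalDegree_sub_topP {d : ℕ} (hd : 4 ≤ d) (F : MvPolynomial (Fin 2) ℤ) :
    (F - topP d F).totalDegree + 4 ≤ d := by
  have h : (F - topP d F).totalDegree ≤ d - 4 := by
    unfold MvPolynomial.totalDegree
    apply Finset.sup_le
    intro m hm
    by_contra hcon
    push Not at hcon
    rw [MvPolynomial.mem_support_iff, MvPolynomial.coeff_sub, coeff_topP, if_pos (by omega),
      sub_self] at hm
    exact hm rfl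
  omega

lemma topP_congr {d : ℕ} {F G : MvPolynomial (Fin 2) ℤ} (h : (G - F).totalDegree + 4 ≤ d) :
    topP d G = topP d F := by
  ext m
  rw [coeff_topP, coeff_topP]
  split_ifs with h1
  · by_contra hne
    have h2 : m ∈ (G - F).support := by
      rw [MvPolynomial.mem_support_iff, MvPolynomial.coeff_sub]
      exact sub_ne_zero.2 hne
    have := MvPolynomial.le_totalDegree h2
    omega
  · rfl

lemma len_le_of_coeff {F G : MvPolynomial (Fin 2) ℤ}
    (h : ∀ m, F.coeff m = G.coeff m ∨ F.coeff m = 0) : len F ≤ len G := by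
  classical
  unfold len
  have hsub : F.support ⊆ G.support := by
    intro m hm
    rw [MvPolynomial.mem_support_iff] at hm ⊢
    rcases h m with h1 | h1
    · rwa [← h1]
    · exact absurd h1 hm
  refine le_trans (Finset.sum_le_sum fun m hm => ?_)
    (Finset.sum_le_sum_of_subset hsub)
  rcases h m with h1 | h1
  · rw [h1]
  · rw [h1]; simp

lemma len_topP_le (d : ℕ) (F : MvPolynomial (Fin 2) ℤ) : len (topP d F) ≤ len F := by
  apply len_le_of_coeff
  intro m
  rw [coeff_topP]
  split_ifs
  · exact Or.inl rfl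
  · exact Or.inr rfl

lemma len_sub_topP_le (d : ℕ) (F : MvPolynomial (Fin 2) ℤ) : len (F - topP d F) ≤ len F := by
  apply len_le_of_coeff
  intro m
  rw [MvPolynomial.coeff_sub, coeff_topP]
  split_ifs
  · right; ring
  · left; ring

lemma natDegree_line_le {P : MvPolynomial (Fin 2) ℤ} {k : ℕ} (hP : P.totalDegree ≤ k)
    (p q : Fin 2 → ℝ) :
    (MvPolynomial.aeval (fun i => (C (p i) + C (q i) * X : ℝ[X])) P).natDegree ≤ k := by
  have h1 : (MvPolynomial.aeval (fun i => (C (p i) + C (q i) * X : ℝ[X])) P)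
      = (MvPolynomial.aeval (fun i => (C (p i) + C (q i) * X : ℝ[X]))
          (MvPolynomial.map (algebraMap ℤ ℝ) P)) := by
    rw [MvPolynomial.aeval_map_algebraMap]
  rw [h1]
  have h3 : (MvPolynomial.map (algebraMap ℤ ℝ) P).totalDegree ≤ k :=
    (Finset.sup_mono (MvPolynomial.support_map_subset _ _)).trans hP
  have h2 := MvPolynomial.aeval_natDegree_le (m := k) (n := 1)
    (MvPolynomial.map (algebraMap ℤ ℝ) P) h3
    (fun i => (C (p i) + C (q i) * X : ℝ[X])) (by
      intro i
      compute_degree)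
  rwa [mul_one] at h2

theorem main5 (F : MvPolynomial (Fin 2) ℤ) (hd : 4 ≤ F.totalDegree)
    (hirr : Irreducible (MvPolynomial.map (Int.castRingHom ℚ)
      (MvPolynomial.homogeneousComponent F.totalDegree F)))
    (hlines : ∀ p q : Fin 2 → ℝ, q ≠ 0 → F.totalDegree ≤
      (MvPolynomial.aeval (fun i => (C (p i) + C (q i) * X : ℝ[X])) F).natDegree + 2) :
    Set.encard {t : MvPolynomial (Fin 2) ℤ × ℤ × ℤ | (t.1 - F).totalDegree + 4 ≤ F.totalDegree ∧
      MvPolynomial.eval ![t.2.1, t.2.2] t.1 = 0 ∧
      ((F.totalDegree + 1) * len t.1) ^ (kG F.totalDegree) < max t.2.1.natAbs t.2.2.natAbs}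
      ≤ (kN F.totalDegree * F.totalDegree : ℕ) := by
  classical
  obtain ⟨d, hdd⟩ : ∃ d, d = F.totalDegree := ⟨_, rfl⟩
  obtain ⟨F', hF'⟩ : ∃ F', F' = topP d F := ⟨_, rfl⟩
  have hlow : (F' - F).totalDegree + 4 ≤ F.totalDegree := by
    have h1 := totalDegree_sub_topP (d := d) (by omega) F
    rw [← hF', ← neg_sub, MvPolynomial.totalDegree_neg, hdd] at h1
    exact h1
  have hFF : F' = F + (F' - F) := by ring
  have hdeg : F'.totalDegree = F.totalDegree := by
    rw [hFF]; exact totalDegree_pert hd hlow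
  have hcomp : MvPolynomial.homogeneousComponent F'.totalDegree F'
      = MvPolynomial.homogeneousComponent F.totalDegree F := by
    have h1 := comp_pert hd hlow
    rw [← hFF] at h1
    exact h1
  have hlines' : ∀ p q : Fin 2 → ℝ, q ≠ 0 → F'.totalDegree ≤
      (MvPolynomial.aeval (fun i => (C (p i) + C (q i) * X : ℝ[X])) F').natDegree + 2 := by
    intro p q hq
    rw [hdeg]
    have h1 := hlines p q hq
    have h2 : (MvPolynomial.aeval (fun i => (C (p i) + C (q i) * X : ℝ[X])) (F' - F)).natDegree
        ≤ F.totalDegree - 4 := natDegree_line_le (by omega) p q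
    have h3 : MvPolynomial.aeval (fun i => (C (p i) + C (q i) * X : ℝ[X])) F
        = MvPolynomial.aeval (fun i => (C (p i) + C (q i) * X : ℝ[X])) F'
          - MvPolynomial.aeval (fun i => (C (p i) + C (q i) * X : ℝ[X])) (F' - F) := by
      rw [map_sub]; ring
    have h4 := natDegree_sub_le
      (MvPolynomial.aeval (fun i => (C (p i) + C (q i) * X : ℝ[X])) F')
      (MvPolynomial.aeval (fun i => (C (p i) + C (q i) * X : ℝ[X])) (F' - F))
    rw [← h3] at h4
    omega
  have hmain := main4 F' (by rw [hdeg]; exact hd) (by rw [hcomp]; exact hirr) hlines'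
  rw [hdeg] at hmain
  refine le_trans ?_ hmain
  apply Set.encard_le_encard_of_injOn
    (f := fun t : MvPolynomial (Fin 2) ℤ × ℤ × ℤ => (t.1 - F', t.2))
  · rintro ⟨G, x, y⟩ ⟨h1, h2, h3⟩
    simp only at h1 h2 h3
    have htop : topP d G = F' := by
      rw [hF']; exact topP_congr (by rw [hdd]; exact h1)
    refine ⟨?_, ?_, ?_⟩
    · simp only
      have := totalDegree_sub_topP (d := d) (by omega) G
      rw [htop, hdd] at this
      exact this
    · simp only
      rw [add_sub_cancel]; exact h2
    · simp only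
      refine lt_of_le_of_lt ?_ h3
      apply Nat.pow_le_pow_left
      apply Nat.mul_le_mul_left
      apply max_le
      · rw [← htop]; exact len_topP_le d G
      · rw [← htop]; exact len_sub_topP_le d G
  · rintro ⟨G, x, y⟩ - ⟨G', x', y'⟩ - h
    simp only [Prod.mk.injEq] at h ⊢
    exact ⟨sub_left_injective h.1, h.2⟩

end Pool.Agent.H674R3
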