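import Pool.Agent.H674R3.SiegelD
import Pool.Agent.H322R2.DFin

/-!
All curves with simple points at infinity: the version of `main5` for a squarefree leading form.
-/

open Polynomial Finset IntermediateField

namespace Pool.Agent.H674R3

open Pool.Agent.H322R2

lemma kE_le_kG (d : ℕ) : kE d ≤ kG d := by
  unfold kE kG
  have h1 : 36 ^ d ≤ 1296 ^ d := Nat.pow_le_pow_left (by norm_num) _
  have h2 : (d + 1) ^ 13 ≤ (d + 1) ^ 15 := Nat.pow_le_pow_right (by omega) (by norm_num)
  exact Nat.mul_le_mul (Nat.mul_le_mul (by norm_num) h1) h2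

theorem main6 (F : MvPolynomial (Fin 2) ℤ) (hd : 4 ≤ F.totalDegree)
    (hsq : Squarefree (MvPolynomial.map (Int.castRingHom ℚ)
      (MvPolynomial.homogeneousComponent F.totalDegree F)))
    (hlines : Irreducible (MvPolynomial.map (Int.castRingHom ℚ)
      (MvPolynomial.homogeneousComponent F.totalDegree F)) →
      ∀ p q : Fin 2 → ℝ, q ≠ 0 → F.totalDegree ≤
      (MvPolynomial.aeval (fun i => (C (p i) + C (q i) * X : ℝ[X])) F).natDegree + 2) :
    Set.encard {t : MvPolynomial (Fin 2) ℤ × ℤ × ℤ | (t.1 - F).totalDegree + 4 ≤ F.totalDegree ∧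
      Irreducible (MvPolynomial.map (Int.castRingHom ℚ) t.1) ∧
      MvPolynomial.eval ![t.2.1, t.2.2] t.1 = 0 ∧
      ((F.totalDegree + 1) * len t.1) ^ (kG F.totalDegree) < max t.2.1.natAbs t.2.2.natAbs}
      ≤ (kN F.totalDegree * F.totalDegree : ℕ) := by
  by_cases hirr : Irreducible (MvPolynomial.map (Int.castRingHom ℚ)
      (MvPolynomial.homogeneousComponent F.totalDegree F))
  · refine le_trans (Set.encard_le_encard ?_) (main5 F hd hirr (hlines hirr))
    rintro t ⟨h1, -, h2, h3⟩
    exact ⟨h1, h2, h3⟩
  · obtain ⟨c, -, hc⟩ := main1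
    have hempty : {t : MvPolynomial (Fin 2) ℤ × ℤ × ℤ |
      (t.1 - F).totalDegree + 4 ≤ F.totalDegree ∧
      Irreducible (MvPolynomial.map (Int.castRingHom ℚ) t.1) ∧
      MvPolynomial.eval ![t.2.1, t.2.2] t.1 = 0 ∧
      ((F.totalDegree + 1) * len t.1) ^ (kG F.totalDegree) < max t.2.1.natAbs t.2.2.natAbs}
        = ∅ := by
      rw [Set.eq_empty_iff_forall_notMem]
      rintro ⟨G, x, y⟩ ⟨h1, h2, h3, h4⟩
      simp only at h1 h2 h3 h4
      have hGF : F + (G - F) = G := by ring
      have hdeg : G.totalDegree = F.totalDegree := by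
        rw [← hGF]; exact totalDegree_pert hd h1
      have hcomp : MvPolynomial.homogeneousComponent G.totalDegree G
          = MvPolynomial.homogeneousComponent F.totalDegree F := by
        have := comp_pert hd h1
        rwa [hGF] at this
      have hG0 : G ≠ 0 := by
        rintro rfl
        simp at hdeg
        omega
      have hlen := len_pos hG0
      rcases hc G h2 (by omega) (by rw [hcomp]; exact hsq) x y h3 with h | ⟨s, hs1, hs2, -, -⟩
      · have h5 : max x.natAbs y.natAbs ≤ ((F.totalDegree + 1) * len G) ^ (kE F.totalDegree) := by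
          rw [← hdeg]; exact max_le h.1 h.2
        have h6 : ((F.totalDegree + 1) * len G) ^ (kE F.totalDegree)
            ≤ ((F.totalDegree + 1) * len G) ^ (kG F.totalDegree) :=
          Nat.pow_le_pow_right (Nat.mul_pos (by omega) hlen) (kE_le_kG _)
        omega
      · apply hirr
        rw [hcomp] at hs1
        rw [hdeg] at hs2
        have hhom : (MvPolynomial.map (Int.castRingHom ℚ)
            (MvPolynomial.homogeneousComponent F.totalDegree F)).IsHomogeneous F.totalDegree :=
          (MvPolynomial.homogeneousComponent_isHomogeneous F.totalDegree F).map _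
        apply irr_of_slope (by omega) hhom hsq.ne_zero s _ hs2
        rw [← hs1]
        have hring : Int.castRingHom ℚ = algebraMap ℤ ℚ := rfl
        rw [hring, MvPolynomial.aeval_map_algebraMap]
    rw [hempty, Set.encard_empty]
    exact bot_le

end Pool.Agent.H674R3
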