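import Pool.Agent.H674R3.CovC
import Pool.Agent.H674R3.SiegelE

/-!
The set of all exceptional points of the family is finite and lies on few lines.
-/

open Polynomial Finset IntermediateField

namespace Pool.Agent.H674R3

open Pool.Agent.H322R2

lemma slopes_finite {F : MvPolynomial (Fin 2) ℤ} {u : ℕ} (hc : lc F u ≠ 0) :
    {t : ℝ | MvPolynomial.aeval ![1, t]
      (MvPolynomial.homogeneousComponent F.totalDegree F) = 0}.Finite := by
  obtain ⟨p, hp⟩ : ∃ p : ℝ[X], p = MvPolynomial.aeval (![1, X] : Fin 2 → ℝ[X])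
    (MvPolynomial.homogeneousComponent F.totalDegree F) := ⟨_, rfl⟩
  have hev : ∀ t : ℝ, p.eval t = MvPolynomial.aeval ![1, t]
      (MvPolynomial.homogeneousComponent F.totalDegree F) := by
    intro t
    have h1 := MvPolynomial.map_aeval (![1, X] : Fin 2 → ℝ[X]) (Polynomial.evalRingHom t)
      (MvPolynomial.homogeneousComponent F.totalDegree F)
    rw [← hp] at h1
    rw [← Polynomial.coe_evalRingHom, h1, MvPolynomial.aeval_def, MvPolynomial.coe_eval₂Hom]
    congr 1
    · exact RingHom.ext_int _ _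
    · funext i
      fin_cases i <;> simp
  have hp0 : p ≠ 0 := by
    intro h0
    apply hc
    have h1 := hev (u : ℝ)
    rw [h0, eval_zero] at h1
    have h3 : ((lc F u : ℤ) : ℝ) = 0 := by
      rw [h1, lc, MvPolynomial.eval, MvPolynomial.coe_eval₂Hom, ← eq_intCast (Int.castRingHom ℝ),
        MvPolynomial.hom_eval₂, MvPolynomial.aeval_def]
      congr 1
      funext i
      fin_cases i <;> simp
    exact_mod_cast h3
  refine (p.roots.toFinset.finite_toSet).subset ?_
  intro t ht
  rw [Finset.mem_coe, Multiset.mem_toFinset, mem_roots hp0, IsRoot.def, hev]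
  exact ht

lemma two_kE_le_kG (d : ℕ) : 2 * kE d ≤ kG d := by
  unfold kE kG
  have h1 : 36 ^ d ≤ 1296 ^ d := Nat.pow_le_pow_left (by norm_num) _
  have h2 : (d + 1) ^ 13 ≤ (d + 1) ^ 15 := Nat.pow_le_pow_right (by omega) (by norm_num)
  calc 2 * (10 ^ 11 * 36 ^ d * (d + 1) ^ 13) = (2 * 10 ^ 11) * 36 ^ d * (d + 1) ^ 13 := by ring
    _ ≤ _ := Nat.mul_le_mul (Nat.mul_le_mul (by norm_num) h1) h2

lemma kE_pos (d : ℕ) : kE d ≠ 0 := by
  unfold kE
  positivity

/-- the exceptional points -/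
def Exc (F : MvPolynomial (Fin 2) ℤ) : Set (ℤ × ℤ) :=
  {P | ∃ G : MvPolynomial (Fin 2) ℤ, (G - F).totalDegree + 4 ≤ F.totalDegree ∧
    Irreducible (MvPolynomial.map (Int.castRingHom ℚ) G) ∧
    MvPolynomial.eval ![P.1, P.2] G = 0 ∧
    ((F.totalDegree + 1) * len G) ^ (kG F.totalDegree) < max P.1.natAbs P.2.natAbs}

lemma exc_finite (F : MvPolynomial (Fin 2) ℤ) (hd : 4 ≤ F.totalDegree)
    (hsq : Squarefree (MvPolynomial.map (Int.castRingHom ℚ)
      (MvPolynomial.homogeneousComponent F.totalDegree F))) : (Exc F).Finite := by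
  obtain ⟨c, -, hc⟩ := main1
  have hF0 : F ≠ 0 := by
    rintro rfl
    simp at hd
  obtain ⟨u, hu, hcu⟩ := exists_u F hF0
  have hfin := slopes_finite (u := u) hcu
  obtain ⟨c0, hc0⟩ : ∃ c0 : ℕ, c0 = hfin.toFinset.sup (fun t => c ℚ⟮t⟯) := ⟨_, rfl⟩
  obtain ⟨B, hB⟩ : ∃ B : ℕ, B = (c0 * c0) ^ (kE F.totalDegree) := ⟨_, rfl⟩
  refine ((Set.finite_Icc (-(B : ℤ)) B).prod (Set.finite_Icc (-(B : ℤ)) B)).subset ?_
  rintro ⟨x, y⟩ ⟨G, h1, h2, h3, h4⟩
  simp only at h3 h4
  have hGF : F + (G - F) = G := by ring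
  have hdeg : G.totalDegree = F.totalDegree := by
    rw [← hGF]; exact totalDegree_pert hd h1
  have hcomp : MvPolynomial.homogeneousComponent G.totalDegree G
      = MvPolynomial.homogeneousComponent F.totalDegree F := by
    have := comp_pert hd h1
    rwa [hGF] at this
  have hG0 : G ≠ 0 := by
    rintro rfl
    simp at hdeg
    omega
  have hlen := len_pos hG0
  obtain ⟨w, hw⟩ : ∃ w, w = (F.totalDegree + 1) * len G := ⟨_, rfl⟩
  have hw1 : 1 ≤ w := by rw [hw]; exact Nat.mul_pos (by omega) hlen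
  rw [← hw] at h4
  have hmax : max x.natAbs y.natAbs ≤ B := by
    rcases hc G h2 (by omega) (by rw [hcomp]; exact hsq) x y h3 with h | ⟨s, hs1, hs2, hs3, hs4⟩
    · exfalso
      rw [hdeg, ← hw] at h
      have h5 : max x.natAbs y.natAbs ≤ w ^ (kE F.totalDegree) := max_le h.1 h.2
      have h6 : w ^ (kE F.totalDegree) ≤ w ^ (kG F.totalDegree) :=
        Nat.pow_le_pow_right hw1 (kE_le_kG _)
      omega
    · rw [hcomp] at hs1
      rw [hdeg, ← hw] at hs3 hs4
      have hcs : c ℚ⟮s⟯ ≤ c0 := by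
        rw [hc0]
        exact Finset.le_sup (f := fun t => c ℚ⟮t⟯) (hfin.mem_toFinset.2 hs1)
      have h5 : max x.natAbs y.natAbs ≤ (c0 * w) ^ (kE F.totalDegree) :=
        (max_le hs3 hs4).trans (Nat.pow_le_pow_left (Nat.mul_le_mul_right _ hcs) _)
      have h6 : w ^ (2 * kE F.totalDegree) < (c0 * w) ^ (kE F.totalDegree) :=
        lt_of_le_of_lt (Nat.pow_le_pow_right hw1 (two_kE_le_kG _)) (lt_of_lt_of_le h4 h5)
      have h7 : w < c0 := by
        by_contra hcon
        push Not at hcon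
        have h8 : (c0 * w) ^ (kE F.totalDegree) ≤ w ^ (2 * kE F.totalDegree) := by
          rw [pow_mul, sq]
          exact Nat.pow_le_pow_left (Nat.mul_le_mul_right _ hcon) _
        omega
      rw [hB]
      exact h5.trans (Nat.pow_le_pow_left (Nat.mul_le_mul_left _ h7.le) _)
  have hx : x.natAbs ≤ B := (le_max_left _ _).trans hmax
  have hy : y.natAbs ≤ B := (le_max_right _ _).trans hmax
  constructor
  · constructor
    · simp only; omega
    · simp only; omega
  · constructor
    · simp only; omega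
    · simp only; omega

lemma exc_empty (F : MvPolynomial (Fin 2) ℤ) (hd : 4 ≤ F.totalDegree)
    (hsq : Squarefree (MvPolynomial.map (Int.castRingHom ℚ)
      (MvPolynomial.homogeneousComponent F.totalDegree F)))
    (hirr : ¬ Irreducible (MvPolynomial.map (Int.castRingHom ℚ)
      (MvPolynomial.homogeneousComponent F.totalDegree F))) : Exc F = ∅ := by
  obtain ⟨c, -, hc⟩ := main1
  rw [Set.eq_empty_iff_forall_notMem]
  rintro ⟨x, y⟩ ⟨G, h1, h2, h3, h4⟩
  simp only at h3 h4
  have hGF : F + (G - F) = G := by ring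
  have hdeg : G.totalDegree = F.totalDegree := by
    rw [← hGF]; exact totalDegree_pert hd h1
  have hcomp : MvPolynomial.homogeneousComponent G.totalDegree G
      = MvPolynomial.homogeneousComponent F.totalDegree F := by
    have := comp_pert hd h1
    rwa [hGF] at this
  have hG0 : G ≠ 0 := by
    rintro rfl
    simp at hdeg
    omega
  have hlen := len_pos hG0
  rcases hc G h2 (by omega) (by rw [hcomp]; exact hsq) x y h3 with h | ⟨s, hs1, hs2, -, -⟩
  · have h5 : max x.natAbs y.natAbs ≤ ((F.totalDegree + 1) * len G) ^ (kE F.totalDegree) := by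
      rw [← hdeg]; exact max_le h.1 h.2
    have h6 : ((F.totalDegree + 1) * len G) ^ (kE F.totalDegree)
        ≤ ((F.totalDegree + 1) * len G) ^ (kG F.totalDegree) :=
      Nat.pow_le_pow_right (Nat.mul_pos (by omega) hlen) (kE_le_kG _)
    omega
  · apply hirr
    rw [hcomp] at hs1
    rw [hdeg] at hs2
    have hhom : (MvPolynomial.map (Int.castRingHom ℚ)
        (MvPolynomial.homogeneousComponent F.totalDegree F)).IsHomogeneous F.totalDegree :=
      (MvPolynomial.homogeneousComponent_isHomogeneous F.totalDegree F).map _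
    apply irr_of_slope (by omega) hhom hsq.ne_zero s _ hs2
    rw [← hs1]
    have hring : Int.castRingHom ℚ = algebraMap ℤ ℚ := rfl
    rw [hring, MvPolynomial.aeval_map_algebraMap]

/-- the number of lines -/
def kL (d : ℕ) : ℕ := (160 * d ^ 2 * kap d + 8 * kap d) * d * d

lemma exc_cov (F : MvPolynomial (Fin 2) ℤ) (hd : 4 ≤ F.totalDegree)
    (hirr : Irreducible (MvPolynomial.map (Int.castRingHom ℚ)
      (MvPolynomial.homogeneousComponent F.totalDegree F))) (T : Finset (ℤ × ℤ))
    (hT : ∀ P ∈ T, P ∈ Exc F) : Cov T (kL F.totalDegree) := by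
  classical
  obtain ⟨d, hdd⟩ : ∃ d, d = F.totalDegree := ⟨_, rfl⟩
  obtain ⟨F', hF'⟩ : ∃ F', F' = topP d F := ⟨_, rfl⟩
  have hlow : (F' - F).totalDegree + 4 ≤ F.totalDegree := by
    have h1 := totalDegree_sub_topP (d := d) (by omega) F
    rw [← hF', ← neg_sub, MvPolynomial.totalDegree_neg, hdd] at h1
    exact h1
  have hFF : F' = F + (F' - F) := by ring
  have hdeg : F'.totalDegree = F.totalDegree := by
    rw [hFF]; exact totalDegree_pert hd hlow
  have hcomp : MvPolynomial.homogeneousComponent F'.totalDegree F'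
      = MvPolynomial.homogeneousComponent F.totalDegree F := by
    have h1 := comp_pert hd hlow
    rw [← hFF] at h1
    exact h1
  have h0 := cover_all F' (by rw [hdeg]; exact hd) (by rw [hcomp]; exact hirr) T (by
    intro P hP
    obtain ⟨G, h1, -, h2, h3⟩ := hT P hP
    have htop : topP d G = F' := by
      rw [hF']; exact topP_congr (by rw [hdd]; exact h1)
    refine ⟨G - F', ?_, ?_, ?_⟩
    · rw [hdeg]
      have := totalDegree_sub_topP (d := d) (by omega) G
      rw [htop, hdd] at this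
      exact this
    · rw [add_sub_cancel]; exact h2
    · rw [hdeg]
      refine lt_of_le_of_lt ?_ h3
      apply Nat.pow_le_pow_left
      apply Nat.mul_le_mul_left
      apply max_le
      · rw [← htop]; exact len_topP_le d G
      · rw [← htop]; exact len_sub_topP_le d G)
  rw [hdeg] at h0
  exact h0

lemma kL_le (d : ℕ) : kL d ≤ 10 ^ 9 * 36 ^ d * (d + 1) ^ 8 := by
  unfold kL kap
  have h1 : d ^ 2 ≤ (d + 1) ^ 2 := Nat.pow_le_pow_left (by omega) _
  have h2 : 1 ≤ (d + 1) ^ 2 := Nat.one_le_pow _ _ (by omega)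
  calc (160 * d ^ 2 * (10 ^ 6 * 36 ^ d * (d + 1) ^ 4) + 8 * (10 ^ 6 * 36 ^ d * (d + 1) ^ 4)) * d * d
      = (160 * d ^ 2 + 8) * (10 ^ 6 * 36 ^ d * (d + 1) ^ 4) * d ^ 2 := by ring
    _ ≤ (160 * (d + 1) ^ 2 + 8 * (d + 1) ^ 2) * (10 ^ 6 * 36 ^ d * (d + 1) ^ 4) * (d + 1) ^ 2 := by
        gcongr
        omega
    _ = 168 * 10 ^ 6 * 36 ^ d * (d + 1) ^ 8 := by ring
    _ ≤ _ := by
        apply Nat.mul_le_mul_right
        apply Nat.mul_le_mul_right
        norm_num

end Pool.Agent.H674R3
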