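import Pool.Agent.H674R3.CovD
import Pool.Agent.H322R2.DFin2

/-!
Final statements: few lines, and the fibres of a polynomial.
-/

open Polynomial Finset IntermediateField

namespace Pool.Agent.H674R3

open Pool.Agent.H322R2

lemma line_of_col (s : Finset (ℤ × ℤ)) (h : Col s) :
    ∃ l : ℤ × ℤ × ℤ, (l.1 ≠ 0 ∨ l.2.1 ≠ 0) ∧ ∀ P ∈ s, l.1 * P.1 + l.2.1 * P.2 = l.2.2 := by
  classical
  by_cases hs : s.card ≤ 1
  · rcases s.eq_empty_or_nonempty with h0 | ⟨P, hP⟩
    · refine ⟨(1, 0, 0), Or.inl one_ne_zero, ?_⟩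
      intro P hP
      rw [h0] at hP
      exact absurd hP (Finset.notMem_empty _)
    · refine ⟨(1, 0, P.1), Or.inl one_ne_zero, ?_⟩
      intro Q hQ
      have : Q = P := Finset.card_le_one.1 hs Q hQ P hP
      rw [this]
      simp
  · push Not at hs
    obtain ⟨P, hP, Q, hQ, hPQ⟩ := Finset.one_lt_card.1 hs
    refine ⟨(Q.2 - P.2, -(Q.1 - P.1), (Q.2 - P.2) * P.1 - (Q.1 - P.1) * P.2), ?_, ?_⟩
    · by_contra hcon
      push Not at hcon
      apply hPQ
      have h1 := hcon.1
      have h2 := hcon.2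
      simp only at h1 h2
      apply Prod.ext
      · omega
      · omega
    · intro R hR
      have h1 := h P hP Q hQ R hR
      simp only
      linear_combination (-1) * h1

lemma poly_of_col {F : MvPolynomial (Fin 2) ℤ} {u : ℕ} (hc : lc F u ≠ 0)
    (hd : 2 ≤ F.totalDegree)
    (hirr : Irreducible (MvPolynomial.map (Int.castRingHom ℚ)
      (MvPolynomial.homogeneousComponent F.totalDegree F))) (S : Finset (ℤ × ℤ))
    (hcol : Col S) :
    ∃ U : ℤ[X], U.natDegree = F.totalDegree ∧
      ∀ P ∈ S, ∃ k : ℤ, U.eval k = MvPolynomial.eval ![P.1, P.2] F := by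
  classical
  -- a point and a direction
  have hdir : ∃ (P : ℤ × ℤ) (q p : ℤ), (q ≠ 0 ∨ p ≠ 0) ∧
      ∀ R ∈ S, ∃ k : ℤ, R.1 = P.1 + q * k ∧ R.2 = P.2 + p * k := by
    by_cases hS1 : S.card ≤ 1
    · rcases S.eq_empty_or_nonempty with h0 | ⟨P, hP⟩
      · refine ⟨(0, 0), 1, 0, Or.inl one_ne_zero, ?_⟩
        intro R hR
        rw [h0] at hR
        exact absurd hR (Finset.notMem_empty _)
      · refine ⟨P, 1, 0, Or.inl one_ne_zero, ?_⟩
        intro R hR
        have : R = P := Finset.card_le_one.1 hS1 R hR P hP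
        exact ⟨0, by rw [this]; ring, by rw [this]; ring⟩
    · push Not at hS1
      obtain ⟨P, hP, Q, hQ, hPQ⟩ := Finset.one_lt_card.1 hS1
      have hg : Int.gcd (Q.1 - P.1) (Q.2 - P.2) ≠ 0 := by
        intro h
        obtain ⟨h1, h2⟩ := Int.gcd_eq_zero_iff.1 h
        apply hPQ
        apply Prod.ext
        · omega
        · omega
      obtain ⟨g, q, p, hgq, hgp, hcop, hg0⟩ : ∃ g q p : ℤ, Q.1 - P.1 = g * q ∧ Q.2 - P.2 = g * p ∧
          IsCoprime q p ∧ g ≠ 0 := by
        refine ⟨Int.gcd (Q.1 - P.1) (Q.2 - P.2), (Q.1 - P.1) / Int.gcd (Q.1 - P.1) (Q.2 - P.2),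
          (Q.2 - P.2) / Int.gcd (Q.1 - P.1) (Q.2 - P.2), ?_, ?_, ?_, ?_⟩
        · exact (Int.mul_ediv_cancel' (Int.gcd_dvd_left _ _)).symm
        · exact (Int.mul_ediv_cancel' (Int.gcd_dvd_right _ _)).symm
        · rw [Int.isCoprime_iff_gcd_eq_one]
          exact Int.gcd_ediv_gcd_ediv_gcd (Nat.pos_of_ne_zero hg)
        · exact_mod_cast hg
      have hqp0 : q ≠ 0 ∨ p ≠ 0 := by
        by_contra hcon
        push Not at hcon
        rw [hcon.1, hcon.2] at hcop
        exact not_isCoprime_zero_zero hcop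
      refine ⟨P, q, p, hqp0, ?_⟩
      intro R hR
      have h1 := hcol P hP Q hQ R hR
      rw [hgq, hgp] at h1
      have h2 : q * (R.2 - P.2) = p * (R.1 - P.1) := by
        have : g * (q * (R.2 - P.2) - p * (R.1 - P.1)) = 0 := by linear_combination h1
        rcases mul_eq_zero.1 this with h | h
        · exact absurd h hg0
        · linarith
      obtain ⟨a, b, hab⟩ := hcop
      refine ⟨a * (R.1 - P.1) + b * (R.2 - P.2), ?_, ?_⟩
      · linear_combination (-(R.1 - P.1)) * hab - b * h2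
      · linear_combination (-(R.2 - P.2)) * hab + a * h2
  obtain ⟨P, q, p, hqp0, hex⟩ := hdir
  obtain ⟨U, hU⟩ : ∃ U : ℤ[X], U = MvPolynomial.aeval
    ![(C P.1 + C q * X : ℤ[X]), (C P.2 + C p * X : ℤ[X])] F := ⟨_, rfl⟩
  obtain ⟨l1, l2, l3⟩ := line_poly F P.1 P.2 q p
  rw [← hU] at l1 l2 l3
  refine ⟨U, ?_, ?_⟩
  · apply le_antisymm l1
    apply le_natDegree_of_ne_zero
    rw [l2]
    exact phi_ne_zero hc hd hirr q p hqp0
  · intro R hR
    obtain ⟨k, hk1, hk2⟩ := hex R hR
    refine ⟨k, ?_⟩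
    rw [l3, ← hk1, ← hk2]

theorem main7 (F : MvPolynomial (Fin 2) ℤ) (hd : 4 ≤ F.totalDegree)
    (hsq : Squarefree (MvPolynomial.map (Int.castRingHom ℚ)
      (MvPolynomial.homogeneousComponent F.totalDegree F))) :
    (Exc F).Finite ∧ ∃ L : Finset (ℤ × ℤ × ℤ), L.card ≤ kL F.totalDegree ∧
      (∀ l ∈ L, l.1 ≠ 0 ∨ l.2.1 ≠ 0) ∧
      ∀ P ∈ Exc F, ∃ l ∈ L, l.1 * P.1 + l.2.1 * P.2 = l.2.2 := by
  classical
  have hfin := exc_finite F hd hsq
  refine ⟨hfin, ?_⟩
  by_cases hirr : Irreducible (MvPolynomial.map (Int.castRingHom ℚ)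
      (MvPolynomial.homogeneousComponent F.totalDegree F))
  · obtain ⟨S, h1, h2, h3⟩ := exc_cov F hd hirr hfin.toFinset (fun P hP => hfin.mem_toFinset.1 hP)
    have hl : ∀ s ∈ S, ∃ l : ℤ × ℤ × ℤ, (l.1 ≠ 0 ∨ l.2.1 ≠ 0) ∧
        ∀ P ∈ s, l.1 * P.1 + l.2.1 * P.2 = l.2.2 := fun s hs => line_of_col s (h2 s hs)
    choose! l hl1 hl2 using hl
    refine ⟨S.image l, Finset.card_image_le.trans h1, ?_, ?_⟩
    · intro x hx
      rw [Finset.mem_image] at hx
      obtain ⟨s, hs, rfl⟩ := hx
      exact hl1 s hs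
    · intro P hP
      obtain ⟨s, hs, hPs⟩ := h3 P (hfin.mem_toFinset.2 hP)
      exact ⟨l s, Finset.mem_image_of_mem _ hs, hl2 s hs P hPs⟩
  · refine ⟨∅, by simp, by simp, ?_⟩
    intro P hP
    rw [exc_empty F hd hsq hirr] at hP
    exact absurd hP (Set.notMem_empty _)

theorem main8 (F : MvPolynomial (Fin 2) ℤ) (hd : 4 ≤ F.totalDegree)
    (hsq : Squarefree (MvPolynomial.map (Int.castRingHom ℚ)
      (MvPolynomial.homogeneousComponent F.totalDegree F))) :
    ∃ S : Finset ℤ[X], S.card ≤ kL F.totalDegree ∧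
      (∀ U ∈ S, U.natDegree = F.totalDegree ∨ U.natDegree = 0) ∧
      ∀ t : ℤ, (∀ U ∈ S, ∀ k : ℤ, U.eval k ≠ t) →
        ∀ x y : ℤ, MvPolynomial.eval ![x, y] F = t →
          max x.natAbs y.natAbs
            ≤ ((F.totalDegree + 1) * (len F + t.natAbs)) ^ (kG F.totalDegree) := by
  classical
  have hfin := exc_finite F hd hsq
  have hinjQ : Function.Injective (Int.castRingHom ℚ) := Int.cast_injective
  have hF0 : F ≠ 0 := by
    rintro rfl
    simp at hd
  obtain ⟨u, hu, hcu⟩ := exists_u F hF0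
  have hcl : lc F u ≠ 0 := hcu
  obtain ⟨FQ, hFQ⟩ : ∃ FQ, FQ = MvPolynomial.map (Int.castRingHom ℚ) F := ⟨_, rfl⟩
  have hFQd : FQ.totalDegree = F.totalDegree := by
    rw [hFQ, MvPolynomial.totalDegree, MvPolynomial.support_map_of_injective _ hinjQ,
      ← MvPolynomial.totalDegree]
  have hFQc : MvPolynomial.homogeneousComponent F.totalDegree FQ
      = MvPolynomial.map (Int.castRingHom ℚ)
        (MvPolynomial.homogeneousComponent F.totalDegree F) := by
    ext n
    rw [hFQ, MvPolynomial.coeff_homogeneousComponent, MvPolynomial.coeff_map,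
      MvPolynomial.coeff_map, MvPolynomial.coeff_homogeneousComponent]
    split_ifs <;> simp
  have hmapt : ∀ t : ℤ, MvPolynomial.map (Int.castRingHom ℚ) (F - MvPolynomial.C t)
      = FQ - MvPolynomial.C (t : ℚ) := by
    intro t
    rw [map_sub, MvPolynomial.map_C, hFQ]
    rfl
  -- a fibre that is irreducible
  have hkey : ∀ t : ℤ, Irreducible (FQ - MvPolynomial.C (t : ℚ)) →
      ∀ x y : ℤ, MvPolynomial.eval ![x, y] F = t →
      ((F.totalDegree + 1) * (len F + t.natAbs)) ^ (kG F.totalDegree)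
        < max x.natAbs y.natAbs → (x, y) ∈ Exc F := by
    intro t hirt x y hxy hlt
    refine ⟨F - MvPolynomial.C t, ?_, by rw [hmapt]; exact hirt, ?_, ?_⟩
    · have : F - MvPolynomial.C t - F = -MvPolynomial.C t := by ring
      rw [this, MvPolynomial.totalDegree_neg, MvPolynomial.totalDegree_C]
      omega
    · simp only
      rw [map_sub, MvPolynomial.eval_C, hxy]
      simp
    · simp only
      refine lt_of_le_of_lt ?_ hlt
      apply Nat.pow_le_pow_left
      apply Nat.mul_le_mul_left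
      rw [sub_eq_add_neg]
      exact (len_add_le _ _).trans (Nat.add_le_add_left len_C_le _)
  by_cases hirr : Irreducible (MvPolynomial.map (Int.castRingHom ℚ)
      (MvPolynomial.homogeneousComponent F.totalDegree F))
  · -- every fibre is irreducible
    have hirt : ∀ t : ℤ, Irreducible (FQ - MvPolynomial.C (t : ℚ)) := by
      intro t
      have hdt : (FQ - MvPolynomial.C (t : ℚ)).totalDegree = F.totalDegree := by
        rw [sub_eq_add_neg, ← map_neg,
          MvPolynomial.totalDegree_add_eq_left_of_totalDegree_lt (by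
            rw [MvPolynomial.totalDegree_C, hFQd]; omega), hFQd]
      apply irr_of_lead
      · rw [hdt]; omega
      · rw [hdt, map_sub, hFQc]
        have h0 : MvPolynomial.homogeneousComponent F.totalDegree
            (MvPolynomial.C (t : ℚ) : MvPolynomial (Fin 2) ℚ) = 0 :=
          MvPolynomial.homogeneousComponent_eq_zero _ _ (by
            rw [MvPolynomial.totalDegree_C]; omega)
        rw [h0, sub_zero]
        exact hirr
    obtain ⟨S, h1, h2, h3⟩ := exc_cov F hd hirr hfin.toFinset (fun P hP => hfin.mem_toFinset.1 hP)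
    have hl : ∀ s ∈ S, ∃ U : ℤ[X], U.natDegree = F.totalDegree ∧
        ∀ P ∈ s, ∃ k : ℤ, U.eval k = MvPolynomial.eval ![P.1, P.2] F :=
      fun s hs => poly_of_col hcl (by omega) hirr s (h2 s hs)
    choose! U hU1 hU2 using hl
    refine ⟨S.image U, Finset.card_image_le.trans h1, ?_, ?_⟩
    · intro V hV
      rw [Finset.mem_image] at hV
      obtain ⟨s, hs, rfl⟩ := hV
      exact Or.inl (hU1 s hs)
    · intro t ht x y hxy
      by_contra hcon
      push Not at hcon
      obtain ⟨s, hs, hPs⟩ := h3 (x, y) (hfin.mem_toFinset.2 (hkey t (hirt t) x y hxy hcon))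
      obtain ⟨k, hk⟩ := hU2 s hs (x, y) hPs
      exact ht (U s) (Finset.mem_image_of_mem _ hs) k (by rw [hk]; exact hxy)
  · -- all exceptional fibres are reducible
    have hred : ∀ S : Finset ℤ, (∀ t ∈ S, ¬ Irreducible (FQ - MvPolynomial.C (t : ℚ))) →
        S.card ≤ 2 ^ F.totalDegree := by
      intro S hS
      have h1 := few_red (F := FQ) (by rw [hFQd]; omega) (by rw [hFQd, hFQc]; exact hsq)
        (S.image (fun t : ℤ => (t : ℚ))) (by
          intro c hc
          rw [Finset.mem_image] at hc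
          obtain ⟨t, ht, rfl⟩ := hc
          exact hS t ht)
      rw [Finset.card_image_of_injective _ Int.cast_injective, hFQd] at h1
      exact h1
    have hRfin : {t : ℤ | ¬ Irreducible (FQ - MvPolynomial.C (t : ℚ))}.Finite := by
      by_contra hinf
      obtain ⟨S, hS1, hS2⟩ := Set.Infinite.exists_subset_card_eq hinf (2 ^ F.totalDegree + 1)
      have := hred S (fun t ht => hS1 (Finset.mem_coe.2 ht))
      omega
    refine ⟨hRfin.toFinset.image (fun t : ℤ => (C t : ℤ[X])), ?_, ?_, ?_⟩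
    · refine Finset.card_image_le.trans ((hred hRfin.toFinset (fun t ht =>
        hRfin.mem_toFinset.1 ht)).trans ?_)
      unfold kL
      have h1 : 2 ^ F.totalDegree ≤ kap F.totalDegree := by
        unfold kap
        calc 2 ^ F.totalDegree = 1 * 2 ^ F.totalDegree * 1 := by ring
          _ ≤ 10 ^ 6 * 36 ^ F.totalDegree * (F.totalDegree + 1) ^ 4 :=
            Nat.mul_le_mul (Nat.mul_le_mul (by norm_num) (Nat.pow_le_pow_left (by norm_num) _))
              (Nat.one_le_pow _ _ (by omega))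
      calc 2 ^ F.totalDegree ≤ kap F.totalDegree := h1
        _ ≤ 160 * F.totalDegree ^ 2 * kap F.totalDegree + 8 * kap F.totalDegree := by omega
        _ ≤ (160 * F.totalDegree ^ 2 * kap F.totalDegree + 8 * kap F.totalDegree)
            * (F.totalDegree * F.totalDegree) :=
          Nat.le_mul_of_pos_right _ (Nat.mul_pos (by omega) (by omega))
        _ = _ := by ring
    · intro V hV
      rw [Finset.mem_image] at hV
      obtain ⟨t, ht, rfl⟩ := hV
      exact Or.inr (natDegree_C _)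
    · intro t ht x y hxy
      by_contra hcon
      push Not at hcon
      by_cases hirt : Irreducible (FQ - MvPolynomial.C (t : ℚ))
      · have := hkey t hirt x y hxy hcon
        rw [exc_empty F hd hsq hirr] at this
        exact absurd this (Set.notMem_empty _)
      · exact ht (C t) (Finset.mem_image_of_mem _ (hRfin.mem_toFinset.2 hirt)) 0 (eval_C)

end Pool.Agent.H674R3
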