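import Pool.Agent.H674R3.CovE

/-!
The number of exceptional fibres.
-/

open Polynomial Finset

namespace Pool.Agent.H674R3

open Pool.Agent.H322R2

/-- few values of size at most `m ^ d` of few polynomials of degree `d` -/
lemma few_values {d m N : ℕ} (hd : 1 ≤ d) (S : Finset ℤ[X]) (hSN : S.card ≤ N)
    (hS : ∀ U ∈ S, U.natDegree = d ∨ U.natDegree = 0) (T : Finset ℤ)
    (hT : ∀ t ∈ T, |t| ≤ (m : ℤ) ^ d ∧ ∃ U ∈ S, ∃ k : ℤ, U.eval k = t) :
    T.card ≤ N * (d * (2 * m + 1)) := by
  classical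
  have hT2 : ∀ t ∈ T, ∃ U ∈ S, ∃ k : ℤ, U.eval k = t := fun t ht => (hT t ht).2
  choose! f hf1 k hk using hT2
  have h1 := Finset.card_le_mul_card_image_of_maps_to (s := T) (t := S) (f := f)
    (fun t ht => hf1 t ht) (d * (2 * m + 1)) (by
      intro U hU
      obtain ⟨T', hT'⟩ : ∃ T', T' = T.filter (fun t => f t = U) := ⟨_, rfl⟩
      rw [← hT']
      have hmem : ∀ t ∈ T', t ∈ T ∧ U.eval (k t) = t := by
        intro t ht
        rw [hT', Finset.mem_filter] at ht
        refine ⟨ht.1, ?_⟩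
        rw [← ht.2]; exact hk t ht.1
      have hinj : Set.InjOn k T' := by
        intro t ht t' ht' h
        rw [Finset.mem_coe] at ht ht'
        rw [← (hmem t ht).2, ← (hmem t' ht').2, h]
      rcases hS U hU with h | h
      · rw [← Finset.card_image_of_injOn hinj]
        apply small_vals (H := m ^ d) hd h le_rfl
        intro a ha
        rw [Finset.mem_image] at ha
        obtain ⟨t, ht, rfl⟩ := ha
        rw [(hmem t ht).2]
        push_cast
        exact (hT t (hmem t ht).1).1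
      · have h2 : T'.card ≤ 1 := by
          apply Finset.card_le_one.2
          intro t ht t' ht'
          rw [← (hmem t ht).2, ← (hmem t' ht').2]
          rw [eq_C_of_natDegree_eq_zero h, eval_C, eval_C]
        exact h2.trans (Nat.mul_pos (by omega) (by omega)))
  calc T.card ≤ d * (2 * m + 1) * S.card := h1
    _ ≤ d * (2 * m + 1) * N := Nat.mul_le_mul_left _ hSN
    _ = _ := by ring

theorem main9 (F : MvPolynomial (Fin 2) ℤ) (hd : 4 ≤ F.totalDegree)
    (hsq : Squarefree (MvPolynomial.map (Int.castRingHom ℚ)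
      (MvPolynomial.homogeneousComponent F.totalDegree F))) :
    ∃ S : Finset ℤ[X], S.card ≤ kL F.totalDegree ∧
      (∀ U ∈ S, U.natDegree = F.totalDegree ∨ U.natDegree = 0) ∧
      (∀ t : ℤ, (∀ U ∈ S, ∀ k : ℤ, U.eval k ≠ t) →
        ∀ x y : ℤ, MvPolynomial.eval ![x, y] F = t →
          max x.natAbs y.natAbs
            ≤ ((F.totalDegree + 1) * (len F + t.natAbs)) ^ (kG F.totalDegree)) ∧
      ∀ m : ℕ, Set.encard {t : ℤ | |t| ≤ (m : ℤ) ^ F.totalDegree ∧
        ∃ x y : ℤ, MvPolynomial.eval ![x, y] F = t ∧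
          ((F.totalDegree + 1) * (len F + t.natAbs)) ^ (kG F.totalDegree)
            < max x.natAbs y.natAbs}
        ≤ (kL F.totalDegree * (F.totalDegree * (2 * m + 1)) : ℕ) := by
  classical
  obtain ⟨S, h1, h2, h3⟩ := main8 F hd hsq
  refine ⟨S, h1, h2, h3, ?_⟩
  intro m
  obtain ⟨E, hE⟩ : ∃ E, E = {t : ℤ | |t| ≤ (m : ℤ) ^ F.totalDegree ∧
        ∃ x y : ℤ, MvPolynomial.eval ![x, y] F = t ∧
          ((F.totalDegree + 1) * (len F + t.natAbs)) ^ (kG F.totalDegree)
            < max x.natAbs y.natAbs} := ⟨_, rfl⟩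
  rw [← hE]
  have hfin : E.Finite := by
    apply (Set.finite_Icc (-((m : ℤ) ^ F.totalDegree)) ((m : ℤ) ^ F.totalDegree)).subset
    intro t ht
    rw [hE] at ht
    exact abs_le.1 ht.1
  rw [hfin.encard_eq_coe_toFinset_card]
  have h4 := few_values (d := F.totalDegree) (m := m) (by omega) S h1 h2 hfin.toFinset (by
    intro t ht
    rw [Set.Finite.mem_toFinset, hE] at ht
    obtain ⟨g1, x, y, g2, g3⟩ := ht
    refine ⟨g1, ?_⟩
    by_contra hcon
    push Not at hcon
    have := h3 t (fun U hU k => hcon U hU k) x y g2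
    omega)
  exact_mod_cast h4

end Pool.Agent.H674R3
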