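import Mathlib

set_option autoImplicit false

namespace Pool.Agent.H674R3.DP

/-- Removing one determined coordinate divides the count by `m`. -/
theorem step {V : Type*} [Fintype V] [DecidableEq V] {m : ℕ} (Q : (V → Fin m) → Prop)
    [DecidablePred Q] (z : V) (φ : (V → Fin m) → Fin m)
    (hQ : ∀ f c, Q (Function.update f z c) ↔ Q f)
    (hφ : ∀ f c, φ (Function.update f z c) = φ f) :
    (Finset.univ.filter (fun f : V → Fin m => Q f ∧ f z = φ f)).card * m
      = (Finset.univ.filter Q).card := by
  classical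
  have h : ((Finset.univ.filter (fun f : V → Fin m => Q f ∧ f z = φ f)) ×ˢ
      (Finset.univ : Finset (Fin m))).card = (Finset.univ.filter Q).card := by
    refine Finset.card_nbij' (fun x => Function.update x.1 z x.2)
      (fun f => (Function.update f z (φ f), f z)) ?_ ?_ ?_ ?_
    · rintro ⟨f, c⟩ hx
      simp only [Finset.coe_product, Finset.coe_filter, Finset.mem_univ, true_and,
        Finset.coe_univ, Set.mem_prod, Set.mem_ofPred_eq, Set.mem_univ, and_true] at hx ⊢
      exact (hQ f c).2 hx.1
    · intro f hf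
      simp only [Finset.coe_product, Finset.coe_filter, Finset.mem_univ, true_and,
        Finset.coe_univ, Set.mem_prod, Set.mem_ofPred_eq, Set.mem_univ, and_true] at hf ⊢
      refine ⟨(hQ f _).2 hf, ?_⟩
      rw [hφ]
      simp
    · rintro ⟨f, c⟩ hx
      simp only [Finset.coe_product, Finset.coe_filter, Finset.mem_univ, true_and,
        Finset.coe_univ, Set.mem_prod, Set.mem_ofPred_eq, Set.mem_univ, and_true] at hx ⊢
      simp [hφ, ← hx.2]
    · intro f hf
      simp
  rw [← h, Finset.card_product]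
  simp

/-- Level-two Bonferroni upper bound. -/
theorem bonf_upper {α ι : Type*} [DecidableEq ι] (U : Finset α) (T : Finset ι)
    (X : ι → α → Prop) [∀ e, DecidablePred (X e)] [DecidablePred fun f => ∀ e ∈ T, ¬ X e f] :
    2 * ((U.filter (fun f => ∀ e ∈ T, ¬ X e f)).card : ℤ)
      ≤ 2 * (U.card : ℤ) - 2 * ∑ e ∈ T, ((U.filter (X e)).card : ℤ)
        + ∑ p ∈ T.offDiag, ((U.filter (fun f => X p.1 f ∧ X p.2 f)).card : ℤ) := by
  classical
  have key : ∀ f : α, 2 * (if (∀ e ∈ T, ¬ X e f) then (1 : ℤ) else 0)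
      ≤ 2 * 1 - 2 * ∑ e ∈ T, (if X e f then (1 : ℤ) else 0)
        + ∑ p ∈ T.offDiag, (if (X p.1 f ∧ X p.2 f) then (1 : ℤ) else 0) := by
    intro f
    have h1 : ∑ e ∈ T, (if X e f then (1 : ℤ) else 0) = ((T.filter (fun e => X e f)).card : ℤ) := by
      rw [Finset.card_filter]; push_cast; rfl
    have h2 : ∑ p ∈ T.offDiag, (if (X p.1 f ∧ X p.2 f) then (1 : ℤ) else 0)
        = ((T.filter (fun e => X e f)).card : ℤ) * ((T.filter (fun e => X e f)).card : ℤ)
          - ((T.filter (fun e => X e f)).card : ℤ) := by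
      have e1 : ∑ p ∈ T.offDiag, (if (X p.1 f ∧ X p.2 f) then (1 : ℤ) else 0)
          = (((T.offDiag).filter (fun p => X p.1 f ∧ X p.2 f)).card : ℤ) := by
        rw [Finset.card_filter]; push_cast; rfl
      have e2 : (T.offDiag).filter (fun p => X p.1 f ∧ X p.2 f)
          = (T.filter (fun e => X e f)).offDiag := by
        ext p
        simp only [Finset.mem_filter, Finset.mem_offDiag]
        tauto
      rw [e1, e2, Finset.offDiag_card]
      rw [Nat.cast_sub (Nat.le_mul_self _)]
      push_cast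
      ring
    rw [h1, h2]
    set k := (T.filter (fun e => X e f)).card with hk
    by_cases h : ∀ e ∈ T, ¬ X e f
    · have : k = 0 := by
        rw [hk, Finset.card_eq_zero, Finset.filter_eq_empty_iff]
        exact h
      rw [if_pos h, this]
      norm_num
    · rw [if_neg h]
      have : 1 ≤ k := by
        rw [hk, Nat.one_le_iff_ne_zero, Ne, Finset.card_eq_zero, Finset.filter_eq_empty_iff]
        exact h
      have h3 : (1 : ℤ) ≤ (k : ℤ) := by exact_mod_cast this
      by_cases h4 : k = 1
      · rw [h4]; norm_num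
      · have h5 : (2 : ℤ) ≤ (k : ℤ) := by
          have : 2 ≤ k := by omega
          exact_mod_cast this
        nlinarith
  have hsum := Finset.sum_le_sum (fun f (_ : f ∈ U) => key f)
  have hl : ∑ f ∈ U, 2 * (if (∀ e ∈ T, ¬ X e f) then (1 : ℤ) else 0)
      = 2 * ((U.filter (fun f => ∀ e ∈ T, ¬ X e f)).card : ℤ) := by
    rw [← Finset.mul_sum, Finset.card_filter]
    push_cast
    rfl
  have hr : ∑ f ∈ U, (2 * 1 - 2 * ∑ e ∈ T, (if X e f then (1 : ℤ) else 0)
        + ∑ p ∈ T.offDiag, (if (X p.1 f ∧ X p.2 f) then (1 : ℤ) else 0))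
      = 2 * (U.card : ℤ) - 2 * ∑ e ∈ T, ((U.filter (X e)).card : ℤ)
        + ∑ p ∈ T.offDiag, ((U.filter (fun f => X p.1 f ∧ X p.2 f)).card : ℤ) := by
    rw [Finset.sum_add_distrib, Finset.sum_sub_distrib]
    congr 1
    · congr 1
      · simp [mul_comm]
      · rw [← Finset.mul_sum, Finset.sum_comm]
        congr 1
        refine Finset.sum_congr rfl fun e _ => ?_
        rw [Finset.card_filter]; push_cast; rfl
    · rw [Finset.sum_comm]
      refine Finset.sum_congr rfl fun e _ => ?_
      rw [Finset.card_filter]; push_cast; rfl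
  rw [hl, hr] at hsum
  exact hsum

/-- Union bound. -/
theorem bonf_lower {α ι : Type*} [DecidableEq ι] (U : Finset α) (T : Finset ι)
    (X : ι → α → Prop) [∀ e, DecidablePred (X e)] [DecidablePred fun f => ∀ e ∈ T, ¬ X e f] :
    (U.card : ℤ) - ∑ e ∈ T, ((U.filter (X e)).card : ℤ)
      ≤ ((U.filter (fun f => ∀ e ∈ T, ¬ X e f)).card : ℤ) := by
  classical
  have key : ∀ f : α, 1 - ∑ e ∈ T, (if X e f then (1 : ℤ) else 0)
      ≤ (if (∀ e ∈ T, ¬ X e f) then (1 : ℤ) else 0) := by
    intro f
    by_cases h : ∀ e ∈ T, ¬ X e f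
    · rw [if_pos h]
      have : 0 ≤ ∑ e ∈ T, (if X e f then (1 : ℤ) else 0) :=
        Finset.sum_nonneg (fun e _ => by split_ifs <;> norm_num)
      linarith
    · rw [if_neg h]
      push Not at h
      obtain ⟨e, he, hX⟩ := h
      have := Finset.single_le_sum (f := fun e => if X e f then (1 : ℤ) else 0)
        (fun e _ => by split_ifs <;> norm_num) he
      simp only [hX, if_true] at this
      linarith
  have hsum := Finset.sum_le_sum (fun f (_ : f ∈ U) => key f)
  rw [Finset.sum_sub_distrib, Finset.sum_comm] at hsum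
  simp only [Finset.card_filter]
  push_cast
  simpa using hsum

end Pool.Agent.H674R3.DP
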