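import Mathlib
import Pool.Agent.H674R3.DPStep

set_option autoImplicit false

namespace Pool.Agent.H674R3.DP

/-- edges of the square of the 7-cycle: `(i, false)` is `i -- i+1`, `(i, true)` is `i -- i+2` -/
abbrev E := Fin 7 × Bool

def src (e : E) : Fin 7 := e.1

def tgt (e : E) : Fin 7 := e.1 + (if e.2 then 2 else 1)

variable {m : ℕ}

/-- the colouring `f` is in conflict along the edge `e` -/
def X (π : E → Equiv.Perm (Fin m)) (e : E) (f : Fin 7 → Fin m) : Prop :=
  f (tgt e) = π e (f (src e))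

instance (π : E → Equiv.Perm (Fin m)) (e : E) : DecidablePred (X π e) := fun f => by
  unfold X; infer_instance

theorem src_ne_tgt : ∀ e : E, src e ≠ tgt e := by decide

theorem dec1 : ∀ (k : Fin 7) (e : E), e ≠ (k, true) →
    ∃ z, (z = src e ∨ z = tgt e) ∧ z ≠ k ∧ z ≠ k + 2 := by
  decide +kernel

set_option synthInstance.maxHeartbeats 400000 in
set_option synthInstance.maxSize 1000 in
theorem dec2 : ∀ (k : Fin 7) (e e' : E), e ≠ (k, true) → e' ≠ (k, true) → e ≠ e' →
    ¬ (e = (k, false) ∧ e' = (k + 1, false)) → ¬ (e = (k + 1, false) ∧ e' = (k, false)) →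
    (∃ z, (z = src e' ∨ z = tgt e') ∧ z ≠ k ∧ z ≠ k + 2 ∧ z ≠ src e ∧ z ≠ tgt e) ∨
    (∃ z, (z = src e ∨ z = tgt e) ∧ z ≠ k ∧ z ≠ k + 2 ∧ z ≠ src e' ∧ z ≠ tgt e') := by
  decide +kernel

theorem stepX (π : E → Equiv.Perm (Fin m)) (Q : (Fin 7 → Fin m) → Prop) [DecidablePred Q]
    (e : E) (z : Fin 7) (hz : z = src e ∨ z = tgt e)
    (hQ : ∀ f c, Q (Function.update f z c) ↔ Q f) :
    (Finset.univ.filter (fun f : Fin 7 → Fin m => Q f ∧ X π e f)).card * m
      = (Finset.univ.filter Q).card := by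
  rcases hz with hz | hz
  · have h := step Q z (fun f => (π e).symm (f (tgt e))) hQ (by
      intro f c
      have : tgt e ≠ z := by rw [hz]; exact (src_ne_tgt e).symm
      simp [Function.update_of_ne this])
    rw [← h]
    rw [Finset.filter_congr (s := Finset.univ) (p := fun f : Fin 7 → Fin m => Q f ∧ X π e f)
      (q := fun f => Q f ∧ f z = (π e).symm (f (tgt e))) (fun f _ => ?_)]
    simp only [X, hz]
    constructor
    · rintro ⟨h1, h2⟩
      refine ⟨h1, ?_⟩
      rw [h2]; simp
    · rintro ⟨h1, h2⟩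
      refine ⟨h1, ?_⟩
      rw [h2]; simp
  · have h := step Q z (fun f => (π e) (f (src e))) hQ (by
      intro f c
      have : src e ≠ z := by rw [hz]; exact (src_ne_tgt e)
      simp [Function.update_of_ne this])
    rw [← h]
    rw [Finset.filter_congr (s := Finset.univ) (p := fun f : Fin 7 → Fin m => Q f ∧ X π e f)
      (q := fun f => Q f ∧ f z = (π e) (f (src e))) (fun f _ => ?_)]
    simp only [X, hz]

def U (k : Fin 7) (a b : Fin m) : Finset (Fin 7 → Fin m) :=
  Finset.univ.filter (fun f => f k = a ∧ f (k + 2) = b)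

theorem k_ne (k : Fin 7) : k + 2 ≠ k := by revert k; decide

theorem k_ne1 (k : Fin 7) : k + 1 ≠ k := by revert k; decide

theorem card_U (k : Fin 7) (a b : Fin m) : (U k a b).card * m * m = m ^ 7 := by
  have h1 := step (V := Fin 7) (m := m) (fun f => f k = a) (k + 2) (fun _ => b)
    (by intro f c; rw [Function.update_of_ne (k_ne k).symm]) (by intro f c; rfl)
  have h2 := step (V := Fin 7) (m := m) (fun _ => True) k (fun _ => a)
    (by intro f c; rfl) (by intro f c; rfl)
  simp only [true_and, Finset.filter_true, Finset.card_univ, Fintype.card_fun, Fintype.card_fin]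
    at h2
  unfold U
  rw [h1, h2]

theorem indU {k z : Fin 7} (a b : Fin m) (h1 : z ≠ k) (h2 : z ≠ k + 2) (f : Fin 7 → Fin m)
    (c : Fin m) : ((Function.update f z c) k = a ∧ (Function.update f z c) (k + 2) = b) ↔
      (f k = a ∧ f (k + 2) = b) := by
  rw [Function.update_of_ne h1.symm, Function.update_of_ne h2.symm]

theorem card_U1 (π : E → Equiv.Perm (Fin m)) (k : Fin 7) (a b : Fin m) (e : E)
    (he : e ≠ (k, true)) : ((U k a b).filter (X π e)).card * m = (U k a b).card := by
  obtain ⟨z, hz, h1, h2⟩ := dec1 k e he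
  have := stepX π (fun f => f k = a ∧ f (k + 2) = b) e z hz (indU a b h1 h2)
  rw [U, Finset.filter_filter]
  exact this

theorem indX (π : E → Equiv.Perm (Fin m)) {e : E} {z : Fin 7} (h1 : z ≠ src e) (h2 : z ≠ tgt e)
    (f : Fin 7 → Fin m) (c : Fin m) : X π e (Function.update f z c) ↔ X π e f := by
  unfold X
  rw [Function.update_of_ne h1.symm, Function.update_of_ne h2.symm]

theorem card_U2 (π : E → Equiv.Perm (Fin m)) (k : Fin 7) (a b : Fin m) (e e' : E)
    (he : e ≠ (k, true)) (he' : e' ≠ (k, true)) (hee : e ≠ e')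
    (h1 : ¬ (e = (k, false) ∧ e' = (k + 1, false)))
    (h2 : ¬ (e = (k + 1, false) ∧ e' = (k, false))) :
    ((U k a b).filter (fun f => X π e f ∧ X π e' f)).card * m * m = (U k a b).card := by
  rcases dec2 k e e' he he' hee h1 h2 with ⟨z, hz, g1, g2, g3, g4⟩ | ⟨z, hz, g1, g2, g3, g4⟩
  · have := stepX π (fun f => (f k = a ∧ f (k + 2) = b) ∧ X π e f) e' z hz (by
      intro f c
      rw [indU a b g1 g2, indX π g3 g4])
    rw [← card_U1 π k a b e he, U, Finset.filter_filter, Finset.filter_filter]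
    rw [← this]
    rw [Finset.filter_congr (s := Finset.univ) (fun f _ => and_assoc (c := X π e' f)
      (a := f k = a ∧ f (k + 2) = b) (b := X π e f))]
  · have := stepX π (fun f => (f k = a ∧ f (k + 2) = b) ∧ X π e' f) e z hz (by
      intro f c
      rw [indU a b g1 g2, indX π g3 g4])
    rw [← card_U1 π k a b e' he', U, Finset.filter_filter, Finset.filter_filter]
    rw [← this]
    rw [Finset.filter_congr (s := Finset.univ) (p := fun f : Fin 7 → Fin m =>
      ((f k = a ∧ f (k + 2) = b) ∧ X π e' f) ∧ X π e f) (q := fun f : Fin 7 → Fin m =>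
      (f k = a ∧ f (k + 2) = b) ∧ X π e f ∧ X π e' f) (fun f _ => by tauto)]

def T (k : Fin 7) : Finset E := Finset.univ.erase (k, true)

theorem card_T (k : Fin 7) : (T k).card = 13 := by revert k; decide

theorem card_Toff (k : Fin 7) : (T k).offDiag.card = 156 := by
  rw [Finset.offDiag_card, card_T]

theorem U_val (hm : 0 < m) (k : Fin 7) (a b : Fin m) : ((U k a b).card : ℤ) = (m : ℤ) ^ 5 := by
  have h := card_U k a b
  have h2 : (((U k a b).card : ℤ)) * m * m = (m : ℤ) ^ 7 := by exact_mod_cast h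
  have hm' : (m : ℤ) ≠ 0 := by exact_mod_cast hm.ne'
  have h3 : (((U k a b).card : ℤ)) * (m * m) = (m : ℤ) ^ 5 * (m * m) := by
    rw [← mul_assoc, h2]; ring
  exact mul_right_cancel₀ (mul_ne_zero hm' hm') h3

theorem U1_val (π : E → Equiv.Perm (Fin m)) (hm : 0 < m) (k : Fin 7) (a b : Fin m) (e : E)
    (he : e ≠ (k, true)) : (((U k a b).filter (X π e)).card : ℤ) = (m : ℤ) ^ 4 := by
  have h := card_U1 π k a b e he
  have h2 : (((U k a b).filter (X π e)).card : ℤ) * m = ((U k a b).card : ℤ) := by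
    exact_mod_cast h
  have hm' : (m : ℤ) ≠ 0 := by exact_mod_cast hm.ne'
  rw [U_val hm] at h2
  have h3 : (((U k a b).filter (X π e)).card : ℤ) * m = (m : ℤ) ^ 4 * m := by
    rw [h2]; ring
  exact mul_right_cancel₀ hm' h3

theorem U2_val (π : E → Equiv.Perm (Fin m)) (hm : 0 < m) (k : Fin 7) (a b : Fin m)
    (hb : b ≠ π (k + 1, false) (π (k, false) a)) (e e' : E)
    (he : e ≠ (k, true)) (he' : e' ≠ (k, true)) (hee : e ≠ e') :
    (((U k a b).filter (fun f => X π e f ∧ X π e' f)).card : ℤ) ≤ (m : ℤ) ^ 3 := by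
  have hempty : ∀ f : Fin 7 → Fin m, f ∈ U k a b → ¬ (X π (k, false) f ∧ X π (k + 1, false) f) := by
    rintro f hf ⟨h1, h2⟩
    rw [U, Finset.mem_filter] at hf
    obtain ⟨-, h3, h4⟩ := hf
    simp only [X, src, tgt, Bool.false_eq_true, if_false] at h1 h2
    apply hb
    rw [← h4, ← h3, ← h1, ← h2]
    congr 1
    rw [add_assoc]; rfl
  by_cases h1 : (e = (k, false) ∧ e' = (k + 1, false))
  · rw [Finset.filter_eq_empty_iff.2]
    · simp
    · intro f hf
      rw [h1.1, h1.2]
      exact hempty f hf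
  by_cases h2 : (e = (k + 1, false) ∧ e' = (k, false))
  · rw [Finset.filter_eq_empty_iff.2]
    · simp
    · intro f hf
      rw [h2.1, h2.2]
      intro h
      exact hempty f hf h.symm
  have h := card_U2 π k a b e e' he he' hee h1 h2
  have h2 : (((U k a b).filter (fun f => X π e f ∧ X π e' f)).card : ℤ) * m * m
      = ((U k a b).card : ℤ) := by
    exact_mod_cast h
  have hm' : (m : ℤ) ≠ 0 := by exact_mod_cast hm.ne'
  rw [U_val hm] at h2
  have h3 : (((U k a b).filter (fun f => X π e f ∧ X π e' f)).card : ℤ) * (m * m)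
      = (m : ℤ) ^ 3 * (m * m) := by
    rw [← mul_assoc, h2]; ring
  exact (mul_right_cancel₀ (mul_ne_zero hm' hm') h3).le

theorem upper (π : E → Equiv.Perm (Fin m)) (hm : 0 < m) (k : Fin 7) (a b : Fin m)
    (hb : b ≠ π (k + 1, false) (π (k, false) a)) :
    (((U k a b).filter (fun f => ∀ e ∈ T k, ¬ X π e f)).card : ℤ)
      ≤ (m : ℤ) ^ 5 - 13 * (m : ℤ) ^ 4 + 78 * (m : ℤ) ^ 3 := by
  have h := bonf_upper (U k a b) (T k) (X π)
  rw [U_val hm] at h
  have h1 : ∑ e ∈ T k, (((U k a b).filter (X π e)).card : ℤ) = 13 * (m : ℤ) ^ 4 := by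
    have h0 : ∀ e ∈ T k, (((U k a b).filter (X π e)).card : ℤ) = (m : ℤ) ^ 4 :=
      fun e he => U1_val π hm k a b e (Finset.ne_of_mem_erase he)
    rw [Finset.sum_congr rfl h0]
    rw [Finset.sum_const, card_T]
    simp
  have h2 : ∑ p ∈ (T k).offDiag, (((U k a b).filter (fun f => X π p.1 f ∧ X π p.2 f)).card : ℤ)
      ≤ 156 * (m : ℤ) ^ 3 := by
    calc _ ≤ ∑ p ∈ (T k).offDiag, (m : ℤ) ^ 3 := by
          refine Finset.sum_le_sum fun p hp => ?_
          rw [Finset.mem_offDiag] at hp
          exact U2_val π hm k a b hb p.1 p.2 (Finset.ne_of_mem_erase hp.1)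
            (Finset.ne_of_mem_erase hp.2.1) hp.2.2
      _ = _ := by
          rw [Finset.sum_const, card_Toff]
          simp
  rw [h1] at h
  linarith

theorem lower (π : E → Equiv.Perm (Fin m)) (hm : 0 < m) (k : Fin 7) (a b : Fin m)
    (hb : b = π (k + 1, false) (π (k, false) a)) :
    (m : ℤ) ^ 5 - 12 * (m : ℤ) ^ 4 ≤
      (((U k a b).filter (fun f => ∀ e ∈ T k, ¬ X π e f)).card : ℤ) := by
  have h := bonf_lower (U k a b) ((T k).erase (k + 1, false)) (X π)
  have hc : ((T k).erase (k + 1, false)).card = 12 := by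
    rw [Finset.card_erase_of_mem (by simp [T]), card_T]
  have h1 : ∑ e ∈ (T k).erase (k + 1, false), (((U k a b).filter (X π e)).card : ℤ)
      = 12 * (m : ℤ) ^ 4 := by
    have h0 : ∀ e ∈ (T k).erase (k + 1, false), (((U k a b).filter (X π e)).card : ℤ)
        = (m : ℤ) ^ 4 := fun e he => U1_val π hm k a b e
      (Finset.ne_of_mem_erase (Finset.mem_of_mem_erase he))
    rw [Finset.sum_congr rfl h0]
    rw [Finset.sum_const, hc]
    simp
  rw [h1, U_val hm] at h
  refine h.trans ?_
  refine Int.ofNat_le.2 (Finset.card_le_card ?_)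
  · intro f hf
    rw [Finset.mem_filter] at hf ⊢
    refine ⟨hf.1, fun e he => ?_⟩
    by_cases hek : e = (k + 1, false)
    · have h3 := hf.2 (k, false) (by
        rw [Finset.mem_erase, T, Finset.mem_erase]
        refine ⟨?_, by simp, Finset.mem_univ _⟩
        intro h
        exact k_ne1 k (congrArg Prod.fst h).symm)
      rw [hek]
      intro h4
      apply h3
      have hU := hf.1
      rw [U, Finset.mem_filter] at hU
      obtain ⟨-, h5, h6⟩ := hU
      simp only [X, src, tgt, Bool.false_eq_true, if_false] at h4 ⊢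
      have h7 : k + 1 + 1 = k + 2 := by rw [add_assoc]; rfl
      rw [h7, h6, hb] at h4
      rw [h5]
      exact ((π (k + 1, false)).injective h4).symm
    · exact hf.2 e (Finset.mem_erase.2 ⟨hek, he⟩)

/-- number of colourings for the perfect cover `π` -/
def cnt (π : E → Equiv.Perm (Fin m)) : ℕ :=
  (Finset.univ.filter (fun f : Fin 7 → Fin m => ∀ e, ¬ X π e f)).card

theorem cnt_split (π : E → Equiv.Perm (Fin m)) (k : Fin 7) :
    cnt π + ∑ a : Fin m, ((U k a (π (k, true) a)).filter (fun f => ∀ e ∈ T k, ¬ X π e f)).card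
      = (Finset.univ.filter (fun f : Fin 7 → Fin m => ∀ e ∈ T k, ¬ X π e f)).card := by
  classical
  rw [← Finset.card_filter_add_card_filter_not (s := Finset.univ.filter
    (fun f : Fin 7 → Fin m => ∀ e ∈ T k, ¬ X π e f)) (fun f => ¬ X π (k, true) f)]
  congr 1
  · rw [cnt, Finset.filter_filter]
    congr 1
    ext f
    simp only [Finset.mem_filter, Finset.mem_univ, true_and, T, Finset.mem_erase, and_true]
    constructor
    · intro h
      exact ⟨fun e _ => h e, h _⟩
    · rintro ⟨h1, h2⟩ e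
      by_cases he : e = (k, true)
      · rw [he]; exact h2
      · exact h1 e he
  · rw [Finset.card_eq_sum_card_fiberwise (f := fun f : Fin 7 → Fin m => f k)
      (t := Finset.univ) (fun _ _ => Finset.mem_coe.2 (Finset.mem_univ _))]
    refine Finset.sum_congr rfl fun a _ => ?_
    rw [Finset.filter_filter, Finset.filter_filter, U, Finset.filter_filter]
    refine congrArg Finset.card (Finset.filter_congr fun f _ => ?_)
    have hX : X π (k, true) f ↔ f (k + 2) = π (k, true) (f k) := by
      simp only [X, src, tgt, if_true]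
    rw [not_not, hX]
    constructor
    · rintro ⟨⟨h1, h2⟩, h3⟩
      exact ⟨h3, by rw [h2, h1], h1⟩
    · rintro ⟨h3, h2, h1⟩
      exact ⟨⟨h1, by rw [h2, h1]⟩, h3⟩

/-- Making one triangle consistent does not increase the number of colourings. -/
theorem cnt_mono (π : E → Equiv.Perm (Fin m)) (hm : 78 ≤ m) (k : Fin 7) :
    cnt (Function.update π (k, true) (π (k + 1, false) * π (k, false))) ≤ cnt π := by
  classical
  set π' := Function.update π (k, true) (π (k + 1, false) * π (k, false)) with hπ'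
  have hne : ∀ e ∈ T k, π' e = π e := by
    intro e he
    rw [hπ', Function.update_of_ne (Finset.ne_of_mem_erase he)]
  have hX : ∀ f : Fin 7 → Fin m, (∀ e ∈ T k, ¬ X π' e f) ↔ (∀ e ∈ T k, ¬ X π e f) := by
    intro f
    refine forall₂_congr fun e he => ?_
    unfold X
    rw [hne e he]
  have h1 := cnt_split π k
  have h2 := cnt_split π' k
  simp only [hX] at h2
  have hval : ∀ a, π' (k, true) a = π (k + 1, false) (π (k, false) a) := by
    intro a; rw [hπ', Function.update_self]; rfl
  have h3 : ∑ a : Fin m, ((U k a (π (k, true) a)).filter (fun f => ∀ e ∈ T k, ¬ X π e f)).card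
      ≤ ∑ a : Fin m, ((U k a (π' (k, true) a)).filter (fun f => ∀ e ∈ T k, ¬ X π e f)).card := by
    refine Finset.sum_le_sum fun a _ => ?_
    rw [hval]
    by_cases hb : π (k, true) a = π (k + 1, false) (π (k, false) a)
    · rw [hb]
    · have h4 := upper π (by omega) k a _ hb
      have h5 := lower π (by omega) k a _ rfl
      have h6 : (78 : ℤ) * (m : ℤ) ^ 3 ≤ (m : ℤ) ^ 4 := by
        have : (78 : ℤ) ≤ m := by exact_mod_cast hm
        have h7 : (0 : ℤ) ≤ (m : ℤ) ^ 3 := by positivity
        nlinarith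
      have h7 : (((U k a (π (k, true) a)).filter (fun f => ∀ e ∈ T k, ¬ X π e f)).card : ℤ)
        ≤ (((U k a (π (k + 1, false) (π (k, false) a))).filter
            (fun f => ∀ e ∈ T k, ¬ X π e f)).card : ℤ) := by linarith
      exact_mod_cast h7
  omega

end Pool.Agent.H674R3.DP
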