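import Mathlib

set_option autoImplicit false

namespace Pool.Agent.H674R3.DP

variable {m : ℕ}

def nz (x y : Fin m) : ℤ := if x = y then 0 else 1
def dl (x y : Fin m) : ℤ := if x = y then 1 else 0

theorem nz_comm (x y : Fin m) : nz x y = nz y x := by
  unfold nz; simp [eq_comm]

theorem dl_comm (x y : Fin m) : dl x y = dl y x := by
  unfold dl; simp [eq_comm]

theorem nz_of_ne {x y : Fin m} (h : x ≠ y) : nz x y = 1 := if_neg h
theorem nz_self (x : Fin m) : nz x x = 0 := if_pos rfl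
theorem dl_of_ne {x y : Fin m} (h : x ≠ y) : dl x y = 0 := if_neg h
theorem dl_self (x : Fin m) : dl x x = 1 := if_pos rfl

theorem sum_avoid (S : Finset (Fin m)) :
    ∑ z : Fin m, (if z ∈ S then (0 : ℤ) else 1) = (m : ℤ) - S.card := by
  have : ∀ z : Fin m, (if z ∈ S then (0 : ℤ) else 1) = 1 - (if z ∈ S then (1 : ℤ) else 0) := by
    intro z; split_ifs <;> norm_num
  simp only [this, Finset.sum_sub_distrib]
  simp

theorem nz_sq (x y : Fin m) : nz x y * nz x y = nz x y := by
  unfold nz; split_ifs <;> simp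

theorem dl_sq (x y : Fin m) : dl x y * dl x y = dl x y := by
  unfold dl; split_ifs <;> simp

theorem sum1 (p : Fin m) : ∑ z : Fin m, nz z p = (m : ℤ) - 1 := by
  have := sum_avoid ({p} : Finset (Fin m))
  simpa [nz] using this

theorem sum2 (p q : Fin m) : ∑ z : Fin m, nz z p * nz z q = (m : ℤ) - 2 + dl p q := by
  have h : ∀ z : Fin m, nz z p * nz z q = if z ∈ ({p, q} : Finset (Fin m)) then (0 : ℤ) else 1 := by
    intro z
    unfold nz
    by_cases h1 : z = p <;> by_cases h2 : z = q <;> simp [h1, h2]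
  rw [Finset.sum_congr rfl (fun z _ => h z), sum_avoid]
  by_cases h1 : p = q
  · subst h1; simp [dl]; ring
  · rw [Finset.card_pair h1, dl_of_ne h1]; push_cast; ring

theorem sum2' {p q : Fin m} (hpq : p ≠ q) : ∑ z : Fin m, nz z p * nz z q = (m : ℤ) - 2 := by
  rw [sum2, dl_of_ne hpq]; ring

theorem sum3 {p q r : Fin m} (h1 : q ≠ p) (h2 : q ≠ r) :
    ∑ z : Fin m, nz z p * nz z q * nz z r = (m : ℤ) - 3 + dl p r := by
  have h : ∀ z : Fin m, nz z p * nz z q * nz z r
      = if z ∈ ({p, q, r} : Finset (Fin m)) then (0 : ℤ) else 1 := by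
    intro z
    unfold nz
    by_cases h1 : z = p <;> by_cases h2 : z = q <;> by_cases h3 : z = r <;> simp [h1, h2, h3]
  rw [Finset.sum_congr rfl (fun z _ => h z), sum_avoid]
  by_cases h3 : p = r
  · subst h3
    have : ({p, q, p} : Finset (Fin m)) = {q, p} := by
      ext z; simp only [Finset.mem_insert, Finset.mem_singleton]; tauto
    rw [this, Finset.card_pair h1, dl_self]; push_cast; ring
  · rw [Finset.card_insert_of_notMem, Finset.card_pair h2, dl_of_ne h3]
    · push_cast; ring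
    · simp [h1.symm, h3]

/-- `c` may be equal to `d` or to `f` -/
theorem sum3' (c : Fin m) {d f : Fin m} (h : d ≠ f) :
    ∑ z : Fin m, nz z c * nz z d * nz z f = (m : ℤ) - 3 + dl c d + dl c f := by
  by_cases h1 : c = d
  · subst h1
    rw [dl_self, dl_of_ne h]
    have : ∀ z : Fin m, nz z c * nz z c * nz z f = nz z c * nz z f := by
      intro z; rw [nz_sq]
    rw [Finset.sum_congr rfl (fun z _ => this z), sum2' h]; ring
  · have h2 : ∀ z : Fin m, nz z c * nz z d * nz z f = nz z c * nz z d * nz z f := fun _ => rfl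
    rw [sum3 (fun h => h1 h.symm) h, dl_of_ne h1]; ring

theorem sum4 {b c e d : Fin m} (h1 : c ≠ b) (h2 : e ≠ c) (h3 : d ≠ e) :
    ∑ z : Fin m, nz z c * nz e z * nz z b * nz d z
      = (m : ℤ) - 4 + dl b e + dl b d + dl c d := by
  have h : ∀ z : Fin m, nz z c * nz e z * nz z b * nz d z
      = if z ∈ ({c, e, b, d} : Finset (Fin m)) then (0 : ℤ) else 1 := by
    intro z
    unfold nz
    by_cases g1 : z = c <;> by_cases g2 : e = z <;> by_cases g3 : z = b <;>
      by_cases g4 : d = z <;> simp [g1, g2, g3, g4, eq_comm]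
  rw [Finset.sum_congr rfl (fun z _ => h z), sum_avoid]
  by_cases g1 : b = e
  · subst g1
    rw [dl_self]
    by_cases g2 : b = d
    · exact absurd g2.symm h3
    · rw [dl_of_ne g2]
      by_cases g3 : c = d
      · subst g3
        rw [dl_self]
        have : ({c, b, b, c} : Finset (Fin m)) = {c, b} := by ext z; simp; tauto
        rw [this, Finset.card_pair h1]; push_cast; ring
      · rw [dl_of_ne g3]
        have : ({c, b, b, d} : Finset (Fin m)) = {c, b, d} := by ext z; simp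
        rw [this, Finset.card_insert_of_notMem (by simp [h1, g3]), Finset.card_pair g2]
        push_cast; ring
  · rw [dl_of_ne g1]
    by_cases g2 : b = d
    · subst g2
      rw [dl_self, dl_of_ne h1]
      have : ({c, e, b, b} : Finset (Fin m)) = {c, e, b} := by ext z; simp
      rw [this, Finset.card_insert_of_notMem (by simp [h1, h2.symm]),
        Finset.card_pair (fun h => g1 h.symm)]
      push_cast; ring
    · rw [dl_of_ne g2]
      by_cases g3 : c = d
      · subst g3
        rw [dl_self]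
        have : ({c, e, b, c} : Finset (Fin m)) = {c, e, b} := by ext z; simp; tauto
        rw [this, Finset.card_insert_of_notMem (by simp [h1, h2.symm]),
          Finset.card_pair (fun h => g1 h.symm)]
        push_cast; ring
      · rw [dl_of_ne g3, Finset.card_insert_of_notMem (by simp [h1, h2.symm, g3]),
          Finset.card_insert_of_notMem (by simp [h3.symm, Ne.symm g1]), Finset.card_pair g2]
        push_cast; ring

theorem sum_dl (p : Fin m) (F : Fin m → ℤ) : ∑ z : Fin m, dl p z * F z = F p := by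
  simp [dl]

theorem sum_dl' (p : Fin m) (F : Fin m → ℤ) : ∑ z : Fin m, dl z p * F z = F p := by
  simp [dl]

theorem nz_eq (x y : Fin m) : nz x y = 1 - dl x y := by
  unfold nz dl; split_ifs <;> simp

theorem dl_mul {p q : Fin m} (c : Fin m) (h : p ≠ q) : dl c p * dl c q = 0 := by
  by_cases h1 : c = p
  · subst h1; rw [dl_of_ne h, mul_zero]
  · rw [dl_of_ne h1, zero_mul]

/-- the middle sum -/
theorem Mform {a b d f : Fin m} (hab : a ≠ b) (hdf : d ≠ f) :
    ∑ c : Fin m, ∑ e : Fin m, nz c b * nz c a * nz e c * nz d e * nz f e *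
      ((m : ℤ) - 4 + dl b e + dl b d + dl c d)
    = ((m : ℤ) - 4) * ((m : ℤ) ^ 2 - 5 * m + 8) + 2 * ((m : ℤ) - 2)
      - (2 * (m : ℤ) - 6) * dl a d - ((m : ℤ) - 4) * dl a f + ((m : ℤ) ^ 2 - 8 * m + 15) * dl b d
      - (2 * (m : ℤ) - 6) * dl b f - dl b d * dl a f := by
  have h1 : ∀ c : Fin m, ∑ e : Fin m, nz c b * nz c a * nz e c * nz d e * nz f e *
      ((m : ℤ) - 4 + dl b e + dl b d + dl c d)
      = nz c b * nz c a * (((m : ℤ) - 4 + dl b d + dl c d) * ((m : ℤ) - 3 + dl c d + dl c f)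
        + nz b c * nz b d * nz b f) := by
    intro c
    rw [mul_add, ← sum3' c hdf]
    have : nz b c * nz b d * nz b f = ∑ e : Fin m, dl b e * (nz e c * nz e d * nz e f) := by
      rw [sum_dl]
    rw [this, Finset.mul_sum, Finset.mul_sum, Finset.mul_sum, ← Finset.sum_add_distrib]
    refine Finset.sum_congr rfl fun e _ => ?_
    rw [nz_comm d e, nz_comm f e]; ring
  rw [Finset.sum_congr rfl (fun c _ => h1 c)]
  have h2 : ∀ c : Fin m, nz c b * nz c a *
      (((m : ℤ) - 4 + dl b d + dl c d) * ((m : ℤ) - 3 + dl c d + dl c f)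
        + nz b c * nz b d * nz b f)
      = nz c b * nz c a * (((m : ℤ) - 4 + dl b d) * ((m : ℤ) - 3) + nz b d * nz b f)
        + dl c d * (nz c b * nz c a * (((m : ℤ) - 4 + dl b d) + ((m : ℤ) - 2)))
        + dl c f * (nz c b * nz c a * ((m : ℤ) - 4 + dl b d)) := by
    intro c
    have e1 : nz c b * nz b c = nz c b := by rw [nz_comm b c, nz_sq]
    have e2 : dl c d * dl c d = dl c d := dl_sq _ _
    have e3 : dl c d * dl c f = 0 := dl_mul c hdf
    linear_combination (nz c a * nz b d * nz b f) * e1 + (nz c b * nz c a) * e2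
      + (nz c b * nz c a) * e3
  rw [Finset.sum_congr rfl (fun c _ => h2 c), Finset.sum_add_distrib, Finset.sum_add_distrib,
    sum_dl', sum_dl', ← Finset.sum_mul, sum2' hab.symm]
  have hCC : dl b d * dl b d = dl b d := dl_sq _ _
  have hCA : dl b d * dl a d = 0 := by
    rw [dl_comm b d, dl_comm a d]; exact dl_mul d hab.symm
  have hCD : dl b d * dl b f = 0 := dl_mul b hdf
  have hAB : dl a f * dl b f = 0 := by
    rw [dl_comm a f, dl_comm b f]; exact dl_mul f hab
  rw [nz_eq b d, nz_eq b f, nz_eq d b, nz_eq d a, nz_eq f b, nz_eq f a, dl_comm d b, dl_comm d a,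
    dl_comm f b, dl_comm f a]
  linear_combination (-1 : ℤ) * hCC + ((2 * (m : ℤ) - 6) + dl b d - 1) * hCA
    + (((m : ℤ) - 2) - 1) * hCD + ((m : ℤ) - 4 + dl b d) * hAB

/-- number of fixed points of `σ` -/
def fx (σ : Equiv.Perm (Fin m)) : ℤ := ∑ a : Fin m, dl a (σ a)

theorem sum_nz_fx (σ : Equiv.Perm (Fin m)) : ∑ a : Fin m, nz a (σ a) = (m : ℤ) - fx σ := by
  unfold fx
  rw [Finset.sum_congr rfl (fun a _ => nz_eq a (σ a)), Finset.sum_sub_distrib]
  simp

theorem nz_symm_apply (σ : Equiv.Perm (Fin m)) (a d : Fin m) : nz a (σ d) = nz d (σ.symm a) := by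
  unfold nz
  by_cases h : a = σ d
  · have : d = σ.symm a := by rw [h]; simp
    rw [if_pos h, if_pos this]
  · have : ¬ d = σ.symm a := by
      intro h2; apply h; rw [h2]; simp
    rw [if_neg h, if_neg this]

theorem dl_symm_apply (σ : Equiv.Perm (Fin m)) (a d : Fin m) : dl a (σ d) = dl d (σ.symm a) := by
  have := nz_symm_apply σ a d
  rw [nz_eq, nz_eq] at this
  linarith

/-- the seam weight -/
def W (σ : Equiv.Perm (Fin m)) (a b d f : Fin m) : ℤ :=
  nz b a * nz f d * nz a (σ f) * nz a (σ d) * nz b (σ f)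

theorem S_one (σ : Equiv.Perm (Fin m)) :
    ∑ a : Fin m, ∑ d : Fin m, ∑ f : Fin m, ∑ b : Fin m, W σ a b d f
      = (m : ℤ) * (m - 1) * (m - 2) ^ 2 := by
  have h1 : ∀ a d f : Fin m, ∑ b : Fin m, W σ a b d f
      = nz f d * nz f (σ.symm a) * (nz d (σ.symm a) * ((m : ℤ) - 2)) := by
    intro a d f
    have : ∀ b : Fin m, W σ a b d f = (nz f d * nz a (σ f) * nz a (σ d)) *
        (nz b a * nz b (σ f)) := by
      intro b; unfold W; ring
    rw [Finset.sum_congr rfl (fun b _ => this b), ← Finset.mul_sum]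
    by_cases h : a = σ f
    · have : nz a (σ f) = 0 := by rw [h, nz_self]
      rw [← nz_symm_apply, this]; ring
    · rw [sum2' h, ← nz_symm_apply, ← nz_symm_apply]; ring
  have h2 : ∀ a d : Fin m, ∑ f : Fin m, ∑ b : Fin m, W σ a b d f
      = nz d (σ.symm a) * ((m : ℤ) - 2) ^ 2 := by
    intro a d
    rw [Finset.sum_congr rfl (fun f _ => h1 a d f), ← Finset.sum_mul]
    by_cases h : d = σ.symm a
    · rw [h, nz_self]; ring
    · rw [sum2' h]; ring
  have h3 : ∀ a : Fin m, ∑ d : Fin m, ∑ f : Fin m, ∑ b : Fin m, W σ a b d f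
      = ((m : ℤ) - 1) * ((m : ℤ) - 2) ^ 2 := by
    intro a
    rw [Finset.sum_congr rfl (fun d _ => h2 a d), ← Finset.sum_mul, sum1]
  rw [Finset.sum_congr rfl (fun a _ => h3 a)]
  simp
  ring

theorem S_ad (σ : Equiv.Perm (Fin m)) :
    ∑ a : Fin m, ∑ d : Fin m, ∑ f : Fin m, ∑ b : Fin m, W σ a b d f * dl a d
      = ((m : ℤ) - fx σ) * (m - 2) ^ 2 := by
  have h0 : ∀ a : Fin m, ∑ d : Fin m, ∑ f : Fin m, ∑ b : Fin m, W σ a b d f * dl a d
      = ∑ f : Fin m, ∑ b : Fin m, W σ a b a f := by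
    intro a
    rw [← sum_dl a (fun d => ∑ f : Fin m, ∑ b : Fin m, W σ a b d f)]
    refine Finset.sum_congr rfl fun d _ => ?_
    rw [Finset.mul_sum]
    refine Finset.sum_congr rfl fun f _ => ?_
    rw [Finset.mul_sum]
    refine Finset.sum_congr rfl fun b _ => ?_
    ring
  have h1 : ∀ a f : Fin m, ∑ b : Fin m, W σ a b a f
      = nz f a * nz f (σ.symm a) * (nz a (σ a) * ((m : ℤ) - 2)) := by
    intro a f
    have : ∀ b : Fin m, W σ a b a f = (nz f a * nz a (σ f) * nz a (σ a)) *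
        (nz b a * nz b (σ f)) := by
      intro b; unfold W; ring
    rw [Finset.sum_congr rfl (fun b _ => this b), ← Finset.mul_sum]
    by_cases h : a = σ f
    · have : nz a (σ f) = 0 := by rw [h, nz_self]
      rw [← nz_symm_apply σ a f, this]; ring
    · rw [sum2' h, ← nz_symm_apply σ a f]; ring
  have h2 : ∀ a : Fin m, ∑ d : Fin m, ∑ f : Fin m, ∑ b : Fin m, W σ a b d f * dl a d
      = nz a (σ a) * ((m : ℤ) - 2) ^ 2 := by
    intro a
    rw [h0, Finset.sum_congr rfl (fun f _ => h1 a f), ← Finset.sum_mul]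
    by_cases h : a = σ.symm a
    · have : nz a (σ a) = 0 := by rw [nz_symm_apply, ← h, nz_self]
      rw [this]; ring
    · rw [sum2' h]; ring
  rw [Finset.sum_congr rfl (fun a _ => h2 a), ← Finset.sum_mul, sum_nz_fx]

theorem S_af (σ : Equiv.Perm (Fin m)) :
    ∑ a : Fin m, ∑ d : Fin m, ∑ f : Fin m, ∑ b : Fin m, W σ a b d f * dl a f
      = ((m : ℤ) - fx σ) * (m - 2) ^ 2 := by
  have h0 : ∀ a d : Fin m, ∑ f : Fin m, ∑ b : Fin m, W σ a b d f * dl a f
      = ∑ b : Fin m, W σ a b d a := by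
    intro a d
    rw [← sum_dl a (fun f => ∑ b : Fin m, W σ a b d f)]
    refine Finset.sum_congr rfl fun f _ => ?_
    rw [Finset.mul_sum]
    refine Finset.sum_congr rfl fun b _ => ?_
    ring
  have h1 : ∀ a d : Fin m, ∑ f : Fin m, ∑ b : Fin m, W σ a b d f * dl a f
      = nz d a * nz d (σ.symm a) * (nz a (σ a) * ((m : ℤ) - 2)) := by
    intro a d
    have : ∀ b : Fin m, W σ a b d a = (nz a d * nz a (σ a) * nz a (σ d)) *
        (nz b a * nz b (σ a)) := by
      intro b; unfold W; ring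
    rw [h0, Finset.sum_congr rfl (fun b _ => this b), ← Finset.mul_sum]
    by_cases h : a = σ a
    · have : nz a (σ a) = 0 := by rw [← h, nz_self]
      rw [this]; ring
    · rw [sum2' h, ← nz_symm_apply σ a d, nz_comm d a]; ring
  have h2 : ∀ a : Fin m, ∑ d : Fin m, ∑ f : Fin m, ∑ b : Fin m, W σ a b d f * dl a f
      = nz a (σ a) * ((m : ℤ) - 2) ^ 2 := by
    intro a
    rw [Finset.sum_congr rfl (fun d _ => h1 a d), ← Finset.sum_mul]
    by_cases h : a = σ.symm a
    · have : nz a (σ a) = 0 := by rw [nz_symm_apply, ← h, nz_self]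
      rw [this]; ring
    · rw [sum2' h]; ring
  rw [Finset.sum_congr rfl (fun a _ => h2 a), ← Finset.sum_mul, sum_nz_fx]

theorem S_bf (σ : Equiv.Perm (Fin m)) :
    ∑ a : Fin m, ∑ d : Fin m, ∑ f : Fin m, ∑ b : Fin m, W σ a b d f * dl b f
      = ((m : ℤ) - fx σ) * (m - 2) ^ 2 := by
  have h0 : ∀ a d : Fin m, ∑ f : Fin m, ∑ b : Fin m, W σ a b d f * dl b f
      = ∑ b : Fin m, W σ a b d b := by
    intro a d
    rw [Finset.sum_comm]
    refine Finset.sum_congr rfl fun b _ => ?_
    rw [← sum_dl b (fun f => W σ a b d f)]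
    refine Finset.sum_congr rfl fun f _ => ?_
    ring
  have h0' : ∑ a : Fin m, ∑ d : Fin m, ∑ f : Fin m, ∑ b : Fin m, W σ a b d f * dl b f
      = ∑ b : Fin m, ∑ a : Fin m, ∑ d : Fin m, W σ a b d b := by
    rw [Finset.sum_comm]
    rw [Finset.sum_congr rfl (fun d _ => Finset.sum_congr rfl (fun a _ => h0 a d))]
    rw [Finset.sum_comm]
    rw [Finset.sum_congr rfl (fun a _ => Finset.sum_comm)]
    rw [Finset.sum_comm]
  rw [h0']
  have h1 : ∀ a b : Fin m, ∑ d : Fin m, W σ a b d b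
      = nz a b * nz a (σ b) * (nz b (σ b) * ((m : ℤ) - 2)) := by
    intro a b
    have : ∀ d : Fin m, W σ a b d b = (nz b a * nz a (σ b) * nz b (σ b)) *
        (nz d b * nz d (σ.symm a)) := by
      intro d; unfold W; rw [← nz_symm_apply, nz_comm d b]; ring
    rw [Finset.sum_congr rfl (fun d _ => this d), ← Finset.mul_sum]
    by_cases h : b = σ.symm a
    · have : nz a (σ b) = 0 := by rw [nz_symm_apply, ← h, nz_self]
      rw [this]; ring
    · rw [sum2' h, nz_comm b a]; ring
  have h2 : ∀ b : Fin m, ∑ a : Fin m, ∑ d : Fin m, W σ a b d b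
      = nz b (σ b) * ((m : ℤ) - 2) ^ 2 := by
    intro b
    rw [Finset.sum_congr rfl (fun a _ => h1 a b), ← Finset.sum_mul]
    by_cases h : b = σ b
    · have : nz b (σ b) = 0 := by rw [← h, nz_self]
      rw [this]; ring
    · rw [sum2' h]; ring
  rw [Finset.sum_congr rfl (fun b _ => h2 b), ← Finset.sum_mul, sum_nz_fx]

theorem S_bd (σ : Equiv.Perm (Fin m)) :
    ∑ a : Fin m, ∑ d : Fin m, ∑ f : Fin m, ∑ b : Fin m, W σ a b d f * dl b d
      = (m : ℤ) * (m - 3) * (m - 2) + fx σ * (2 * m - 4) := by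
  have h0' : ∑ a : Fin m, ∑ d : Fin m, ∑ f : Fin m, ∑ b : Fin m, W σ a b d f * dl b d
      = ∑ b : Fin m, ∑ a : Fin m, ∑ f : Fin m, W σ a b b f := by
    have e1 : ∀ a : Fin m, ∑ d : Fin m, ∑ f : Fin m, ∑ b : Fin m, W σ a b d f * dl b d
        = ∑ b : Fin m, ∑ f : Fin m, W σ a b b f := by
      intro a
      rw [Finset.sum_congr rfl (fun d _ => Finset.sum_comm), Finset.sum_comm]
      refine Finset.sum_congr rfl fun b _ => ?_
      rw [← sum_dl b (fun d => ∑ f : Fin m, W σ a b d f)]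
      refine Finset.sum_congr rfl fun d _ => ?_
      rw [Finset.mul_sum]
      refine Finset.sum_congr rfl fun f _ => ?_
      ring
    rw [Finset.sum_congr rfl (fun a _ => e1 a), Finset.sum_comm]
  rw [h0']
  have h1 : ∀ a b : Fin m, ∑ f : Fin m, W σ a b b f
      = nz a b * nz a (σ b) * ((m : ℤ) - 3 + dl b (σ b)) := by
    intro a b
    have : ∀ f : Fin m, W σ a b b f = (nz b a * nz a (σ b)) *
        (nz f b * nz f (σ.symm a) * nz f (σ.symm b)) := by
      intro f; unfold W; rw [← nz_symm_apply, ← nz_symm_apply]; ring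
    rw [Finset.sum_congr rfl (fun f _ => this f), ← Finset.mul_sum]
    by_cases h : b = σ.symm a
    · have : nz a (σ b) = 0 := by rw [nz_symm_apply, ← h, nz_self]
      rw [this]; ring
    · by_cases h' : a = b
      · have : nz b a = 0 := by rw [h', nz_self]
        rw [nz_comm a b, this]; ring
      · rw [sum3 (fun h2 => h h2.symm) (fun h2 => h' (σ.symm.injective h2)), nz_comm b a,
          ← dl_symm_apply]
  have h2 : ∀ b : Fin m, ∑ a : Fin m, ∑ f : Fin m, W σ a b b f
      = ((m : ℤ) - 3) * (m - 2) + dl b (σ b) * (2 * m - 4) := by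
    intro b
    rw [Finset.sum_congr rfl (fun a _ => h1 a b), ← Finset.sum_mul, sum2]
    linear_combination dl_sq b (σ b)
  have h3 : ∑ b : Fin m, dl b (σ b) * (2 * (m : ℤ) - 4) = fx σ * (2 * m - 4) := by
    rw [fx, Finset.sum_mul]
  rw [Finset.sum_congr rfl (fun b _ => h2 b), Finset.sum_add_distrib, h3]
  simp only [Finset.sum_const, Finset.card_univ, Fintype.card_fin, nsmul_eq_mul]
  ring

theorem S_bdaf (σ : Equiv.Perm (Fin m)) :
    ∑ a : Fin m, ∑ d : Fin m, ∑ f : Fin m, ∑ b : Fin m, W σ a b d f * (dl b d * dl a f)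
      = ((m : ℤ) - fx σ) * (m - 3) + (fx (σ * σ) - fx σ) := by
  have h0 : ∀ a : Fin m, ∑ d : Fin m, ∑ f : Fin m, ∑ b : Fin m, W σ a b d f * (dl b d * dl a f)
      = ∑ b : Fin m, W σ a b b a := by
    intro a
    rw [Finset.sum_congr rfl (fun d _ => Finset.sum_comm), Finset.sum_comm]
    refine Finset.sum_congr rfl fun b _ => ?_
    rw [← sum_dl b (fun d => W σ a b d a)]
    refine Finset.sum_congr rfl fun d _ => ?_
    rw [← sum_dl a (fun f => W σ a b d f), Finset.mul_sum]
    refine Finset.sum_congr rfl fun f _ => ?_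
    ring
  have h1 : ∀ a : Fin m, ∑ b : Fin m, W σ a b b a
      = nz a (σ a) * ((m : ℤ) - 3) + (dl a ((σ * σ) a) - dl a (σ a)) := by
    intro a
    have : ∀ b : Fin m, W σ a b b a = nz a (σ a) *
        (nz b (σ.symm a) * nz b a * nz b (σ a)) := by
      intro b; unfold W; rw [← nz_symm_apply, nz_comm a b]
      linear_combination (nz a (σ a) * nz a (σ b) * nz b (σ a)) * nz_sq b a
    rw [Finset.sum_congr rfl (fun b _ => this b), ← Finset.mul_sum]
    by_cases h : a = σ a
    · have e1 : nz a (σ a) = 0 := by rw [← h, nz_self]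
      have e2 : (σ * σ) a = a := by
        rw [Equiv.Perm.mul_apply, ← h, ← h]
      rw [e1, e2, dl_self, ← h, dl_self]; ring
    · have h' : a ≠ σ.symm a := by
        intro h2; apply h
        conv_lhs => rw [← σ.apply_symm_apply a, ← h2]
      rw [sum3 h' h, dl_comm (σ.symm a) (σ a), ← dl_symm_apply, dl_of_ne h, nz_of_ne h,
        Equiv.Perm.mul_apply]
      ring
  rw [Finset.sum_congr rfl (fun a _ => (h0 a).trans (h1 a)), Finset.sum_add_distrib,
    Finset.sum_sub_distrib, ← Finset.sum_mul, sum_nz_fx]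
  rfl

/-- the polynomial part -/
def F0 (m x y : ℤ) : ℤ :=
  ((m - 4) * (m ^ 2 - 5 * m + 8) + 2 * (m - 2)) * (m * (m - 1) * (m - 2) ^ 2)
    - (5 * m - 16) * ((m - x) * (m - 2) ^ 2)
    + (m ^ 2 - 8 * m + 15) * (m * (m - 3) * (m - 2) + x * (2 * m - 4))
    - ((m - x) * (m - 3) + (y - x))

theorem total (σ : Equiv.Perm (Fin m)) :
    ∑ a : Fin m, ∑ d : Fin m, ∑ f : Fin m, ∑ b : Fin m, W σ a b d f *
      (∑ c : Fin m, ∑ e : Fin m, nz c b * nz c a * nz e c * nz d e * nz f e *
        ((m : ℤ) - 4 + dl b e + dl b d + dl c d))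
    = F0 m (fx σ) (fx (σ * σ)) := by
  have h : ∀ a d f b : Fin m, W σ a b d f *
      (∑ c : Fin m, ∑ e : Fin m, nz c b * nz c a * nz e c * nz d e * nz f e *
        ((m : ℤ) - 4 + dl b e + dl b d + dl c d))
      = (((m : ℤ) - 4) * ((m : ℤ) ^ 2 - 5 * m + 8) + 2 * ((m : ℤ) - 2)) * W σ a b d f
      + (-(2 * (m : ℤ) - 6)) * (W σ a b d f * dl a d)
      + (-((m : ℤ) - 4)) * (W σ a b d f * dl a f)
      + ((m : ℤ) ^ 2 - 8 * m + 15) * (W σ a b d f * dl b d)
      + (-(2 * (m : ℤ) - 6)) * (W σ a b d f * dl b f)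
      + (-1) * (W σ a b d f * (dl b d * dl a f)) := by
    intro a d f b
    by_cases h1 : a = b
    · have : W σ a b d f = 0 := by unfold W; rw [h1, nz_self]; ring
      rw [this]; ring
    by_cases h2 : d = f
    · have : W σ a b d f = 0 := by unfold W; rw [h2, nz_self]; ring
      rw [this]; ring
    rw [Mform h1 h2]; ring
  rw [Finset.sum_congr rfl (fun a _ => Finset.sum_congr rfl (fun d _ =>
    Finset.sum_congr rfl (fun f _ => Finset.sum_congr rfl (fun b _ => h a d f b))))]
  simp only [Finset.sum_add_distrib, ← Finset.mul_sum]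
  rw [S_one, S_ad, S_af, S_bd, S_bf, S_bdaf]
  unfold F0
  ring

end Pool.Agent.H674R3.DP
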