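import Mathlib
import Pool.Agent.H674R3.DPMono
import Pool.Agent.H674R3.DPSum

set_option autoImplicit false

namespace Pool.Agent.H674R3.DP

variable {m : ℕ}

/-- the consistent cover with permutations `ρ` on the edges `i -- i+1` -/
def cons (ρ : Fin 7 → Equiv.Perm (Fin m)) : E → Equiv.Perm (Fin m) :=
  fun e => if e.2 then ρ (e.1 + 1) * ρ e.1 else ρ e.1

theorem cnt_cons_le (π : E → Equiv.Perm (Fin m)) (hm : 78 ≤ m) :
    cnt (cons (fun i => π (i, false))) ≤ cnt π := by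
  classical
  have key : ∀ S : Finset (Fin 7),
      cnt (fun e : E => if e.2 = true ∧ e.1 ∈ S then π (e.1 + 1, false) * π (e.1, false) else π e)
        ≤ cnt π := by
    intro S
    induction S using Finset.induction_on with
    | empty => simp
    | insert k S hk ih =>
      refine le_trans ?_ ih
      have h := cnt_mono (fun e : E => if e.2 = true ∧ e.1 ∈ S then
        π (e.1 + 1, false) * π (e.1, false) else π e) hm k
      refine le_trans (le_of_eq ?_) h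
      congr 1
      funext e
      obtain ⟨i, b⟩ := e
      by_cases hi : i = k
      · subst hi
        cases b
        · simp
        · simp
      · rw [Function.update_of_ne (fun h => hi (congrArg Prod.fst h))]
        simp [hi]
  have h := key Finset.univ
  refine le_trans (le_of_eq ?_) h
  congr 1
  funext e
  obtain ⟨i, b⟩ := e
  cases b <;> simp [cons]

/-- the constraints with a single seam permutation `σ` -/
def good (σ : Equiv.Perm (Fin m)) (g : Fin 7 → Fin m) : Prop :=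
  g 1 ≠ g 0 ∧ g 2 ≠ g 1 ∧ g 3 ≠ g 2 ∧ g 4 ≠ g 3 ∧ g 5 ≠ g 4 ∧ g 6 ≠ g 5 ∧ g 0 ≠ σ (g 6) ∧
  g 2 ≠ g 0 ∧ g 3 ≠ g 1 ∧ g 4 ≠ g 2 ∧ g 5 ≠ g 3 ∧ g 6 ≠ g 4 ∧ g 0 ≠ σ (g 5) ∧ g 1 ≠ σ (g 6)

instance (σ : Equiv.Perm (Fin m)) : DecidablePred (good σ) := fun g => by
  unfold good; infer_instance

/-- the gauge permutations -/
def gau (ρ : Fin 7 → Equiv.Perm (Fin m)) : Fin 7 → Equiv.Perm (Fin m) :=
  ![1, ρ 0, ρ 1 * ρ 0, ρ 2 * (ρ 1 * ρ 0), ρ 3 * (ρ 2 * (ρ 1 * ρ 0)),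
    ρ 4 * (ρ 3 * (ρ 2 * (ρ 1 * ρ 0))), ρ 5 * (ρ 4 * (ρ 3 * (ρ 2 * (ρ 1 * ρ 0))))]

def hol (ρ : Fin 7 → Equiv.Perm (Fin m)) : Equiv.Perm (Fin m) :=
  ρ 6 * (ρ 5 * (ρ 4 * (ρ 3 * (ρ 2 * (ρ 1 * ρ 0)))))

theorem all_iff (P : E → Prop) : (∀ e, P e) ↔
    P (0, false) ∧ P (1, false) ∧ P (2, false) ∧ P (3, false) ∧ P (4, false) ∧ P (5, false) ∧
    P (6, false) ∧ P (0, true) ∧ P (1, true) ∧ P (2, true) ∧ P (3, true) ∧ P (4, true) ∧
    P (5, true) ∧ P (6, true) := by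
  constructor
  · intro h
    exact ⟨h _, h _, h _, h _, h _, h _, h _, h _, h _, h _, h _, h _, h _, h _⟩
  · rintro ⟨h0, h1, h2, h3, h4, h5, h6, k0, k1, k2, k3, k4, k5, k6⟩ ⟨i, b⟩
    fin_cases i <;> cases b <;> assumption

theorem good_iff (ρ : Fin 7 → Equiv.Perm (Fin m)) (g : Fin 7 → Fin m) :
    (∀ e, ¬ X (cons ρ) e (fun i => gau ρ i (g i))) ↔ good (hol ρ) g := by
  rw [all_iff, good]
  have e0 : X (cons ρ) (0, false) (fun i => gau ρ i (g i)) ↔ g 1 = g 0 := by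
    change ρ 0 (g 1) = ρ 0 (g 0) ↔ _
    exact (ρ 0).injective.eq_iff
  have e1 : X (cons ρ) (1, false) (fun i => gau ρ i (g i)) ↔ g 2 = g 1 := by
    change (ρ 1 * ρ 0) (g 2) = (ρ 1 * ρ 0) (g 1) ↔ _
    exact (ρ 1 * ρ 0).injective.eq_iff
  have e2 : X (cons ρ) (2, false) (fun i => gau ρ i (g i)) ↔ g 3 = g 2 := by
    change (ρ 2 * (ρ 1 * ρ 0)) (g 3) = (ρ 2 * (ρ 1 * ρ 0)) (g 2) ↔ _
    exact (ρ 2 * (ρ 1 * ρ 0)).injective.eq_iff
  have e3 : X (cons ρ) (3, false) (fun i => gau ρ i (g i)) ↔ g 4 = g 3 := by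
    change (ρ 3 * (ρ 2 * (ρ 1 * ρ 0))) (g 4) = (ρ 3 * (ρ 2 * (ρ 1 * ρ 0))) (g 3) ↔ _
    exact (ρ 3 * (ρ 2 * (ρ 1 * ρ 0))).injective.eq_iff
  have e4 : X (cons ρ) (4, false) (fun i => gau ρ i (g i)) ↔ g 5 = g 4 := by
    change (ρ 4 * (ρ 3 * (ρ 2 * (ρ 1 * ρ 0)))) (g 5) =
      (ρ 4 * (ρ 3 * (ρ 2 * (ρ 1 * ρ 0)))) (g 4) ↔ _
    exact (ρ 4 * (ρ 3 * (ρ 2 * (ρ 1 * ρ 0)))).injective.eq_iff
  have e5 : X (cons ρ) (5, false) (fun i => gau ρ i (g i)) ↔ g 6 = g 5 := by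
    change (ρ 5 * (ρ 4 * (ρ 3 * (ρ 2 * (ρ 1 * ρ 0))))) (g 6) =
      (ρ 5 * (ρ 4 * (ρ 3 * (ρ 2 * (ρ 1 * ρ 0))))) (g 5) ↔ _
    exact (ρ 5 * (ρ 4 * (ρ 3 * (ρ 2 * (ρ 1 * ρ 0))))).injective.eq_iff
  have e6 : X (cons ρ) (6, false) (fun i => gau ρ i (g i)) ↔ g 0 = hol ρ (g 6) := by
    change g 0 = hol ρ (g 6) ↔ _
    exact Iff.rfl
  have k0 : X (cons ρ) (0, true) (fun i => gau ρ i (g i)) ↔ g 2 = g 0 := by
    change (ρ 1 * ρ 0) (g 2) = (ρ 1 * ρ 0) (g 0) ↔ _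
    exact (ρ 1 * ρ 0).injective.eq_iff
  have k1 : X (cons ρ) (1, true) (fun i => gau ρ i (g i)) ↔ g 3 = g 1 := by
    change (ρ 2 * (ρ 1 * ρ 0)) (g 3) = (ρ 2 * (ρ 1 * ρ 0)) (g 1) ↔ _
    exact (ρ 2 * (ρ 1 * ρ 0)).injective.eq_iff
  have k2 : X (cons ρ) (2, true) (fun i => gau ρ i (g i)) ↔ g 4 = g 2 := by
    change (ρ 3 * (ρ 2 * (ρ 1 * ρ 0))) (g 4) = (ρ 3 * (ρ 2 * (ρ 1 * ρ 0))) (g 2) ↔ _
    exact (ρ 3 * (ρ 2 * (ρ 1 * ρ 0))).injective.eq_iff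
  have k3 : X (cons ρ) (3, true) (fun i => gau ρ i (g i)) ↔ g 5 = g 3 := by
    change (ρ 4 * (ρ 3 * (ρ 2 * (ρ 1 * ρ 0)))) (g 5) =
      (ρ 4 * (ρ 3 * (ρ 2 * (ρ 1 * ρ 0)))) (g 3) ↔ _
    exact (ρ 4 * (ρ 3 * (ρ 2 * (ρ 1 * ρ 0)))).injective.eq_iff
  have k4 : X (cons ρ) (4, true) (fun i => gau ρ i (g i)) ↔ g 6 = g 4 := by
    change (ρ 5 * (ρ 4 * (ρ 3 * (ρ 2 * (ρ 1 * ρ 0))))) (g 6) =
      (ρ 5 * (ρ 4 * (ρ 3 * (ρ 2 * (ρ 1 * ρ 0))))) (g 4) ↔ _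
    exact (ρ 5 * (ρ 4 * (ρ 3 * (ρ 2 * (ρ 1 * ρ 0))))).injective.eq_iff
  have k5 : X (cons ρ) (5, true) (fun i => gau ρ i (g i)) ↔ g 0 = hol ρ (g 5) := by
    change g 0 = hol ρ (g 5) ↔ _
    exact Iff.rfl
  have k6 : X (cons ρ) (6, true) (fun i => gau ρ i (g i)) ↔ g 1 = hol ρ (g 6) := by
    change ρ 0 (g 1) = ρ 0 (hol ρ (g 6)) ↔ _
    exact (ρ 0).injective.eq_iff
  rw [e0, e1, e2, e3, e4, e5, e6, k0, k1, k2, k3, k4, k5, k6]

theorem cnt_cons (ρ : Fin 7 → Equiv.Perm (Fin m)) :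
    cnt (cons ρ) = (Finset.univ.filter (good (hol ρ))).card := by
  classical
  unfold cnt
  symm
  refine Finset.card_bij (fun g _ => fun i => gau ρ i (g i)) ?_ ?_ ?_
  · intro g hg
    rw [Finset.mem_filter] at hg ⊢
    exact ⟨Finset.mem_univ _, (good_iff ρ g).2 hg.2⟩
  · intro g _ g' _ h
    funext i
    exact (gau ρ i).injective (congrFun h i)
  · intro f hf
    rw [Finset.mem_filter] at hf
    refine ⟨fun i => (gau ρ i).symm (f i), ?_, ?_⟩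
    · rw [Finset.mem_filter]
      refine ⟨Finset.mem_univ _, ?_⟩
      rw [← good_iff]
      simpa using hf.2
    · funext i
      simp

/-- seven-tuples in the order used for summation -/
def eqv : (Fin m × Fin m × Fin m × Fin m × Fin m × Fin m × Fin m) ≃ (Fin 7 → Fin m) where
  toFun t := ![t.1, t.2.2.2.1, t.2.2.2.2.1, t.2.2.2.2.2.2, t.2.2.2.2.2.1, t.2.1, t.2.2.1]
  invFun g := (g 0, g 5, g 6, g 1, g 2, g 4, g 3)
  left_inv := by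
    rintro ⟨a, d, f, b, c, e, z⟩
    rfl
  right_inv := by
    intro g
    funext i
    fin_cases i <;> rfl

theorem good_sum (σ : Equiv.Perm (Fin m)) :
    ((Finset.univ.filter (good σ)).card : ℤ) = F0 m (fx σ) (fx (σ * σ)) := by
  classical
  rw [← total σ, Finset.card_filter]
  push_cast
  rw [← eqv.sum_comp]
  simp only [Fintype.sum_prod_type]
  refine Finset.sum_congr rfl fun a _ => Finset.sum_congr rfl fun d _ =>
    Finset.sum_congr rfl fun f _ => Finset.sum_congr rfl fun b _ => ?_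
  rw [Finset.mul_sum]
  refine Finset.sum_congr rfl fun c _ => ?_
  rw [Finset.mul_sum]
  refine Finset.sum_congr rfl fun e _ => ?_
  have h1 : ∀ z : Fin m, (if good σ (eqv (a, d, f, b, c, e, z)) then (1 : ℤ) else 0)
      = (W σ a b d f * (nz c b * nz c a * nz e c * nz d e * nz f e)) *
        (nz z c * nz e z * nz z b * nz d z) := by
    intro z
    have h2 : good σ (eqv (a, d, f, b, c, e, z)) ↔
      (b ≠ a ∧ c ≠ b ∧ z ≠ c ∧ e ≠ z ∧ d ≠ e ∧ f ≠ d ∧ a ≠ σ f ∧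
        c ≠ a ∧ z ≠ b ∧ e ≠ c ∧ d ≠ z ∧ f ≠ e ∧ a ≠ σ d ∧ b ≠ σ f) := Iff.rfl
    by_cases hg : good σ (eqv (a, d, f, b, c, e, z))
    · rw [if_pos hg]
      obtain ⟨g1, g2, g3, g4, g5, g6, g7, g8, g9, g10, g11, g12, g13, g14⟩ := h2.1 hg
      unfold W
      rw [nz_of_ne g1, nz_of_ne g2, nz_of_ne g3, nz_of_ne g4, nz_of_ne g5, nz_of_ne g6,
        nz_of_ne g7, nz_of_ne g8, nz_of_ne g9, nz_of_ne g10, nz_of_ne g11, nz_of_ne g12,
        nz_of_ne g13, nz_of_ne g14]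
      norm_num
    · rw [if_neg hg]
      rw [h2] at hg
      by_contra hne
      apply hg
      have hprod := fun h : (W σ a b d f * (nz c b * nz c a * nz e c * nz d e * nz f e)) *
        (nz z c * nz e z * nz z b * nz d z) = 0 => hne h.symm
      unfold W at hprod
      refine ⟨?_, ?_, ?_, ?_, ?_, ?_, ?_, ?_, ?_, ?_, ?_, ?_, ?_, ?_⟩ <;>
      · intro h
        apply hprod
        have h0 := (if_pos h : (if _ = _ then (0 : ℤ) else 1) = 0)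
        simp only [nz, h0, zero_mul, mul_zero]
  rw [Finset.sum_congr rfl (fun z _ => h1 z), ← Finset.mul_sum]
  by_cases g1 : c = b
  · rw [g1, nz_self]; ring
  by_cases g2 : e = c
  · rw [g2, nz_self]; ring
  by_cases g3 : d = e
  · rw [g3, nz_self]; ring
  rw [sum4 g1 g2 g3]
  ring

end Pool.Agent.H674R3.DP
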