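import Pool.Agent.H674R3.HenA
import Pool.Agent.H510R2.Div

/-!
Counting Hénon maps with a rational periodic point.
-/

set_option autoImplicit false

open Finset

namespace Pool.Agent.H674R3

/-- admissible numerators -/
noncomputable def adm (d : ℕ) (b a : ℤ) (M : ℕ) : Finset ℤ :=
  (Finset.Icc (-(M : ℤ)) M).filter (fun z => b ∣ z ^ (d - 1) * (z + a))

lemma card_dvd_le {n : ℤ} (hn : n ≠ 0) (s : Finset ℤ) (hs : ∀ b ∈ s, b ∣ n) :
    s.card ≤ n.natAbs.divisors.card * 2 := by
  have h1 : s.card ≤ (n.natAbs.divisors ×ˢ (Finset.univ : Finset Bool)).card := by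
    apply Finset.card_le_card_of_injOn (fun b : ℤ => (b.natAbs, decide (0 ≤ b)))
    · intro b hb
      simp only [Finset.coe_product, Set.mem_prod, Finset.mem_coe, Nat.mem_divisors,
        Finset.mem_univ, and_true]
      exact ⟨Int.natAbs_dvd_natAbs.2 (hs b hb), Int.natAbs_ne_zero.2 hn⟩
    · intro b _ b' _ h
      simp only [Prod.mk.injEq, decide_eq_decide] at h
      omega
  rw [Finset.card_product] at h1
  simpa using h1

lemma card_box (H : ℕ) : (Finset.Icc (-(H : ℤ)) H).card = 2 * H + 1 := by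
  rw [Int.card_Icc]; omega

lemma first_moment {d H M D : ℕ}
    (hD : ∀ n : ℕ, n ≠ 0 → n ≤ M ^ (d - 1) * (M + H) → n.divisors.card ≤ D) :
    ∑ p ∈ (Finset.Icc (-(H : ℤ)) H) ×ˢ ((Finset.Icc (-(H : ℤ)) H).filter (fun b => b ≠ 0)),
      (adm d p.2 p.1 M).card
      ≤ (2 * H + 1) * ((2 * M + 1) * (D * 2)) + (2 * H + 1) * (2 * (2 * H + 1)) := by
  rw [Finset.sum_product]
  have h1 : ∀ a ∈ Finset.Icc (-(H : ℤ)) H,
      ∑ b ∈ (Finset.Icc (-(H : ℤ)) H).filter (fun b => b ≠ 0), (adm d b a M).card
      ≤ (2 * M + 1) * (D * 2) + 2 * (2 * H + 1) := by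
    intro a ha
    have e1 : ∑ b ∈ (Finset.Icc (-(H : ℤ)) H).filter (fun b => b ≠ 0), (adm d b a M).card
        = ∑ z ∈ Finset.Icc (-(M : ℤ)) M,
          (((Finset.Icc (-(H : ℤ)) H).filter (fun b => b ≠ 0)).filter
            (fun b => b ∣ z ^ (d - 1) * (z + a))).card := by
      unfold adm
      simp_rw [Finset.card_filter _ (Finset.Icc (-(M : ℤ)) M)]
      rw [Finset.sum_comm]
      apply Finset.sum_congr rfl
      intro z _
      rw [Finset.card_filter]
    rw [e1]
    have e2 : ∀ z ∈ Finset.Icc (-(M : ℤ)) M,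
        (((Finset.Icc (-(H : ℤ)) H).filter (fun b => b ≠ 0)).filter
            (fun b => b ∣ z ^ (d - 1) * (z + a))).card
        ≤ D * 2 + (if z = 0 ∨ z = -a then (2 * H + 1) else 0) := by
      intro z hz
      rw [Finset.mem_Icc] at hz ha
      by_cases hzero : z ^ (d - 1) * (z + a) = 0
      · have : z = 0 ∨ z = -a := by
          rcases mul_eq_zero.1 hzero with h | h
          · exact Or.inl (by by_contra h0; exact pow_ne_zero _ h0 h)
          · exact Or.inr (by linarith)
        rw [if_pos this]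
        refine le_trans ?_ (Nat.le_add_left _ _)
        rw [← card_box H]
        exact Finset.card_le_card ((Finset.filter_subset _ _).trans (Finset.filter_subset _ _))
      · refine le_trans ?_ (Nat.le_add_right _ _)
        refine (card_dvd_le hzero _ (fun b hb => (Finset.mem_filter.1 hb).2)).trans ?_
        apply Nat.mul_le_mul_right
        apply hD _ (Int.natAbs_ne_zero.2 hzero)
        rw [Int.natAbs_mul, Int.natAbs_pow]
        apply Nat.mul_le_mul
        · exact Nat.pow_le_pow_left (by omega) _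
        · omega
    refine (Finset.sum_le_sum e2).trans ?_
    rw [Finset.sum_add_distrib, Finset.sum_const, card_box, smul_eq_mul]
    apply Nat.add_le_add_left
    rw [← Finset.sum_filter, Finset.sum_const, smul_eq_mul]
    apply Nat.mul_le_mul_right
    refine (Finset.card_le_card (t := {0, -a}) ?_).trans Finset.card_le_two
    intro z hz
    simpa using (Finset.mem_filter.1 hz).2
  refine (Finset.sum_le_sum h1).trans ?_
  rw [Finset.sum_const, card_box, smul_eq_mul, mul_add]

/-- the pairs with many admissible numerators -/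
noncomputable def badp (d H M T : ℕ) : Finset (ℤ × ℤ) :=
  ((Finset.Icc (-(H : ℤ)) H) ×ˢ ((Finset.Icc (-(H : ℤ)) H).filter (fun b => b ≠ 0))).filter
    (fun p => T < (adm d p.2 p.1 M).card)

lemma badp_le {d H M D T : ℕ}
    (hD : ∀ n : ℕ, n ≠ 0 → n ≤ M ^ (d - 1) * (M + H) → n.divisors.card ≤ D) :
    (badp d H M T).card * T
      ≤ (2 * H + 1) * ((2 * M + 1) * (D * 2)) + (2 * H + 1) * (2 * (2 * H + 1)) := by
  refine le_trans ?_ (first_moment hD)
  refine le_trans ?_ (Finset.sum_le_sum_of_subset (Finset.filter_subset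
    (fun p => T < (adm d p.2 p.1 M).card) _))
  rw [← smul_eq_mul]
  apply Finset.card_nsmul_le_sum
  intro p hp
  exact (Finset.mem_filter.1 hp).2.le

/-- the coefficients as a function on `ℕ` -/
noncomputable def cf {d : ℕ} (q : (Fin (d + 1) → ℤ) × ℤ) (i : ℕ) : ℤ := if h : i < d + 1 then q.1 ⟨i, h⟩ else 0

lemma cf_ext {d : ℕ} {q q' : (Fin (d + 1) → ℤ) × ℤ} (h : ∀ i, i ≤ d → cf q i = cf q' i)
    (h2 : q.2 = q'.2) : q = q' := by
  apply Prod.ext _ h2
  funext i
  have := h i (by omega)
  unfold cf at this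
  rw [dif_pos (by omega), dif_pos (by omega)] at this
  exact this

/-- the counting lemma -/
theorem count_main {d H M T : ℕ} (hd : 3 ≤ d) (B : Finset ((Fin (d + 1) → ℤ) × ℤ))
    (h1 : ∀ q ∈ B, ∀ i, i ≤ d → |cf q i| ≤ (H : ℤ)) (h2 : ∀ q ∈ B, |q.2| ≤ (H : ℤ))
    (h3 : ∀ q ∈ B, cf q d ≠ 0)
    (h4 : ∀ q ∈ B, ∃ z : ℤ × ℤ × ℤ, z.1 ∈ adm d (cf q d) (cf q (d - 1)) M ∧
      z.2.1 ∈ adm d (cf q d) (cf q (d - 1)) M ∧ z.2.2 ∈ adm d (cf q d) (cf q (d - 1)) M ∧
      z.2.1 ^ d + ∑ i ∈ range d, cf q i * (cf q d) ^ (d - 1 - i) * z.2.1 ^ i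
        = (cf q d) ^ (d - 2) * (z.2.2 + q.2 * z.1)) :
    B.card ≤ (badp d H M T).card * ((2 * H + 1) ^ (d - 1) * (2 * H + 1))
      + T ^ 3 * ((2 * H + 1) ^ d * (2 * H + 1)) := by
  classical
  obtain ⟨I, hI⟩ : ∃ I, I = Finset.Icc (-(H : ℤ)) H := ⟨_, rfl⟩
  have hIc : I.card = 2 * H + 1 := by rw [hI, card_box]
  have hmemI : ∀ t : ℤ, |t| ≤ (H : ℤ) → t ∈ I := by
    intro t ht
    rw [hI, Finset.mem_Icc]
    exact abs_le.1 ht
  rw [← Finset.card_filter_add_card_filter_not
    (fun q : (Fin (d + 1) → ℤ) × ℤ => T < (adm d (cf q d) (cf q (d - 1)) M).card)]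
  apply Nat.add_le_add
  · -- many admissible numerators
    have e1 : (B.filter (fun q => T < (adm d (cf q d) (cf q (d - 1)) M).card)).card
        ≤ ((badp d H M T) ×ˢ ((Fintype.piFinset (fun _ : Fin (d - 1) => I)) ×ˢ I)).card := by
      apply Finset.card_le_card_of_injOn
        (fun q => ((cf q (d - 1), cf q d), ((fun i : Fin (d - 1) => cf q i), q.2)))
      · intro q hq
        rw [Finset.mem_coe, Finset.mem_filter] at hq
        rw [Finset.mem_coe, Finset.mem_product, Finset.mem_product]
        refine ⟨?_, ?_, hmemI _ (h2 q hq.1)⟩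
        · unfold badp
          rw [← hI, Finset.mem_filter, Finset.mem_product, Finset.mem_filter]
          exact ⟨⟨hmemI _ (h1 q hq.1 _ (by omega)), hmemI _ (h1 q hq.1 _ le_rfl), h3 q hq.1⟩, hq.2⟩
        · rw [Fintype.mem_piFinset]
          intro i
          exact hmemI _ (h1 q hq.1 _ (by omega))
      · intro q _ q' _ h
        simp only [Prod.mk.injEq] at h
        obtain ⟨⟨ha, hb⟩, hc, hd'⟩ := h
        apply cf_ext _ hd'
        intro i hi
        rcases Nat.lt_or_ge i (d - 1) with h | h
        · exact congrFun hc ⟨i, h⟩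
        · have : i = d - 1 ∨ i = d := by omega
          rcases this with rfl | rfl
          · exact ha
          · exact hb
    refine e1.trans (le_of_eq ?_)
    rw [Finset.card_product, Finset.card_product, Fintype.card_piFinset, Finset.prod_const,
      Finset.card_univ, Fintype.card_fin, hIc]
  · -- few admissible numerators
    have e2 : ((Fintype.piFinset (fun _ : Fin d => I)) ×ˢ I).card
        = (2 * H + 1) ^ d * (2 * H + 1) := by
      rw [Finset.card_product, Fintype.card_piFinset, Finset.prod_const,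
        Finset.card_univ, Fintype.card_fin, hIc]
    rw [← e2]
    apply Finset.card_le_mul_card_image_of_maps_to
      (f := fun q => ((fun i : Fin d => cf q (i + 1)), q.2))
    · intro q hq
      rw [Finset.mem_filter] at hq
      rw [Finset.mem_product, Fintype.mem_piFinset]
      refine ⟨fun i => hmemI _ (h1 q hq.1 _ (by omega)), hmemI _ (h2 q hq.1)⟩
    · intro y _
      obtain ⟨S, hS⟩ : ∃ S, S = ((B.filter (fun q => ¬ T < (adm d (cf q d) (cf q (d - 1)) M).card)).filter
        (fun q => ((fun i : Fin d => cf q (i + 1)), q.2) = y)) := ⟨_, rfl⟩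
      rw [← hS]
      rcases S.eq_empty_or_nonempty with hemp | ⟨q0, hq0⟩
      · rw [hemp]; simp
      have hmem : ∀ q ∈ S, q ∈ B ∧ (adm d (cf q d) (cf q (d - 1)) M).card ≤ T ∧
          ((fun i : Fin d => cf q (i + 1)), q.2) = y := by
        intro q hq
        rw [hS, Finset.mem_filter, Finset.mem_filter] at hq
        exact ⟨hq.1.1, not_lt.1 hq.1.2, hq.2⟩
      have hsame : ∀ q ∈ S, ∀ q' ∈ S, (∀ i, 1 ≤ i → cf q i = cf q' i) ∧ q.2 = q'.2 := by
        intro q hq q' hq'
        have h5 := ((hmem q hq).2.2).trans ((hmem q' hq').2.2).symm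
        rw [Prod.mk.injEq] at h5
        refine ⟨fun i hi => ?_, h5.2⟩
        rcases Nat.lt_or_ge d i with h | h
        · unfold cf
          rw [dif_neg (by omega), dif_neg (by omega)]
        · have := congrFun h5.1 ⟨i - 1, by omega⟩
          simp only [Nat.sub_add_cancel hi] at this
          exact this
      choose! z hz using h4
      have hcard : S.card ≤ ((adm d (cf q0 d) (cf q0 (d - 1)) M) ×ˢ
          ((adm d (cf q0 d) (cf q0 (d - 1)) M) ×ˢ (adm d (cf q0 d) (cf q0 (d - 1)) M))).card := by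
        apply Finset.card_le_card_of_injOn z
        · intro q hq
          rw [Finset.mem_coe] at hq
          have h6 := hz q (hmem q hq).1
          have h7 := (hsame q hq q0 hq0).1
          rw [h7 d (by omega), h7 (d - 1) (by omega)] at h6
          rw [Finset.mem_coe, Finset.mem_product, Finset.mem_product]
          exact ⟨h6.1, h6.2.1, h6.2.2.1⟩
        · intro q hq q' hq' hzz
          rw [Finset.mem_coe] at hq hq'
          have h7 := hsame q hq q' hq'
          have h8 := (hz q (hmem q hq).1).2.2.2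
          have h9 := (hz q' (hmem q' hq').1).2.2.2
          rw [← hzz, ← h7.2] at h9
          have h10 := a0_unique (by omega) (h3 q (hmem q hq).1) h7.1 h8 h9
          apply cf_ext _ h7.2
          intro i _
          rcases Nat.eq_zero_or_pos i with rfl | hi
          · exact h10
          · exact h7.1 i hi
      refine hcard.trans ?_
      rw [Finset.card_product, Finset.card_product]
      have hT := (hmem q0 hq0).2.1
      calc _ ≤ T * (T * T) := Nat.mul_le_mul hT (Nat.mul_le_mul hT hT)
        _ = T ^ 3 := by ring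

end Pool.Agent.H674R3
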