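import Pool.Agent.H674R3.HenD

/-!
Hénon maps with a rational periodic point: final bounds.
-/

set_option autoImplicit false

open Finset

namespace Pool.Agent.H674R3

/-- integer Hénon maps of degree `d` and height at most `H` with a rational periodic point -/
def HP (d H : ℕ) : Set ((Fin (d + 1) → ℤ) × ℤ) :=
  {q | (∀ i, |q.1 i| ≤ (H : ℤ)) ∧ |q.2| ≤ (H : ℤ) ∧ q.1 (Fin.last d) ≠ 0 ∧ q.2 ≠ 0 ∧
    ∃ P : ℚ × ℚ, ∃ n : ℕ, 1 ≤ n ∧
      (fun P : ℚ × ℚ => (P.2, (∑ i : Fin (d + 1), (q.1 i : ℚ) * P.2 ^ (i : ℕ)) -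
        (q.2 : ℚ) * P.1))^[n] P = P}

lemma hp_data {d H : ℕ} (hd : 2 ≤ d) (hH : 1 ≤ H) {q : (Fin (d + 1) → ℤ) × ℤ}
    (hq : q ∈ HP d H) :
    (∀ i, i ≤ d → |cf q i| ≤ (H : ℤ)) ∧ |q.2| ≤ (H : ℤ) ∧ q.2 ≠ 0 ∧ cf q d ≠ 0 ∧
    ∃ z : ℕ → ℤ, (∀ k, |z k| ≤ (((d + 2) * H : ℕ) : ℤ)) ∧
      (∀ k, z (k + 1) ^ d + ∑ i ∈ range d, cf q i * (cf q d) ^ (d - 1 - i) * z (k + 1) ^ i
        = (cf q d) ^ (d - 2) * (z (k + 2) + q.2 * z k)) ∧
      (3 ≤ d → ∀ k, cf q d ∣ z (k + 1) ^ (d - 1) * (z (k + 1) + cf q (d - 1))) := by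
  obtain ⟨h1, h2, h3, h4, P, n, hn, hP⟩ := hq
  have hcf : ∀ i : Fin (d + 1), cf q (i : ℕ) = q.1 i := by
    intro i
    unfold cf
    rw [dif_pos i.2]
  have hle : ∀ i, i ≤ d → |cf q i| ≤ (H : ℤ) := by
    intro i hi
    have := hcf ⟨i, by omega⟩
    simp only at this
    rw [this]; exact h1 _
  have hcd : cf q d ≠ 0 := by
    have := hcf (Fin.last d)
    rw [Fin.val_last] at this
    rw [this]; exact h3
  refine ⟨hle, h2, h4, hcd, ?_⟩
  obtain ⟨x, hx, hrec⟩ := orb_seq (g := fun y => ∑ i : Fin (d + 1), (q.1 i : ℚ) * y ^ (i : ℕ))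
    (δ := (q.2 : ℚ)) hn hP
  have hrec' : ∀ k, x (k + 2) = ∑ i ∈ range (d + 1), (cf q i : ℚ) * x (k + 1) ^ i
      - (q.2 : ℚ) * x k := by
    intro k
    rw [hrec k, Finset.sum_range]
    congr 1
    apply Finset.sum_congr rfl
    intro i _
    rw [hcf i]
  have hint : ∀ k, ∃ z : ℤ, (z : ℚ) = (cf q d : ℚ) * x k :=
    fun k => int_orb hd hn hx hrec' k
  choose z hz using hint
  refine ⟨z, ?_, rec_int hd hn hx hrec' hz, fun hd3 => dvd_orb hd hn hx hrec' hd3 hz⟩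
  intro k
  have h5 := size_orb hd hn hx hrec' hH hle h2 k
  rw [← hz k] at h5
  have h6 : ((|z k| : ℤ) : ℚ) ≤ (((d + 2) * H : ℕ) : ℚ) := by
    rw [Int.cast_abs]; exact h5
  exact_mod_cast h6

lemma hp_finite (d H : ℕ) : ∃ B : Finset ((Fin (d + 1) → ℤ) × ℤ), (↑B : Set _) = HP d H ∧
    B.card ≤ (2 * H + 1) ^ (d + 2) := by
  classical
  refine ⟨((Fintype.piFinset (fun _ : Fin (d + 1) => Finset.Icc (-(H : ℤ)) H)) ×ˢ
    Finset.Icc (-(H : ℤ)) H).filter (fun q => q ∈ HP d H), ?_, ?_⟩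
  · ext q
    rw [Finset.mem_coe, Finset.mem_filter, Finset.mem_product, Fintype.mem_piFinset]
    constructor
    · exact fun h => h.2
    · intro h
      refine ⟨⟨fun i => Finset.mem_Icc.2 (abs_le.1 (h.1 i)), Finset.mem_Icc.2 (abs_le.1 h.2.1)⟩, h⟩
  · refine (Finset.card_filter_le _ _).trans (le_of_eq ?_)
    rw [Finset.card_product, Fintype.card_piFinset, Finset.prod_const, Finset.card_univ,
      Fintype.card_fin, card_box]
    ring

lemma card_hp {d H : ℕ} {B : Finset ((Fin (d + 1) → ℤ) × ℤ)} (h : (↑B : Set _) = HP d H) :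
    (HP d H).ncard = B.card := by
  rw [← h, Set.ncard_coe_finset]

/-- degree at least three -/
theorem hen_three {d : ℕ} (hd : 3 ≤ d) : ∃ C : ℝ, 0 < C ∧ ∀ H : ℕ, 1 ≤ H →
    ((HP d H).ncard : ℝ) ≤ C * (H : ℝ) ^ ((d : ℝ) + 9 / 5) := by
  have hd0 : (0 : ℝ) < d := by exact_mod_cast (by omega : 0 < d)
  obtain ⟨C0, hC0, hdiv⟩ := H510R2.divisor_bound (1 / (20 * d)) (by positivity)
  obtain ⟨C1, hC1⟩ : ∃ C1, C1 = C0 * ((d : ℝ) + 3) ^ (1 / 20 : ℝ) := ⟨_, rfl⟩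
  have hC10 : 0 < C1 := by rw [hC1]; positivity
  obtain ⟨C2, hC2⟩ : ∃ C2, C2 = 6 * (2 * (d : ℝ) + 5) * C1 + 18 := ⟨_, rfl⟩
  have hC20 : 0 < C2 := by rw [hC2]; positivity
  refine ⟨C2 * 3 ^ d + 8 * 3 ^ (d + 1), by positivity, fun H hH => ?_⟩
  have hHR : (1 : ℝ) ≤ H := by exact_mod_cast hH
  have hH0 : (0 : ℝ) < H := by linarith
  obtain ⟨M, hM⟩ : ∃ M, M = (d + 2) * H := ⟨_, rfl⟩
  obtain ⟨D, hDdef⟩ : ∃ D, D = ⌊C1 * (H : ℝ) ^ (1 / 20 : ℝ)⌋₊ := ⟨_, rfl⟩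
  obtain ⟨T, hT⟩ : ∃ T, T = ⌈(H : ℝ) ^ (1 / 4 : ℝ)⌉₊ := ⟨_, rfl⟩
  have hD : ∀ n : ℕ, n ≠ 0 → n ≤ M ^ (d - 1) * (M + H) → n.divisors.card ≤ D := by
    intro n hn hnM
    rw [hDdef]
    apply Nat.le_floor
    refine (hdiv n (by omega)).trans ?_
    have e1 : n ≤ ((d + 3) * H) ^ d := by
      calc n ≤ M ^ (d - 1) * (M + H) := hnM
        _ ≤ ((d + 3) * H) ^ (d - 1) * ((d + 3) * H) := by
            apply Nat.mul_le_mul
            · apply Nat.pow_le_pow_left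
              rw [hM]
              exact Nat.mul_le_mul_right _ (by omega)
            · rw [hM]; exact le_of_eq (by ring)
        _ = _ := by rw [← pow_succ, Nat.sub_add_cancel (by omega)]
    have e2 : (n : ℝ) ≤ (((d : ℝ) + 3) * H) ^ (d : ℝ) := by
      rw [Real.rpow_natCast]; exact_mod_cast e1
    rw [hC1, mul_assoc]
    apply mul_le_mul_of_nonneg_left _ hC0.le
    calc (n : ℝ) ^ (1 / (20 * (d : ℝ))) ≤ ((((d : ℝ) + 3) * H) ^ (d : ℝ)) ^ (1 / (20 * (d : ℝ))) :=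
          Real.rpow_le_rpow (by positivity) e2 (by positivity)
      _ = (((d : ℝ) + 3) * H) ^ (1 / 20 : ℝ) := by
          rw [← Real.rpow_mul (by positivity)]
          congr 1
          field_simp
      _ = _ := Real.mul_rpow (by positivity) (by positivity)
  have hDR : (D : ℝ) ≤ C1 * (H : ℝ) ^ (1 / 20 : ℝ) := by
    rw [hDdef]; exact Nat.floor_le (by positivity)
  have hT1 : (H : ℝ) ^ (1 / 4 : ℝ) ≤ T := by rw [hT]; exact Nat.le_ceil _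
  have hT2 : (T : ℝ) ≤ 2 * (H : ℝ) ^ (1 / 4 : ℝ) := by
    have := Nat.ceil_lt_add_one (a := (H : ℝ) ^ (1 / 4 : ℝ)) (by positivity)
    have h1 : 1 ≤ (H : ℝ) ^ (1 / 4 : ℝ) := Real.one_le_rpow hHR (by norm_num)
    rw [hT]; linarith
  obtain ⟨B, hB, -⟩ := hp_finite d H
  rw [card_hp hB]
  have hmem : ∀ q ∈ B, q ∈ HP d H := by
    intro q hq
    rw [← hB]; exact hq
  have hcount := count_main (M := M) (T := T) hd B
    (fun q hq => (hp_data (by omega) hH (hmem q hq)).1)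
    (fun q hq => (hp_data (by omega) hH (hmem q hq)).2.1)
    (fun q hq => (hp_data (by omega) hH (hmem q hq)).2.2.2.1)
    (by
      intro q hq
      obtain ⟨-, -, -, -, z, hz1, hz2, hz3⟩ := hp_data (by omega) hH (hmem q hq)
      have hadm : ∀ k, z (k + 1) ∈ adm d (cf q d) (cf q (d - 1)) M := by
        intro k
        unfold adm
        rw [Finset.mem_filter, Finset.mem_Icc, hM]
        exact ⟨abs_le.1 (hz1 (k + 1)), hz3 hd k⟩
      exact ⟨(z 1, z 2, z 3), hadm 0, hadm 1, hadm 2, hz2 1⟩)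
  have hbad := badp_le (T := T) hD
  have hbadR : ((badp d H M T).card : ℝ) * T
      ≤ (2 * H + 1) * ((2 * M + 1) * (D * 2)) + (2 * H + 1) * (2 * (2 * H + 1)) := by
    exact_mod_cast hbad
  have hMR : (M : ℝ) = (d + 2) * H := by rw [hM]; push_cast; ring
  have hp20 : 1 ≤ (H : ℝ) ^ (1 / 20 : ℝ) := Real.one_le_rpow hHR (by norm_num)
  have e3 : ((badp d H M T).card : ℝ) * (H : ℝ) ^ (1 / 4 : ℝ)
      ≤ C2 * ((H : ℝ) ^ 2 * (H : ℝ) ^ (1 / 20 : ℝ)) := by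
    calc ((badp d H M T).card : ℝ) * (H : ℝ) ^ (1 / 4 : ℝ)
        ≤ ((badp d H M T).card : ℝ) * T := mul_le_mul_of_nonneg_left hT1 (Nat.cast_nonneg _)
      _ ≤ (2 * H + 1) * ((2 * M + 1) * (D * 2)) + (2 * H + 1) * (2 * (2 * H + 1)) := hbadR
      _ ≤ (3 * H) * (((2 * d + 5) * H) * ((C1 * (H : ℝ) ^ (1 / 20 : ℝ)) * 2))
          + (3 * H) * (2 * (3 * H)) * (H : ℝ) ^ (1 / 20 : ℝ) := by
          apply add_le_add
          · apply mul_le_mul (by linarith) _ (by positivity) (by positivity)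
            apply mul_le_mul _ (by linarith) (by positivity) (by positivity)
            rw [hMR]
            nlinarith
          · refine le_trans ?_ (le_mul_of_one_le_right (by positivity) hp20)
            apply mul_le_mul (by linarith) (by linarith) (by positivity) (by positivity)
      _ = _ := by rw [hC2]; ring
  have e4 : ((badp d H M T).card : ℝ) ≤ C2 * (H : ℝ) ^ (9 / 5 : ℝ) := by
    have h5 : (H : ℝ) ^ 2 * (H : ℝ) ^ (1 / 20 : ℝ)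
        = (H : ℝ) ^ (9 / 5 : ℝ) * (H : ℝ) ^ (1 / 4 : ℝ) := by
      rw [← Real.rpow_natCast, ← Real.rpow_add hH0, ← Real.rpow_add hH0]
      congr 1
      norm_num
    rw [h5, ← mul_assoc] at e3
    exact le_of_mul_le_mul_right e3 (by positivity)
  have hcR : (B.card : ℝ) ≤ (badp d H M T).card * ((2 * H + 1) ^ (d - 1) * (2 * H + 1))
      + (T : ℝ) ^ 3 * ((2 * H + 1) ^ d * (2 * H + 1)) := by exact_mod_cast hcount
  have e5 : ((2 * (H : ℝ) + 1) ^ (d - 1) * (2 * H + 1)) = (2 * (H : ℝ) + 1) ^ d := by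
    rw [← pow_succ, Nat.sub_add_cancel (by omega)]
  have e6 : ((2 * (H : ℝ) + 1) ^ d * (2 * H + 1)) = (2 * (H : ℝ) + 1) ^ (d + 1) := by
    rw [← pow_succ]
  rw [e5, e6] at hcR
  have e7 : ∀ j : ℕ, (2 * (H : ℝ) + 1) ^ j ≤ 3 ^ j * (H : ℝ) ^ (j : ℝ) := by
    intro j
    rw [Real.rpow_natCast, ← mul_pow]
    exact pow_le_pow_left₀ (by positivity) (by linarith) _
  refine hcR.trans ?_
  rw [add_mul]
  apply add_le_add
  · calc ((badp d H M T).card : ℝ) * (2 * H + 1) ^ d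
        ≤ (C2 * (H : ℝ) ^ (9 / 5 : ℝ)) * (3 ^ d * (H : ℝ) ^ (d : ℝ)) :=
          mul_le_mul e4 (e7 d) (by positivity) (by positivity)
      _ = C2 * 3 ^ d * ((H : ℝ) ^ (d : ℝ) * (H : ℝ) ^ (9 / 5 : ℝ)) := by ring
      _ = _ := by rw [← Real.rpow_add hH0]
  · have h8 : (T : ℝ) ^ 3 ≤ 8 * (H : ℝ) ^ (3 / 4 : ℝ) := by
      calc (T : ℝ) ^ 3 ≤ (2 * (H : ℝ) ^ (1 / 4 : ℝ)) ^ 3 :=
            pow_le_pow_left₀ (Nat.cast_nonneg _) hT2 _
        _ = 8 * ((H : ℝ) ^ (1 / 4 : ℝ)) ^ 3 := by ring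
        _ = _ := by
            rw [← Real.rpow_natCast, ← Real.rpow_mul hH0.le]
            norm_num
    calc (T : ℝ) ^ 3 * (2 * H + 1) ^ (d + 1)
        ≤ (8 * (H : ℝ) ^ (3 / 4 : ℝ)) * (3 ^ (d + 1) * (H : ℝ) ^ ((d + 1 : ℕ) : ℝ)) :=
          mul_le_mul h8 (e7 (d + 1)) (by positivity) (by positivity)
      _ = 8 * 3 ^ (d + 1) * ((H : ℝ) ^ ((d + 1 : ℕ) : ℝ) * (H : ℝ) ^ (3 / 4 : ℝ)) := by ring
      _ = 8 * 3 ^ (d + 1) * (H : ℝ) ^ (((d + 1 : ℕ) : ℝ) + 3 / 4) := by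
          rw [← Real.rpow_add hH0]
      _ ≤ _ := by
          apply mul_le_mul_of_nonneg_left _ (by positivity)
          apply Real.rpow_le_rpow_of_exponent_le hHR
          push_cast
          linarith

end Pool.Agent.H674R3
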