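import Mathlib

/-!
HENON project (helper674): counting lemma for quadratic Hénon maps. Definitions and task statements.
-/

set_option autoImplicit false

open Finset

namespace Pool.Agent.H674R3.Hen

/-- points `(v, t)` with `|v t - δ u| ≤ 8H` and `δ ∣ u (t - u - v) - v` -/
noncomputable def sol (H : ℕ) (δ u : ℤ) : Finset (ℤ × ℤ) :=
  ((Finset.Icc (-(8 * (H : ℤ))) (8 * (H : ℤ))) ×ˢ
    (Finset.Icc (-(9 * (H : ℤ))) (9 * (H : ℤ)))).filter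
    (fun p => |p.1 * p.2 - δ * u| ≤ 8 * (H : ℤ) ∧ δ ∣ u * (p.2 - u - p.1) - p.1)

/-- `u` is bad for `δ` -/
def Bad (R : ℕ) (δ u : ℤ) : Prop :=
  ∃ h r : ℤ, 0 ≤ h ∧ h ≤ (R : ℤ) ∧ |r| ≤ 24 * (R : ℤ) ^ 3 ∧ (h ≠ 0 ∨ r ≠ 0) ∧
    δ ∣ u * (r - h) - h

/-- a `k`-separated set of integers in an interval of length `L` -/
lemma spaced (S : Finset ℤ) (L k : ℕ) (h1 : ∀ x ∈ S, ∀ y ∈ S, |x - y| ≤ (L : ℤ))
    (h2 : ∀ x ∈ S, ∀ y ∈ S, x ≠ y → (k : ℤ) < |x - y|) : S.card ≤ L / (k + 1) + 1 := by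
  rcases S.eq_empty_or_nonempty with rfl | hne
  · simp
  obtain ⟨m, hm⟩ : ∃ m, m = S.min' hne := ⟨_, rfl⟩
  have hmS : m ∈ S := by rw [hm]; exact Finset.min'_mem _ _
  have hml : ∀ x ∈ S, m ≤ x := by intro x hx; rw [hm]; exact Finset.min'_le _ _ hx
  have h3 : S.card ≤ (Finset.range (L / (k + 1) + 1)).card := by
    apply Finset.card_le_card_of_injOn (fun x => (x - m).toNat / (k + 1))
    · intro x hx
      rw [Finset.mem_coe] at hx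
      rw [Finset.mem_coe, Finset.mem_range, Nat.lt_succ_iff]
      apply Nat.div_le_div_right
      have := h1 x hx m hmS
      have := (abs_le.1 this).2
      omega
    · intro x hx y hy hxy
      rw [Finset.mem_coe] at hx hy
      by_contra hne'
      have h4 := h2 x hx y hy hne'
      simp only at hxy
      have hx1 := hml x hx
      have hy1 := hml y hy
      obtain ⟨p, hp⟩ : ∃ p, p = (x - m).toNat := ⟨_, rfl⟩
      obtain ⟨q, hq⟩ : ∃ q, q = (y - m).toNat := ⟨_, rfl⟩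
      rw [← hp, ← hq] at hxy
      have e1 := Nat.div_add_mod p (k + 1)
      have e2 := Nat.div_add_mod q (k + 1)
      have e3 : p % (k + 1) < k + 1 := Nat.mod_lt p (by omega)
      have e4 : q % (k + 1) < k + 1 := Nat.mod_lt q (by omega)
      rw [hxy] at e1
      obtain ⟨w, hw⟩ : ∃ w, w = (k + 1) * (q / (k + 1)) := ⟨_, rfl⟩
      rw [← hw] at e1 e2
      rcases abs_cases (x - y) with h | h <;> omega
  simpa using h3

/-- TASK Bad: few bad `u` for each `δ`. -/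
def TaskBad : Prop := ∀ (H R : ℕ) (δ : ℤ), 2 ≤ R → R ^ 9 ≤ H → (H : ℤ) ≤ R * |δ| →
  ∀ S : Finset ℤ, (∀ u ∈ S, |u| ≤ 8 * (H : ℤ) ∧ Bad R δ u) → S.card ≤ 50000 * R ^ 8

/-- TASK Triv: trivial bound. -/
def TaskTriv : Prop := ∀ (H : ℕ) (δ u : ℤ),
  (sol H δ u).card ≤ (18 * H + 1) + 2 * ∑ v ∈ Finset.Icc 1 (8 * H), (16 * H / v + 1)

/-- TASK Good: bound for good `u`. -/
def TaskGood : Prop := ∀ (H R : ℕ) (δ u : ℤ), 2 ≤ R → R ^ 9 ≤ H → |δ| ≤ (H : ℤ) →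
  |u| ≤ 8 * (H : ℤ) → (H : ℤ) ≤ R * |δ| → ¬ Bad R δ u →
  (sol H δ u).card ≤ (16 * H / (R + 1) + 1) + (18 * H / (24 * R ^ 3 + 1) + 1)
    + 2 * ∑ v ∈ Finset.Icc 1 (H / R), (16 * H / v / (24 * R ^ 3 + 1) + 1)

/-- TASK Sum: everything together. -/
def TaskSum : Prop := TaskBad → TaskTriv → TaskGood → ∃ C : ℝ, 0 < C ∧ ∀ H R : ℕ, 2 ≤ R →
  R ^ 9 ≤ H →
  ((∑ δ ∈ (Finset.Icc (-(H : ℤ)) H).filter (fun δ => δ ≠ 0),
    ∑ u ∈ Finset.Icc (-(8 * (H : ℤ))) (8 * (H : ℤ)), (sol H δ u).card : ℕ) : ℝ)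
    ≤ C * ((H : ℝ) ^ 3 / R) * (1 + Real.log H)

end Pool.Agent.H674R3.Hen
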