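import Pool.Agent.H674R3.HenB
import Pool.Agent.H674R3.HenS

/-!
Quadratic Hénon maps: reduction to the counting of `Hen.sol`.
-/

set_option autoImplicit false

open Finset

namespace Pool.Agent.H674R3

open Hen

theorem count_two {H D : ℕ} (hD : ∀ n : ℕ, n ≠ 0 → n ≤ H ^ 2 → n.divisors.card ≤ D)
    (B : Finset ((Fin (2 + 1) → ℤ) × ℤ))
    (h1 : ∀ q ∈ B, ∀ i, i ≤ 2 → |cf q i| ≤ (H : ℤ)) (h2 : ∀ q ∈ B, |q.2| ≤ (H : ℤ))
    (h2' : ∀ q ∈ B, q.2 ≠ 0) (h3 : ∀ q ∈ B, cf q 2 ≠ 0)
    (h4 : ∀ q ∈ B, ∃ z : ℕ → ℤ, (∀ k, |z k| ≤ 4 * (H : ℤ)) ∧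
      ∀ k, z (k + 2) + q.2 * z k = z (k + 1) ^ 2 + cf q 1 * z (k + 1) + cf q 0 * cf q 2) :
    B.card ≤ (2 * H + 1) ^ 3 + (D * 2) * ((2 * H + 1) *
      ∑ δ ∈ (Finset.Icc (-(H : ℤ)) H).filter (fun δ => δ ≠ 0),
        ∑ u ∈ Finset.Icc (-(8 * (H : ℤ))) (8 * (H : ℤ)), (sol H δ u).card) := by
  classical
  obtain ⟨I, hI⟩ : ∃ I, I = Finset.Icc (-(H : ℤ)) H := ⟨_, rfl⟩
  have hIc : I.card = 2 * H + 1 := by rw [hI, card_box]
  have hmemI : ∀ t : ℤ, |t| ≤ (H : ℤ) → t ∈ I := by
    intro t ht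
    rw [hI, Finset.mem_Icc]
    exact abs_le.1 ht
  obtain ⟨U, hU⟩ : ∃ U, U = Finset.Icc (-(8 * (H : ℤ))) (8 * (H : ℤ)) := ⟨_, rfl⟩
  rw [← hI, ← hU]
  rw [← Finset.card_filter_add_card_filter_not (fun q : (Fin (2 + 1) → ℤ) × ℤ => cf q 0 = 0)]
  apply Nat.add_le_add
  · have e1 : (B.filter (fun q => cf q 0 = 0)).card ≤ (I ×ˢ (I ×ˢ I)).card := by
      apply Finset.card_le_card_of_injOn (fun q => (cf q 1, cf q 2, q.2))
      · intro q hq
        rw [Finset.mem_coe, Finset.mem_filter] at hq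
        rw [Finset.mem_coe, Finset.mem_product, Finset.mem_product]
        exact ⟨hmemI _ (h1 q hq.1 1 (by omega)), hmemI _ (h1 q hq.1 2 le_rfl),
          hmemI _ (h2 q hq.1)⟩
      · intro q hq q' hq' h
        rw [Finset.mem_coe, Finset.mem_filter] at hq hq'
        simp only [Prod.mk.injEq] at h
        apply cf_ext _ h.2.2
        intro i hi
        have : i = 0 ∨ i = 1 ∨ i = 2 := by omega
        rcases this with rfl | rfl | rfl
        · rw [hq.2, hq'.2]
        · exact h.1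
        · exact h.2.1
    refine e1.trans (le_of_eq ?_)
    rw [Finset.card_product, Finset.card_product, hIc]; ring
  · choose! z hz1 hz2 using h4
    obtain ⟨W, hW⟩ : ∃ W, W = Finset.sigma ((I.filter (fun δ => δ ≠ 0)) ×ˢ U)
      (fun p : ℤ × ℤ => sol H p.1 p.2) := ⟨_, rfl⟩
    have hWc : (I ×ˢ W).card = (2 * H + 1) *
        ∑ δ ∈ I.filter (fun δ => δ ≠ 0), ∑ u ∈ U, (sol H δ u).card := by
      rw [Finset.card_product, hIc, hW, Finset.card_sigma, Finset.sum_product]
    rw [← hWc]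
    -- the data of `q`
    obtain ⟨f, hf⟩ : ∃ f : ((Fin (2 + 1) → ℤ) × ℤ) → ℤ × (Σ _ : ℤ × ℤ, ℤ × ℤ),
      f = fun q => (cf q 1, ⟨(q.2, z q 2 - z q 1),
        (z q 3 - z q 2, z q 3 + z q 2 + cf q 1)⟩) := ⟨_, rfl⟩
    apply Finset.card_le_mul_card_image_of_maps_to (f := f)
    · intro q hq
      rw [Finset.mem_filter] at hq
      have hq1 := hq.1
      have g0 := hz2 q hq1 0
      have g1 := hz2 q hq1 1
      have g2 := hz2 q hq1 2
      simp only [Nat.zero_add] at g0 g1 g2
      norm_num at g0 g1 g2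
      have b := hz1 q hq1
      have b0 := abs_le.1 (b 0)
      have b1 := abs_le.1 (b 1)
      have b2 := abs_le.1 (b 2)
      have b3 := abs_le.1 (b 3)
      have b4 := abs_le.1 (b 4)
      have ha1 := abs_le.1 (h1 q hq1 1 (by omega))
      rw [hf]
      simp only
      rw [Finset.mem_product]
      refine ⟨hmemI _ (h1 q hq1 1 (by omega)), ?_⟩
      rw [hW, Finset.mem_sigma, Finset.mem_product, Finset.mem_filter]
      refine ⟨⟨⟨hmemI _ (h2 q hq1), h2' q hq1⟩, ?_⟩, ?_⟩
      · rw [hU, Finset.mem_Icc]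
        constructor <;> simp only <;> linarith
      · simp only
        unfold sol
        rw [Finset.mem_filter, Finset.mem_product, Finset.mem_Icc, Finset.mem_Icc]
        refine ⟨⟨⟨by simp only; linarith, by simp only; linarith⟩,
          ⟨by simp only; linarith, by simp only; linarith⟩⟩, ?_, ?_⟩
        · have e1 : (z q 3 - z q 2) * (z q 3 + z q 2 + cf q 1) - q.2 * (z q 2 - z q 1)
              = z q 4 - z q 3 := by linear_combination g1 - g2
          simp only
          rw [e1, abs_le]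
          constructor <;> linarith
        · simp only
          refine ⟨z q 1 - z q 0, ?_⟩
          linear_combination g0 - g1
    · intro y _
      obtain ⟨S, hS⟩ : ∃ S, S = ((B.filter (fun q => ¬ cf q 0 = 0)).filter
        (fun q => f q = y)) := ⟨_, rfl⟩
      rw [← hS]
      rcases S.eq_empty_or_nonempty with hemp | ⟨q0, hq0⟩
      · rw [hemp]; simp
      have hmem : ∀ q ∈ S, q ∈ B ∧ cf q 0 ≠ 0 ∧ f q = y := by
        intro q hq
        rw [hS, Finset.mem_filter, Finset.mem_filter] at hq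
        exact ⟨hq.1.1, hq.1.2, hq.2⟩
      have hprod : ∀ q ∈ S, cf q 1 = cf q0 1 ∧ q.2 = q0.2 ∧
          cf q 0 * cf q 2 = cf q0 0 * cf q0 2 := by
        intro q hq
        have h5 := ((hmem q hq).2.2).trans ((hmem q0 hq0).2.2).symm
        rw [hf] at h5
        simp only [Prod.mk.injEq, Sigma.mk.injEq, heq_eq_eq] at h5
        obtain ⟨k1, ⟨k2, k3⟩, k4, k5⟩ := h5
        have g1 := hz2 q (hmem q hq).1 1
        have g1' := hz2 q0 (hmem q0 hq0).1 1
        norm_num at g1 g1'
        have k6 : z q 2 = z q0 2 := by linarith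
        have k7 : z q 1 = z q0 1 := by linarith
        have k8 : z q 3 = z q0 3 := by linarith
        refine ⟨k1, k2, ?_⟩
        rw [k1, k2, k6, k7, k8] at g1
        linarith
      have hc : cf q0 0 * cf q0 2 ≠ 0 := mul_ne_zero (hmem q0 hq0).2.1 (h3 q0 (hmem q0 hq0).1)
      have hinj : S.card ≤ (S.image (fun q => cf q 2)).card := by
        rw [Finset.card_image_of_injOn]
        intro q hq q' hq' hqq
        rw [Finset.mem_coe] at hq hq'
        simp only at hqq
        obtain ⟨k1, k2, k3⟩ := hprod q hq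
        obtain ⟨k1', k2', k3'⟩ := hprod q' hq'
        apply cf_ext _ (k2.trans k2'.symm)
        intro i hi
        have : i = 0 ∨ i = 1 ∨ i = 2 := by omega
        rcases this with rfl | rfl | rfl
        · have h6 : cf q 0 * cf q 2 = cf q' 0 * cf q 2 := by rw [k3, hqq, k3']
          exact mul_right_cancel₀ (h3 q (hmem q hq).1) h6
        · exact k1.trans k1'.symm
        · exact hqq
      refine hinj.trans ((card_dvd_le hc _ ?_).trans ?_)
      · intro b hb
        rw [Finset.mem_image] at hb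
        obtain ⟨q, hq, rfl⟩ := hb
        rw [← (hprod q hq).2.2]
        exact Dvd.intro_left _ rfl
      · apply Nat.mul_le_mul_right
        apply hD _ (Int.natAbs_ne_zero.2 hc)
        rw [Int.natAbs_mul, sq]
        have m0 := h1 q0 (hmem q0 hq0).1 0 (by omega)
        have m2 := h1 q0 (hmem q0 hq0).1 2 le_rfl
        apply Nat.mul_le_mul
        · rw [← Int.natCast_natAbs] at m0; exact_mod_cast m0
        · rw [← Int.natCast_natAbs] at m2; exact_mod_cast m2

end Pool.Agent.H674R3
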