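import Pool.Agent.H674R3.HenC

/-!
Hénon maps with a rational periodic point: the quadratic case and the final statement.
-/

set_option autoImplicit false

open Finset

namespace Pool.Agent.H674R3

open Hen

/-- the conclusion of `Hen.TaskSum` -/
def SumBound : Prop := ∃ C : ℝ, 0 < C ∧ ∀ H R : ℕ, 2 ≤ R →
  R ^ 9 ≤ H →
  ((∑ δ ∈ (Finset.Icc (-(H : ℤ)) H).filter (fun δ => δ ≠ 0),
    ∑ u ∈ Finset.Icc (-(8 * (H : ℤ))) (8 * (H : ℤ)), (sol H δ u).card : ℕ) : ℝ)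
    ≤ C * ((H : ℝ) ^ 3 / R) * (1 + Real.log H)

theorem hen_two (hs : SumBound) : ∃ C : ℝ, 0 < C ∧ ∀ H : ℕ, 1 ≤ H →
    ((HP 2 H).ncard : ℝ) ≤ C * (H : ℝ) ^ ((2 : ℝ) + 19 / 10) := by
  obtain ⟨C3, hC3, hsum⟩ := hs
  obtain ⟨C0, hC0, hdiv⟩ := H510R2.divisor_bound (1 / 360) (by norm_num)
  refine ⟨(27 + 2 * C0 * 3 * C3 * 2 * 181) + 1025 ^ 4, by positivity, fun H hH => ?_⟩
  have hHR : (1 : ℝ) ≤ H := by exact_mod_cast hH
  have hH0 : (0 : ℝ) < H := by linarith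
  obtain ⟨B, hB, hBc⟩ := hp_finite 2 H
  rw [card_hp hB]
  have hpow1 : 1 ≤ (H : ℝ) ^ ((2 : ℝ) + 19 / 10) := Real.one_le_rpow hHR (by norm_num)
  rcases Nat.lt_or_ge H 512 with hsmall | hbig
  · have h1 : (B.card : ℝ) ≤ 1025 ^ 4 := by
      have : B.card ≤ 1025 ^ 4 := by
        refine hBc.trans ?_
        exact Nat.pow_le_pow_left (by omega) 4
      exact_mod_cast this
    calc (B.card : ℝ) ≤ 1025 ^ 4 * 1 := by linarith
      _ ≤ ((27 + 2 * C0 * 3 * C3 * 2 * 181) + 1025 ^ 4) * (H : ℝ) ^ ((2 : ℝ) + 19 / 10) := by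
          apply mul_le_mul _ hpow1 zero_le_one (by positivity)
          have : 0 < 27 + 2 * C0 * 3 * C3 * 2 * 181 := by positivity
          linarith
  obtain ⟨R, hR⟩ : ∃ R, R = ⌊(H : ℝ) ^ (1 / 9 : ℝ)⌋₊ := ⟨_, rfl⟩
  have hR2 : 2 ≤ R := by
    rw [hR]
    apply Nat.le_floor
    have h512 : (512 : ℝ) ≤ H := by exact_mod_cast hbig
    calc ((2 : ℕ) : ℝ) = (512 : ℝ) ^ (1 / 9 : ℝ) := by
          rw [show (512 : ℝ) = 2 ^ (9 : ℝ) by norm_num, ← Real.rpow_mul (by norm_num)]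
          norm_num
      _ ≤ _ := Real.rpow_le_rpow (by norm_num) h512 (by norm_num)
  have hRle : (R : ℝ) ≤ (H : ℝ) ^ (1 / 9 : ℝ) := by
    rw [hR]; exact Nat.floor_le (by positivity)
  have hR9 : R ^ 9 ≤ H := by
    have h1 : (R : ℝ) ^ 9 ≤ H := by
      calc (R : ℝ) ^ 9 ≤ ((H : ℝ) ^ (1 / 9 : ℝ)) ^ 9 := pow_le_pow_left₀ (Nat.cast_nonneg _) hRle _
        _ = H := by
            rw [← Real.rpow_natCast, ← Real.rpow_mul hH0.le]
            norm_num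
    exact_mod_cast h1
  have hRge : (H : ℝ) ^ (1 / 9 : ℝ) ≤ 2 * R := by
    have h1 := Nat.lt_floor_add_one ((H : ℝ) ^ (1 / 9 : ℝ))
    rw [← hR] at h1
    have : (2 : ℝ) ≤ R := by exact_mod_cast hR2
    linarith
  have hR0 : (0 : ℝ) < R := by
    have : (2 : ℝ) ≤ R := by exact_mod_cast hR2
    linarith
  obtain ⟨D, hDdef⟩ : ∃ D, D = ⌊C0 * (H : ℝ) ^ (1 / 180 : ℝ)⌋₊ := ⟨_, rfl⟩
  have hDR : (D : ℝ) ≤ C0 * (H : ℝ) ^ (1 / 180 : ℝ) := by
    rw [hDdef]; exact Nat.floor_le (by positivity)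
  have hD : ∀ n : ℕ, n ≠ 0 → n ≤ H ^ 2 → n.divisors.card ≤ D := by
    intro n hn hnH
    rw [hDdef]
    apply Nat.le_floor
    refine (hdiv n (by omega)).trans ?_
    apply mul_le_mul_of_nonneg_left _ hC0.le
    have e2 : (n : ℝ) ≤ (H : ℝ) ^ (2 : ℝ) := by
      rw [show (2 : ℝ) = ((2 : ℕ) : ℝ) by norm_num, Real.rpow_natCast]; exact_mod_cast hnH
    calc (n : ℝ) ^ (1 / 360 : ℝ) ≤ ((H : ℝ) ^ (2 : ℝ)) ^ (1 / 360 : ℝ) :=
          Real.rpow_le_rpow (by positivity) e2 (by positivity)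
      _ = _ := by
          rw [← Real.rpow_mul hH0.le]
          norm_num
  have hmem : ∀ q ∈ B, q ∈ HP 2 H := by
    intro q hq
    rw [← hB]; exact hq
  have hcount := count_two hD B
    (fun q hq => (hp_data le_rfl hH (hmem q hq)).1)
    (fun q hq => (hp_data le_rfl hH (hmem q hq)).2.1)
    (fun q hq => (hp_data le_rfl hH (hmem q hq)).2.2.1)
    (fun q hq => (hp_data le_rfl hH (hmem q hq)).2.2.2.1)
    (by
      intro q hq
      obtain ⟨-, -, -, -, z, hz1, hz2, -⟩ := hp_data le_rfl hH (hmem q hq)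
      refine ⟨z, fun k => ?_, fun k => ?_⟩
      · have := hz1 k
        push_cast at this
        linarith
      · have h5 := hz2 k
        rw [Finset.sum_range_succ, Finset.sum_range_one] at h5
        norm_num at h5
        linarith)
  obtain ⟨W, hW⟩ : ∃ W, W = ∑ δ ∈ (Finset.Icc (-(H : ℤ)) H).filter (fun δ => δ ≠ 0),
        ∑ u ∈ Finset.Icc (-(8 * (H : ℤ))) (8 * (H : ℤ)), (sol H δ u).card := ⟨_, rfl⟩
  have hWb := hsum H R hR2 hR9
  rw [← hW] at hWb hcount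
  have hlog : 1 + Real.log H ≤ 181 * (H : ℝ) ^ (1 / 180 : ℝ) := by
    have h1 := Real.log_le_rpow_div hH0.le (show (0 : ℝ) < 1 / 180 by norm_num)
    have h2 : 1 ≤ (H : ℝ) ^ (1 / 180 : ℝ) := Real.one_le_rpow hHR (by norm_num)
    have h3 : (H : ℝ) ^ (1 / 180 : ℝ) / (1 / 180) = 180 * (H : ℝ) ^ (1 / 180 : ℝ) := by ring
    rw [h3] at h1
    linarith
  have hlog0 : 0 ≤ 1 + Real.log H := by
    have := Real.log_nonneg hHR; linarith
  have hdivR : (H : ℝ) ^ 3 / R ≤ 2 * ((H : ℝ) ^ (3 : ℝ) * (H : ℝ) ^ (-(1 / 9) : ℝ)) := by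
    rw [div_le_iff₀ hR0]
    have e1 : (H : ℝ) ^ (-(1 / 9) : ℝ) * (H : ℝ) ^ (1 / 9 : ℝ) = 1 := by
      rw [← Real.rpow_add hH0]; norm_num
    have e2 : (H : ℝ) ^ 3 = (H : ℝ) ^ (3 : ℝ) := by
      rw [show (3 : ℝ) = ((3 : ℕ) : ℝ) by norm_num, Real.rpow_natCast]
    rw [e2]
    calc (H : ℝ) ^ (3 : ℝ) = (H : ℝ) ^ (3 : ℝ) * ((H : ℝ) ^ (-(1 / 9) : ℝ) * (H : ℝ) ^ (1 / 9 : ℝ)) := by
          rw [e1, mul_one]
      _ ≤ (H : ℝ) ^ (3 : ℝ) * ((H : ℝ) ^ (-(1 / 9) : ℝ) * (2 * R)) := by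
          apply mul_le_mul_of_nonneg_left _ (by positivity)
          exact mul_le_mul_of_nonneg_left hRge (by positivity)
      _ = _ := by ring
  have hW2 : (W : ℝ) ≤ C3 * (2 * ((H : ℝ) ^ (3 : ℝ) * (H : ℝ) ^ (-(1 / 9) : ℝ)))
      * (181 * (H : ℝ) ^ (1 / 180 : ℝ)) := by
    refine hWb.trans ?_
    apply mul_le_mul (mul_le_mul_of_nonneg_left hdivR hC3.le) hlog hlog0 (by positivity)
  have hcR : (B.card : ℝ) ≤ (2 * H + 1) ^ 3 + (D * 2) * ((2 * H + 1) * W) := by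
    exact_mod_cast hcount
  have h27 : (2 * (H : ℝ) + 1) ^ 3 ≤ 27 * (H : ℝ) ^ ((2 : ℝ) + 19 / 10) := by
    calc (2 * (H : ℝ) + 1) ^ 3 ≤ (3 * H) ^ 3 := pow_le_pow_left₀ (by positivity) (by linarith) _
      _ = 27 * (H : ℝ) ^ (3 : ℝ) := by
          rw [show (3 : ℝ) = ((3 : ℕ) : ℝ) by norm_num, Real.rpow_natCast]; push_cast; ring
      _ ≤ _ := by
          apply mul_le_mul_of_nonneg_left _ (by norm_num)
          exact Real.rpow_le_rpow_of_exponent_le hHR (by norm_num)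
  have hmain : (D * 2 : ℝ) * ((2 * H + 1) * W)
      ≤ (2 * C0 * 3 * C3 * 2 * 181) * (H : ℝ) ^ ((2 : ℝ) + 19 / 10) := by
    calc (D * 2 : ℝ) * ((2 * H + 1) * W)
        ≤ (C0 * (H : ℝ) ^ (1 / 180 : ℝ) * 2) * ((3 * (H : ℝ) ^ (1 : ℝ)) *
          (C3 * (2 * ((H : ℝ) ^ (3 : ℝ) * (H : ℝ) ^ (-(1 / 9) : ℝ)))
          * (181 * (H : ℝ) ^ (1 / 180 : ℝ)))) := by
          apply mul_le_mul (by linarith) _ (by positivity) (by positivity)
          apply mul_le_mul _ hW2 (by positivity) (by positivity)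
          rw [Real.rpow_one]; linarith
      _ = (2 * C0 * 3 * C3 * 2 * 181) * ((H : ℝ) ^ (1 / 180 : ℝ) * ((H : ℝ) ^ (1 : ℝ) *
          ((H : ℝ) ^ (3 : ℝ) * ((H : ℝ) ^ (-(1 / 9) : ℝ) * (H : ℝ) ^ (1 / 180 : ℝ))))) := by ring
      _ = _ := by
          rw [← Real.rpow_add hH0, ← Real.rpow_add hH0, ← Real.rpow_add hH0, ← Real.rpow_add hH0]
          norm_num
  calc (B.card : ℝ) ≤ _ := hcR
    _ ≤ 27 * (H : ℝ) ^ ((2 : ℝ) + 19 / 10)
        + (2 * C0 * 3 * C3 * 2 * 181) * (H : ℝ) ^ ((2 : ℝ) + 19 / 10) := add_le_add h27 hmain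
    _ ≤ _ := by
        rw [← add_mul]
        apply mul_le_mul_of_nonneg_right _ (by positivity)
        linarith

/-- all degrees -/
theorem hen_all (hs : SumBound) {d : ℕ} (hd : 2 ≤ d) : ∃ C : ℝ, 0 < C ∧ ∀ H : ℕ, 1 ≤ H →
    ((HP d H).ncard : ℝ) ≤ C * (H : ℝ) ^ ((d : ℝ) + 2 - 1 / 10) := by
  rcases Nat.lt_or_ge d 3 with h | h
  · have : d = 2 := by omega
    subst this
    obtain ⟨C, hC, h1⟩ := hen_two hs
    refine ⟨C, hC, fun H hH => ?_⟩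
    have e : ((2 : ℕ) : ℝ) + 2 - 1 / 10 = (2 : ℝ) + 19 / 10 := by norm_num
    rw [e]
    exact h1 H hH
  · obtain ⟨C, hC, h1⟩ := hen_three h
    refine ⟨C, hC, fun H hH => (h1 H hH).trans ?_⟩
    apply mul_le_mul_of_nonneg_left _ hC.le
    apply Real.rpow_le_rpow_of_exponent_le (by exact_mod_cast hH)
    linarith

/-- all integer Hénon maps of degree `d` and height at most `H` -/
def AllP (d H : ℕ) : Set ((Fin (d + 1) → ℤ) × ℤ) :=
  {q | (∀ i, |q.1 i| ≤ (H : ℤ)) ∧ |q.2| ≤ (H : ℤ) ∧ q.1 (Fin.last d) ≠ 0 ∧ q.2 ≠ 0}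

lemma allp_ge (d H : ℕ) : H ^ (d + 2) ≤ (AllP d H).ncard := by
  classical
  obtain ⟨F, hF⟩ : ∃ F, F = (Fintype.piFinset (fun _ : Fin (d + 1) => Finset.Icc (1 : ℤ) H)) ×ˢ
    Finset.Icc (1 : ℤ) H := ⟨_, rfl⟩
  have hFc : F.card = H ^ (d + 2) := by
    rw [hF, Finset.card_product, Fintype.card_piFinset, Finset.prod_const, Finset.card_univ,
      Fintype.card_fin, Int.card_Icc]
    have : ((H : ℤ) + 1 - 1).toNat = H := by omega
    rw [this]; ring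
  have hfin : (AllP d H).Finite := by
    apply Set.Finite.subset (s := ((Fintype.piFinset fun _ : Fin (d + 1) =>
      Finset.Icc (-(H : ℤ)) H) ×ˢ Finset.Icc (-(H : ℤ)) H : Finset ((Fin (d + 1) → ℤ) × ℤ)))
    · exact Finset.finite_toSet _
    · rintro q ⟨h1, h2, _⟩
      rw [Finset.mem_coe, Finset.mem_product, Fintype.mem_piFinset]
      exact ⟨fun i => Finset.mem_Icc.2 (abs_le.1 (h1 i)), Finset.mem_Icc.2 (abs_le.1 h2)⟩
  rw [← hFc, ← Set.ncard_coe_finset]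
  apply Set.ncard_le_ncard _ hfin
  intro q hq
  rw [hF, Finset.mem_coe, Finset.mem_product, Fintype.mem_piFinset] at hq
  have h1 : ∀ i, 1 ≤ q.1 i ∧ q.1 i ≤ (H : ℤ) := fun i => Finset.mem_Icc.1 (hq.1 i)
  have h2 := Finset.mem_Icc.1 hq.2
  refine ⟨fun i => ?_, ?_, ?_, ?_⟩
  · rw [abs_le]; have := h1 i; constructor <;> linarith
  · rw [abs_le]; constructor <;> linarith
  · have := h1 (Fin.last d); omega
  · omega

theorem hen_density (hs : SumBound) {d : ℕ} (hd : 2 ≤ d) :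
    Filter.Tendsto (fun H : ℕ => ((HP d H).ncard : ℝ) / (AllP d H).ncard) Filter.atTop
      (nhds 0) := by
  obtain ⟨C, hC, h1⟩ := hen_all hs hd
  have hlim : Filter.Tendsto (fun H : ℕ => C * (H : ℝ) ^ (-(1 / 10) : ℝ)) Filter.atTop
      (nhds 0) := by
    have h2 := (tendsto_rpow_neg_atTop (show (0 : ℝ) < 1 / 10 by norm_num)).comp
      tendsto_natCast_atTop_atTop
    have h3 := h2.const_mul C
    rw [mul_zero] at h3
    exact h3
  apply squeeze_zero' (Filter.Eventually.of_forall fun H => by positivity) _ hlim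
  filter_upwards [Filter.eventually_ge_atTop 1] with H hH
  have hH0 : (0 : ℝ) < H := by exact_mod_cast hH
  have h4 : ((H : ℝ) ^ (d + 2)) ≤ (AllP d H).ncard := by exact_mod_cast allp_ge d H
  have h5 : (0 : ℝ) < (AllP d H).ncard := lt_of_lt_of_le (by positivity) h4
  rw [div_le_iff₀ h5]
  calc ((HP d H).ncard : ℝ) ≤ C * (H : ℝ) ^ ((d : ℝ) + 2 - 1 / 10) := h1 H hH
    _ = C * (H : ℝ) ^ (-(1 / 10) : ℝ) * (H : ℝ) ^ (d + 2) := by
        rw [mul_assoc, ← Real.rpow_natCast, ← Real.rpow_add hH0]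
        congr 2
        push_cast
        ring
    _ ≤ _ := mul_le_mul_of_nonneg_left h4 (by positivity)

end Pool.Agent.H674R3
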