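import Pool.Agent.H674R3.HenA

/-!
Rational periodic points of Hénon maps `(x, y) ↦ (y, (F(y) - δ x) / b)` with integers `b, δ` and
`F` over `ℤ`: denominators, size, and a congruence (as in `HenA`, there `b = 1`).
-/

set_option autoImplicit false

open Finset

namespace Pool.Agent.H674R3

/-- the orbit as a sequence -/
lemma orb_seqB {G : ℚ × ℚ → ℚ} {P : ℚ × ℚ} {n : ℕ}
    (hP : (fun P : ℚ × ℚ => (P.2, G P))^[n] P = P) :
    ∃ x : ℕ → ℚ, Function.Periodic x n ∧ ∀ k, x (k + 2) = G (x k, x (k + 1)) := by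
  obtain ⟨f, hf⟩ : ∃ f : ℚ × ℚ → ℚ × ℚ, f = fun P : ℚ × ℚ => (P.2, G P) := ⟨_, rfl⟩
  rw [← hf] at hP
  have hf1 : ∀ Q, (f Q).1 = Q.2 := by intro Q; rw [hf]
  have hf2 : ∀ Q, (f Q).2 = G Q := by intro Q; rw [hf]
  have h1 : ∀ k, (f^[k + 1] P).1 = (f^[k] P).2 := by
    intro k
    rw [Function.iterate_succ_apply', hf1]
  refine ⟨fun k => (f^[k] P).1, ?_, ?_⟩
  · intro k
    simp only
    rw [Function.iterate_add_apply, hP]
  · intro k
    simp only
    rw [show k + 2 = (k + 1) + 1 from rfl, h1 (k + 1), h1 k, Function.iterate_succ_apply', hf2]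

section

variable {d : ℕ} (hd : 2 ≤ d) {a : ℕ → ℤ} {b δ : ℤ} {x : ℕ → ℚ} {n : ℕ} (hn : 1 ≤ n)
  (hx : Function.Periodic x n)
  (hrec : ∀ k, (b : ℚ) * x (k + 2)
    = ∑ i ∈ range (d + 1), (a i : ℚ) * x (k + 1) ^ i - (δ : ℚ) * x k)

include hd hn hx hrec

/-- `p`-adic size -/
lemma padic_orbB (p : ℕ) [hp : Fact p.Prime] (k : ℕ) : padicNorm p ((a d : ℚ) * x k) ≤ 1 := by
  obtain ⟨m, hm⟩ := max_term hn hx (padicNorm p)
  obtain ⟨t, ht⟩ : ∃ t, t = x (m + 1) := ⟨_, rfl⟩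
  obtain ⟨M, hM⟩ : ∃ M, M = padicNorm p t := ⟨_, rfl⟩
  rw [← ht, ← hM] at hm
  have hM0 : 0 ≤ M := by rw [hM]; exact padicNorm.nonneg _
  have ha1 : padicNorm p (a d : ℚ) ≤ 1 := padicNorm.of_int _
  rw [padicNorm.mul]
  by_contra hcon
  push Not at hcon
  have h1 : 1 < padicNorm p (a d : ℚ) * M :=
    lt_of_lt_of_le hcon (mul_le_mul_of_nonneg_left (hm k) (padicNorm.nonneg _))
  have hM1 : 1 < M := by
    by_contra h
    push Not at h
    have := mul_le_one₀ ha1 hM0 h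
    linarith
  have hMM : M ≤ M ^ (d - 1) := le_self_pow₀ hM1.le (by omega)
  have hM0' : 0 < M ^ (d - 1) := by positivity
  -- the top term
  have h2 : (a d : ℚ) * t ^ d = ((b : ℚ) * x (m + 2) + (δ : ℚ) * x m)
      + (- ∑ i ∈ range d, (a i : ℚ) * t ^ i) := by
    rw [hrec m, ← ht, Finset.sum_range_succ]; ring
  have h3 : padicNorm p ((a d : ℚ) * t ^ d) ≤ M ^ (d - 1) := by
    rw [h2]
    refine padicNorm.nonarchimedean.trans (max_le (padicNorm.nonarchimedean.trans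
      (max_le ?_ ?_)) ?_)
    · rw [padicNorm.mul]
      calc padicNorm p (b : ℚ) * padicNorm p (x (m + 2)) ≤ 1 * M :=
            mul_le_mul (padicNorm.of_int _) (hm _) (padicNorm.nonneg _) zero_le_one
        _ ≤ _ := by rw [one_mul]; exact hMM
    · rw [padicNorm.mul]
      calc padicNorm p (δ : ℚ) * padicNorm p (x m) ≤ 1 * M :=
            mul_le_mul (padicNorm.of_int _) (hm _) (padicNorm.nonneg _) zero_le_one
        _ ≤ _ := by rw [one_mul]; exact hMM
    · rw [padicNorm.neg]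
      apply padicNorm.sum_le' _ hM0'.le
      intro i hi
      rw [Finset.mem_range] at hi
      rw [padicNorm.mul]
      have h4 : padicNorm p (t ^ i) = M ^ i := by
        rw [hM]
        induction i with
        | zero => simp
        | succ j ih =>
          rw [pow_succ, padicNorm.mul, ih (by omega), pow_succ]
      rw [h4]
      calc padicNorm p (a i : ℚ) * M ^ i ≤ 1 * M ^ (d - 1) :=
            mul_le_mul (padicNorm.of_int _) (pow_le_pow_right₀ hM1.le (by omega)) (by positivity)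
              zero_le_one
        _ = _ := one_mul _
  have h5 : ∀ j : ℕ, padicNorm p (t ^ j) = M ^ j := by
    intro j
    rw [hM]
    induction j with
    | zero => simp
    | succ j ih => rw [pow_succ, padicNorm.mul, ih, pow_succ]
  rw [padicNorm.mul, h5] at h3
  have h6 : padicNorm p (a d : ℚ) * M ^ d = (padicNorm p (a d : ℚ) * M) * M ^ (d - 1) := by
    rw [mul_assoc, ← pow_succ', Nat.sub_add_cancel (by omega)]
  rw [h6] at h3
  nlinarith

/-- the orbit lies in `(1 / a_d) ℤ` -/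
lemma int_orbB (k : ℕ) : ∃ z : ℤ, (z : ℚ) = (a d : ℚ) * x k :=
  int_of_padic fun p hp => padic_orbB hd hn hx hrec p k

/-- archimedean size -/
lemma size_orbB {H : ℕ} (hH : 1 ≤ H) (hb : |b| ≤ (H : ℤ)) (ha : ∀ i, i ≤ d → |a i| ≤ (H : ℤ)) (hδ : |δ| ≤ (H : ℤ))
    (k : ℕ) : |(a d : ℚ) * x k| ≤ ((d + 2) * H : ℕ) := by
  obtain ⟨m, hm⟩ := max_term hn hx (fun q => |q|)
  obtain ⟨t, ht⟩ : ∃ t, t = x (m + 1) := ⟨_, rfl⟩
  obtain ⟨M, hM⟩ : ∃ M, M = |t| := ⟨_, rfl⟩
  rw [← ht, ← hM] at hm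
  have hM0 : 0 ≤ M := by rw [hM]; exact abs_nonneg _
  have hHQ : (1 : ℚ) ≤ H := by exact_mod_cast hH
  have haQ : ∀ i, i ≤ d → |(a i : ℚ)| ≤ H := by
    intro i hi
    have := ha i hi
    exact_mod_cast this
  have hδQ : |(δ : ℚ)| ≤ H := by exact_mod_cast hδ
  have hbQ : |(b : ℚ)| ≤ H := by exact_mod_cast hb
  have hkey : |(a d : ℚ)| * M ≤ (d + 2) * H := by
    rcases le_or_gt M 1 with h | h
    · calc |(a d : ℚ)| * M ≤ H * 1 := mul_le_mul (haQ d le_rfl) h hM0 (by linarith)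
        _ ≤ (d + 2) * H := by nlinarith [(Nat.cast_nonneg d : (0 : ℚ) ≤ d)]
    · have hMM : M ≤ M ^ (d - 1) := le_self_pow₀ h.le (by omega)
      have hM0' : 0 < M ^ (d - 1) := by positivity
      have h2 : (a d : ℚ) * t ^ d = (b : ℚ) * x (m + 2) + (δ : ℚ) * x m
          - ∑ i ∈ range d, (a i : ℚ) * t ^ i := by
        rw [hrec m, ← ht, Finset.sum_range_succ]; ring
      have h3 : |(a d : ℚ) * t ^ d| ≤ (H * M + H * M) + ∑ i ∈ range d, (H * M ^ (d - 1)) := by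
        rw [h2]
        refine (abs_sub _ _).trans (add_le_add ((abs_add_le _ _).trans (add_le_add ?_ ?_)) ?_)
        · rw [abs_mul]
          exact mul_le_mul hbQ (hm _) (abs_nonneg _) (by linarith)
        · rw [abs_mul]
          exact mul_le_mul hδQ (hm _) (abs_nonneg _) (by linarith)
        · refine (Finset.abs_sum_le_sum_abs _ _).trans (Finset.sum_le_sum ?_)
          intro i hi
          rw [Finset.mem_range] at hi
          rw [abs_mul, abs_pow, ← hM]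
          exact mul_le_mul (haQ i (by omega)) (pow_le_pow_right₀ h.le (by omega)) (by positivity)
            (by linarith)
      rw [Finset.sum_const, card_range, nsmul_eq_mul, abs_mul, abs_pow, ← hM] at h3
      have h4 : |(a d : ℚ)| * M ^ d = (|(a d : ℚ)| * M) * M ^ (d - 1) := by
        rw [mul_assoc, ← pow_succ', Nat.sub_add_cancel (by omega)]
      rw [h4] at h3
      have h5 : (|(a d : ℚ)| * M) * M ^ (d - 1) ≤ ((d + 2) * H) * M ^ (d - 1) := by
        refine h3.trans ?_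
        have h6 : H * M + H * M ≤ 2 * H * M ^ (d - 1) := by nlinarith
        nlinarith
      exact le_of_mul_le_mul_right h5 hM0'
  rw [abs_mul]
  push_cast
  exact (mul_le_mul_of_nonneg_left (hm k) (abs_nonneg _)).trans hkey

/-- the integral form of the recursion -/
lemma rec_intB {z : ℕ → ℤ} (hz : ∀ k, (z k : ℚ) = (a d : ℚ) * x k) (k : ℕ) :
    z (k + 1) ^ d + ∑ i ∈ range d, a i * (a d) ^ (d - 1 - i) * z (k + 1) ^ i
      = (a d) ^ (d - 2) * (b * z (k + 2) + δ * z k) := by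
  have h1 : ((z (k + 1) ^ d + ∑ i ∈ range d, a i * (a d) ^ (d - 1 - i) * z (k + 1) ^ i : ℤ) : ℚ)
      = (((a d) ^ (d - 2) * (b * z (k + 2) + δ * z k) : ℤ) : ℚ) := by
    push_cast
    have h0 : (b : ℚ) * ((a d : ℚ) * x (k + 2)) = (a d : ℚ) * ((b : ℚ) * x (k + 2)) := by ring
    rw [hz (k + 1), hz (k + 2), hz k, h0, hrec k, Finset.sum_range_succ]
    have h2 : (a d : ℚ) ^ (d - 2) * ((a d : ℚ) * (∑ i ∈ range d, (a i : ℚ) * x (k + 1) ^ i
        + (a d : ℚ) * x (k + 1) ^ d - δ * x k) + δ * ((a d : ℚ) * x k))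
        = (a d : ℚ) ^ (d - 2) * (a d : ℚ) * ∑ i ∈ range d, (a i : ℚ) * x (k + 1) ^ i
          + (a d : ℚ) ^ (d - 2) * (a d : ℚ) * (a d : ℚ) * x (k + 1) ^ d := by ring
    rw [h2]
    have h3 : (a d : ℚ) ^ (d - 2) * (a d : ℚ) = (a d : ℚ) ^ (d - 1) := by
      rw [← pow_succ]; congr 1; omega
    have h4 : (a d : ℚ) ^ (d - 1) * (a d : ℚ) = (a d : ℚ) ^ d := by
      rw [← pow_succ]; congr 1; omega
    rw [h3, h4, Finset.mul_sum, mul_pow, add_comm]
    congr 1
    apply Finset.sum_congr rfl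
    intro i hi
    rw [Finset.mem_range] at hi
    rw [mul_pow]
    have h5 : (a d : ℚ) ^ (d - 1) = (a d : ℚ) ^ (d - 1 - i) * (a d : ℚ) ^ i := by
      rw [← pow_add]; congr 1; omega
    rw [h5]; ring
  exact_mod_cast h1

/-- the congruence -/
lemma dvd_orbB (hd3 : 3 ≤ d) {z : ℕ → ℤ} (hz : ∀ k, (z k : ℚ) = (a d : ℚ) * x k) (k : ℕ) :
    a d ∣ z (k + 1) ^ (d - 1) * (z (k + 1) + a (d - 1)) := by
  have h1 := rec_intB hd hn hx hrec hz k
  obtain ⟨e, rfl⟩ : ∃ e, d = e + 1 := ⟨d - 1, by omega⟩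
  rw [Finset.sum_range_succ] at h1
  have h2 : a (e + 1) ∣ ∑ i ∈ range e, a i * (a (e + 1)) ^ (e + 1 - 1 - i) * z (k + 1) ^ i := by
    apply Finset.dvd_sum
    intro i hi
    rw [Finset.mem_range] at hi
    apply Dvd.dvd.mul_right
    apply Dvd.dvd.mul_left
    exact dvd_pow_self _ (by omega)
  have h3 : a (e + 1) ∣ (a (e + 1)) ^ (e + 1 - 2) * (b * z (k + 2) + δ * z k) :=
    Dvd.dvd.mul_right (dvd_pow_self _ (by omega)) _
  have h4 : z (k + 1) ^ (e + 1 - 1) * (z (k + 1) + a (e + 1 - 1))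
      = (a (e + 1)) ^ (e + 1 - 2) * (b * z (k + 2) + δ * z k)
        - ∑ i ∈ range e, a i * (a (e + 1)) ^ (e + 1 - 1 - i) * z (k + 1) ^ i := by
    rw [← h1]
    simp only [Nat.add_sub_cancel, Nat.sub_self, pow_zero, mul_one]
    ring
  rw [h4]
  exact dvd_sub h3 h2

end

end Pool.Agent.H674R3
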