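import Pool.Agent.H674R3.HenF
import Pool.Agent.H674R3.HenE

/-!
Hénon maps `(x, y) ↦ (y, (F(y) - δ x) / b)`, `deg F ≥ 3`, with a rational periodic point: counting.
-/

set_option autoImplicit false

open Finset

namespace Pool.Agent.H674R3

/-- the coefficients as a function on `ℕ` -/
noncomputable def cg {d : ℕ} (a : Fin (d + 1) → ℤ) (i : ℕ) : ℤ :=
  if h : i < d + 1 then a ⟨i, h⟩ else 0

lemma cg_ext {d : ℕ} {a a' : Fin (d + 1) → ℤ} (h : ∀ i, i ≤ d → cg a i = cg a' i) : a = a' := by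
  funext i
  have := h i (by omega)
  unfold cg at this
  rw [dif_pos (by omega), dif_pos (by omega)] at this
  exact this

/-- the counting lemma -/
theorem count_mainG {d H M T : ℕ} (hd : 3 ≤ d) (B : Finset ((Fin (d + 1) → ℤ) × (ℤ × ℤ)))
    (h1 : ∀ q ∈ B, ∀ i, i ≤ d → |cg q.1 i| ≤ (H : ℤ)) (h2 : ∀ q ∈ B, |q.2.1| ≤ (H : ℤ))
    (h2' : ∀ q ∈ B, |q.2.2| ≤ (H : ℤ)) (h3 : ∀ q ∈ B, cg q.1 d ≠ 0)
    (h4 : ∀ q ∈ B, ∃ z : ℤ × ℤ × ℤ, z.1 ∈ adm d (cg q.1 d) (cg q.1 (d - 1)) M ∧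
      z.2.1 ∈ adm d (cg q.1 d) (cg q.1 (d - 1)) M ∧
      z.2.2 ∈ adm d (cg q.1 d) (cg q.1 (d - 1)) M ∧
      z.2.1 ^ d + ∑ i ∈ range d, cg q.1 i * (cg q.1 d) ^ (d - 1 - i) * z.2.1 ^ i
        = (cg q.1 d) ^ (d - 2) * (q.2.2 * z.2.2 + q.2.1 * z.1)) :
    B.card ≤ (badp d H M T).card * ((2 * H + 1) ^ (d - 1) * ((2 * H + 1) * (2 * H + 1)))
      + T ^ 3 * ((2 * H + 1) ^ d * ((2 * H + 1) * (2 * H + 1))) := by
  classical
  obtain ⟨I, hI⟩ : ∃ I, I = Finset.Icc (-(H : ℤ)) H := ⟨_, rfl⟩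
  have hIc : I.card = 2 * H + 1 := by rw [hI, card_box]
  have hmemI : ∀ t : ℤ, |t| ≤ (H : ℤ) → t ∈ I := by
    intro t ht
    rw [hI, Finset.mem_Icc]
    exact abs_le.1 ht
  rw [← Finset.card_filter_add_card_filter_not
    (fun q : (Fin (d + 1) → ℤ) × (ℤ × ℤ) => T < (adm d (cg q.1 d) (cg q.1 (d - 1)) M).card)]
  apply Nat.add_le_add
  · -- many admissible numerators
    have e1 : (B.filter (fun q => T < (adm d (cg q.1 d) (cg q.1 (d - 1)) M).card)).card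
        ≤ ((badp d H M T) ×ˢ ((Fintype.piFinset (fun _ : Fin (d - 1) => I)) ×ˢ (I ×ˢ I))).card := by
      apply Finset.card_le_card_of_injOn
        (fun q => ((cg q.1 (d - 1), cg q.1 d), ((fun i : Fin (d - 1) => cg q.1 i), q.2)))
      · intro q hq
        rw [Finset.mem_coe, Finset.mem_filter] at hq
        rw [Finset.mem_coe, Finset.mem_product, Finset.mem_product, Finset.mem_product]
        refine ⟨?_, ?_, hmemI _ (h2 q hq.1), hmemI _ (h2' q hq.1)⟩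
        · unfold badp
          rw [← hI, Finset.mem_filter, Finset.mem_product, Finset.mem_filter]
          exact ⟨⟨hmemI _ (h1 q hq.1 _ (by omega)), hmemI _ (h1 q hq.1 _ le_rfl), h3 q hq.1⟩, hq.2⟩
        · rw [Fintype.mem_piFinset]
          intro i
          exact hmemI _ (h1 q hq.1 _ (by omega))
      · intro q _ q' _ h
        simp only [Prod.mk.injEq] at h
        obtain ⟨⟨ha, hb⟩, hc, hd'⟩ := h
        apply Prod.ext _ hd'
        apply cg_ext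
        intro i hi
        rcases Nat.lt_or_ge i (d - 1) with h | h
        · exact congrFun hc ⟨i, h⟩
        · have : i = d - 1 ∨ i = d := by omega
          rcases this with rfl | rfl
          · exact ha
          · exact hb
    refine e1.trans (le_of_eq ?_)
    rw [Finset.card_product, Finset.card_product, Finset.card_product, Fintype.card_piFinset,
      Finset.prod_const, Finset.card_univ, Fintype.card_fin, hIc]
  · -- few admissible numerators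
    have e2 : ((Fintype.piFinset (fun _ : Fin d => I)) ×ˢ (I ×ˢ I)).card
        = (2 * H + 1) ^ d * ((2 * H + 1) * (2 * H + 1)) := by
      rw [Finset.card_product, Finset.card_product, Fintype.card_piFinset, Finset.prod_const,
        Finset.card_univ, Fintype.card_fin, hIc]
    rw [← e2]
    apply Finset.card_le_mul_card_image_of_maps_to
      (f := fun q => ((fun i : Fin d => cg q.1 (i + 1)), q.2))
    · intro q hq
      rw [Finset.mem_filter] at hq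
      rw [Finset.mem_product, Fintype.mem_piFinset, Finset.mem_product]
      refine ⟨fun i => hmemI _ (h1 q hq.1 _ (by omega)), hmemI _ (h2 q hq.1), hmemI _ (h2' q hq.1)⟩
    · intro y _
      obtain ⟨S, hS⟩ : ∃ S, S = ((B.filter
        (fun q => ¬ T < (adm d (cg q.1 d) (cg q.1 (d - 1)) M).card)).filter
        (fun q => ((fun i : Fin d => cg q.1 (i + 1)), q.2) = y)) := ⟨_, rfl⟩
      rw [← hS]
      rcases S.eq_empty_or_nonempty with hemp | ⟨q0, hq0⟩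
      · rw [hemp]; simp
      have hmem : ∀ q ∈ S, q ∈ B ∧ (adm d (cg q.1 d) (cg q.1 (d - 1)) M).card ≤ T ∧
          ((fun i : Fin d => cg q.1 (i + 1)), q.2) = y := by
        intro q hq
        rw [hS, Finset.mem_filter, Finset.mem_filter] at hq
        exact ⟨hq.1.1, not_lt.1 hq.1.2, hq.2⟩
      have hsame : ∀ q ∈ S, ∀ q' ∈ S, (∀ i, 1 ≤ i → cg q.1 i = cg q'.1 i) ∧ q.2 = q'.2 := by
        intro q hq q' hq'
        have h5 := ((hmem q hq).2.2).trans ((hmem q' hq').2.2).symm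
        rw [Prod.mk.injEq] at h5
        refine ⟨fun i hi => ?_, h5.2⟩
        rcases Nat.lt_or_ge d i with h | h
        · unfold cg
          rw [dif_neg (by omega), dif_neg (by omega)]
        · have := congrFun h5.1 ⟨i - 1, by omega⟩
          simp only [Nat.sub_add_cancel hi] at this
          exact this
      choose! z hz using h4
      have hcard : S.card ≤ ((adm d (cg q0.1 d) (cg q0.1 (d - 1)) M) ×ˢ
          ((adm d (cg q0.1 d) (cg q0.1 (d - 1)) M) ×ˢ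
            (adm d (cg q0.1 d) (cg q0.1 (d - 1)) M))).card := by
        apply Finset.card_le_card_of_injOn z
        · intro q hq
          rw [Finset.mem_coe] at hq
          have h6 := hz q (hmem q hq).1
          have h7 := (hsame q hq q0 hq0).1
          rw [h7 d (by omega), h7 (d - 1) (by omega)] at h6
          rw [Finset.mem_coe, Finset.mem_product, Finset.mem_product]
          exact ⟨h6.1, h6.2.1, h6.2.2.1⟩
        · intro q hq q' hq' hzz
          rw [Finset.mem_coe] at hq hq'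
          have h7 := hsame q hq q' hq'
          have h8 := (hz q (hmem q hq).1).2.2.2
          have h9 := (hz q' (hmem q' hq').1).2.2.2
          rw [← hzz, ← h7.2] at h9
          have h10 := a0_unique (z2 := q.2.2 * (z q).2.2) (by omega) (h3 q (hmem q hq).1) h7.1 h8 h9
          apply Prod.ext _ h7.2
          apply cg_ext
          intro i _
          rcases Nat.eq_zero_or_pos i with rfl | hi
          · exact h10
          · exact h7.1 i hi
      refine hcard.trans ?_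
      rw [Finset.card_product, Finset.card_product]
      have hT := (hmem q0 hq0).2.1
      calc _ ≤ T * (T * T) := Nat.mul_le_mul hT (Nat.mul_le_mul hT hT)
        _ = T ^ 3 := by ring

/-- integer vectors `(a, δ, b)` such that the Hénon map `(x, y) ↦ (y, (Σ a_i y^i - δ x) / b)` has a
rational periodic point -/
def HQ (d H : ℕ) : Set ((Fin (d + 1) → ℤ) × (ℤ × ℤ)) :=
  {q | (∀ i, |q.1 i| ≤ (H : ℤ)) ∧ |q.2.1| ≤ (H : ℤ) ∧ |q.2.2| ≤ (H : ℤ) ∧
    q.1 (Fin.last d) ≠ 0 ∧ q.2.1 ≠ 0 ∧ q.2.2 ≠ 0 ∧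
    ∃ P : ℚ × ℚ, ∃ n : ℕ, 1 ≤ n ∧
      (fun P : ℚ × ℚ => (P.2, ((∑ i : Fin (d + 1), (q.1 i : ℚ) * P.2 ^ (i : ℕ)) -
        (q.2.1 : ℚ) * P.1) / (q.2.2 : ℚ)))^[n] P = P}

lemma hq_data {d H : ℕ} (hd : 3 ≤ d) (hH : 1 ≤ H) {q : (Fin (d + 1) → ℤ) × (ℤ × ℤ)}
    (hq : q ∈ HQ d H) :
    (∀ i, i ≤ d → |cg q.1 i| ≤ (H : ℤ)) ∧ |q.2.1| ≤ (H : ℤ) ∧ |q.2.2| ≤ (H : ℤ) ∧ cg q.1 d ≠ 0 ∧
    ∃ z : ℕ → ℤ, (∀ k, |z k| ≤ (((d + 2) * H : ℕ) : ℤ)) ∧
      (∀ k, z (k + 1) ^ d + ∑ i ∈ range d, cg q.1 i * (cg q.1 d) ^ (d - 1 - i) * z (k + 1) ^ i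
        = (cg q.1 d) ^ (d - 2) * (q.2.2 * z (k + 2) + q.2.1 * z k)) ∧
      (∀ k, cg q.1 d ∣ z (k + 1) ^ (d - 1) * (z (k + 1) + cg q.1 (d - 1))) := by
  obtain ⟨h1, h2, h3, h4, h5, h6, P, n, hn, hP⟩ := hq
  have hcf : ∀ i : Fin (d + 1), cg q.1 (i : ℕ) = q.1 i := by
    intro i
    unfold cg
    rw [dif_pos i.2]
  have hle : ∀ i, i ≤ d → |cg q.1 i| ≤ (H : ℤ) := by
    intro i hi
    have := hcf ⟨i, by omega⟩
    simp only at this
    rw [this]; exact h1 _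
  have hcd : cg q.1 d ≠ 0 := by
    have := hcf (Fin.last d)
    rw [Fin.val_last] at this
    rw [this]; exact h4
  have hb0 : (q.2.2 : ℚ) ≠ 0 := by exact_mod_cast h6
  refine ⟨hle, h2, h3, hcd, ?_⟩
  obtain ⟨x, hx, hrec⟩ := orb_seqB (G := fun P : ℚ × ℚ => ((∑ i : Fin (d + 1), (q.1 i : ℚ) *
    P.2 ^ (i : ℕ)) - (q.2.1 : ℚ) * P.1) / (q.2.2 : ℚ)) hP
  have hrec' : ∀ k, (q.2.2 : ℚ) * x (k + 2)
      = ∑ i ∈ range (d + 1), (cg q.1 i : ℚ) * x (k + 1) ^ i - (q.2.1 : ℚ) * x k := by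
    intro k
    rw [hrec k, Finset.sum_range]
    simp only
    rw [mul_div_cancel₀ _ hb0]
    congr 1
    apply Finset.sum_congr rfl
    intro i _
    rw [hcf i]
  have hint : ∀ k, ∃ z : ℤ, (z : ℚ) = (cg q.1 d : ℚ) * x k :=
    fun k => int_orbB (by omega) hn hx hrec' k
  choose z hz using hint
  refine ⟨z, ?_, rec_intB (by omega) hn hx hrec' hz, dvd_orbB (by omega) hn hx hrec' hd hz⟩
  intro k
  have h5 := size_orbB (by omega) hn hx hrec' hH h3 hle h2 k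
  rw [← hz k] at h5
  have h6 : ((|z k| : ℤ) : ℚ) ≤ (((d + 2) * H : ℕ) : ℚ) := by
    rw [Int.cast_abs]; exact h5
  exact_mod_cast h6

lemma hq_finite (d H : ℕ) : (HQ d H).Finite := by
  apply Set.Finite.subset (s := ((Fintype.piFinset fun _ : Fin (d + 1) =>
    Finset.Icc (-(H : ℤ)) H) ×ˢ (Finset.Icc (-(H : ℤ)) H ×ˢ Finset.Icc (-(H : ℤ)) H) :
    Finset ((Fin (d + 1) → ℤ) × (ℤ × ℤ))))
  · exact Finset.finite_toSet _
  · rintro q ⟨h1, h2, h3, _⟩
    rw [Finset.mem_coe, Finset.mem_product, Fintype.mem_piFinset, Finset.mem_product]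
    exact ⟨fun i => Finset.mem_Icc.2 (abs_le.1 (h1 i)), Finset.mem_Icc.2 (abs_le.1 h2),
      Finset.mem_Icc.2 (abs_le.1 h3)⟩

theorem hen_rat {d : ℕ} (hd : 3 ≤ d) : ∃ C : ℝ, 0 < C ∧ ∀ H : ℕ, 1 ≤ H →
    ((HQ d H).ncard : ℝ) ≤ C * (H : ℝ) ^ ((d : ℝ) + 14 / 5) := by
  have hd0 : (0 : ℝ) < d := by exact_mod_cast (by omega : 0 < d)
  obtain ⟨C0, hC0, hdiv⟩ := H510R2.divisor_bound (1 / (20 * d)) (by positivity)
  obtain ⟨C1, hC1⟩ : ∃ C1, C1 = C0 * ((d : ℝ) + 3) ^ (1 / 20 : ℝ) := ⟨_, rfl⟩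
  have hC10 : 0 < C1 := by rw [hC1]; positivity
  obtain ⟨C2, hC2⟩ : ∃ C2, C2 = 6 * (2 * (d : ℝ) + 5) * C1 + 18 := ⟨_, rfl⟩
  have hC20 : 0 < C2 := by rw [hC2]; positivity
  refine ⟨C2 * 3 ^ (d + 1) + 8 * 3 ^ (d + 2), by positivity, fun H hH => ?_⟩
  have hHR : (1 : ℝ) ≤ H := by exact_mod_cast hH
  have hH0 : (0 : ℝ) < H := by linarith
  obtain ⟨M, hM⟩ : ∃ M, M = (d + 2) * H := ⟨_, rfl⟩
  obtain ⟨D, hDdef⟩ : ∃ D, D = ⌊C1 * (H : ℝ) ^ (1 / 20 : ℝ)⌋₊ := ⟨_, rfl⟩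
  obtain ⟨T, hT⟩ : ∃ T, T = ⌈(H : ℝ) ^ (1 / 4 : ℝ)⌉₊ := ⟨_, rfl⟩
  have hD : ∀ n : ℕ, n ≠ 0 → n ≤ M ^ (d - 1) * (M + H) → n.divisors.card ≤ D := by
    intro n hn hnM
    rw [hDdef]
    apply Nat.le_floor
    refine (hdiv n (by omega)).trans ?_
    have e1 : n ≤ ((d + 3) * H) ^ d := by
      calc n ≤ M ^ (d - 1) * (M + H) := hnM
        _ ≤ ((d + 3) * H) ^ (d - 1) * ((d + 3) * H) := by
            apply Nat.mul_le_mul
            · apply Nat.pow_le_pow_left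
              rw [hM]
              exact Nat.mul_le_mul_right _ (by omega)
            · rw [hM]; exact le_of_eq (by ring)
        _ = _ := by rw [← pow_succ, Nat.sub_add_cancel (by omega)]
    have e2 : (n : ℝ) ≤ (((d : ℝ) + 3) * H) ^ (d : ℝ) := by
      rw [Real.rpow_natCast]; exact_mod_cast e1
    rw [hC1, mul_assoc]
    apply mul_le_mul_of_nonneg_left _ hC0.le
    calc (n : ℝ) ^ (1 / (20 * (d : ℝ))) ≤ ((((d : ℝ) + 3) * H) ^ (d : ℝ)) ^ (1 / (20 * (d : ℝ))) :=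
          Real.rpow_le_rpow (by positivity) e2 (by positivity)
      _ = (((d : ℝ) + 3) * H) ^ (1 / 20 : ℝ) := by
          rw [← Real.rpow_mul (by positivity)]
          congr 1
          field_simp
      _ = _ := Real.mul_rpow (by positivity) (by positivity)
  have hDR : (D : ℝ) ≤ C1 * (H : ℝ) ^ (1 / 20 : ℝ) := by
    rw [hDdef]; exact Nat.floor_le (by positivity)
  have hT1 : (H : ℝ) ^ (1 / 4 : ℝ) ≤ T := by rw [hT]; exact Nat.le_ceil _
  have hT2 : (T : ℝ) ≤ 2 * (H : ℝ) ^ (1 / 4 : ℝ) := by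
    have := Nat.ceil_lt_add_one (a := (H : ℝ) ^ (1 / 4 : ℝ)) (by positivity)
    have h1 : 1 ≤ (H : ℝ) ^ (1 / 4 : ℝ) := Real.one_le_rpow hHR (by norm_num)
    rw [hT]; linarith
  obtain ⟨B, hB⟩ : ∃ B : Finset _, (↑B : Set _) = HQ d H :=
    ⟨(hq_finite d H).toFinset, by simp⟩
  rw [← hB, Set.ncard_coe_finset]
  have hmem : ∀ q ∈ B, q ∈ HQ d H := by
    intro q hq
    rw [← hB]; exact hq
  have hcount := count_mainG (M := M) (T := T) hd B
    (fun q hq => (hq_data hd hH (hmem q hq)).1)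
    (fun q hq => (hq_data hd hH (hmem q hq)).2.1)
    (fun q hq => (hq_data hd hH (hmem q hq)).2.2.1)
    (fun q hq => (hq_data hd hH (hmem q hq)).2.2.2.1)
    (by
      intro q hq
      obtain ⟨-, -, -, -, z, hz1, hz2, hz3⟩ := hq_data hd hH (hmem q hq)
      have hadm : ∀ k, z (k + 1) ∈ adm d (cg q.1 d) (cg q.1 (d - 1)) M := by
        intro k
        unfold adm
        rw [Finset.mem_filter, Finset.mem_Icc, hM]
        exact ⟨abs_le.1 (hz1 (k + 1)), hz3 k⟩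
      exact ⟨(z 1, z 2, z 3), hadm 0, hadm 1, hadm 2, hz2 1⟩)
  have hbad := badp_le (T := T) hD
  have hbadR : ((badp d H M T).card : ℝ) * T
      ≤ (2 * H + 1) * ((2 * M + 1) * (D * 2)) + (2 * H + 1) * (2 * (2 * H + 1)) := by
    exact_mod_cast hbad
  have hMR : (M : ℝ) = (d + 2) * H := by rw [hM]; push_cast; ring
  have hp20 : 1 ≤ (H : ℝ) ^ (1 / 20 : ℝ) := Real.one_le_rpow hHR (by norm_num)
  have e3 : ((badp d H M T).card : ℝ) * (H : ℝ) ^ (1 / 4 : ℝ)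
      ≤ C2 * ((H : ℝ) ^ 2 * (H : ℝ) ^ (1 / 20 : ℝ)) := by
    calc ((badp d H M T).card : ℝ) * (H : ℝ) ^ (1 / 4 : ℝ)
        ≤ ((badp d H M T).card : ℝ) * T := mul_le_mul_of_nonneg_left hT1 (Nat.cast_nonneg _)
      _ ≤ (2 * H + 1) * ((2 * M + 1) * (D * 2)) + (2 * H + 1) * (2 * (2 * H + 1)) := hbadR
      _ ≤ (3 * H) * (((2 * d + 5) * H) * ((C1 * (H : ℝ) ^ (1 / 20 : ℝ)) * 2))
          + (3 * H) * (2 * (3 * H)) * (H : ℝ) ^ (1 / 20 : ℝ) := by
          apply add_le_add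
          · apply mul_le_mul (by linarith) _ (by positivity) (by positivity)
            apply mul_le_mul _ (by linarith) (by positivity) (by positivity)
            rw [hMR]
            nlinarith
          · refine le_trans ?_ (le_mul_of_one_le_right (by positivity) hp20)
            apply mul_le_mul (by linarith) (by linarith) (by positivity) (by positivity)
      _ = _ := by rw [hC2]; ring
  have e4 : ((badp d H M T).card : ℝ) ≤ C2 * (H : ℝ) ^ (9 / 5 : ℝ) := by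
    have h5 : (H : ℝ) ^ 2 * (H : ℝ) ^ (1 / 20 : ℝ)
        = (H : ℝ) ^ (9 / 5 : ℝ) * (H : ℝ) ^ (1 / 4 : ℝ) := by
      rw [← Real.rpow_natCast, ← Real.rpow_add hH0, ← Real.rpow_add hH0]
      congr 1
      norm_num
    rw [h5, ← mul_assoc] at e3
    exact le_of_mul_le_mul_right e3 (by positivity)
  have hcR : (B.card : ℝ) ≤ (badp d H M T).card *
      ((2 * H + 1) ^ (d - 1) * ((2 * H + 1) * (2 * H + 1)))
      + (T : ℝ) ^ 3 * ((2 * H + 1) ^ d * ((2 * H + 1) * (2 * H + 1))) := by exact_mod_cast hcount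
  have e5 : ((2 * (H : ℝ) + 1) ^ (d - 1) * ((2 * H + 1) * (2 * H + 1)))
      = (2 * (H : ℝ) + 1) ^ (d + 1) := by
    rw [← mul_assoc, ← pow_succ, Nat.sub_add_cancel (by omega), ← pow_succ]
  have e6 : ((2 * (H : ℝ) + 1) ^ d * ((2 * H + 1) * (2 * H + 1))) = (2 * (H : ℝ) + 1) ^ (d + 2) := by
    rw [← mul_assoc, ← pow_succ, ← pow_succ]
  rw [e5, e6] at hcR
  have e7 : ∀ j : ℕ, (2 * (H : ℝ) + 1) ^ j ≤ 3 ^ j * (H : ℝ) ^ (j : ℝ) := by
    intro j
    rw [Real.rpow_natCast, ← mul_pow]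
    exact pow_le_pow_left₀ (by positivity) (by linarith) _
  refine hcR.trans ?_
  rw [add_mul]
  apply add_le_add
  · calc ((badp d H M T).card : ℝ) * (2 * H + 1) ^ (d + 1)
        ≤ (C2 * (H : ℝ) ^ (9 / 5 : ℝ)) * (3 ^ (d + 1) * (H : ℝ) ^ ((d + 1 : ℕ) : ℝ)) :=
          mul_le_mul e4 (e7 (d + 1)) (by positivity) (by positivity)
      _ = C2 * 3 ^ (d + 1) * ((H : ℝ) ^ ((d + 1 : ℕ) : ℝ) * (H : ℝ) ^ (9 / 5 : ℝ)) := by ring
      _ = _ := by
          rw [← Real.rpow_add hH0]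
          congr 2
          push_cast
          ring
  · have h8 : (T : ℝ) ^ 3 ≤ 8 * (H : ℝ) ^ (3 / 4 : ℝ) := by
      calc (T : ℝ) ^ 3 ≤ (2 * (H : ℝ) ^ (1 / 4 : ℝ)) ^ 3 :=
            pow_le_pow_left₀ (Nat.cast_nonneg _) hT2 _
        _ = 8 * ((H : ℝ) ^ (1 / 4 : ℝ)) ^ 3 := by ring
        _ = _ := by
            rw [← Real.rpow_natCast, ← Real.rpow_mul hH0.le]
            norm_num
    calc (T : ℝ) ^ 3 * (2 * H + 1) ^ (d + 2)
        ≤ (8 * (H : ℝ) ^ (3 / 4 : ℝ)) * (3 ^ (d + 2) * (H : ℝ) ^ ((d + 2 : ℕ) : ℝ)) :=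
          mul_le_mul h8 (e7 (d + 2)) (by positivity) (by positivity)
      _ = 8 * 3 ^ (d + 2) * ((H : ℝ) ^ ((d + 2 : ℕ) : ℝ) * (H : ℝ) ^ (3 / 4 : ℝ)) := by ring
      _ = 8 * 3 ^ (d + 2) * (H : ℝ) ^ (((d + 2 : ℕ) : ℝ) + 3 / 4) := by
          rw [← Real.rpow_add hH0]
      _ ≤ _ := by
          apply mul_le_mul_of_nonneg_left _ (by positivity)
          apply Real.rpow_le_rpow_of_exponent_le hHR
          push_cast
          linarith

end Pool.Agent.H674R3
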