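import Pool.Agent.H674R3.HenG

/-!
All Hénon maps over `ℚ` of degree at least three, ordered by height.
-/

set_option autoImplicit false

open Finset

namespace Pool.Agent.H674R3

/-- Hénon maps over `ℚ` of degree `d` and height at most `H`: the coefficients of `F` and `δ` have
a common denominator `b`, all of size at most `H` -/
def RM (d H : ℕ) : Set ((Fin (d + 1) → ℚ) × ℚ) :=
  {q | q.1 (Fin.last d) ≠ 0 ∧ q.2 ≠ 0 ∧ ∃ b : ℤ, b ≠ 0 ∧ |b| ≤ (H : ℤ) ∧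
    (∃ m : ℤ, |m| ≤ (H : ℤ) ∧ (b : ℚ) * q.2 = m) ∧
    ∀ i, ∃ m : ℤ, |m| ≤ (H : ℤ) ∧ (b : ℚ) * q.1 i = m}

/-- those with a rational periodic point -/
def RMP (d H : ℕ) : Set ((Fin (d + 1) → ℚ) × ℚ) :=
  {q | q ∈ RM d H ∧ ∃ P : ℚ × ℚ, ∃ n : ℕ, 1 ≤ n ∧
      (fun P : ℚ × ℚ => (P.2, (∑ i : Fin (d + 1), q.1 i * P.2 ^ (i : ℕ)) - q.2 * P.1))^[n] P = P}

/-- from integer vectors to maps -/
noncomputable def toR {d : ℕ} (p : (Fin (d + 1) → ℤ) × (ℤ × ℤ)) : (Fin (d + 1) → ℚ) × ℚ :=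
  (fun i => (p.1 i : ℚ) / p.2.2, (p.2.1 : ℚ) / p.2.2)

lemma rmp_sub {d H : ℕ} : RMP d H ⊆ toR '' (HQ d H) := by
  rintro q ⟨⟨h1, h2, b, hb0, hb, ⟨m, hm, hmq⟩, hi⟩, P, n, hn, hP⟩
  choose a ha haq using hi
  have hbQ : (b : ℚ) ≠ 0 := by exact_mod_cast hb0
  have e1 : ∀ i, q.1 i = (a i : ℚ) / b := by
    intro i; rw [← haq i]; field_simp
  have e2 : q.2 = (m : ℚ) / b := by rw [← hmq]; field_simp
  refine ⟨(a, (m, b)), ⟨ha, hm, hb, ?_, ?_, hb0, P, n, hn, ?_⟩, ?_⟩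
  · intro h
    simp only at h
    apply h1
    rw [e1, h]; simp
  · intro h
    simp only at h
    apply h2
    rw [e2, h]; simp
  · have e3 : (fun P : ℚ × ℚ => (P.2, ((∑ i : Fin (d + 1), (a i : ℚ) * P.2 ^ (i : ℕ)) -
        (m : ℚ) * P.1) / (b : ℚ)))
        = (fun P : ℚ × ℚ => (P.2, (∑ i : Fin (d + 1), q.1 i * P.2 ^ (i : ℕ)) - q.2 * P.1)) := by
      funext Q
      simp only [Prod.mk.injEq, true_and]
      rw [sub_div, Finset.sum_div, e2]
      congr 1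
      · apply Finset.sum_congr rfl
        intro i _
        rw [e1]; ring
      · ring
    simp only
    rw [e3]
    exact hP
  · apply Prod.ext
    · funext i
      exact (e1 i).symm
    · exact e2.symm

lemma sum_sq_inv (N : ℕ) (hN : 2 ≤ N) : ∑ n ∈ Finset.Icc 2 N, (1 : ℝ) / (n : ℝ) ^ 2
    ≤ 3 / 4 - 1 / N := by
  induction N, hN using Nat.le_induction with
  | base => norm_num
  | succ k hk ih =>
    rw [Finset.sum_Icc_succ_top (by omega)]
    have hk0 : (0 : ℝ) < k := by exact_mod_cast (by omega : 0 < k)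
    have h1 : (1 : ℝ) / ((k + 1 : ℕ) : ℝ) ^ 2 ≤ 1 / k - 1 / ((k + 1 : ℕ) : ℝ) := by
      push_cast
      rw [div_sub_div _ _ hk0.ne' (by positivity), div_le_div_iff₀ (by positivity) (by positivity)]
      nlinarith
    linarith

/-- many coprime pairs -/
lemma coprime_pairs (H : ℕ) : (H : ℝ) ^ 2 / 4 ≤
    (((Finset.Icc 1 H ×ˢ Finset.Icc 1 H).filter (fun p => Nat.Coprime p.1 p.2)).card : ℝ) := by
  classical
  rcases Nat.lt_or_ge H 2 with hs | hb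
  · have : H = 0 ∨ H = 1 := by omega
    rcases this with rfl | rfl
    · simp
    · have : ((Finset.Icc 1 1 ×ˢ Finset.Icc 1 1).filter
          (fun p : ℕ × ℕ => Nat.Coprime p.1 p.2)).card = 1 := by decide
      rw [this]; norm_num
  have h1 := Finset.card_filter_add_card_filter_not (s := Finset.Icc 1 H ×ˢ Finset.Icc 1 H)
    (fun p : ℕ × ℕ => Nat.Coprime p.1 p.2)
  have h2 : ((Finset.Icc 1 H ×ˢ Finset.Icc 1 H).filter
      (fun p : ℕ × ℕ => ¬ Nat.Coprime p.1 p.2)).card ≤ ∑ n ∈ Finset.Icc 2 H, (H / n) ^ 2 := by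
    have hsub : (Finset.Icc 1 H ×ˢ Finset.Icc 1 H).filter
        (fun p : ℕ × ℕ => ¬ Nat.Coprime p.1 p.2)
        ⊆ (Finset.Icc 2 H).biUnion (fun n => ((Finset.Ioc 0 H).filter (fun x => n ∣ x)) ×ˢ
          ((Finset.Ioc 0 H).filter (fun x => n ∣ x))) := by
      rintro ⟨x, y⟩ hp
      rw [Finset.mem_filter, Finset.mem_product, Finset.mem_Icc, Finset.mem_Icc] at hp
      obtain ⟨⟨hx, hy⟩, hc⟩ := hp
      simp only at hx hy hc
      rw [Finset.mem_biUnion]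
      refine ⟨Nat.gcd x y, ?_, ?_⟩
      · rw [Finset.mem_Icc]
        constructor
        · have h0 : Nat.gcd x y ≠ 0 := by
            rw [Ne, Nat.gcd_eq_zero_iff]; omega
          have h1' : Nat.gcd x y ≠ 1 := hc
          omega
        · exact (Nat.gcd_le_left y (by omega)).trans hx.2
      · rw [Finset.mem_product, Finset.mem_filter, Finset.mem_filter, Finset.mem_Ioc,
          Finset.mem_Ioc]
        exact ⟨⟨⟨by simp only; omega, hx.2⟩, Nat.gcd_dvd_left x y⟩,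
          ⟨⟨by simp only; omega, hy.2⟩, Nat.gcd_dvd_right x y⟩⟩
    refine (Finset.card_le_card hsub).trans (Finset.card_biUnion_le.trans ?_)
    apply Finset.sum_le_sum
    intro n _
    rw [Finset.card_product, Nat.Ioc_filter_dvd_card_eq_div, sq]
  have h3 : ((∑ n ∈ Finset.Icc 2 H, (H / n) ^ 2 : ℕ) : ℝ) ≤ (H : ℝ) ^ 2 * (3 / 4) := by
    push_cast
    calc ∑ n ∈ Finset.Icc 2 H, ((H / n : ℕ) : ℝ) ^ 2
        ≤ ∑ n ∈ Finset.Icc 2 H, (H : ℝ) ^ 2 * (1 / (n : ℝ) ^ 2) := by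
          apply Finset.sum_le_sum
          intro n _
          have : ((H / n : ℕ) : ℝ) ≤ (H : ℝ) / n := Nat.cast_div_le
          calc ((H / n : ℕ) : ℝ) ^ 2 ≤ ((H : ℝ) / n) ^ 2 :=
                pow_le_pow_left₀ (Nat.cast_nonneg _) this _
            _ = _ := by rw [div_pow]; ring
      _ = (H : ℝ) ^ 2 * ∑ n ∈ Finset.Icc 2 H, (1 : ℝ) / (n : ℝ) ^ 2 := by
          rw [Finset.mul_sum]
      _ ≤ _ := by
          apply mul_le_mul_of_nonneg_left _ (by positivity)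
          have h4 := sum_sq_inv H hb
          have : (0 : ℝ) ≤ 1 / H := by positivity
          linarith
  have h5 : (Finset.Icc 1 H ×ˢ Finset.Icc 1 H).card = H ^ 2 := by
    rw [Finset.card_product, Nat.card_Icc]; simp; ring
  rw [h5] at h1
  have h6 : (((Finset.Icc 1 H ×ˢ Finset.Icc 1 H).filter
      (fun p : ℕ × ℕ => Nat.Coprime p.1 p.2)).card : ℝ)
      + (((Finset.Icc 1 H ×ˢ Finset.Icc 1 H).filter
      (fun p : ℕ × ℕ => ¬ Nat.Coprime p.1 p.2)).card : ℝ) = (H : ℝ) ^ 2 := by exact_mod_cast h1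
  have h7 : (((Finset.Icc 1 H ×ˢ Finset.Icc 1 H).filter
      (fun p : ℕ × ℕ => ¬ Nat.Coprime p.1 p.2)).card : ℝ) ≤ (H : ℝ) ^ 2 * (3 / 4) := by
    refine le_trans ?_ h3
    exact_mod_cast h2
  linarith

lemma rm_finite (d H : ℕ) : (RM d H).Finite := by
  have h1 : RM d H ⊆ toR '' {p : (Fin (d + 1) → ℤ) × (ℤ × ℤ) | (∀ i, |p.1 i| ≤ (H : ℤ)) ∧
      |p.2.1| ≤ (H : ℤ) ∧ |p.2.2| ≤ (H : ℤ)} := by
    rintro q ⟨-, -, b, hb0, hb, ⟨m, hm, hmq⟩, hi⟩
    choose a ha haq using hi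
    have hbQ : (b : ℚ) ≠ 0 := by exact_mod_cast hb0
    refine ⟨(a, (m, b)), ⟨ha, hm, hb⟩, ?_⟩
    apply Prod.ext
    · funext i
      show (a i : ℚ) / b = q.1 i
      rw [← haq i]; field_simp
    · show (m : ℚ) / b = q.2
      rw [← hmq]; field_simp
  apply Set.Finite.subset _ h1
  apply Set.Finite.image
  apply Set.Finite.subset (s := ((Fintype.piFinset fun _ : Fin (d + 1) =>
    Finset.Icc (-(H : ℤ)) H) ×ˢ (Finset.Icc (-(H : ℤ)) H ×ˢ Finset.Icc (-(H : ℤ)) H) :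
    Finset ((Fin (d + 1) → ℤ) × (ℤ × ℤ))))
  · exact Finset.finite_toSet _
  · rintro q ⟨h1, h2, h3⟩
    rw [Finset.mem_coe, Finset.mem_product, Fintype.mem_piFinset, Finset.mem_product]
    exact ⟨fun i => Finset.mem_Icc.2 (abs_le.1 (h1 i)), Finset.mem_Icc.2 (abs_le.1 h2),
      Finset.mem_Icc.2 (abs_le.1 h3)⟩

/-- there are at least `H^(d+3)/4` maps of height at most `H` -/
lemma rm_ge (d H : ℕ) : (H : ℝ) ^ (d + 3) / 4 ≤ ((RM d H).ncard : ℝ) := by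
  classical
  obtain ⟨K, hK⟩ : ∃ K, K = (Finset.Icc 1 H ×ˢ Finset.Icc 1 H).filter
    (fun p : ℕ × ℕ => Nat.Coprime p.1 p.2) := ⟨_, rfl⟩
  obtain ⟨F, hF⟩ : ∃ F, F = K ×ˢ ((Fintype.piFinset (fun _ : Fin d => Finset.Icc 1 H)) ×ˢ
    Finset.Icc 1 H) := ⟨_, rfl⟩
  have hFc : F.card = K.card * H ^ (d + 1) := by
    rw [hF, Finset.card_product, Finset.card_product, Fintype.card_piFinset, Finset.prod_const,
      Finset.card_univ, Fintype.card_fin, Nat.card_Icc, Nat.add_sub_cancel, pow_succ]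
  obtain ⟨φ, hφ⟩ : ∃ φ : (ℕ × ℕ) × ((Fin d → ℕ) × ℕ) → (Fin (d + 1) → ℚ) × ℚ,
    φ = fun w => ((Fin.cons ((w.1.1 : ℚ) / w.1.2) (fun i => (w.2.1 i : ℚ) / w.1.2) :
      Fin (d + 1) → ℚ), (w.2.2 : ℚ) / w.1.2) := ⟨_, rfl⟩
  have hmemF : ∀ w ∈ F, (1 ≤ w.1.1 ∧ w.1.1 ≤ H) ∧ (1 ≤ w.1.2 ∧ w.1.2 ≤ H) ∧
      Nat.Coprime w.1.1 w.1.2 ∧ (∀ i, 1 ≤ w.2.1 i ∧ w.2.1 i ≤ H) ∧ (1 ≤ w.2.2 ∧ w.2.2 ≤ H) := by
    intro w hw
    rw [hF, Finset.mem_product, Finset.mem_product, hK, Finset.mem_filter, Finset.mem_product,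
      Fintype.mem_piFinset] at hw
    obtain ⟨⟨⟨g1, g2⟩, g3⟩, g4, g5⟩ := hw
    exact ⟨Finset.mem_Icc.1 g1, Finset.mem_Icc.1 g2, g3, fun i => Finset.mem_Icc.1 (g4 i),
      Finset.mem_Icc.1 g5⟩
  have hinj : Set.InjOn φ F := by
    intro w hw w' hw' h
    obtain ⟨g1, g2, g3, g4, g5⟩ := hmemF w hw
    obtain ⟨k1, k2, k3, k4, k5⟩ := hmemF w' hw'
    rw [hφ] at h
    simp only [Prod.mk.injEq] at h
    obtain ⟨h1, h2⟩ := h
    have e0 := congrFun h1 0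
    simp only [Fin.cons_zero] at e0
    have hw0 : (w.1.2 : ℚ) ≠ 0 := by
      have : w.1.2 ≠ 0 := by omega
      exact_mod_cast this
    have hw0' : (w'.1.2 : ℚ) ≠ 0 := by
      have : w'.1.2 ≠ 0 := by omega
      exact_mod_cast this
    rw [div_eq_div_iff hw0 hw0'] at e0
    have e1 : w.1.1 * w'.1.2 = w'.1.1 * w.1.2 := by exact_mod_cast e0
    have e2 : w.1.2 = w'.1.2 := by
      apply Nat.dvd_antisymm
      · have : w.1.2 ∣ w.1.1 * w'.1.2 := by rw [e1]; exact Dvd.intro_left _ rfl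
        exact g3.symm.dvd_of_dvd_mul_left this
      · have : w'.1.2 ∣ w'.1.1 * w.1.2 := by rw [← e1]; exact Dvd.intro_left _ rfl
        exact k3.symm.dvd_of_dvd_mul_left this
    have e3 : w.1.1 = w'.1.1 := by
      rw [e2] at e1
      exact Nat.eq_of_mul_eq_mul_right (by omega) e1
    have e4 : w.2.1 = w'.2.1 := by
      funext i
      have := congrFun h1 i.succ
      simp only [Fin.cons_succ] at this
      rw [e2, div_left_inj' hw0'] at this
      exact_mod_cast this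
    have e5 : w.2.2 = w'.2.2 := by
      rw [e2, div_left_inj' hw0'] at h2
      exact_mod_cast h2
    exact Prod.ext (Prod.ext e3 e2) (Prod.ext e4 e5)
  have hsub : (↑(F.image φ) : Set _) ⊆ RM d H := by
    intro q hq
    rw [Finset.mem_coe, Finset.mem_image] at hq
    obtain ⟨w, hw, rfl⟩ := hq
    obtain ⟨g1, g2, g3, g4, g5⟩ := hmemF w hw
    have hw0 : (w.1.2 : ℚ) ≠ 0 := by
      have : w.1.2 ≠ 0 := by omega
      exact_mod_cast this
    rw [hφ]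
    have hpos : ∀ i : Fin (d + 1), ∃ m : ℕ, 1 ≤ m ∧ m ≤ H ∧
        (Fin.cons ((w.1.1 : ℚ) / w.1.2) (fun i => (w.2.1 i : ℚ) / w.1.2) : Fin (d + 1) → ℚ) i
          = (m : ℚ) / w.1.2 := by
      intro i
      refine Fin.cases ?_ (fun j => ?_) i
      · exact ⟨w.1.1, g1.1, g1.2, by rw [Fin.cons_zero]⟩
      · exact ⟨w.2.1 j, (g4 j).1, (g4 j).2, by rw [Fin.cons_succ]⟩
    refine ⟨?_, ?_, (w.1.2 : ℤ), ?_, ?_, ⟨(w.2.2 : ℤ), ?_, ?_⟩, ?_⟩
    · obtain ⟨m, hm1, hm2, hm3⟩ := hpos (Fin.last d)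
      simp only
      rw [hm3]
      apply div_ne_zero _ hw0
      have : m ≠ 0 := by omega
      exact_mod_cast this
    · simp only
      apply div_ne_zero _ hw0
      have : w.2.2 ≠ 0 := by omega
      exact_mod_cast this
    · have : w.1.2 ≠ 0 := by omega
      exact_mod_cast this
    · rw [Nat.abs_cast]; exact_mod_cast g2.2
    · rw [Nat.abs_cast]; exact_mod_cast g5.2
    · simp only
      push_cast
      field_simp
    · intro i
      obtain ⟨m, hm1, hm2, hm3⟩ := hpos i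
      refine ⟨(m : ℤ), ?_, ?_⟩
      · rw [Nat.abs_cast]; exact_mod_cast hm2
      · simp only
        rw [hm3]
        push_cast
        field_simp
  have hle : F.card ≤ (RM d H).ncard := by
    rw [← Finset.card_image_of_injOn hinj, ← Set.ncard_coe_finset]
    exact Set.ncard_le_ncard hsub (rm_finite d H)
  have hKc := coprime_pairs H
  rw [← hK] at hKc
  calc (H : ℝ) ^ (d + 3) / 4 = (H : ℝ) ^ 2 / 4 * (H : ℝ) ^ (d + 1) := by ring
    _ ≤ (K.card : ℝ) * (H : ℝ) ^ (d + 1) := mul_le_mul_of_nonneg_right hKc (by positivity)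
    _ = (F.card : ℝ) := by rw [hFc]; push_cast; ring
    _ ≤ _ := by exact_mod_cast hle

theorem rm_bound {d : ℕ} (hd : 3 ≤ d) : ∃ C : ℝ, 0 < C ∧ ∀ H : ℕ, 1 ≤ H →
    ((RMP d H).ncard : ℝ) ≤ C * (H : ℝ) ^ ((d : ℝ) + 3 - 1 / 5) := by
  obtain ⟨C, hC, h⟩ := hen_rat hd
  refine ⟨C, hC, fun H hH => ?_⟩
  have h1 : (RMP d H).ncard ≤ (HQ d H).ncard :=
    (Set.ncard_le_ncard rmp_sub ((hq_finite d H).image _)).trans
      (Set.ncard_image_le (hq_finite d H))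
  have h2 : ((RMP d H).ncard : ℝ) ≤ (HQ d H).ncard := by exact_mod_cast h1
  refine h2.trans ((h H hH).trans (le_of_eq ?_))
  congr 2
  ring

theorem rm_density {d : ℕ} (hd : 3 ≤ d) :
    Filter.Tendsto (fun H : ℕ => ((RMP d H).ncard : ℝ) / (RM d H).ncard) Filter.atTop
      (nhds 0) := by
  obtain ⟨C, hC, h1⟩ := rm_bound hd
  have hlim : Filter.Tendsto (fun H : ℕ => (4 * C) * (H : ℝ) ^ (-(1 / 5) : ℝ)) Filter.atTop
      (nhds 0) := by
    have h2 := (tendsto_rpow_neg_atTop (show (0 : ℝ) < 1 / 5 by norm_num)).comp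
      tendsto_natCast_atTop_atTop
    have h3 := h2.const_mul (4 * C)
    rw [mul_zero] at h3
    exact h3
  apply squeeze_zero' (Filter.Eventually.of_forall fun H => by positivity) _ hlim
  filter_upwards [Filter.eventually_ge_atTop 1] with H hH
  have hH0 : (0 : ℝ) < H := by exact_mod_cast hH
  have h4 := rm_ge d H
  have h5 : (0 : ℝ) < (RM d H).ncard := lt_of_lt_of_le (by positivity) h4
  rw [div_le_iff₀ h5]
  calc ((RMP d H).ncard : ℝ) ≤ C * (H : ℝ) ^ ((d : ℝ) + 3 - 1 / 5) := h1 H hH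
    _ = (4 * C) * (H : ℝ) ^ (-(1 / 5) : ℝ) * ((H : ℝ) ^ (d + 3) / 4) := by
        have : (H : ℝ) ^ ((d : ℝ) + 3 - 1 / 5) = (H : ℝ) ^ (-(1 / 5) : ℝ) * (H : ℝ) ^ (d + 3) := by
          rw [← Real.rpow_natCast, ← Real.rpow_add hH0]
          congr 1
          push_cast
          ring
        rw [this]; ring
    _ ≤ _ := mul_le_mul_of_nonneg_left h4 (by positivity)

end Pool.Agent.H674R3
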