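import Pool.Agent.H674R3.HenS

/-!
HENON project (helper674), part 2: quadratic Hénon maps with rational coefficients. Definitions and
task statements. In all tasks `D` bounds the number of divisors of the integers up to `1000 H ^ 2`.
-/

set_option autoImplicit false

open Finset

namespace Pool.Agent.H674R3.HenR

/-- points `(v, t)` with `b ∣ v t - δ u` and `δ ∣ u (t - u - v) - b v` -/
noncomputable def solR (H : ℕ) (b δ u : ℤ) : Finset (ℤ × ℤ) :=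
  ((Finset.Icc (-(8 * (H : ℤ))) (8 * (H : ℤ))) ×ˢ
    (Finset.Icc (-(9 * (H : ℤ))) (9 * (H : ℤ)))).filter
    (fun p => b ∣ p.1 * p.2 - δ * u ∧ δ ∣ u * (p.2 - u - p.1) - b * p.1)

/-- nonzero integers of size at most `H` -/
noncomputable def nz (H : ℕ) : Finset ℤ := (Finset.Icc (-(H : ℤ)) H).filter (fun x => x ≠ 0)

/-- integers of size at most `8H` -/
noncomputable def bx (H : ℕ) : Finset ℤ := Finset.Icc (-(8 * (H : ℤ))) (8 * (H : ℤ))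

/-- `D` bounds the number of divisors up to `1000 H ^ 2` -/
def DivB (H D : ℕ) : Prop := 1 ≤ D ∧ ∀ n : ℕ, n ≠ 0 → n ≤ 1000 * H ^ 2 → n.divisors.card ≤ D

/-- `(ν, τ)` is a short vector for `(b, δ, u)` -/
def Short (b δ u ν τ : ℤ) : Prop :=
  (ν ≠ 0 ∨ τ ≠ 0) ∧ ν ^ 2 ≤ |δ| ∧ τ ^ 2 ≤ |δ| ∧ δ ∣ u * (τ - ν) - b * ν

/-- bad triples: some short vector is degenerate -/
def BadR (R : ℕ) (b δ u : ℤ) : Prop :=
  ∃ ν τ : ℤ, Short b δ u ν τ ∧ (ν = 0 ∨ τ = 0 ∨ R ^ 3 < Int.gcd b (ν * τ))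

/-- TASK Vand: few roots of a quadratic congruence in an interval. -/
def TaskVand : Prop := ∀ (b α β γ : ℤ) (ℓ G L : ℕ) (S : Finset ℤ),
  Int.gcd b α ≤ G → G * ℓ ^ 3 < b.natAbs → (∀ i ∈ S, b ∣ α * i ^ 2 + β * i + γ) →
  (∀ i ∈ S, ∀ j ∈ S, |i - j| ≤ (L : ℤ)) → S.card ≤ 2 * (L / (ℓ + 1) + 1)

/-- TASK GoodR: bound for good triples. -/
def TaskGoodR : Prop := TaskVand → ∀ (H R : ℕ) (b δ u ν τ : ℤ), 2 ≤ R → R ^ 17 ≤ H →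
  |b| ≤ (H : ℤ) → |δ| ≤ (H : ℤ) → (H : ℤ) ≤ R * |b| → (H : ℤ) ≤ R * |δ| → Int.gcd u δ ≤ R →
  Short b δ u ν τ → ν ≠ 0 → τ ≠ 0 → Int.gcd b (ν * τ) ≤ R ^ 3 →
  R * (solR H b δ u).card ≤ 20000 * H

/-- TASK Short: existence of a short vector. -/
def TaskShort : Prop := ∀ b δ u : ℤ, δ ≠ 0 → ∃ ν τ : ℤ, Short b δ u ν τ

/-- TASK TrivR: trivial bound. -/
def TaskTrivR : Prop := ∀ (H R : ℕ) (b δ u : ℤ), 2 ≤ R → 1 ≤ H → (H : ℤ) ≤ R * |δ| →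
  Int.gcd u δ ≤ R → (solR H b δ u).card ≤ 400 * H * R ^ 2

/-- TASK BadR: few bad triples. -/
def TaskBadR : Prop := ∀ (H R D : ℕ) (S : Finset (ℤ × ℤ × ℤ)), 2 ≤ R → R ^ 17 ≤ H → DivB H D →
  (∀ p ∈ S, p.1 ≠ 0 ∧ |p.1| ≤ (H : ℤ) ∧ |p.2.1| ≤ (H : ℤ) ∧ (H : ℤ) ≤ R * |p.2.1| ∧ p.2.2 ≠ 0 ∧
    |p.2.2| ≤ 8 * (H : ℤ) ∧ Int.gcd p.2.2 p.2.1 ≤ R ∧ BadR R p.1 p.2.1 p.2.2) →
  R ^ 3 * S.card ≤ 2000 * H ^ 3 * D ^ 2

/-- TASK FixB: all solutions for one `b`. -/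
def TaskFixB : Prop := ∀ (H D : ℕ) (b : ℤ), 1 ≤ H → DivB H D → b ≠ 0 → |b| ≤ (H : ℤ) →
  ∑ δ ∈ nz H, ∑ u ∈ bx H, (solR H b δ u).card ≤ 20000 * H ^ 3 * D

/-- TASK FixDU: all solutions for one `(δ, u)`. -/
def TaskFixDU : Prop := ∀ (H D : ℕ) (δ u : ℤ), 1 ≤ H → DivB H D → δ ≠ 0 → |δ| ≤ (H : ℤ) →
  |u| ≤ 8 * (H : ℤ) → ∑ b ∈ nz H, (solR H b δ u).card ≤ 2000 * H ^ 2 * D

/-- TASK Gcd: few pairs with a large gcd. -/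
def TaskGcd : Prop := ∀ (H R : ℕ), 2 ≤ R → R ≤ H →
  R * (((nz H) ×ˢ ((bx H).filter (fun u => u ≠ 0))).filter
    (fun p => R < Int.gcd p.2 p.1)).card ≤ 64 * H ^ 2

/-- TASK AsmR: everything together. -/
def TaskAsmR : Prop := TaskVand → TaskGoodR → TaskShort → TaskTrivR → TaskBadR → TaskFixB →
  TaskFixDU → TaskGcd → ∀ (H R D : ℕ), 2 ≤ R → R ^ 17 ≤ H → DivB H D →
  R * ∑ b ∈ nz H, ∑ δ ∈ nz H, ∑ u ∈ bx H, (solR H b δ u).card ≤ 10 ^ 8 * H ^ 4 * D ^ 2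

end Pool.Agent.H674R3.HenR
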