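import Pool.Agent.H674R3.HenG
import Pool.Agent.H674R3.HenR

/-!
Quadratic Hénon maps with rational coefficients: reduction to the counting of `HenR.solR`.
-/

set_option autoImplicit false

open Finset

namespace Pool.Agent.H674R3

open HenR

theorem count_twoQ {H D : ℕ} (hD : ∀ n : ℕ, n ≠ 0 → n ≤ 1000 * H ^ 2 → n.divisors.card ≤ D)
    (B : Finset ((Fin (2 + 1) → ℤ) × (ℤ × ℤ)))
    (h1 : ∀ q ∈ B, ∀ i, i ≤ 2 → |cg q.1 i| ≤ (H : ℤ)) (h2 : ∀ q ∈ B, |q.2.1| ≤ (H : ℤ))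
    (h2' : ∀ q ∈ B, q.2.1 ≠ 0) (h22 : ∀ q ∈ B, |q.2.2| ≤ (H : ℤ)) (h22' : ∀ q ∈ B, q.2.2 ≠ 0)
    (h3 : ∀ q ∈ B, cg q.1 2 ≠ 0)
    (h4 : ∀ q ∈ B, ∃ z : ℕ → ℤ, (∀ k, |z k| ≤ 4 * (H : ℤ)) ∧
      ∀ k, q.2.2 * z (k + 2) + q.2.1 * z k
        = z (k + 1) ^ 2 + cg q.1 1 * z (k + 1) + cg q.1 0 * cg q.1 2) :
    B.card ≤ (2 * H + 1) ^ 4 + (D * 2) * ((2 * H + 1) *
      ∑ b ∈ nz H, ∑ δ ∈ nz H, ∑ u ∈ bx H, (solR H b δ u).card) := by
  classical
  obtain ⟨I, hI⟩ : ∃ I, I = Finset.Icc (-(H : ℤ)) H := ⟨_, rfl⟩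
  have hIc : I.card = 2 * H + 1 := by rw [hI, card_box]
  have hmemI : ∀ t : ℤ, |t| ≤ (H : ℤ) → t ∈ I := by
    intro t ht
    rw [hI, Finset.mem_Icc]
    exact abs_le.1 ht
  have hmemN : ∀ t : ℤ, t ≠ 0 → |t| ≤ (H : ℤ) → t ∈ nz H := by
    intro t ht0 ht
    unfold nz
    rw [Finset.mem_filter, Finset.mem_Icc]
    exact ⟨abs_le.1 ht, ht0⟩
  rw [← Finset.card_filter_add_card_filter_not
    (fun q : (Fin (2 + 1) → ℤ) × (ℤ × ℤ) => cg q.1 0 = 0)]
  apply Nat.add_le_add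
  · have e1 : (B.filter (fun q => cg q.1 0 = 0)).card ≤ (I ×ˢ (I ×ˢ (I ×ˢ I))).card := by
      apply Finset.card_le_card_of_injOn (fun q => (cg q.1 1, cg q.1 2, q.2))
      · intro q hq
        rw [Finset.mem_coe, Finset.mem_filter] at hq
        rw [Finset.mem_coe, Finset.mem_product, Finset.mem_product, Finset.mem_product]
        exact ⟨hmemI _ (h1 q hq.1 1 (by omega)), hmemI _ (h1 q hq.1 2 le_rfl),
          hmemI _ (h2 q hq.1), hmemI _ (h22 q hq.1)⟩
      · intro q hq q' hq' h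
        rw [Finset.mem_coe, Finset.mem_filter] at hq hq'
        simp only [Prod.mk.injEq] at h
        apply Prod.ext _ h.2.2
        apply cg_ext
        intro i hi
        have : i = 0 ∨ i = 1 ∨ i = 2 := by omega
        rcases this with rfl | rfl | rfl
        · rw [hq.2, hq'.2]
        · exact h.1
        · exact h.2.1
    refine e1.trans (le_of_eq ?_)
    rw [Finset.card_product, Finset.card_product, Finset.card_product, hIc]; ring
  · choose! z hz1 hz2 using h4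
    obtain ⟨W, hW⟩ : ∃ W, W = Finset.sigma ((nz H) ×ˢ ((nz H) ×ˢ (bx H)))
      (fun p : ℤ × (ℤ × ℤ) => solR H p.1 p.2.1 p.2.2) := ⟨_, rfl⟩
    have hWc : (I ×ˢ W).card = (2 * H + 1) *
        ∑ b ∈ nz H, ∑ δ ∈ nz H, ∑ u ∈ bx H, (solR H b δ u).card := by
      rw [Finset.card_product, hIc, hW, Finset.card_sigma, Finset.sum_product]
      congr 1
      apply Finset.sum_congr rfl
      intro b _
      rw [Finset.sum_product]
    rw [← hWc]
    -- the data of `q`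
    obtain ⟨f, hf⟩ : ∃ f : ((Fin (2 + 1) → ℤ) × (ℤ × ℤ)) → ℤ × (Σ _ : ℤ × (ℤ × ℤ), ℤ × ℤ),
      f = fun q => (cg q.1 1, ⟨(q.2.2, (q.2.1, z q 2 - z q 1)),
        (z q 3 - z q 2, z q 3 + z q 2 + cg q.1 1)⟩) := ⟨_, rfl⟩
    apply Finset.card_le_mul_card_image_of_maps_to (f := f)
    · intro q hq
      rw [Finset.mem_filter] at hq
      have hq1 := hq.1
      have g0 := hz2 q hq1 0
      have g1 := hz2 q hq1 1
      have g2 := hz2 q hq1 2
      simp only [Nat.zero_add] at g0 g1 g2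
      norm_num at g0 g1 g2
      have b := hz1 q hq1
      have b0 := abs_le.1 (b 0)
      have b1 := abs_le.1 (b 1)
      have b2 := abs_le.1 (b 2)
      have b3 := abs_le.1 (b 3)
      have b4 := abs_le.1 (b 4)
      have ha1 := abs_le.1 (h1 q hq1 1 (by omega))
      rw [hf]
      simp only
      rw [Finset.mem_product]
      refine ⟨hmemI _ (h1 q hq1 1 (by omega)), ?_⟩
      rw [hW, Finset.mem_sigma, Finset.mem_product, Finset.mem_product]
      refine ⟨⟨hmemN _ (h22' q hq1) (h22 q hq1), hmemN _ (h2' q hq1) (h2 q hq1), ?_⟩, ?_⟩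
      · unfold bx
        rw [Finset.mem_Icc]
        constructor <;> simp only <;> linarith
      · simp only
        unfold solR
        rw [Finset.mem_filter, Finset.mem_product, Finset.mem_Icc, Finset.mem_Icc]
        refine ⟨⟨⟨by simp only; linarith, by simp only; linarith⟩,
          ⟨by simp only; linarith, by simp only; linarith⟩⟩, ?_, ?_⟩
        · simp only
          refine ⟨z q 4 - z q 3, ?_⟩
          linear_combination g1 - g2
        · simp only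
          refine ⟨z q 1 - z q 0, ?_⟩
          linear_combination g0 - g1
    · intro y _
      obtain ⟨S, hS⟩ : ∃ S, S = ((B.filter (fun q => ¬ cg q.1 0 = 0)).filter
        (fun q => f q = y)) := ⟨_, rfl⟩
      rw [← hS]
      rcases S.eq_empty_or_nonempty with hemp | ⟨q0, hq0⟩
      · rw [hemp]; simp
      have hmem : ∀ q ∈ S, q ∈ B ∧ cg q.1 0 ≠ 0 ∧ f q = y := by
        intro q hq
        rw [hS, Finset.mem_filter, Finset.mem_filter] at hq
        exact ⟨hq.1.1, hq.1.2, hq.2⟩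
      have hprod : ∀ q ∈ S, cg q.1 1 = cg q0.1 1 ∧ q.2 = q0.2 ∧
          cg q.1 0 * cg q.1 2 = cg q0.1 0 * cg q0.1 2 := by
        intro q hq
        have h5 := ((hmem q hq).2.2).trans ((hmem q0 hq0).2.2).symm
        rw [hf] at h5
        simp only [Prod.mk.injEq, Sigma.mk.injEq, heq_eq_eq] at h5
        obtain ⟨k1, ⟨k2b, k2, k3⟩, k4, k5⟩ := h5
        have g1 := hz2 q (hmem q hq).1 1
        have g1' := hz2 q0 (hmem q0 hq0).1 1
        norm_num at g1 g1'
        have k6 : z q 2 = z q0 2 := by linarith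
        have k7 : z q 1 = z q0 1 := by linarith
        have k8 : z q 3 = z q0 3 := by linarith
        refine ⟨k1, Prod.ext k2 k2b, ?_⟩
        rw [k1, k2, k2b, k6, k7, k8] at g1
        linarith
      have hc : cg q0.1 0 * cg q0.1 2 ≠ 0 :=
        mul_ne_zero (hmem q0 hq0).2.1 (h3 q0 (hmem q0 hq0).1)
      have hinj : S.card ≤ (S.image (fun q => cg q.1 2)).card := by
        rw [Finset.card_image_of_injOn]
        intro q hq q' hq' hqq
        rw [Finset.mem_coe] at hq hq'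
        simp only at hqq
        obtain ⟨k1, k2, k3⟩ := hprod q hq
        obtain ⟨k1', k2', k3'⟩ := hprod q' hq'
        apply Prod.ext _ (k2.trans k2'.symm)
        apply cg_ext
        intro i hi
        have : i = 0 ∨ i = 1 ∨ i = 2 := by omega
        rcases this with rfl | rfl | rfl
        · have h6 : cg q.1 0 * cg q.1 2 = cg q'.1 0 * cg q.1 2 := by rw [k3, hqq, k3']
          exact mul_right_cancel₀ (h3 q (hmem q hq).1) h6
        · exact k1.trans k1'.symm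
        · exact hqq
      refine hinj.trans ((card_dvd_le hc _ ?_).trans ?_)
      · intro b hb
        rw [Finset.mem_image] at hb
        obtain ⟨q, hq, rfl⟩ := hb
        rw [← (hprod q hq).2.2]
        exact Dvd.intro_left _ rfl
      · apply Nat.mul_le_mul_right
        apply hD _ (Int.natAbs_ne_zero.2 hc)
        rw [Int.natAbs_mul]
        have m0 := h1 q0 (hmem q0 hq0).1 0 (by omega)
        have m2 := h1 q0 (hmem q0 hq0).1 2 le_rfl
        have m0' : (cg q0.1 0).natAbs ≤ H := by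
          rw [← Int.natCast_natAbs] at m0; exact_mod_cast m0
        have m2' : (cg q0.1 2).natAbs ≤ H := by
          rw [← Int.natCast_natAbs] at m2; exact_mod_cast m2
        calc (cg q0.1 0).natAbs * (cg q0.1 2).natAbs ≤ H * H := Nat.mul_le_mul m0' m2'
          _ ≤ 1000 * H ^ 2 := by nlinarith [Nat.zero_le (H * H)]

lemma hq_data2 {d H : ℕ} (hd : 2 ≤ d) (hH : 1 ≤ H) {q : (Fin (d + 1) → ℤ) × (ℤ × ℤ)}
    (hq : q ∈ HQ d H) :
    (∀ i, i ≤ d → |cg q.1 i| ≤ (H : ℤ)) ∧ |q.2.1| ≤ (H : ℤ) ∧ |q.2.2| ≤ (H : ℤ) ∧ cg q.1 d ≠ 0 ∧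
    q.2.1 ≠ 0 ∧ q.2.2 ≠ 0 ∧
    ∃ z : ℕ → ℤ, (∀ k, |z k| ≤ (((d + 2) * H : ℕ) : ℤ)) ∧
      (∀ k, z (k + 1) ^ d + ∑ i ∈ range d, cg q.1 i * (cg q.1 d) ^ (d - 1 - i) * z (k + 1) ^ i
        = (cg q.1 d) ^ (d - 2) * (q.2.2 * z (k + 2) + q.2.1 * z k)) := by
  obtain ⟨h1, h2, h3, h4, h5, h6, P, n, hn, hP⟩ := hq
  have hcf : ∀ i : Fin (d + 1), cg q.1 (i : ℕ) = q.1 i := by
    intro i
    unfold cg
    rw [dif_pos i.2]
  have hle : ∀ i, i ≤ d → |cg q.1 i| ≤ (H : ℤ) := by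
    intro i hi
    have := hcf ⟨i, by omega⟩
    simp only at this
    rw [this]; exact h1 _
  have hcd : cg q.1 d ≠ 0 := by
    have := hcf (Fin.last d)
    rw [Fin.val_last] at this
    rw [this]; exact h4
  have hb0 : (q.2.2 : ℚ) ≠ 0 := by exact_mod_cast h6
  refine ⟨hle, h2, h3, hcd, h5, h6, ?_⟩
  obtain ⟨x, hx, hrec⟩ := orb_seqB (G := fun P : ℚ × ℚ => ((∑ i : Fin (d + 1), (q.1 i : ℚ) *
    P.2 ^ (i : ℕ)) - (q.2.1 : ℚ) * P.1) / (q.2.2 : ℚ)) hP
  have hrec' : ∀ k, (q.2.2 : ℚ) * x (k + 2)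
      = ∑ i ∈ range (d + 1), (cg q.1 i : ℚ) * x (k + 1) ^ i - (q.2.1 : ℚ) * x k := by
    intro k
    rw [hrec k, Finset.sum_range]
    simp only
    rw [mul_div_cancel₀ _ hb0]
    congr 1
    apply Finset.sum_congr rfl
    intro i _
    rw [hcf i]
  have hint : ∀ k, ∃ z : ℤ, (z : ℚ) = (cg q.1 d : ℚ) * x k :=
    fun k => int_orbB (by omega) hn hx hrec' k
  choose z hz using hint
  refine ⟨z, ?_, rec_intB (by omega) hn hx hrec' hz⟩
  intro k
  have h5 := size_orbB (by omega) hn hx hrec' hH h3 hle h2 k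
  rw [← hz k] at h5
  have h6 : ((|z k| : ℤ) : ℚ) ≤ (((d + 2) * H : ℕ) : ℚ) := by
    rw [Int.cast_abs]; exact h5
  exact_mod_cast h6

end Pool.Agent.H674R3
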