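import Pool.Agent.H674R3.HenI
import Pool.Agent.H674R3.HenH

/-!
All Hénon maps over `ℚ` of degree at least two, ordered by height.
-/

set_option autoImplicit false

open Finset

namespace Pool.Agent.H674R3

open HenR

/-- the conclusion of `HenR.TaskAsmR` -/
def SumBoundR : Prop := ∀ (H R D : ℕ), 2 ≤ R → R ^ 17 ≤ H → DivB H D →
  R * ∑ b ∈ nz H, ∑ δ ∈ nz H, ∑ u ∈ bx H, (solR H b δ u).card ≤ 10 ^ 8 * H ^ 4 * D ^ 2

theorem hen_twoQ (hs : SumBoundR) : ∃ C : ℝ, 0 < C ∧ ∀ H : ℕ, 1 ≤ H →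
    ((HQ 2 H).ncard : ℝ) ≤ C * (H : ℝ) ^ ((2 : ℝ) + 59 / 20) := by
  obtain ⟨C0, hC0, hdiv⟩ := H510R2.divisor_bound (1 / 680) (by norm_num)
  obtain ⟨C1, hC1⟩ : ∃ C1, C1 = C0 * (1000 : ℝ) ^ (1 / 680 : ℝ) := ⟨_, rfl⟩
  have hC10 : 0 < C1 := by rw [hC1]; positivity
  refine ⟨(81 + 12 * 10 ^ 8 * C1 ^ 3) + 262145 ^ 5, by positivity, fun H hH => ?_⟩
  have hHR : (1 : ℝ) ≤ H := by exact_mod_cast hH
  have hH0 : (0 : ℝ) < H := by linarith
  obtain ⟨B, hB⟩ : ∃ B : Finset _, (↑B : Set _) = HQ 2 H :=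
    ⟨(hq_finite 2 H).toFinset, by simp⟩
  have hmem : ∀ q ∈ B, q ∈ HQ 2 H := by
    intro q hq
    rw [← hB]; exact hq
  rw [← hB, Set.ncard_coe_finset]
  have hBc : B.card ≤ (2 * H + 1) ^ 5 := by
    have hsub : B ⊆ (Fintype.piFinset fun _ : Fin (2 + 1) =>
        Finset.Icc (-(H : ℤ)) H) ×ˢ (Finset.Icc (-(H : ℤ)) H ×ˢ Finset.Icc (-(H : ℤ)) H) := by
      intro q hq
      obtain ⟨h1, h2, h3, _⟩ := hmem q hq
      rw [Finset.mem_product, Fintype.mem_piFinset, Finset.mem_product]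
      exact ⟨fun i => Finset.mem_Icc.2 (abs_le.1 (h1 i)), Finset.mem_Icc.2 (abs_le.1 h2),
        Finset.mem_Icc.2 (abs_le.1 h3)⟩
    refine (Finset.card_le_card hsub).trans (le_of_eq ?_)
    rw [Finset.card_product, Finset.card_product, Fintype.card_piFinset, Finset.prod_const,
      Finset.card_univ, Fintype.card_fin, card_box]
    ring
  have hpow1 : 1 ≤ (H : ℝ) ^ ((2 : ℝ) + 59 / 20) := Real.one_le_rpow hHR (by norm_num)
  rcases Nat.lt_or_ge H 131072 with hsmall | hbig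
  · have h1 : (B.card : ℝ) ≤ 262145 ^ 5 := by
      have : B.card ≤ 262145 ^ 5 := by
        refine hBc.trans ?_
        exact Nat.pow_le_pow_left (by omega) 5
      exact_mod_cast this
    calc (B.card : ℝ) ≤ 262145 ^ 5 * 1 := by linarith
      _ ≤ ((81 + 12 * 10 ^ 8 * C1 ^ 3) + 262145 ^ 5) * (H : ℝ) ^ ((2 : ℝ) + 59 / 20) := by
          apply mul_le_mul _ hpow1 zero_le_one (by positivity)
          have : 0 < 81 + 12 * 10 ^ 8 * C1 ^ 3 := by positivity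
          linarith
  obtain ⟨R, hR⟩ : ∃ R, R = ⌊(H : ℝ) ^ (1 / 17 : ℝ)⌋₊ := ⟨_, rfl⟩
  have hR2 : 2 ≤ R := by
    rw [hR]
    apply Nat.le_floor
    have h512 : (131072 : ℝ) ≤ H := by exact_mod_cast hbig
    calc ((2 : ℕ) : ℝ) = (131072 : ℝ) ^ (1 / 17 : ℝ) := by
          rw [show (131072 : ℝ) = 2 ^ (17 : ℝ) by norm_num, ← Real.rpow_mul (by norm_num)]
          norm_num
      _ ≤ _ := Real.rpow_le_rpow (by norm_num) h512 (by norm_num)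
  have hRle : (R : ℝ) ≤ (H : ℝ) ^ (1 / 17 : ℝ) := by
    rw [hR]; exact Nat.floor_le (by positivity)
  have hR17 : R ^ 17 ≤ H := by
    have h1 : (R : ℝ) ^ 17 ≤ H := by
      calc (R : ℝ) ^ 17 ≤ ((H : ℝ) ^ (1 / 17 : ℝ)) ^ 17 :=
            pow_le_pow_left₀ (Nat.cast_nonneg _) hRle _
        _ = H := by
            rw [← Real.rpow_natCast, ← Real.rpow_mul hH0.le]
            norm_num
    exact_mod_cast h1
  have hRge : (H : ℝ) ^ (1 / 17 : ℝ) ≤ 2 * R := by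
    have h1 := Nat.lt_floor_add_one ((H : ℝ) ^ (1 / 17 : ℝ))
    rw [← hR] at h1
    have : (2 : ℝ) ≤ R := by exact_mod_cast hR2
    linarith
  obtain ⟨D, hDdef⟩ : ∃ D, D = ⌊C1 * (H : ℝ) ^ (1 / 340 : ℝ)⌋₊ := ⟨_, rfl⟩
  have hDR : (D : ℝ) ≤ C1 * (H : ℝ) ^ (1 / 340 : ℝ) := by
    rw [hDdef]; exact Nat.floor_le (by positivity)
  have hD : ∀ n : ℕ, n ≠ 0 → n ≤ 1000 * H ^ 2 → n.divisors.card ≤ D := by
    intro n hn hnH
    rw [hDdef]
    apply Nat.le_floor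
    refine (hdiv n (by omega)).trans ?_
    rw [hC1, mul_assoc]
    apply mul_le_mul_of_nonneg_left _ hC0.le
    have e2 : (n : ℝ) ≤ 1000 * (H : ℝ) ^ (2 : ℝ) := by
      rw [show (2 : ℝ) = ((2 : ℕ) : ℝ) by norm_num, Real.rpow_natCast]; exact_mod_cast hnH
    calc (n : ℝ) ^ (1 / 680 : ℝ) ≤ (1000 * (H : ℝ) ^ (2 : ℝ)) ^ (1 / 680 : ℝ) :=
          Real.rpow_le_rpow (by positivity) e2 (by positivity)
      _ = _ := by
          rw [Real.mul_rpow (by norm_num) (by positivity), ← Real.rpow_mul hH0.le]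
          norm_num
  have hDB : DivB H D := by
    refine ⟨?_, hD⟩
    have := hD 1 (by norm_num) (by nlinarith [Nat.mul_le_mul hH hH])
    simpa using this
  have hcount := count_twoQ hD B
    (fun q hq => (hq_data2 le_rfl hH (hmem q hq)).1)
    (fun q hq => (hq_data2 le_rfl hH (hmem q hq)).2.1)
    (fun q hq => (hq_data2 le_rfl hH (hmem q hq)).2.2.2.2.1)
    (fun q hq => (hq_data2 le_rfl hH (hmem q hq)).2.2.1)
    (fun q hq => (hq_data2 le_rfl hH (hmem q hq)).2.2.2.2.2.1)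
    (fun q hq => (hq_data2 le_rfl hH (hmem q hq)).2.2.2.1)
    (by
      intro q hq
      obtain ⟨-, -, -, -, -, -, z, hz1, hz2⟩ := hq_data2 le_rfl hH (hmem q hq)
      refine ⟨z, fun k => ?_, fun k => ?_⟩
      · have := hz1 k
        push_cast at this
        linarith
      · have h5 := hz2 k
        rw [Finset.sum_range_succ, Finset.sum_range_one] at h5
        norm_num at h5
        linarith)
  have hsum := hs H R D hR2 hR17 hDB
  obtain ⟨W, hW⟩ : ∃ W, W = ∑ b ∈ nz H, ∑ δ ∈ nz H, ∑ u ∈ bx H, (solR H b δ u).card := ⟨_, rfl⟩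
  rw [← hW] at hsum hcount
  have hsumR : (R : ℝ) * W ≤ 10 ^ 8 * (H : ℝ) ^ 4 * (D : ℝ) ^ 2 := by exact_mod_cast hsum
  have hW0 : (0 : ℝ) ≤ W := Nat.cast_nonneg _
  have hW1 : (W : ℝ) * (H : ℝ) ^ (1 / 17 : ℝ)
      ≤ 2 * 10 ^ 8 * C1 ^ 2 * ((H : ℝ) ^ (4 : ℝ) * ((H : ℝ) ^ (1 / 340 : ℝ)) ^ 2) := by
    have e4 : (H : ℝ) ^ (4 : ℝ) = (H : ℝ) ^ 4 := by
      rw [show (4 : ℝ) = ((4 : ℕ) : ℝ) by norm_num, Real.rpow_natCast]
    calc (W : ℝ) * (H : ℝ) ^ (1 / 17 : ℝ) ≤ W * (2 * R) := mul_le_mul_of_nonneg_left hRge hW0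
      _ = 2 * ((R : ℝ) * W) := by ring
      _ ≤ 2 * (10 ^ 8 * (H : ℝ) ^ 4 * (D : ℝ) ^ 2) := by linarith
      _ ≤ 2 * (10 ^ 8 * (H : ℝ) ^ 4 * (C1 * (H : ℝ) ^ (1 / 340 : ℝ)) ^ 2) := by
          apply mul_le_mul_of_nonneg_left _ (by norm_num)
          apply mul_le_mul_of_nonneg_left _ (by positivity)
          exact pow_le_pow_left₀ (Nat.cast_nonneg _) hDR 2
      _ = _ := by rw [e4]; ring
  have hW2 : (W : ℝ) ≤ 2 * 10 ^ 8 * C1 ^ 2 *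
      ((H : ℝ) ^ (4 : ℝ) * ((H : ℝ) ^ (1 / 340 : ℝ) * (H : ℝ) ^ (1 / 340 : ℝ)) *
        (H : ℝ) ^ (-(1 / 17) : ℝ)) := by
    have e1 : (H : ℝ) ^ (1 / 17 : ℝ) * (H : ℝ) ^ (-(1 / 17) : ℝ) = 1 := by
      rw [← Real.rpow_add hH0]; norm_num
    calc (W : ℝ) = W * (H : ℝ) ^ (1 / 17 : ℝ) * (H : ℝ) ^ (-(1 / 17) : ℝ) := by
          rw [mul_assoc, e1, mul_one]
      _ ≤ (2 * 10 ^ 8 * C1 ^ 2 * ((H : ℝ) ^ (4 : ℝ) * ((H : ℝ) ^ (1 / 340 : ℝ)) ^ 2))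
          * (H : ℝ) ^ (-(1 / 17) : ℝ) := mul_le_mul_of_nonneg_right hW1 (by positivity)
      _ = _ := by ring
  have hcR : (B.card : ℝ) ≤ (2 * H + 1) ^ 4 + (D * 2) * ((2 * H + 1) * W) := by
    exact_mod_cast hcount
  have h81 : (2 * (H : ℝ) + 1) ^ 4 ≤ 81 * (H : ℝ) ^ ((2 : ℝ) + 59 / 20) := by
    calc (2 * (H : ℝ) + 1) ^ 4 ≤ (3 * H) ^ 4 := pow_le_pow_left₀ (by positivity) (by linarith) _
      _ = 81 * (H : ℝ) ^ (4 : ℝ) := by
          rw [show (4 : ℝ) = ((4 : ℕ) : ℝ) by norm_num, Real.rpow_natCast]; push_cast; ring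
      _ ≤ _ := by
          apply mul_le_mul_of_nonneg_left _ (by norm_num)
          exact Real.rpow_le_rpow_of_exponent_le hHR (by norm_num)
  have hmain : (D * 2 : ℝ) * ((2 * H + 1) * W)
      ≤ (12 * 10 ^ 8 * C1 ^ 3) * (H : ℝ) ^ ((2 : ℝ) + 59 / 20) := by
    calc (D * 2 : ℝ) * ((2 * H + 1) * W)
        ≤ (C1 * (H : ℝ) ^ (1 / 340 : ℝ) * 2) * ((3 * (H : ℝ) ^ (1 : ℝ)) *
          (2 * 10 ^ 8 * C1 ^ 2 *
            ((H : ℝ) ^ (4 : ℝ) * ((H : ℝ) ^ (1 / 340 : ℝ) * (H : ℝ) ^ (1 / 340 : ℝ)) *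
              (H : ℝ) ^ (-(1 / 17) : ℝ)))) := by
          apply mul_le_mul (by linarith) _ (by positivity) (by positivity)
          apply mul_le_mul _ hW2 (by positivity) (by positivity)
          rw [Real.rpow_one]; linarith
      _ = (12 * 10 ^ 8 * C1 ^ 3) * ((H : ℝ) ^ (1 / 340 : ℝ) * ((H : ℝ) ^ (1 : ℝ) *
          ((H : ℝ) ^ (4 : ℝ) * ((H : ℝ) ^ (1 / 340 : ℝ) * ((H : ℝ) ^ (1 / 340 : ℝ)
            * (H : ℝ) ^ (-(1 / 17) : ℝ)))))) := by ring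
      _ = _ := by
          rw [← Real.rpow_add hH0, ← Real.rpow_add hH0, ← Real.rpow_add hH0, ← Real.rpow_add hH0,
            ← Real.rpow_add hH0]
          norm_num
  calc (B.card : ℝ) ≤ _ := hcR
    _ ≤ 81 * (H : ℝ) ^ ((2 : ℝ) + 59 / 20)
        + (12 * 10 ^ 8 * C1 ^ 3) * (H : ℝ) ^ ((2 : ℝ) + 59 / 20) := add_le_add h81 hmain
    _ ≤ _ := by
        rw [← add_mul]
        apply mul_le_mul_of_nonneg_right _ (by positivity)
        linarith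

/-- all degrees -/
theorem hen_ratAll (hs : SumBoundR) {d : ℕ} (hd : 2 ≤ d) : ∃ C : ℝ, 0 < C ∧ ∀ H : ℕ, 1 ≤ H →
    ((HQ d H).ncard : ℝ) ≤ C * (H : ℝ) ^ ((d : ℝ) + 3 - 1 / 20) := by
  rcases Nat.lt_or_ge d 3 with h | h
  · have : d = 2 := by omega
    subst this
    obtain ⟨C, hC, h1⟩ := hen_twoQ hs
    refine ⟨C, hC, fun H hH => ?_⟩
    have e : ((2 : ℕ) : ℝ) + 3 - 1 / 20 = (2 : ℝ) + 59 / 20 := by norm_num
    rw [e]
    exact h1 H hH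
  · obtain ⟨C, hC, h1⟩ := hen_rat h
    refine ⟨C, hC, fun H hH => (h1 H hH).trans ?_⟩
    apply mul_le_mul_of_nonneg_left _ hC.le
    apply Real.rpow_le_rpow_of_exponent_le (by exact_mod_cast hH)
    linarith

theorem rm_bound2 (hs : SumBoundR) {d : ℕ} (hd : 2 ≤ d) : ∃ C : ℝ, 0 < C ∧ ∀ H : ℕ, 1 ≤ H →
    ((RMP d H).ncard : ℝ) ≤ C * (H : ℝ) ^ ((d : ℝ) + 3 - 1 / 20) := by
  obtain ⟨C, hC, h⟩ := hen_ratAll hs hd
  refine ⟨C, hC, fun H hH => ?_⟩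
  have h1 : (RMP d H).ncard ≤ (HQ d H).ncard :=
    (Set.ncard_le_ncard rmp_sub ((hq_finite d H).image _)).trans
      (Set.ncard_image_le (hq_finite d H))
  have h2 : ((RMP d H).ncard : ℝ) ≤ (HQ d H).ncard := by exact_mod_cast h1
  exact h2.trans (h H hH)

theorem rm_density2 (hs : SumBoundR) {d : ℕ} (hd : 2 ≤ d) :
    Filter.Tendsto (fun H : ℕ => ((RMP d H).ncard : ℝ) / (RM d H).ncard) Filter.atTop
      (nhds 0) := by
  obtain ⟨C, hC, h1⟩ := rm_bound2 hs hd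
  have hlim : Filter.Tendsto (fun H : ℕ => (4 * C) * (H : ℝ) ^ (-(1 / 20) : ℝ)) Filter.atTop
      (nhds 0) := by
    have h2 := (tendsto_rpow_neg_atTop (show (0 : ℝ) < 1 / 20 by norm_num)).comp
      tendsto_natCast_atTop_atTop
    have h3 := h2.const_mul (4 * C)
    rw [mul_zero] at h3
    exact h3
  apply squeeze_zero' (Filter.Eventually.of_forall fun H => by positivity) _ hlim
  filter_upwards [Filter.eventually_ge_atTop 1] with H hH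
  have hH0 : (0 : ℝ) < H := by exact_mod_cast hH
  have h4 := rm_ge d H
  have h5 : (0 : ℝ) < (RM d H).ncard := lt_of_lt_of_le (by positivity) h4
  rw [div_le_iff₀ h5]
  calc ((RMP d H).ncard : ℝ) ≤ C * (H : ℝ) ^ ((d : ℝ) + 3 - 1 / 20) := h1 H hH
    _ = (4 * C) * (H : ℝ) ^ (-(1 / 20) : ℝ) * ((H : ℝ) ^ (d + 3) / 4) := by
        have : (H : ℝ) ^ ((d : ℝ) + 3 - 1 / 20) = (H : ℝ) ^ (-(1 / 20) : ℝ) * (H : ℝ) ^ (d + 3) := by
          rw [← Real.rpow_natCast, ← Real.rpow_add hH0]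
          congr 1
          push_cast
          ring
        rw [this]; ring
    _ ≤ _ := mul_le_mul_of_nonneg_left h4 (by positivity)

end Pool.Agent.H674R3
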