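import Pool.Agent.H674R3.HenR

/-!
HENON project: proof of TASK AsmR (helper699).
-/

set_option autoImplicit false

open Finset

namespace Pool.Agent.H674R3.HenR

lemma asmR_card_small (H R : ℕ) (hRH : R ≤ H) (hR : 0 < R) :
    R * ((nz H).filter (fun x => (R : ℤ) * |x| < H)).card ≤ 3 * H := by
  have hk : R * (H / R) ≤ H := Nat.mul_div_le H R
  have hsub : (nz H).filter (fun x => (R : ℤ) * |x| < H) ⊆
      Finset.Icc (-((H / R : ℕ) : ℤ)) ((H / R : ℕ) : ℤ) := by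
    intro x hx
    rw [Finset.mem_filter] at hx
    have h1 := hx.2
    rw [Finset.mem_Icc, ← abs_le]
    have h2 : x.natAbs ≤ H / R := by
      rw [Nat.le_div_iff_mul_le hR]
      have h0 : (R : ℤ) * |x| = ((R * x.natAbs : ℕ) : ℤ) := by
        rw [Nat.cast_mul, Int.natCast_natAbs]
      rw [h0] at h1
      have h3 : R * x.natAbs < H := by exact_mod_cast h1
      rw [mul_comm]; exact h3.le
    rw [Int.abs_eq_natAbs]; exact_mod_cast h2
  have hc := Finset.card_le_card hsub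
  rw [Int.card_Icc] at hc
  generalize H / R = k at *
  have hc2 : ((nz H).filter (fun x => (R : ℤ) * |x| < H)).card ≤ 2 * k + 1 := by
    omega
  calc _ ≤ R * (2 * k + 1) := Nat.mul_le_mul_left _ hc2
    _ = 2 * (R * k) + R := by ring
    _ ≤ 2 * H + H := by omega
    _ = 3 * H := by ring

lemma asmR_card_nz (H : ℕ) (hH : 1 ≤ H) : (nz H).card ≤ 3 * H := by
  have h1 : (nz H).card ≤ (Finset.Icc (-(H : ℤ)) H).card := Finset.card_filter_le _ _
  rw [Int.card_Icc] at h1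
  omega

lemma asmR_card_bx (H : ℕ) (hH : 1 ≤ H) : (bx H).card ≤ 17 * H := by
  unfold bx
  rw [Int.card_Icc]
  omega

lemma asmR_sum_union_le {α : Type*} [DecidableEq α] (A B : Finset α) (f : α → ℕ) :
    ∑ x ∈ A ∪ B, f x ≤ ∑ x ∈ A, f x + ∑ x ∈ B, f x := by
  rw [← Finset.sum_union_inter]
  exact Nat.le_add_right _ _

lemma asmR_mem_nz {H : ℕ} {x : ℤ} : x ∈ nz H ↔ |x| ≤ (H : ℤ) ∧ x ≠ 0 := by
  unfold nz
  rw [Finset.mem_filter, Finset.mem_Icc, abs_le]

lemma asmR_mem_bx {H : ℕ} {x : ℤ} : x ∈ bx H ↔ |x| ≤ 8 * (H : ℤ) := by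
  unfold bx
  rw [Finset.mem_Icc, abs_le]

lemma asmR_sum_Q (hFD : TaskFixDU) (H D : ℕ) (hH : 1 ≤ H) (hD : DivB H D)
    (Q : Finset (ℤ × ℤ)) (hQ : Q ⊆ nz H ×ˢ bx H) :
    ∑ p ∈ nz H ×ˢ Q, (solR H p.1 p.2.1 p.2.2).card ≤ Q.card * (2000 * H ^ 2 * D) := by
  rw [Finset.sum_product, Finset.sum_comm]
  have h : ∀ q ∈ Q, ∑ b ∈ nz H, (solR H b q.1 q.2).card ≤ 2000 * H ^ 2 * D := by
    intro q hq
    have hq' := hQ hq
    rw [Finset.mem_product, asmR_mem_nz, asmR_mem_bx] at hq'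
    exact hFD H D q.1 q.2 hH hD hq'.1.2 hq'.1.1 hq'.2
  have := Finset.sum_le_card_nsmul Q _ _ h
  rw [smul_eq_mul] at this
  exact this

theorem taskAsmR : TaskAsmR := by
  classical
  intro hV hG hS hT hB hFB hFD hGcd H R D hR hRH hD
  have hD1 : 1 ≤ D := hD.1
  have hR0 : 0 < R := by omega
  have hRleH : R ≤ H := le_trans (Nat.le_self_pow (by norm_num) R) hRH
  have hH1 : 1 ≤ H := by omega
  have hsum : ∑ b ∈ nz H, ∑ δ ∈ nz H, ∑ u ∈ bx H, (solR H b δ u).card =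
      ∑ p ∈ nz H ×ˢ (nz H ×ˢ bx H), (solR H p.1 p.2.1 p.2.2).card := by
    rw [Finset.sum_product]
    refine Finset.sum_congr rfl fun b _ => ?_
    rw [Finset.sum_product]
  rw [hsum]
  -- the six pieces
  set A : Finset (ℤ × ℤ × ℤ) :=
    ((nz H).filter (fun x => (R : ℤ) * |x| < H)) ×ˢ (nz H ×ˢ bx H) with hA
  set QB : Finset (ℤ × ℤ) := ((nz H).filter (fun x => (R : ℤ) * |x| < H)) ×ˢ bx H with hQB
  set QC : Finset (ℤ × ℤ) := nz H ×ˢ {0} with hQC
  set QD : Finset (ℤ × ℤ) := ((nz H) ×ˢ ((bx H).filter (fun u => u ≠ 0))).filter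
    (fun p => R < Int.gcd p.2 p.1) with hQD
  set E : Finset (ℤ × ℤ × ℤ) := (nz H ×ˢ (nz H ×ˢ bx H)).filter (fun p =>
    (H : ℤ) ≤ R * |p.2.1| ∧ p.2.2 ≠ 0 ∧ Int.gcd p.2.2 p.2.1 ≤ R ∧
      BadR R p.1 p.2.1 p.2.2) with hE
  set F : Finset (ℤ × ℤ × ℤ) := (nz H ×ˢ (nz H ×ˢ bx H)).filter (fun p =>
    (H : ℤ) ≤ R * |p.1| ∧ (H : ℤ) ≤ R * |p.2.1| ∧ p.2.2 ≠ 0 ∧ Int.gcd p.2.2 p.2.1 ≤ R ∧
      ¬ BadR R p.1 p.2.1 p.2.2) with hF
  have hcover : nz H ×ˢ (nz H ×ˢ bx H) ⊆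
      A ∪ (nz H ×ˢ QB ∪ (nz H ×ˢ QC ∪ (nz H ×ˢ QD ∪ (E ∪ F)))) := by
    rintro ⟨b, δ, u⟩ hp
    have hp' := hp
    rw [Finset.mem_product, Finset.mem_product] at hp'
    obtain ⟨hb, hδ, hu⟩ := hp'
    simp only at hb hδ hu
    by_cases h1 : (R : ℤ) * |b| < H
    · apply Finset.mem_union_left
      rw [hA, Finset.mem_product, Finset.mem_filter, Finset.mem_product]
      exact ⟨⟨hb, h1⟩, hδ, hu⟩
    apply Finset.mem_union_right
    by_cases h2 : (R : ℤ) * |δ| < H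
    · apply Finset.mem_union_left
      rw [hQB, Finset.mem_product, Finset.mem_product, Finset.mem_filter]
      exact ⟨hb, ⟨hδ, h2⟩, hu⟩
    apply Finset.mem_union_right
    by_cases h3 : u = 0
    · apply Finset.mem_union_left
      rw [hQC, Finset.mem_product, Finset.mem_product, Finset.mem_singleton]
      exact ⟨hb, hδ, h3⟩
    apply Finset.mem_union_right
    by_cases h4 : R < Int.gcd u δ
    · apply Finset.mem_union_left
      rw [hQD, Finset.mem_product, Finset.mem_filter, Finset.mem_product, Finset.mem_filter]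
      exact ⟨hb, ⟨hδ, hu, h3⟩, h4⟩
    apply Finset.mem_union_right
    rw [not_lt] at h1 h2 h4
    by_cases h5 : BadR R b δ u
    · apply Finset.mem_union_left
      rw [hE, Finset.mem_filter]
      exact ⟨hp, h2, h3, h4, h5⟩
    · apply Finset.mem_union_right
      rw [hF, Finset.mem_filter]
      exact ⟨hp, h1, h2, h3, h4, h5⟩
  have hsplit : ∑ p ∈ nz H ×ˢ (nz H ×ˢ bx H), (solR H p.1 p.2.1 p.2.2).card ≤
      ∑ p ∈ A, (solR H p.1 p.2.1 p.2.2).card +
      (∑ p ∈ nz H ×ˢ QB, (solR H p.1 p.2.1 p.2.2).card +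
      (∑ p ∈ nz H ×ˢ QC, (solR H p.1 p.2.1 p.2.2).card +
      (∑ p ∈ nz H ×ˢ QD, (solR H p.1 p.2.1 p.2.2).card +
      (∑ p ∈ E, (solR H p.1 p.2.1 p.2.2).card +
      ∑ p ∈ F, (solR H p.1 p.2.1 p.2.2).card)))) := by
    refine (Finset.sum_le_sum_of_subset hcover).trans ?_
    refine (asmR_sum_union_le _ _ _).trans (Nat.add_le_add_left ?_ _)
    refine (asmR_sum_union_le _ _ _).trans (Nat.add_le_add_left ?_ _)
    refine (asmR_sum_union_le _ _ _).trans (Nat.add_le_add_left ?_ _)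
    refine (asmR_sum_union_le _ _ _).trans (Nat.add_le_add_left ?_ _)
    exact asmR_sum_union_le _ _ _
  have hsmall := asmR_card_small H R hRleH hR0
  have hnz := asmR_card_nz H hH1
  have hbx := asmR_card_bx H hH1
  have hDD : D ≤ D ^ 2 := Nat.le_self_pow (by norm_num) D
  have h1D : 1 ≤ D ^ 2 := Nat.one_le_pow _ _ hD1
  -- (a)
  have ha : R * ∑ p ∈ A, (solR H p.1 p.2.1 p.2.2).card ≤ 60000 * (H ^ 4 * D ^ 2) := by
    have h1 : ∑ p ∈ A, (solR H p.1 p.2.1 p.2.2).card ≤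
        ((nz H).filter (fun x => (R : ℤ) * |x| < H)).card * (20000 * H ^ 3 * D) := by
      rw [hA, Finset.sum_product]
      have h : ∀ b ∈ (nz H).filter (fun x => (R : ℤ) * |x| < H),
          ∑ q ∈ nz H ×ˢ bx H, (solR H b q.1 q.2).card ≤ 20000 * H ^ 3 * D := by
        intro b hb
        rw [Finset.mem_filter, asmR_mem_nz] at hb
        rw [Finset.sum_product]
        exact hFB H D b hH1 hD hb.1.2 hb.1.1
      have := Finset.sum_le_card_nsmul _ _ _ h
      rw [smul_eq_mul] at this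
      exact this
    calc _ ≤ R * (((nz H).filter (fun x => (R : ℤ) * |x| < H)).card * (20000 * H ^ 3 * D)) :=
          Nat.mul_le_mul_left _ h1
      _ = (R * ((nz H).filter (fun x => (R : ℤ) * |x| < H)).card) * (20000 * H ^ 3 * D) := by ring
      _ ≤ (3 * H) * (20000 * H ^ 3 * D ^ 2) := by gcongr
      _ = 60000 * (H ^ 4 * D ^ 2) := by ring
  -- (b)
  have hb : R * ∑ p ∈ nz H ×ˢ QB, (solR H p.1 p.2.1 p.2.2).card ≤
      102000 * (H ^ 4 * D ^ 2) := by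
    have h1 := asmR_sum_Q hFD H D hH1 hD QB
      (Finset.product_subset_product (Finset.filter_subset _ _) (Finset.Subset.refl _))
    have h2 : R * QB.card ≤ (3 * H) * (17 * H) := by
      rw [hQB, Finset.card_product, ← mul_assoc]
      exact Nat.mul_le_mul hsmall hbx
    calc _ ≤ R * (QB.card * (2000 * H ^ 2 * D)) := Nat.mul_le_mul_left _ h1
      _ = (R * QB.card) * (2000 * H ^ 2 * D) := by ring
      _ ≤ ((3 * H) * (17 * H)) * (2000 * H ^ 2 * D ^ 2) := by gcongr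
      _ = 102000 * (H ^ 4 * D ^ 2) := by ring
  -- (c)
  have hc : R * ∑ p ∈ nz H ×ˢ QC, (solR H p.1 p.2.1 p.2.2).card ≤
      6000 * (H ^ 4 * D ^ 2) := by
    have h1 := asmR_sum_Q hFD H D hH1 hD QC (by
      apply Finset.product_subset_product (Finset.Subset.refl _)
      intro x hx
      rw [Finset.mem_singleton] at hx
      rw [asmR_mem_bx, hx]
      simp)
    have h2 : QC.card ≤ 3 * H := by
      rw [hQC, Finset.card_product, Finset.card_singleton, mul_one]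
      exact hnz
    calc _ ≤ R * (QC.card * (2000 * H ^ 2 * D)) := Nat.mul_le_mul_left _ h1
      _ ≤ H * ((3 * H) * (2000 * H ^ 2 * D ^ 2)) := by gcongr
      _ = 6000 * (H ^ 4 * D ^ 2) := by ring
  -- (d)
  have hd : R * ∑ p ∈ nz H ×ˢ QD, (solR H p.1 p.2.1 p.2.2).card ≤
      128000 * (H ^ 4 * D ^ 2) := by
    have h1 := asmR_sum_Q hFD H D hH1 hD QD
      ((Finset.filter_subset _ _).trans
        (Finset.product_subset_product (Finset.Subset.refl _) (Finset.filter_subset _ _)))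
    have h2 : R * QD.card ≤ 64 * H ^ 2 := by
      have := hGcd H R hR hRleH
      convert this using 2
    calc _ ≤ R * (QD.card * (2000 * H ^ 2 * D)) := Nat.mul_le_mul_left _ h1
      _ = (R * QD.card) * (2000 * H ^ 2 * D) := by ring
      _ ≤ (64 * H ^ 2) * (2000 * H ^ 2 * D ^ 2) := by gcongr
      _ = 128000 * (H ^ 4 * D ^ 2) := by ring
  -- (e)
  have he : R * ∑ p ∈ E, (solR H p.1 p.2.1 p.2.2).card ≤ 800000 * (H ^ 4 * D ^ 2) := by
    have hcard : R ^ 3 * E.card ≤ 2000 * H ^ 3 * D ^ 2 := by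
      apply hB H R D E hR hRH hD
      rintro ⟨b, δ, u⟩ hp
      rw [hE, Finset.mem_filter, Finset.mem_product, Finset.mem_product, asmR_mem_nz,
        asmR_mem_nz, asmR_mem_bx] at hp
      obtain ⟨⟨hb, hδ, hu⟩, h2, h3, h4, h5⟩ := hp
      exact ⟨hb.2, hb.1, hδ.1, h2, h3, hu, h4, h5⟩
    have h1 : ∑ p ∈ E, (solR H p.1 p.2.1 p.2.2).card ≤ E.card * (400 * H * R ^ 2) := by
      have h : ∀ p ∈ E, (solR H p.1 p.2.1 p.2.2).card ≤ 400 * H * R ^ 2 := by
        rintro ⟨b, δ, u⟩ hp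
        rw [hE, Finset.mem_filter] at hp
        obtain ⟨-, h2, h3, h4, h5⟩ := hp
        exact hT H R b δ u hR hH1 h2 h4
      have := Finset.sum_le_card_nsmul _ _ _ h
      rw [smul_eq_mul] at this
      exact this
    calc _ ≤ R * (E.card * (400 * H * R ^ 2)) := Nat.mul_le_mul_left _ h1
      _ = (400 * H) * (R ^ 3 * E.card) := by ring
      _ ≤ (400 * H) * (2000 * H ^ 3 * D ^ 2) := Nat.mul_le_mul_left _ hcard
      _ = 800000 * (H ^ 4 * D ^ 2) := by ring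
  -- (f)
  have hf : R * ∑ p ∈ F, (solR H p.1 p.2.1 p.2.2).card ≤ 3060000 * (H ^ 4 * D ^ 2) := by
    have hcard : F.card ≤ (3 * H) * ((3 * H) * (17 * H)) := by
      have h0 : F.card ≤ (nz H ×ˢ (nz H ×ˢ bx H)).card := Finset.card_filter_le _ _
      rw [Finset.card_product, Finset.card_product] at h0
      exact h0.trans (Nat.mul_le_mul hnz (Nat.mul_le_mul hnz hbx))
    have h : ∀ p ∈ F, R * (solR H p.1 p.2.1 p.2.2).card ≤ 20000 * H := by
      rintro ⟨b, δ, u⟩ hp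
      rw [hF, Finset.mem_filter, Finset.mem_product, Finset.mem_product, asmR_mem_nz,
        asmR_mem_nz, asmR_mem_bx] at hp
      obtain ⟨⟨hb, hδ, hu⟩, h1, h2, h3, h4, h5⟩ := hp
      obtain ⟨ν, τ, hsh⟩ := hS b δ u hδ.2
      have hν : ν ≠ 0 := fun h0 => h5 ⟨ν, τ, hsh, Or.inl h0⟩
      have hτ : τ ≠ 0 := fun h0 => h5 ⟨ν, τ, hsh, Or.inr (Or.inl h0)⟩
      have hg : Int.gcd b (ν * τ) ≤ R ^ 3 := by
        by_contra hcon
        exact h5 ⟨ν, τ, hsh, Or.inr (Or.inr (not_le.mp hcon))⟩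
      exact hG hV H R b δ u ν τ hR hRH hb.1 hδ.1 h1 h2 h4 hsh hν hτ hg
    rw [Finset.mul_sum]
    have h2 := Finset.sum_le_card_nsmul _ _ _ h
    rw [smul_eq_mul] at h2
    calc _ ≤ F.card * (20000 * H) := h2
      _ ≤ ((3 * H) * ((3 * H) * (17 * H))) * (20000 * H) := Nat.mul_le_mul_right _ hcard
      _ = 3060000 * (H ^ 4 * 1) := by ring
      _ ≤ 3060000 * (H ^ 4 * D ^ 2) := by gcongr
  have hfin := Nat.mul_le_mul_left R hsplit
  simp only [mul_add] at hfin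
  have h10 : (10 : ℕ) ^ 8 * H ^ 4 * D ^ 2 = 100000000 * (H ^ 4 * D ^ 2) := by ring
  rw [h10]
  generalize H ^ 4 * D ^ 2 = X at *
  omega

end Pool.Agent.H674R3.HenR
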