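import Pool.Agent.H674R3.HenR

set_option autoImplicit false

open Finset

namespace Pool.Agent.H674R3.HenRBadR

open Pool.Agent.H674R3.HenR

/-- divisors of `m` and their negatives -/
def dv (m : ℤ) : Finset ℤ :=
  (m.natAbs.divisors.image (fun d : ℕ => (d : ℤ))) ∪
    (m.natAbs.divisors.image (fun d : ℕ => -(d : ℤ)))

theorem mem_dv {d m : ℤ} (h : d ∣ m) (hm : m ≠ 0) : d ∈ dv m := by
  have h1 : d.natAbs ∈ m.natAbs.divisors := by
    rw [Nat.mem_divisors]
    exact ⟨Int.natAbs_dvd_natAbs.2 h, by simpa using hm⟩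
  unfold dv
  rw [mem_union, mem_image, mem_image]
  rcases Int.natAbs_eq d with h2 | h2
  · exact Or.inl ⟨_, h1, h2.symm⟩
  · exact Or.inr ⟨_, h1, h2.symm⟩

theorem card_dv {H D : ℕ} (hD : DivB H D) {m : ℤ} (hm : m.natAbs ≤ 1000 * H ^ 2) :
    (dv m).card ≤ 2 * D := by
  have h1 : m.natAbs.divisors.card ≤ D := by
    by_cases h0 : m.natAbs = 0
    · rw [h0]; simp
    · exact hD.2 _ h0 hm
  unfold dv
  refine (card_union_le _ _).trans ?_
  have h2 := card_image_le (s := m.natAbs.divisors) (f := fun d : ℕ => (d : ℤ))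
  have h3 := card_image_le (s := m.natAbs.divisors) (f := fun d : ℕ => -(d : ℤ))
  omega

theorem mulbi {α β : Type*} [DecidableEq β] (c N : ℕ) (s : Finset α) (t : α → Finset β)
    (h : ∀ a ∈ s, c * (t a).card ≤ N) : c * (s.biUnion t).card ≤ s.card * N := by
  calc c * (s.biUnion t).card ≤ c * ∑ a ∈ s, (t a).card := Nat.mul_le_mul_left _ card_biUnion_le
    _ = ∑ a ∈ s, c * (t a).card := by rw [mul_sum]
    _ ≤ ∑ a ∈ s, N := sum_le_sum h
    _ = s.card * N := by simp

theorem card_mult (H g : ℕ) (hg : 1 ≤ g) :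
    g * ((Finset.Icc (-(H : ℤ)) H).filter (fun b => b ≠ 0 ∧ (g : ℤ) ∣ b)).card ≤ 2 * H := by
  have h1 : (Finset.Icc (-(H : ℤ)) H).filter (fun b => b ≠ 0 ∧ (g : ℤ) ∣ b) ⊆
      ((Finset.Icc (-((H / g : ℕ) : ℤ)) ((H / g : ℕ) : ℤ)).erase 0).image
        (fun c => (g : ℤ) * c) := by
    intro b hb
    rw [mem_filter, mem_Icc] at hb
    obtain ⟨⟨hb1, hb2⟩, hb0, c, rfl⟩ := hb
    rw [mem_image]
    refine ⟨c, ?_, rfl⟩
    rw [mem_erase, mem_Icc]
    have hg' : (0 : ℤ) < g := by exact_mod_cast hg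
    refine ⟨by rintro rfl; simp at hb0, ?_, ?_⟩
    · have h3 : -c ≤ (H : ℤ) / g := by
        rw [Int.le_ediv_iff_mul_le hg']
        nlinarith
      push_cast
      linarith
    · have h3 : c ≤ (H : ℤ) / g := by
        rw [Int.le_ediv_iff_mul_le hg']
        nlinarith
      push_cast
      linarith
  have h2 : (((Finset.Icc (-((H / g : ℕ) : ℤ)) ((H / g : ℕ) : ℤ)).erase 0).image
        (fun c => (g : ℤ) * c)).card ≤ 2 * (H / g) := by
    refine card_image_le.trans ?_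
    have hq : (0 : ℤ) ≤ ((H / g : ℕ) : ℤ) := Int.natCast_nonneg _
    rw [card_erase_of_mem (by rw [mem_Icc]; constructor <;> linarith), Int.card_Icc]
    generalize H / g = w
    omega
  calc g * ((Finset.Icc (-(H : ℤ)) H).filter (fun b => b ≠ 0 ∧ (g : ℤ) ∣ b)).card
      ≤ g * (2 * (H / g)) := Nat.mul_le_mul_left _ ((card_le_card h1).trans h2)
    _ = 2 * (g * (H / g)) := by ring
    _ ≤ 2 * H := Nat.mul_le_mul_left _ (Nat.mul_div_le H g)

/-- nonzero `b` of size at most `H` with a large common divisor with `m` -/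
noncomputable def Bg (H c : ℕ) (m : ℤ) : Finset ℤ :=
  (Finset.Icc (-(H : ℤ)) H).filter (fun b => b ≠ 0 ∧ c < Int.gcd b m)

theorem card_Bg {H D c : ℕ} (hD : DivB H D) {m : ℤ} (hm0 : m ≠ 0)
    (hm : m.natAbs ≤ 1000 * H ^ 2) : c * (Bg H c m).card ≤ D * (2 * H) := by
  have h1 : Bg H c m ⊆ ((m.natAbs.divisors).filter (fun g => c < g)).biUnion
      (fun g => (Finset.Icc (-(H : ℤ)) H).filter (fun b => b ≠ 0 ∧ (g : ℤ) ∣ b)) := by
    intro b hb
    unfold Bg at hb
    rw [mem_filter] at hb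
    rw [mem_biUnion]
    refine ⟨Int.gcd b m, ?_, ?_⟩
    · rw [mem_filter, Nat.mem_divisors]
      refine ⟨⟨?_, by simpa using hm0⟩, hb.2.2⟩
      exact Int.natCast_dvd.1 (Int.gcd_dvd_right ..)
    · rw [mem_filter]
      exact ⟨hb.1, hb.2.1, Int.gcd_dvd_left ..⟩
  have h2 := mulbi c (2 * H) ((m.natAbs.divisors).filter (fun g => c < g))
    (fun g => (Finset.Icc (-(H : ℤ)) H).filter (fun b => b ≠ 0 ∧ (g : ℤ) ∣ b)) (by
      intro g hg
      rw [mem_filter] at hg
      exact (Nat.mul_le_mul_right _ hg.2.le).trans (card_mult H g (by omega)))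
  refine (Nat.mul_le_mul_left _ (card_le_card h1)).trans (h2.trans ?_)
  exact Nat.mul_le_mul_right _ ((card_filter_le _ _).trans (hD.2 _ (by simpa using hm0) hm))

theorem no_zero {H R : ℕ} (hR : 2 ≤ R) (hRH : R ^ 17 ≤ H) {δ u τ : ℤ}
    (h1 : (H : ℤ) ≤ R * |δ|) (h2 : Int.gcd u δ ≤ R) (h3 : τ ≠ 0) (h4 : τ ^ 2 ≤ |δ|)
    (h5 : δ ∣ u * τ) : False := by
  have e1 : H ≤ R * δ.natAbs := by
    have : ((H : ℕ) : ℤ) ≤ ((R * δ.natAbs : ℕ) : ℤ) := by
      push_cast
      exact h1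
    exact_mod_cast this
  have e2 : τ.natAbs ^ 2 ≤ δ.natAbs := by
    have : ((τ.natAbs ^ 2 : ℕ) : ℤ) ≤ ((δ.natAbs : ℕ) : ℤ) := by
      push_cast
      rw [sq_abs]
      exact h4
    exact_mod_cast this
  have e3 : δ.natAbs ∣ u.natAbs * τ.natAbs := by
    rw [← Int.natAbs_mul]
    exact Int.natAbs_dvd_natAbs.2 h5
  have e4 : 1 ≤ τ.natAbs := by omega
  have e5 : δ.natAbs ∣ δ.natAbs.gcd u.natAbs * τ.natAbs := by
    rw [← Nat.gcd_mul_right]
    exact Nat.dvd_gcd (Dvd.intro _ rfl) e3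
  have e6 : δ.natAbs.gcd u.natAbs ≤ R := by
    rw [Nat.gcd_comm]
    exact h2
  have e7 : 1 ≤ δ.natAbs := le_trans (Nat.one_le_pow _ _ e4) e2
  have e8 : 0 < δ.natAbs.gcd u.natAbs := Nat.gcd_pos_of_pos_left _ e7
  have e9 : δ.natAbs ≤ R * τ.natAbs :=
    (Nat.le_of_dvd (Nat.mul_pos e8 e4) e5).trans (Nat.mul_le_mul_right _ e6)
  have e10 : τ.natAbs ≤ R := by nlinarith
  have e11 : δ.natAbs ≤ R * R := e9.trans (Nat.mul_le_mul_left _ e10)
  have e12 : H ≤ R ^ 3 := e1.trans ((Nat.mul_le_mul_left _ e11).trans (by ring_nf; exact le_rfl))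
  have e13 : R ^ 3 < R ^ 17 := Nat.pow_lt_pow_right (by omega) (by norm_num)
  omega

theorem natAbs_le_sqrt {H : ℕ} {x δ : ℤ} (h1 : x ^ 2 ≤ |δ|) (h2 : |δ| ≤ (H : ℤ)) :
    x.natAbs ≤ Nat.sqrt H := by
  rw [Nat.le_sqrt']
  have : ((x.natAbs ^ 2 : ℕ) : ℤ) ≤ ((H : ℕ) : ℤ) := by
    push_cast
    rw [sq_abs]
    exact h1.trans h2
  exact_mod_cast this

theorem taskBadR : TaskBadR := by
  intro H R D S hR hRH hD hS
  obtain ⟨h, hh⟩ : ∃ h, h = Nat.sqrt H := ⟨_, rfl⟩
  have hh2 : h * h ≤ H := by rw [hh]; exact Nat.sqrt_le H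
  have hR3 : R ^ 3 ≤ h := by
    rw [hh, Nat.le_sqrt']
    calc (R ^ 3) ^ 2 = R ^ 6 := by ring
      _ ≤ R ^ 17 := Nat.pow_le_pow_right (by omega) (by norm_num)
      _ ≤ H := hRH
  have hR1 : 1 ≤ R ^ 3 := Nat.one_le_pow _ _ (by omega)
  have hh1 : 1 ≤ h := hR1.trans hR3
  have hhH : h ≤ H := by nlinarith
  have hH1 : 1 ≤ H := hh1.trans hhH
  have hD1 : 1 ≤ D := hD.1
  obtain ⟨IH, hIH⟩ : ∃ s : Finset ℤ, s = Finset.Icc (-(H : ℤ)) H := ⟨_, rfl⟩
  obtain ⟨I8, hI8⟩ : ∃ s : Finset ℤ, s = Finset.Icc (-(8 * (H : ℤ))) (8 * (H : ℤ)) := ⟨_, rfl⟩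
  obtain ⟨K, hK⟩ : ∃ s : Finset ℤ, s = Finset.Icc (-(h : ℤ)) h := ⟨_, rfl⟩
  have cIH : IH.card ≤ 3 * H := by rw [hIH, Int.card_Icc]; omega
  have cI8 : I8.card ≤ 17 * H := by rw [hI8, Int.card_Icc]; omega
  have cK : K.card ≤ 3 * h := by rw [hK, Int.card_Icc]; omega
  let A : Finset (ℤ × ℤ × ℤ) := (IH ×ˢ IH).image (fun q => (q.1, q.2, -q.1))
  let B : Finset (ℤ × ℤ × ℤ) := (IH ×ˢ I8 ×ˢ K).biUnion
    (fun q => (dv ((q.2.1 + q.1) * q.2.2)).image (fun δ => (q.1, δ, q.2.1)))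
  let T : ℤ → ℤ → ℤ → Finset (ℤ × ℤ × ℤ) := fun ν τ b =>
    I8.biUnion (fun u => (dv (u * (τ - ν) - b * ν)).image (fun δ => (b, δ, u))) ∪
      IH.image (fun δ => (b, δ, b * ν / (τ - ν)))
  let C : Finset (ℤ × ℤ × ℤ) := ((K ×ˢ K).filter (fun q => q.1 * q.2 ≠ 0)).biUnion
    (fun q => (Bg H (R ^ 3) (q.1 * q.2)).biUnion (T q.1 q.2))
  have hsub : S ⊆ A ∪ (B ∪ C) := by
    rintro ⟨b, δ, u⟩ hp
    obtain ⟨hb0, hbH, hδH, hHδ, hu0, huH, hg, ν, τ, ⟨hnt, hν2, hτ2, hdvd⟩, hbad⟩ := hS _ hp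
    simp only at hb0 hbH hδH hHδ hu0 huH hg hν2 hτ2 hdvd hbad
    have hνh : ν.natAbs ≤ h := by rw [hh]; exact natAbs_le_sqrt hν2 hδH
    have hτh : τ.natAbs ≤ h := by rw [hh]; exact natAbs_le_sqrt hτ2 hδH
    have mν : ν ∈ K := by rw [hK, mem_Icc]; omega
    have mτ : τ ∈ K := by rw [hK, mem_Icc]; omega
    have mb : b ∈ IH := by rw [hIH, mem_Icc]; exact abs_le.1 hbH
    have mδ : δ ∈ IH := by rw [hIH, mem_Icc]; exact abs_le.1 hδH
    have mu : u ∈ I8 := by rw [hI8, mem_Icc]; exact abs_le.1 huH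
    by_cases hν : ν = 0
    · exfalso
      subst hν
      have hτ : τ ≠ 0 := by
        rcases hnt with h0 | h0
        · exact absurd rfl h0
        · exact h0
      exact no_zero hR hRH hHδ hg hτ hτ2 (by simpa using hdvd)
    · by_cases hτ : τ = 0
      · subst hτ
        have hdvd' : δ ∣ (u + b) * ν := by
          have h9 : (u + b) * ν = -(u * (0 - ν) - b * ν) := by ring
          rw [h9]
          exact dvd_neg.2 hdvd
        by_cases hub : u + b = 0
        · apply mem_union_left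
          rw [mem_image]
          refine ⟨(b, δ), mem_product.2 ⟨mb, mδ⟩, ?_⟩
          simp only [Prod.mk.injEq, true_and]
          linarith
        · apply mem_union_right
          apply mem_union_left
          rw [mem_biUnion]
          refine ⟨(b, u, ν), mem_product.2 ⟨mb, mem_product.2 ⟨mu, mν⟩⟩, ?_⟩
          rw [mem_image]
          exact ⟨δ, mem_dv hdvd' (mul_ne_zero hub hν), rfl⟩
      · have hbad' : R ^ 3 < Int.gcd b (ν * τ) := by
          rcases hbad with h0 | h0 | h0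
          · exact absurd h0 hν
          · exact absurd h0 hτ
          · exact h0
        apply mem_union_right
        apply mem_union_right
        rw [mem_biUnion]
        refine ⟨(ν, τ), mem_filter.2 ⟨mem_product.2 ⟨mν, mτ⟩, mul_ne_zero hν hτ⟩, ?_⟩
        rw [mem_biUnion]
        refine ⟨b, ?_, ?_⟩
        · unfold Bg
          rw [mem_filter, ← hIH]
          exact ⟨mb, hb0, hbad'⟩
        · by_cases hE : u * (τ - ν) - b * ν = 0
          · apply mem_union_right
            rw [mem_image]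
            refine ⟨δ, mδ, ?_⟩
            have h6 : τ - ν ≠ 0 := by
              intro h7
              rw [h7, mul_zero, zero_sub, neg_eq_zero] at hE
              exact (mul_ne_zero hb0 hν) hE
            have h8 : b * ν / (τ - ν) = u := by
              rw [show b * ν = u * (τ - ν) by linarith]
              exact Int.mul_ediv_cancel _ h6
            simp only [h8]
          · apply mem_union_left
            rw [mem_biUnion]
            refine ⟨u, mu, ?_⟩
            rw [mem_image]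
            exact ⟨δ, mem_dv hdvd hE, rfl⟩
  have cA : A.card ≤ 9 * H ^ 2 := by
    refine card_image_le.trans ?_
    rw [card_product]
    calc IH.card * IH.card ≤ (3 * H) * (3 * H) := Nat.mul_le_mul cIH cIH
      _ = 9 * H ^ 2 := by ring
  have cB : B.card ≤ 3 * H * (17 * H * (3 * h)) * (2 * D) := by
    have h1 := mulbi 1 (2 * D) (IH ×ˢ I8 ×ˢ K)
      (fun q => (dv ((q.2.1 + q.1) * q.2.2)).image (fun δ => (q.1, δ, q.2.1))) (by
        rintro ⟨b, u, ν⟩ hq
        rw [mem_product, mem_product, hIH, hI8, hK, mem_Icc, mem_Icc, mem_Icc] at hq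
        rw [one_mul]
        refine card_image_le.trans (card_dv hD ?_)
        simp only at hq ⊢
        rw [Int.natAbs_mul]
        calc (u + b).natAbs * ν.natAbs ≤ (9 * H) * H :=
              Nat.mul_le_mul (by omega) (by omega)
          _ ≤ 1000 * H ^ 2 := by nlinarith)
    rw [one_mul] at h1
    refine h1.trans (Nat.mul_le_mul_right _ ?_)
    rw [card_product, card_product]
    exact Nat.mul_le_mul cIH (Nat.mul_le_mul cI8 cK)
  have cC : R ^ 3 * C.card ≤ (3 * h * (3 * h)) * (D * (2 * H) * (37 * H * D)) := by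
    have h1 := mulbi (R ^ 3) (D * (2 * H) * (37 * H * D))
      ((K ×ˢ K).filter (fun q => q.1 * q.2 ≠ 0))
      (fun q => (Bg H (R ^ 3) (q.1 * q.2)).biUnion (T q.1 q.2)) (by
        rintro ⟨ν, τ⟩ hq
        rw [mem_filter, mem_product, hK, mem_Icc, mem_Icc] at hq
        simp only at hq ⊢
        have hνh : ν.natAbs ≤ h := by omega
        have hτh : τ.natAbs ≤ h := by omega
        have hm : (ν * τ).natAbs ≤ 1000 * H ^ 2 := by
          rw [Int.natAbs_mul]
          calc ν.natAbs * τ.natAbs ≤ H * H := Nat.mul_le_mul (by omega) (by omega)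
            _ ≤ 1000 * H ^ 2 := by nlinarith
        have hT : ∀ b ∈ Bg H (R ^ 3) (ν * τ), 1 * (T ν τ b).card ≤ 37 * H * D := by
          intro b hb
          unfold Bg at hb
          rw [mem_filter, mem_Icc] at hb
          rw [one_mul]
          refine (card_union_le _ _).trans ?_
          have h3 := mulbi 1 (2 * D) I8
            (fun u => (dv (u * (τ - ν) - b * ν)).image (fun δ => (b, δ, u))) (by
              intro u hu
              rw [hI8, mem_Icc] at hu
              rw [one_mul]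
              refine card_image_le.trans (card_dv hD ?_)
              refine (Int.natAbs_sub_le _ _).trans ?_
              rw [Int.natAbs_mul, Int.natAbs_mul]
              have g1 : u.natAbs * (τ - ν).natAbs ≤ (8 * H) * (2 * H) :=
                Nat.mul_le_mul (by omega) (by omega)
              have g2 : b.natAbs * ν.natAbs ≤ H * H := Nat.mul_le_mul (by omega) (by omega)
              nlinarith)
          rw [one_mul] at h3
          have h4 : (IH.image (fun δ => (b, δ, b * ν / (τ - ν)))).card ≤ 3 * H :=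
            card_image_le.trans cIH
          have h5 : I8.card * (2 * D) ≤ 17 * H * (2 * D) := Nat.mul_le_mul_right _ cI8
          have h6 : H ≤ H * D := Nat.le_mul_of_pos_right _ hD1
          calc _ ≤ 17 * H * (2 * D) + 3 * H := Nat.add_le_add (h3.trans h5) h4
            _ ≤ 37 * H * D := by nlinarith
        have h7 := mulbi 1 (37 * H * D) (Bg H (R ^ 3) (ν * τ)) (T ν τ) hT
        rw [one_mul] at h7
        calc R ^ 3 * ((Bg H (R ^ 3) (ν * τ)).biUnion (T ν τ)).card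
            ≤ R ^ 3 * ((Bg H (R ^ 3) (ν * τ)).card * (37 * H * D)) := Nat.mul_le_mul_left _ h7
          _ = R ^ 3 * (Bg H (R ^ 3) (ν * τ)).card * (37 * H * D) := by ring
          _ ≤ D * (2 * H) * (37 * H * D) := Nat.mul_le_mul_right _ (card_Bg hD hq.2 hm))
    refine h1.trans (Nat.mul_le_mul_right _ ?_)
    refine (card_filter_le _ _).trans ?_
    rw [card_product]
    exact Nat.mul_le_mul cK cK
  have c1 : S.card ≤ A.card + (B.card + C.card) :=
    (card_le_card hsub).trans ((card_union_le _ _).trans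
      (Nat.add_le_add_left (card_union_le _ _) _))
  calc R ^ 3 * S.card ≤ R ^ 3 * (A.card + (B.card + C.card)) := Nat.mul_le_mul_left _ c1
    _ = R ^ 3 * A.card + (R ^ 3 * B.card + R ^ 3 * C.card) := by ring
    _ ≤ h * (9 * H ^ 2) + (h * (3 * H * (17 * H * (3 * h)) * (2 * D)) +
        (3 * h * (3 * h)) * (D * (2 * H) * (37 * H * D))) :=
        Nat.add_le_add (Nat.mul_le_mul hR3 cA)
          (Nat.add_le_add (Nat.mul_le_mul hR3 cB) cC)
    _ = 9 * (h * H ^ 2) + (306 * (h * h * (H ^ 2 * D)) + 666 * (h * h * (H ^ 2 * D ^ 2))) := by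
        ring
    _ ≤ 9 * (H * H ^ 2) + (306 * (H * (H ^ 2 * D)) + 666 * (H * (H ^ 2 * D ^ 2))) := by
        gcongr
    _ ≤ 9 * (H * H ^ 2 * D ^ 2) + (306 * (H * (H ^ 2 * D ^ 2)) + 666 * (H * (H ^ 2 * D ^ 2))) := by
        have hDD : D ≤ D ^ 2 := by nlinarith
        have hD2 : 1 ≤ D ^ 2 := Nat.one_le_pow _ _ hD1
        refine Nat.add_le_add (Nat.mul_le_mul_left _ (Nat.le_mul_of_pos_right _ hD2))
          (Nat.add_le_add ?_ le_rfl)
        gcongr
    _ ≤ 2000 * H ^ 3 * D ^ 2 := by nlinarith [Nat.zero_le (H ^ 3 * D ^ 2)]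

end Pool.Agent.H674R3.HenRBadR
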