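import Pool.Agent.H674R3.HenR

/-! Task FixB of project HENON674 (helper744). -/

set_option autoImplicit false

open Finset

namespace Pool.Agent.H674R3.HenR

namespace FixB

/-- the form -/
def E (b u : ℤ) (p : ℤ × ℤ) : ℤ := u * (p.2 - u - p.1) - b * p.1

/-- the box of the points `(v, t)` -/
noncomputable def B (H : ℕ) : Finset (ℤ × ℤ) :=
  (Finset.Icc (-(8 * (H : ℤ))) (8 * (H : ℤ))) ×ˢ (Finset.Icc (-(9 * (H : ℤ))) (9 * (H : ℤ)))

theorem card_8 {H : ℕ} (hH : 1 ≤ H) :
    (Finset.Icc (-(8 * (H : ℤ))) (8 * (H : ℤ))).card ≤ 17 * H := by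
  rw [Int.card_Icc]; omega

theorem card_9 {H : ℕ} (hH : 1 ≤ H) :
    (Finset.Icc (-(9 * (H : ℤ))) (9 * (H : ℤ))).card ≤ 19 * H := by
  rw [Int.card_Icc]; omega

theorem card_nz (H : ℕ) : (nz H).card ≤ 2 * H := by
  have h : nz H = (Finset.Icc (-(H : ℤ)) H).erase 0 := by
    ext x
    simp only [nz, mem_filter, mem_erase, ne_eq]
    tauto
  rw [h, card_erase_of_mem (by simp), Int.card_Icc]
  omega

theorem abs_E {H : ℕ} {b u : ℤ} {p : ℤ × ℤ} (hb : |b| ≤ (H : ℤ)) (hu : u ∈ bx H) (hp : p ∈ B H) :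
    |E b u p| ≤ 1000 * (H : ℤ) ^ 2 := by
  simp only [bx, mem_Icc] at hu
  simp only [B, mem_product, mem_Icc] at hp
  have hu' : |u| ≤ 8 * (H : ℤ) := abs_le.2 hu
  have h1 : |p.1| ≤ 8 * (H : ℤ) := abs_le.2 hp.1
  have h2 : |p.2 - u - p.1| ≤ 25 * (H : ℤ) := by
    rw [abs_le]; constructor <;> omega
  have h3 : |u * (p.2 - u - p.1)| ≤ 8 * (H : ℤ) * (25 * (H : ℤ)) := by
    rw [abs_mul]; exact mul_le_mul hu' h2 (abs_nonneg _) (by positivity)
  have h4 : |b * p.1| ≤ (H : ℤ) * (8 * (H : ℤ)) := by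
    rw [abs_mul]; exact mul_le_mul hb h1 (abs_nonneg _) (by positivity)
  have h5 := abs_sub (u * (p.2 - u - p.1)) (b * p.1)
  unfold E
  nlinarith

theorem count_div {H D : ℕ} (hD : DivB H D) {e : ℤ} (he : e ≠ 0)
    (hle : |e| ≤ 1000 * (H : ℤ) ^ 2) : ((nz H).filter (fun δ => δ ∣ e)).card ≤ 2 * D := by
  have hn : e.natAbs.divisors.card ≤ D := by
    apply hD.2 _ (Int.natAbs_ne_zero.2 he)
    have : ((e.natAbs : ℕ) : ℤ) ≤ ((1000 * H ^ 2 : ℕ) : ℤ) := by
      rw [Int.natCast_natAbs]; push_cast; exact hle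
    exact_mod_cast this
  have hsub : (nz H).filter (fun δ => δ ∣ e) ⊆
      (e.natAbs.divisors.image (fun d : ℕ => (d : ℤ))) ∪
        (e.natAbs.divisors.image (fun d : ℕ => -(d : ℤ))) := by
    intro δ hδ
    rw [mem_filter] at hδ
    have h1 : δ.natAbs ∈ e.natAbs.divisors := by
      rw [Nat.mem_divisors]
      exact ⟨Int.natAbs_dvd_natAbs.2 hδ.2, Int.natAbs_ne_zero.2 he⟩
    rw [mem_union, mem_image, mem_image]
    rcases Int.natAbs_eq δ with h | h
    · left; exact ⟨δ.natAbs, h1, h.symm⟩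
    · right; exact ⟨δ.natAbs, h1, h.symm⟩
  calc _ ≤ _ := card_le_card hsub
    _ ≤ _ := card_union_le _ _
    _ ≤ e.natAbs.divisors.card + e.natAbs.divisors.card :=
        add_le_add card_image_le card_image_le
    _ ≤ 2 * D := by omega

theorem count_zero {H : ℕ} (hH : 1 ≤ H) {b : ℤ} (hb : b ≠ 0) (u : ℤ) :
    ((B H).filter (fun p => E b u p = 0)).card ≤ 19 * H := by
  by_cases hu : u = 0
  · refine (card_le_card_of_injOn (t := Finset.Icc (-(9 * (H : ℤ))) (9 * (H : ℤ))) Prod.snd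
      ?_ ?_).trans (card_9 hH)
    · intro p hp
      have hp' := (mem_filter.1 (Finset.mem_coe.1 hp)).1
      exact Finset.mem_coe.2 (mem_product.1 hp').2
    · intro p hp p' hp' h
      have e1 := (mem_filter.1 (Finset.mem_coe.1 hp)).2
      have e2 := (mem_filter.1 (Finset.mem_coe.1 hp')).2
      simp only [E, hu, zero_mul, zero_sub, neg_eq_zero, mul_eq_zero, hb, false_or] at e1 e2
      exact Prod.ext (e1.trans e2.symm) h
  · refine ((card_le_card_of_injOn (t := Finset.Icc (-(8 * (H : ℤ))) (8 * (H : ℤ))) Prod.fst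
      ?_ ?_).trans (card_8 hH)).trans (by omega)
    · intro p hp
      have hp' := (mem_filter.1 (Finset.mem_coe.1 hp)).1
      exact Finset.mem_coe.2 (mem_product.1 hp').1
    · intro p hp p' hp' h
      have e1 := (mem_filter.1 (Finset.mem_coe.1 hp)).2
      have e2 := (mem_filter.1 (Finset.mem_coe.1 hp')).2
      simp only [E] at e1 e2
      have h' : p.1 = p'.1 := h
      rw [h'] at e1
      have h3 : u * (p.2 - u - p'.1) = u * (p'.2 - u - p'.1) := by linarith
      have h4 := mul_left_cancel₀ hu h3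
      exact Prod.ext h (by linarith)

end FixB

open FixB in
theorem taskFixB : TaskFixB := by
  intro H D b hH hD hb hbH
  have hcard : ∀ δ u, (solR H b δ u).card ≤
      ∑ p ∈ B H, if δ ∣ E b u p then 1 else 0 := by
    intro δ u
    rw [← card_filter]
    apply card_le_card
    intro p hp
    simp only [solR, mem_filter] at hp
    exact mem_filter.2 ⟨hp.1, hp.2.2⟩
  have hbx : (bx H).card ≤ 17 * H := card_8 hH
  have hB : (B H).card ≤ 17 * H * (19 * H) := by
    rw [B, card_product]; exact Nat.mul_le_mul (card_8 hH) (card_9 hH)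
  calc ∑ δ ∈ nz H, ∑ u ∈ bx H, (solR H b δ u).card
      ≤ ∑ δ ∈ nz H, ∑ u ∈ bx H, ∑ p ∈ B H, (if δ ∣ E b u p then 1 else 0) :=
        sum_le_sum fun δ _ => sum_le_sum fun u _ => hcard δ u
    _ = ∑ u ∈ bx H, ∑ p ∈ B H, ∑ δ ∈ nz H, (if δ ∣ E b u p then 1 else 0) := by
        rw [sum_comm]
        exact sum_congr rfl fun u _ => sum_comm
    _ ≤ ∑ u ∈ bx H, ∑ p ∈ B H, (2 * D + if E b u p = 0 then 2 * H else 0) := by
        refine sum_le_sum fun u hu => sum_le_sum fun p hp => ?_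
        rw [← card_filter]
        by_cases h0 : E b u p = 0
        · rw [if_pos h0]
          have := (card_filter_le (nz H) (fun δ => δ ∣ E b u p)).trans (card_nz H)
          omega
        · rw [if_neg h0, add_zero]
          exact count_div hD h0 (abs_E hbH hu hp)
    _ ≤ ∑ u ∈ bx H, (17 * H * (19 * H) * (2 * D) + 19 * H * (2 * H)) := by
        refine sum_le_sum fun u hu => ?_
        rw [sum_add_distrib, sum_const, smul_eq_mul]
        refine add_le_add (Nat.mul_le_mul_right _ hB) ?_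
        rw [← sum_filter, sum_const, smul_eq_mul]
        exact Nat.mul_le_mul_right _ (count_zero hH hb u)
    _ ≤ 17 * H * (17 * H * (19 * H) * (2 * D) + 19 * H * (2 * H)) := by
        rw [sum_const, smul_eq_mul]
        exact Nat.mul_le_mul_right _ hbx
    _ ≤ 20000 * H ^ 3 * D := by
        have hD1 := hD.1
        have h3 : 0 ≤ H ^ 3 := Nat.zero_le _
        have e : 17 * H * (17 * H * (19 * H) * (2 * D) + 19 * H * (2 * H)) =
            10982 * H ^ 3 * D + 646 * H ^ 3 := by ring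
        rw [e]
        have : 646 * H ^ 3 ≤ 646 * H ^ 3 * D := Nat.le_mul_of_pos_right _ hD1
        nlinarith

end Pool.Agent.H674R3.HenR
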