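import Pool.Agent.H674R3.HenR

set_option autoImplicit false

/-! # HENON project: task FixDU -/

open Finset

namespace Pool.Agent.H674R3.HenR

namespace FixDU

lemma divs {H D : ℕ} (hD : DivB H D) {K : ℤ} (hK : K ≠ 0) (hK2 : K.natAbs ≤ 1000 * H ^ 2)
    (S : Finset ℤ) (hS : ∀ b ∈ S, b ∣ K) : S.card ≤ 2 * D := by
  have h1 : S ⊆ (K.natAbs.divisors.image (fun n : ℕ => (n : ℤ))) ∪
      (K.natAbs.divisors.image (fun n : ℕ => -(n : ℤ))) := by
    intro b hb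
    have h2 : b.natAbs ∈ K.natAbs.divisors := by
      rw [Nat.mem_divisors]
      exact ⟨Int.natAbs_dvd_natAbs.2 (hS b hb), Int.natAbs_ne_zero.2 hK⟩
    rw [mem_union, mem_image, mem_image]
    rcases Int.natAbs_eq b with h | h
    · exact Or.inl ⟨_, h2, h.symm⟩
    · exact Or.inr ⟨_, h2, h.symm⟩
  have h3 := hD.2 K.natAbs (Int.natAbs_ne_zero.2 hK) hK2
  have h4 := card_le_card h1
  have h5 := card_union_le (K.natAbs.divisors.image (fun n : ℕ => (n : ℤ)))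
      (K.natAbs.divisors.image (fun n : ℕ => -(n : ℤ)))
  have h6 := card_image_le (s := K.natAbs.divisors) (f := fun n : ℕ => (n : ℤ))
  have h7 := card_image_le (s := K.natAbs.divisors) (f := fun n : ℕ => -(n : ℤ))
  omega

lemma card_nz (H : ℕ) : (nz H).card ≤ 2 * H := by
  unfold nz
  rw [filter_ne', card_erase_of_mem (by rw [mem_Icc]; omega), Int.card_Icc]
  omega

/-- the box -/
noncomputable def box (H : ℕ) : Finset (ℤ × ℤ) :=
  (Finset.Icc (-(8 * (H : ℤ))) (8 * (H : ℤ))) ×ˢ (Finset.Icc (-(9 * (H : ℤ))) (9 * (H : ℤ)))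

lemma mem_box {H : ℕ} {p : ℤ × ℤ} : p ∈ box H ↔
    (-(8 * (H : ℤ)) ≤ p.1 ∧ p.1 ≤ 8 * (H : ℤ)) ∧ (-(9 * (H : ℤ)) ≤ p.2 ∧ p.2 ≤ 9 * (H : ℤ)) := by
  unfold box
  rw [mem_product, mem_Icc, mem_Icc]

lemma card_box {H : ℕ} (hH : 1 ≤ H) : (box H).card ≤ 323 * H ^ 2 := by
  unfold box
  rw [card_product, Int.card_Icc, Int.card_Icc]
  have h1 : (8 * (H : ℤ) + 1 - -(8 * (H : ℤ))).toNat = 16 * H + 1 := by omega
  have h2 : (9 * (H : ℤ) + 1 - -(9 * (H : ℤ))).toNat = 18 * H + 1 := by omega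
  rw [h1, h2]
  nlinarith

lemma abs_le_of {H : ℕ} {p : ℤ × ℤ} (hp : p ∈ box H) {δ u : ℤ} (hδ : |δ| ≤ (H : ℤ))
    (hu : |u| ≤ 8 * (H : ℤ)) : (p.1 * p.2 - δ * u).natAbs ≤ 1000 * H ^ 2 := by
  rw [mem_box] at hp
  have h1 : |p.1| ≤ 8 * (H : ℤ) := abs_le.2 hp.1
  have h2 : |p.2| ≤ 9 * (H : ℤ) := abs_le.2 hp.2
  have h3 : |p.1 * p.2 - δ * u| ≤ |p.1| * |p.2| + |δ| * |u| := by
    rw [← abs_mul, ← abs_mul]
    exact abs_sub _ _
  have h4 : |p.1| * |p.2| ≤ (8 * (H : ℤ)) * (9 * (H : ℤ)) :=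
    mul_le_mul h1 h2 (abs_nonneg _) (by positivity)
  have h5 : |δ| * |u| ≤ (H : ℤ) * (8 * (H : ℤ)) :=
    mul_le_mul hδ hu (abs_nonneg _) (by positivity)
  have h6 : ((p.1 * p.2 - δ * u).natAbs : ℤ) ≤ ((1000 * H ^ 2 : ℕ) : ℤ) := by
    rw [Int.natCast_natAbs]
    push_cast
    nlinarith [sq_nonneg (H : ℤ)]
  exact_mod_cast h6

lemma card_zero {H D : ℕ} {δ u : ℤ} (hH : 1 ≤ H) (hD : DivB H D) (hδ0 : δ ≠ 0)
    (hδ : |δ| ≤ (H : ℤ)) (hu : |u| ≤ 8 * (H : ℤ)) :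
    ((box H).filter (fun p => p.1 * p.2 - δ * u = 0)).card ≤ 36 * H * D := by
  by_cases hu0 : u = 0
  · subst hu0
    have h1 : (box H).filter (fun p => p.1 * p.2 - δ * 0 = 0) ⊆
        ((Finset.Icc (-(9 * (H : ℤ))) (9 * (H : ℤ))).image (fun t => ((0 : ℤ), t))) ∪
        ((Finset.Icc (-(8 * (H : ℤ))) (8 * (H : ℤ))).image (fun v => (v, (0 : ℤ)))) := by
      rintro ⟨v, t⟩ hp
      rw [mem_filter, mem_box] at hp
      simp only at hp
      have h2 : v * t = 0 := by linarith [hp.2]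
      rw [mem_union, mem_image, mem_image]
      rcases mul_eq_zero.1 h2 with h | h
      · exact Or.inl ⟨t, by rw [mem_Icc]; exact hp.1.2, by rw [h]⟩
      · exact Or.inr ⟨v, by rw [mem_Icc]; exact hp.1.1, by rw [h]⟩
    have h3 := card_le_card h1
    have h4 := card_union_le
      ((Finset.Icc (-(9 * (H : ℤ))) (9 * (H : ℤ))).image (fun t => ((0 : ℤ), t)))
      ((Finset.Icc (-(8 * (H : ℤ))) (8 * (H : ℤ))).image (fun v => (v, (0 : ℤ))))
    have h5 := card_image_le (s := Finset.Icc (-(9 * (H : ℤ))) (9 * (H : ℤ)))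
      (f := fun t => ((0 : ℤ), t))
    have h6 := card_image_le (s := Finset.Icc (-(8 * (H : ℤ))) (8 * (H : ℤ)))
      (f := fun v => (v, (0 : ℤ)))
    rw [Int.card_Icc] at h5 h6
    have h7 : 36 * H * 1 ≤ 36 * H * D := Nat.mul_le_mul_left _ hD.1
    omega
  · have hK : δ * u ≠ 0 := mul_ne_zero hδ0 hu0
    have h5 : |δ| * |u| ≤ (H : ℤ) * (8 * (H : ℤ)) :=
      mul_le_mul hδ hu (abs_nonneg _) (by positivity)
    have h6 : ((δ * u).natAbs : ℤ) ≤ ((1000 * H ^ 2 : ℕ) : ℤ) := by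
      rw [Int.natCast_natAbs, abs_mul]
      push_cast
      nlinarith [sq_nonneg (H : ℤ)]
    have h7 := divs hD hK (by exact_mod_cast h6)
      (((box H).filter (fun p => p.1 * p.2 - δ * u = 0)).image Prod.fst) (by
        intro b hb
        rw [mem_image] at hb
        obtain ⟨p, hp, rfl⟩ := hb
        rw [mem_filter] at hp
        exact ⟨p.2, by linarith [hp.2]⟩)
    rw [card_image_of_injOn] at h7
    · have h8 : 2 * 1 * D ≤ 36 * H * D := Nat.mul_le_mul_right _ (by omega)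
      omega
    · rintro ⟨v, t⟩ hp ⟨v', t'⟩ hp' hvv
      rw [mem_coe, mem_filter] at hp hp'
      simp only at hvv hp hp'
      subst hvv
      have hv : v ≠ 0 := by
        rintro rfl
        apply hK
        linarith [hp.2]
      have h9 : v * t = v * t' := by linarith [hp.2, hp'.2]
      rw [mul_left_cancel₀ hv h9]

end FixDU

open FixDU

theorem taskFixDU : TaskFixDU := by
  classical
  intro H D δ u hH hD hδ0 hδ hu
  have h1 : ∑ b ∈ nz H, (solR H b δ u).card ≤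
      ∑ b ∈ nz H, ∑ p ∈ box H, (if b ∣ p.1 * p.2 - δ * u then 1 else 0) := by
    refine sum_le_sum fun b _ => ?_
    rw [← card_filter]
    refine card_le_card fun p hp => ?_
    unfold solR at hp
    rw [mem_filter] at hp ⊢
    exact ⟨hp.1, hp.2.1⟩
  rw [sum_comm] at h1
  have h2 : ∀ p ∈ box H, (∑ b ∈ nz H, (if b ∣ p.1 * p.2 - δ * u then 1 else 0)) ≤
      2 * D + (if p.1 * p.2 - δ * u = 0 then 2 * H else 0) := by
    intro p hp
    rw [← card_filter]
    by_cases hK : p.1 * p.2 - δ * u = 0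
    · rw [if_pos hK]
      exact (card_filter_le _ _).trans ((card_nz H).trans (Nat.le_add_left _ _))
    · rw [if_neg hK]
      exact (divs hD hK (abs_le_of hp hδ hu) _ fun b hb => (mem_filter.1 hb).2).trans
        (Nat.le_add_right _ _)
  have h3 := sum_le_sum h2
  rw [sum_add_distrib, sum_const, ← sum_filter, sum_const, smul_eq_mul, smul_eq_mul] at h3
  have h4 := card_box hH
  have h5 := card_zero hH hD hδ0 hδ hu
  have h6 : (box H).card * (2 * D) ≤ 323 * H ^ 2 * (2 * D) := Nat.mul_le_mul_right _ h4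
  have h7 : ((box H).filter (fun p => p.1 * p.2 - δ * u = 0)).card * (2 * H) ≤
      36 * H * D * (2 * H) := Nat.mul_le_mul_right _ h5
  have h8 : 36 * H * D * (2 * H) = 72 * H ^ 2 * D := by ring
  have h9 : 323 * H ^ 2 * (2 * D) = 646 * H ^ 2 * D := by ring
  have h10 : 2000 * H ^ 2 * D = 646 * H ^ 2 * D + 72 * H ^ 2 * D + 1282 * H ^ 2 * D := by ring
  omega

end Pool.Agent.H674R3.HenR
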