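import Pool.Agent.H674R3.HenR

set_option autoImplicit false

open Finset

namespace Pool.Agent.H674R3.HenR

theorem gcd_card_nz (n : ℕ) :
    ((Finset.Icc (-(n : ℤ)) n).filter (fun x => x ≠ 0)).card ≤ 2 * n := by
  have h : (Finset.Icc (-(n : ℤ)) n).filter (fun x => x ≠ 0) = (Finset.Icc (-(n : ℤ)) n).erase 0 := by
    ext x
    simp only [Finset.mem_filter, Finset.mem_erase]
    tauto
  rw [h, Finset.card_erase_of_mem (by simp), Int.card_Icc]
  omega

theorem gcd_abs_le (g n : ℕ) (hg : 0 < g) (a : ℤ) (h : |(g : ℤ) * a| ≤ (n : ℤ)) :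
    a ∈ Finset.Icc (-((n / g : ℕ) : ℤ)) ((n / g : ℕ) : ℤ) := by
  have h1 : a.natAbs * g ≤ n := by
    have h2 : ((a.natAbs * g : ℕ) : ℤ) ≤ (n : ℤ) := by
      rw [abs_mul, Nat.abs_cast] at h
      push_cast
      rw [mul_comm]
      exact h
    exact_mod_cast h2
  have h3 : a.natAbs ≤ n / g := (Nat.le_div_iff_mul_le hg).mpr h1
  rw [Finset.mem_Icc]
  omega

theorem taskGcd : TaskGcd := by
  intro H R hR hRH
  set S := ((nz H) ×ˢ ((bx H).filter (fun u => u ≠ 0))).filter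
    (fun p => R < Int.gcd p.2 p.1) with hS
  let M : ℕ → Finset (ℤ × ℤ) := fun g =>
    (((Finset.Icc (-((H / g : ℕ) : ℤ)) ((H / g : ℕ) : ℤ)).filter (fun x => x ≠ 0)) ×ˢ
      ((Finset.Icc (-((8 * H / g : ℕ) : ℤ)) ((8 * H / g : ℕ) : ℤ)).filter (fun x => x ≠ 0))).image
      (fun p => ((g : ℤ) * p.1, (g : ℤ) * p.2))
  have hsub : S ⊆ (Finset.Ioc R H).biUnion M := by
    intro p hp
    rw [hS, Finset.mem_filter, Finset.mem_product] at hp
    obtain ⟨⟨h1, h2⟩, h3⟩ := hp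
    simp only [nz, bx, Finset.mem_filter, Finset.mem_Icc] at h1 h2
    obtain ⟨⟨h1a, h1b⟩, h1c⟩ := h1
    obtain ⟨⟨h2a, h2b⟩, h2c⟩ := h2
    rw [Finset.mem_biUnion]
    set g := Int.gcd p.2 p.1 with hg
    have hg0 : 0 < g := by omega
    obtain ⟨a, ha⟩ : (g : ℤ) ∣ p.1 := Int.gcd_dvd_right _ _
    obtain ⟨c, hc⟩ : (g : ℤ) ∣ p.2 := Int.gcd_dvd_left _ _
    have hgH : g ≤ H := by
      have h4 : (g : ℤ) ≤ |p.1| := by
        apply Int.le_of_dvd (abs_pos.mpr h1c)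
        exact (dvd_abs _ _).mpr ⟨a, ha⟩
      have h5 : |p.1| ≤ (H : ℤ) := abs_le.mpr ⟨h1a, h1b⟩
      have h6 : (g : ℤ) ≤ (H : ℤ) := le_trans h4 h5
      exact_mod_cast h6
    refine ⟨g, Finset.mem_Ioc.mpr ⟨h3, hgH⟩, ?_⟩
    rw [Finset.mem_image]
    refine ⟨(a, c), ?_, ?_⟩
    · rw [Finset.mem_product, Finset.mem_filter, Finset.mem_filter]
      refine ⟨⟨gcd_abs_le g H hg0 a (by rw [← ha]; exact abs_le.mpr ⟨h1a, h1b⟩), ?_⟩,
        ⟨gcd_abs_le g (8 * H) hg0 c (by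
          rw [← hc]; push_cast; exact abs_le.mpr ⟨h2a, h2b⟩), ?_⟩⟩
      · rintro rfl
        exact h1c (by rw [ha]; simp)
      · rintro rfl
        exact h2c (by rw [hc]; simp)
    · simp only
      rw [← ha, ← hc]
  have hM : ∀ g, (M g).card ≤ (2 * (H / g)) * (2 * (8 * H / g)) := by
    intro g
    refine le_trans Finset.card_image_le ?_
    rw [Finset.card_product]
    exact Nat.mul_le_mul (gcd_card_nz _) (gcd_card_nz _)
  have hcard : S.card ≤ ∑ g ∈ Finset.Ioc R H, (2 * (H / g)) * (2 * (8 * H / g)) :=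
    le_trans (Finset.card_le_card hsub) (le_trans Finset.card_biUnion_le
      (Finset.sum_le_sum (fun g _ => hM g)))
  have hR0 : (0 : ℝ) < R := by
    have : 0 < R := by omega
    exact_mod_cast this
  have hreal : (S.card : ℝ) ≤ 32 * (H : ℝ) ^ 2 * ((R : ℝ)⁻¹) := by
    calc (S.card : ℝ) ≤ ((∑ g ∈ Finset.Ioc R H, (2 * (H / g)) * (2 * (8 * H / g)) : ℕ) : ℝ) := by
          exact_mod_cast hcard
      _ = ∑ g ∈ Finset.Ioc R H, (2 * ((H / g : ℕ) : ℝ)) * (2 * ((8 * H / g : ℕ) : ℝ)) := by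
          push_cast
          rfl
      _ ≤ ∑ g ∈ Finset.Ioc R H, 32 * (H : ℝ) ^ 2 * (((g : ℝ) ^ 2)⁻¹) := by
          apply Finset.sum_le_sum
          intro g hg
          have hg0 : (0 : ℝ) < g := by
            have := (Finset.mem_Ioc.mp hg).1
            have : 0 < g := by omega
            exact_mod_cast this
          have h1 : ((H / g : ℕ) : ℝ) ≤ (H : ℝ) / g := Nat.cast_div_le
          have h2 : ((8 * H / g : ℕ) : ℝ) ≤ (8 * (H : ℝ)) / g := by
            have := @Nat.cast_div_le ℝ _ _ _ (8 * H) g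
            push_cast at this
            exact this
          have h3 : (0 : ℝ) ≤ ((8 * H / g : ℕ) : ℝ) := Nat.cast_nonneg _
          have h4 : (0 : ℝ) ≤ (H : ℝ) / g := by positivity
          calc (2 * ((H / g : ℕ) : ℝ)) * (2 * ((8 * H / g : ℕ) : ℝ))
              ≤ (2 * ((H : ℝ) / g)) * (2 * ((8 * (H : ℝ)) / g)) := by
                apply mul_le_mul
                · linarith
                · linarith
                · linarith
                · linarith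
            _ = 32 * (H : ℝ) ^ 2 * (((g : ℝ) ^ 2)⁻¹) := by
                field_simp
                ring
      _ = 32 * (H : ℝ) ^ 2 * ∑ g ∈ Finset.Ioc R H, (((g : ℝ) ^ 2)⁻¹) := by
          rw [Finset.mul_sum]
      _ ≤ 32 * (H : ℝ) ^ 2 * ((R : ℝ)⁻¹) := by
          apply mul_le_mul_of_nonneg_left _ (by positivity)
          have h5 := @sum_Ioc_inv_sq_le_sub ℝ _ _ _ R H (by omega) hRH
          have h6 : (0 : ℝ) ≤ ((H : ℝ))⁻¹ := by positivity
          linarith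
  have hfin : ((R * S.card : ℕ) : ℝ) ≤ ((64 * H ^ 2 : ℕ) : ℝ) := by
    push_cast
    calc (R : ℝ) * S.card ≤ R * (32 * (H : ℝ) ^ 2 * ((R : ℝ)⁻¹)) :=
          mul_le_mul_of_nonneg_left hreal hR0.le
      _ = 32 * (H : ℝ) ^ 2 := by field_simp
      _ ≤ 64 * (H : ℝ) ^ 2 := by nlinarith [sq_nonneg (H : ℝ)]
  exact_mod_cast hfin

end Pool.Agent.H674R3.HenR
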