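import Pool.Agent.H674R3.HenR

/-!
HENON project (helper674), task GoodR: bound for good triples, by double counting the pairs
(point of `solR`, translate by a multiple of the short vector). Written by helper168.
-/

set_option autoImplicit false

open Finset

namespace Pool.Agent.H674R3.HenR

namespace GoodRAux

/-- the enlarged box -/
noncomputable def PP (H : ℕ) (b δ u : ℤ) : Finset (ℤ × ℤ) :=
  ((Finset.Icc (-(9 * (H : ℤ))) (9 * (H : ℤ))) ×ˢ
    (Finset.Icc (-(10 * (H : ℤ))) (10 * (H : ℤ)))).filter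
    (fun p => δ ∣ u * (p.2 - u - p.1) - b * p.1)

lemma fibre (H R : ℕ) (b δ u v : ℤ) (hR : 1 ≤ R) (hH : 1 ≤ H)
    (h1 : (H : ℤ) ≤ R * |δ|) (hg : Int.gcd u δ ≤ R) (S : Finset ℤ)
    (hS : ∀ t ∈ S, |t| ≤ 10 * (H : ℤ) ∧ δ ∣ u * (t - u - v) - b * v) :
    S.card ≤ 21 * R ^ 2 := by
  obtain ⟨k, hk⟩ : ∃ k, k = (H - 1) / R ^ 2 := ⟨_, rfl⟩
  have hR2 : 0 < R ^ 2 := by positivity
  have hk1 : k * R ^ 2 ≤ H - 1 := by rw [hk]; exact Nat.div_mul_le_self _ _
  have hk2 : H - 1 < R ^ 2 * (k + 1) := by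
    rw [hk]; exact Nat.lt_mul_div_succ _ hR2
  have hδ : δ ≠ 0 := by
    rintro rfl
    simp at h1
    omega
  have h3 : S.card ≤ (20 * H) / (k + 1) + 1 := by
    apply Pool.Agent.H674R3.Hen.spaced
    · intro x hx y hy
      have a1 := abs_le.1 (hS x hx).1
      have a2 := abs_le.1 (hS y hy).1
      rw [abs_le]
      push_cast
      constructor <;> linarith [a1.1, a1.2, a2.1, a2.2]
    · intro x hx y hy hxy
      have d1 : δ ∣ u * (x - y) := by
        have := dvd_sub (hS x hx).2 (hS y hy).2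
        have e : u * (x - u - v) - b * v - (u * (y - u - v) - b * v) = u * (x - y) := by ring
        rwa [e] at this
      have d2 : δ ∣ δ * (x - y) := Dvd.intro _ rfl
      have d3 : δ ∣ ((Int.gcd (u * (x - y)) (δ * (x - y)) : ℕ) : ℤ) := Int.dvd_coe_gcd d1 d2
      rw [Int.gcd_mul_right] at d3
      have hz : x - y ≠ 0 := sub_ne_zero.2 hxy
      have hgpos : 0 < Int.gcd u δ := Int.gcd_pos_of_ne_zero_right _ hδ
      have hzpos : 0 < (x - y).natAbs := Int.natAbs_pos.2 hz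
      have d4 : |δ| ≤ ((Int.gcd u δ * (x - y).natAbs : ℕ) : ℤ) := by
        apply Int.le_of_dvd
        · exact_mod_cast Nat.mul_pos hgpos hzpos
        · rwa [abs_dvd]
      have d5 : ((x - y).natAbs : ℤ) = |x - y| := by simp
      push_cast at d4
      rw [← Int.natCast_natAbs, ← Int.natCast_natAbs] at *
      by_contra hlt
      have hlt' : (x - y).natAbs ≤ k := by
        have := not_lt.1 hlt
        omega
      have e1 : H ≤ R * δ.natAbs := by exact_mod_cast h1
      have e2 : δ.natAbs ≤ Int.gcd u δ * (x - y).natAbs := by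
        exact_mod_cast d4
      have e3 : Int.gcd u δ * (x - y).natAbs ≤ R * k := Nat.mul_le_mul hg hlt'
      have e4 : R * δ.natAbs ≤ R * (R * k) := Nat.mul_le_mul_left _ (e2.trans e3)
      have e5 : R * (R * k) = k * R ^ 2 := by ring
      omega
  have h4 : (20 * H) / (k + 1) ≤ 20 * R ^ 2 := by
    apply Nat.div_le_of_le_mul
    have : H ≤ R ^ 2 * (k + 1) := by omega
    nlinarith
  omega

lemma card_PP (H R : ℕ) (b δ u : ℤ) (hR : 1 ≤ R) (hH : 1 ≤ H)
    (h1 : (H : ℤ) ≤ R * |δ|) (hg : Int.gcd u δ ≤ R) :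
    (PP H b δ u).card ≤ 399 * H * R ^ 2 := by
  have h2 : (PP H b δ u).card ≤
      (21 * R ^ 2) * (Finset.Icc (-(9 * (H : ℤ))) (9 * (H : ℤ))).card := by
    apply Finset.card_le_mul_card_image_of_maps_to (f := Prod.fst)
    · intro p hp
      unfold PP at hp
      rw [Finset.mem_filter, Finset.mem_product] at hp
      exact hp.1.1
    · intro v _
      have h3 : ((PP H b δ u).filter (fun p => p.1 = v)).card =
          (((PP H b δ u).filter (fun p => p.1 = v)).image Prod.snd).card := by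
        rw [Finset.card_image_of_injOn]
        intro p hp q hq hpq
        rw [Finset.mem_coe, Finset.mem_filter] at hp hq
        exact Prod.ext (hp.2.trans hq.2.symm) hpq
      rw [h3]
      apply fibre H R b δ u v hR hH h1 hg
      intro t ht
      rw [Finset.mem_image] at ht
      obtain ⟨p, hp, rfl⟩ := ht
      rw [Finset.mem_filter] at hp
      obtain ⟨hp, hv⟩ := hp
      unfold PP at hp
      rw [Finset.mem_filter, Finset.mem_product, Finset.mem_Icc, Finset.mem_Icc] at hp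
      refine ⟨abs_le.2 hp.1.2, ?_⟩
      have := hp.2
      rwa [hv] at this
  have h5 : (Finset.Icc (-(9 * (H : ℤ))) (9 * (H : ℤ))).card ≤ 19 * H := by
    rw [Int.card_Icc]
    omega
  calc (PP H b δ u).card ≤ (21 * R ^ 2) * (Finset.Icc (-(9 * (H : ℤ))) (9 * (H : ℤ))).card := h2
    _ ≤ (21 * R ^ 2) * (19 * H) := Nat.mul_le_mul_left _ h5
    _ = 399 * H * R ^ 2 := by ring

end GoodRAux

open GoodRAux in
theorem taskGoodR : TaskGoodR := by
  intro hV H R b δ u ν τ hR hRH hb hδ hHb hHδ hg hS hν hτ hgb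
  obtain ⟨-, hν2, hτ2, hd⟩ := hS
  have hR1 : 1 ≤ R := by omega
  have hH1 : 1 ≤ H := le_trans (Nat.one_le_pow _ _ hR1) hRH
  obtain ⟨N, hN⟩ : ∃ N, N = max ν.natAbs τ.natAbs := ⟨_, rfl⟩
  have hNν : ν.natAbs ≤ N := by rw [hN]; exact le_max_left _ _
  have hNτ : τ.natAbs ≤ N := by rw [hN]; exact le_max_right _ _
  have hN1 : 1 ≤ N := le_trans (Int.natAbs_pos.2 hν) hNν
  have hNN : N ^ 2 ≤ H := by
    have hν3 : ν.natAbs ^ 2 ≤ H := by
      have : ((ν.natAbs : ℤ)) ^ 2 ≤ H := by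
        rw [Int.natAbs_sq]; exact hν2.trans hδ
      exact_mod_cast this
    have hτ3 : τ.natAbs ^ 2 ≤ H := by
      have : ((τ.natAbs : ℤ)) ^ 2 ≤ H := by
        rw [Int.natAbs_sq]; exact hτ2.trans hδ
      exact_mod_cast this
    rcases max_choice ν.natAbs τ.natAbs with h | h
    · rw [hN, h]; exact hν3
    · rw [hN, h]; exact hτ3
  obtain ⟨M, hM⟩ : ∃ M, M = H / N := ⟨_, rfl⟩
  have hMN : M * N ≤ H := by rw [hM]; exact Nat.div_mul_le_self _ _
  have hMN2 : H < N * (M + 1) := by rw [hM]; exact Nat.lt_mul_div_succ _ hN1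
  -- R ^ 4 ≤ M + 1
  have hRM : R ^ 4 ≤ M + 1 := by
    by_contra hlt
    have hlt' : M + 1 < R ^ 4 := not_le.1 hlt
    have hNM : N < M + 1 := by
      by_contra h
      have h' : M + 1 ≤ N := not_lt.1 h
      have : N * (M + 1) ≤ N * N := Nat.mul_le_mul_left _ h'
      have e : N * N = N ^ 2 := by ring
      omega
    have h1 : N * (M + 1) ≤ R ^ 4 * R ^ 4 := Nat.mul_le_mul (by omega) (by omega)
    have h2 : R ^ 4 * R ^ 4 ≤ R ^ 17 := by
      rw [← pow_add]; exact Nat.pow_le_pow_right hR1 (by norm_num)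
    omega
  have hbig : R ^ 3 * (R ^ 4) ^ 3 < b.natAbs := by
    have e : R ^ 3 * (R ^ 4) ^ 3 = R ^ 15 := by ring
    rw [e]
    have h1 : H ≤ R * b.natAbs := by
      rw [← Int.natCast_natAbs] at hHb
      exact_mod_cast hHb
    have h2 : R * R ^ 16 ≤ R * b.natAbs := by
      have : R * R ^ 16 = R ^ 17 := by ring
      omega
    have h3 : R ^ 16 ≤ b.natAbs := Nat.le_of_mul_le_mul_left h2 (by omega)
    have h4 : R ^ 15 < R ^ 16 := Nat.pow_lt_pow_right (by omega) (by norm_num)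
    omega
  -- double counting
  have key : (solR H b δ u ×ˢ Finset.range (M + 1)).card ≤
      (2 * (M / (R ^ 4 + 1) + 1)) * (PP H b δ u).card := by
    apply Finset.card_le_mul_card_image_of_maps_to
      (f := fun x : (ℤ × ℤ) × ℕ => (x.1.1 + (x.2 : ℤ) * ν, x.1.2 + (x.2 : ℤ) * τ))
    · rintro ⟨⟨v, t⟩, i⟩ hx
      rw [Finset.mem_product, Finset.mem_range] at hx
      obtain ⟨hx1, hx2⟩ := hx
      simp only at hx1 hx2
      unfold solR at hx1
      rw [Finset.mem_filter, Finset.mem_product, Finset.mem_Icc, Finset.mem_Icc] at hx1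
      obtain ⟨⟨⟨v1, v2⟩, ⟨t1, t2⟩⟩, -, hdv⟩ := hx1
      simp only at v1 v2 t1 t2 hdv
      have hi : ∀ z : ℤ, z.natAbs ≤ N → |(i : ℤ) * z| ≤ H := by
        intro z hz
        rw [← Int.natCast_natAbs, Int.natAbs_mul, Int.natAbs_natCast]
        have : i * z.natAbs ≤ M * N := Nat.mul_le_mul (by omega) hz
        exact_mod_cast this.trans hMN
      have i1 := abs_le.1 (hi ν hNν)
      have i2 := abs_le.1 (hi τ hNτ)
      unfold PP
      rw [Finset.mem_filter, Finset.mem_product, Finset.mem_Icc, Finset.mem_Icc]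
      simp only
      refine ⟨⟨⟨by linarith [i1.1], by linarith [i1.2]⟩, ⟨by linarith [i2.1], by linarith [i2.2]⟩⟩, ?_⟩
      have e : u * (t + (i : ℤ) * τ - u - (v + (i : ℤ) * ν)) - b * (v + (i : ℤ) * ν) =
          (u * (t - u - v) - b * v) + (i : ℤ) * (u * (τ - ν) - b * ν) := by ring
      rw [e]
      exact dvd_add hdv (Dvd.dvd.mul_left hd _)
    · rintro ⟨v0, t0⟩ _
      have h3 : ((solR H b δ u ×ˢ Finset.range (M + 1)).filter
          (fun x : (ℤ × ℤ) × ℕ => (x.1.1 + (x.2 : ℤ) * ν, x.1.2 + (x.2 : ℤ) * τ) = (v0, t0))).card =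
          (((solR H b δ u ×ˢ Finset.range (M + 1)).filter
          (fun x : (ℤ × ℤ) × ℕ => (x.1.1 + (x.2 : ℤ) * ν, x.1.2 + (x.2 : ℤ) * τ) = (v0, t0))).image
            (fun x => (x.2 : ℤ))).card := by
        rw [Finset.card_image_of_injOn]
        rintro ⟨⟨v, t⟩, i⟩ hp ⟨⟨v', t'⟩, i'⟩ hq hpq
        rw [Finset.mem_coe, Finset.mem_filter] at hp hq
        simp only [Prod.mk.injEq] at hp hq hpq ⊢
        have hii : i = i' := by exact_mod_cast hpq
        subst hii
        exact ⟨⟨by linarith [hp.2.1, hq.2.1], by linarith [hp.2.2, hq.2.2]⟩, rfl⟩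
      rw [h3]
      apply hV b (ν * τ) (-(v0 * τ + t0 * ν)) (v0 * t0 - δ * u) (R ^ 4) (R ^ 3) M _ hgb hbig
      · intro j hj
        rw [Finset.mem_image] at hj
        obtain ⟨⟨⟨v, t⟩, i⟩, hx, rfl⟩ := hj
        rw [Finset.mem_filter, Finset.mem_product] at hx
        obtain ⟨⟨hx1, -⟩, hx3⟩ := hx
        simp only [Prod.mk.injEq] at hx1 hx3
        unfold solR at hx1
        rw [Finset.mem_filter] at hx1
        have hd1 := hx1.2.1
        simp only at hd1
        obtain ⟨e1, e2⟩ := hx3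
        have e : ν * τ * (i : ℤ) ^ 2 + -(v0 * τ + t0 * ν) * (i : ℤ) + (v0 * t0 - δ * u) =
            v * t - δ * u := by
          rw [← e1, ← e2]; ring
        simp only
        rw [e]
        exact hd1
      · intro j hj j' hj'
        rw [Finset.mem_image] at hj hj'
        obtain ⟨x, hx, rfl⟩ := hj
        obtain ⟨x', hx', rfl⟩ := hj'
        rw [Finset.mem_filter, Finset.mem_product, Finset.mem_range] at hx hx'
        have a1 := hx.1.2
        have a2 := hx'.1.2
        rw [abs_le]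
        constructor <;> omega
  rw [Finset.card_product, Finset.card_range] at key
  have hP := card_PP H R b δ u hR1 hH1 hHδ hg
  obtain ⟨c, hc⟩ : ∃ c, c = (solR H b δ u).card := ⟨_, rfl⟩
  rw [← hc] at key ⊢
  obtain ⟨w, hw⟩ : ∃ w, w = M / (R ^ 4 + 1) := ⟨_, rfl⟩
  rw [← hw] at key
  have hw1 : w * (R ^ 4 + 1) ≤ M := by rw [hw]; exact Nat.div_mul_le_self _ _
  have hw2 : R ^ 4 * (w + 1) ≤ 2 * (M + 1) := by nlinarith
  have k1 : c * (M + 1) ≤ (2 * (w + 1)) * (399 * H * R ^ 2) :=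
    key.trans (Nat.mul_le_mul_left _ hP)
  have k2 : (R ^ 2 * c) * (R ^ 2 * (M + 1)) ≤ (1596 * H) * (R ^ 2 * (M + 1)) := by
    calc (R ^ 2 * c) * (R ^ 2 * (M + 1)) = R ^ 4 * (c * (M + 1)) := by ring
      _ ≤ R ^ 4 * ((2 * (w + 1)) * (399 * H * R ^ 2)) := Nat.mul_le_mul_left _ k1
      _ = (798 * H * R ^ 2) * (R ^ 4 * (w + 1)) := by ring
      _ ≤ (798 * H * R ^ 2) * (2 * (M + 1)) := Nat.mul_le_mul_left _ hw2
      _ = (1596 * H) * (R ^ 2 * (M + 1)) := by ring
  have k3 : R ^ 2 * c ≤ 1596 * H := Nat.le_of_mul_le_mul_right k2 (by positivity)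
  have k4 : R * c ≤ R ^ 2 * c := by
    apply Nat.mul_le_mul_right
    nlinarith
  omega

end Pool.Agent.H674R3.HenR
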