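import Pool.Agent.H674R3.HenR

/-!
Task Short of the Hénon project, part 2: existence of a short vector.
-/

set_option autoImplicit false

open Finset

namespace Pool.Agent.H674R3.HenR

theorem taskShort : TaskShort := by
  intro b δ u hδ
  obtain ⟨n, hn⟩ : ∃ n : ℕ, n = δ.natAbs := ⟨_, rfl⟩
  have hnδ : (n : ℤ) = |δ| := by rw [hn]; exact Int.natCast_natAbs δ
  obtain ⟨s, hs⟩ : ∃ s : ℕ, s = Nat.sqrt n := ⟨_, rfl⟩
  have hs1 : s * s ≤ n := by rw [hs]; exact Nat.sqrt_le n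
  have hs2 : n < (s + 1) * (s + 1) := by rw [hs]; exact Nat.lt_succ_sqrt n
  have hmaps : ∀ p ∈ (Finset.range (s + 1) ×ˢ Finset.range (s + 1) : Finset (ℕ × ℕ)),
      (u * ((p.2 : ℤ) - p.1) - b * p.1) % δ ∈ Finset.Ico (0 : ℤ) (n : ℤ) := by
    intro p _
    rw [Finset.mem_Ico, hnδ]
    exact ⟨Int.emod_nonneg _ hδ, Int.emod_lt_abs _ hδ⟩
  have hcard : (Finset.Ico (0 : ℤ) (n : ℤ)).card <
      (Finset.range (s + 1) ×ˢ Finset.range (s + 1) : Finset (ℕ × ℕ)).card := by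
    rw [Int.card_Ico, Finset.card_product, Finset.card_range]
    simpa using hs2
  obtain ⟨p, hp, q, hq, hpq, hf⟩ := Finset.exists_ne_map_eq_of_card_lt_of_maps_to hcard hmaps
  rw [Finset.mem_product, Finset.mem_range, Finset.mem_range] at hp hq
  have hss : ((s : ℤ)) * s ≤ |δ| := by rw [← hnδ]; exact_mod_cast hs1
  have hsq : ∀ x y : ℕ, x < s + 1 → y < s + 1 → ((x : ℤ) - y) ^ 2 ≤ |δ| := by
    intro x y hx hy
    have h1 : (x : ℤ) ≤ s := by exact_mod_cast Nat.lt_succ_iff.1 hx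
    have h2 : (y : ℤ) ≤ s := by exact_mod_cast Nat.lt_succ_iff.1 hy
    have h3 : (0 : ℤ) ≤ x := Int.natCast_nonneg x
    have h4 : (0 : ℤ) ≤ y := Int.natCast_nonneg y
    refine le_trans ?_ hss
    nlinarith
  refine ⟨(p.1 : ℤ) - q.1, (p.2 : ℤ) - q.2, ?_, hsq _ _ hp.1 hq.1, hsq _ _ hp.2 hq.2, ?_⟩
  · by_contra hc
    push Not at hc
    refine hpq (Prod.ext ?_ ?_)
    · have := hc.1
      omega
    · have := hc.2
      omega
  · have h2 : δ ∣ (u * ((p.2 : ℤ) - p.1) - b * p.1) - (u * ((q.2 : ℤ) - q.1) - b * q.1) :=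
      Int.ModEq.dvd (show (u * ((q.2 : ℤ) - q.1) - b * q.1) % δ =
        (u * ((p.2 : ℤ) - p.1) - b * p.1) % δ from hf.symm)
    have e : u * ((p.2 : ℤ) - q.2 - (p.1 - q.1)) - b * ((p.1 : ℤ) - q.1) =
        (u * ((p.2 : ℤ) - p.1) - b * p.1) - (u * ((q.2 : ℤ) - q.1) - b * q.1) := by ring
    rw [e]
    exact h2

end Pool.Agent.H674R3.HenR
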