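import Pool.Agent.H674R3.HenR

/-! helper116: TaskTrivR of project HENON674. -/

set_option autoImplicit false

open Finset

namespace Pool.Agent.H674R3.HenR

theorem trivR_fibre (H R : ℕ) (b δ u v : ℤ) (hR : 2 ≤ R) (hH : 1 ≤ H)
    (hδ : (H : ℤ) ≤ R * |δ|) (hg : Int.gcd u δ ≤ R) :
    ((solR H b δ u).filter fun p => p.1 = v).card ≤ 19 * R ^ 2 := by
  classical
  have hδ0 : δ ≠ 0 := by
    rintro rfl
    rw [abs_zero, mul_zero] at hδ
    omega
  obtain ⟨g, hgd⟩ : ∃ g, g = Int.gcd u δ := ⟨_, rfl⟩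
  have hgpos : 0 < g := by
    rw [hgd]
    exact Int.gcd_pos_of_ne_zero_right u hδ0
  obtain ⟨u', δ', hcop, hu, hδe⟩ : ∃ u' δ' : ℤ, IsCoprime u' δ' ∧ u = u' * g ∧ δ = δ' * g := by
    obtain ⟨u', hu'⟩ := Int.gcd_dvd_left u δ
    obtain ⟨δ', hδ'⟩ := Int.gcd_dvd_right u δ
    rw [← hgd] at hu' hδ'
    refine ⟨u', δ', ?_, by rw [mul_comm]; exact hu', by rw [mul_comm]; exact hδ'⟩
    have hb := Int.gcd_eq_gcd_ab u δ
    rw [← hgd] at hb
    refine ⟨u.gcdA δ, u.gcdB δ, ?_⟩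
    have hg0 : (g : ℤ) ≠ 0 := by exact_mod_cast hgpos.ne'
    apply mul_left_cancel₀ hg0
    calc (g : ℤ) * (u.gcdA δ * u' + u.gcdB δ * δ')
        = (g * u') * u.gcdA δ + (g * δ') * u.gcdB δ := by ring
      _ = u * u.gcdA δ + δ * u.gcdB δ := by rw [← hu', ← hδ']
      _ = g := hb.symm
      _ = g * 1 := by ring
  have hδ'0 : δ' ≠ 0 := by
    rintro rfl
    apply hδ0
    rw [hδe, zero_mul]
  obtain ⟨k, hk⟩ : ∃ k : ℕ, δ'.natAbs = k + 1 :=
    Nat.exists_eq_succ_of_ne_zero (Int.natAbs_ne_zero.2 hδ'0)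
  have habs : |δ'| = (k : ℤ) + 1 := by
    rw [Int.abs_eq_natAbs, hk]
    push_cast
    rfl
  let S : Finset ℤ := ((solR H b δ u).filter fun p => p.1 = v).image Prod.snd
  have hcard : ((solR H b δ u).filter fun p => p.1 = v).card = S.card := by
    symm
    apply Finset.card_image_of_injOn
    intro p hp q hq hpq
    have h1 := (Finset.mem_filter.1 (Finset.mem_coe.1 hp)).2
    have h2 := (Finset.mem_filter.1 (Finset.mem_coe.1 hq)).2
    exact Prod.ext (h1.trans h2.symm) hpq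
  have hS : ∀ t ∈ S, (-(9 * (H : ℤ)) ≤ t ∧ t ≤ 9 * (H : ℤ)) ∧ δ ∣ u * (t - u - v) - b * v := by
    intro t ht
    obtain ⟨p, hp, rfl⟩ := Finset.mem_image.1 ht
    obtain ⟨hp1, hpv⟩ := Finset.mem_filter.1 hp
    unfold solR at hp1
    obtain ⟨hp2, -, hp3⟩ := Finset.mem_filter.1 hp1
    obtain ⟨-, hp4⟩ := Finset.mem_product.1 hp2
    rw [hpv] at hp3
    exact ⟨Finset.mem_Icc.1 hp4, hp3⟩
  have hsp := Hen.spaced S (18 * H) k
    (by
      intro x hx y hy
      have h1 := (hS x hx).1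
      have h2 := (hS y hy).1
      rw [abs_le]
      push_cast
      constructor <;> linarith [h1.1, h1.2, h2.1, h2.2])
    (by
      intro x hx y hy hxy
      have h1 := (hS x hx).2
      have h2 := (hS y hy).2
      have h3 : δ ∣ u * (x - y) := by
        have := dvd_sub h1 h2
        have e : u * (x - u - v) - b * v - (u * (y - u - v) - b * v) = u * (x - y) := by ring
        rwa [e] at this
      have h4 : δ' ∣ u' * (x - y) := by
        rw [hδe, hu] at h3
        have e : u' * (g : ℤ) * (x - y) = u' * (x - y) * g := by ring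
        rw [e] at h3
        exact Int.dvd_of_mul_dvd_mul_right (by exact_mod_cast hgpos.ne') h3
      have h5 : δ' ∣ x - y := hcop.symm.dvd_of_dvd_mul_left h4
      have h6 : |δ'| ≤ |x - y| := by
        apply Int.le_of_dvd (abs_pos.2 (sub_ne_zero.2 hxy))
        exact (abs_dvd_abs _ _).2 h5
      rw [habs] at h6
      omega)
  rw [hcard]
  refine hsp.trans ?_
  have hHk : H ≤ (k + 1) * R ^ 2 := by
    have h1 : |δ| = ((k : ℤ) + 1) * g := by
      rw [hδe, abs_mul, habs]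
      congr 1
      exact abs_of_nonneg (by positivity)
    rw [h1] at hδ
    have h2 : (g : ℤ) ≤ R := by
      rw [hgd]
      exact_mod_cast hg
    have h3 : (H : ℤ) ≤ ((k : ℤ) + 1) * (R : ℤ) ^ 2 := by
      have h4 : (R : ℤ) * (((k : ℤ) + 1) * g) ≤ R * (((k : ℤ) + 1) * R) := by gcongr
      calc (H : ℤ) ≤ _ := hδ
        _ ≤ _ := h4
        _ = _ := by ring
    exact_mod_cast h3
  have hdiv : 18 * H / (k + 1) ≤ 18 * R ^ 2 := by
    apply Nat.div_le_of_le_mul
    calc 18 * H ≤ 18 * ((k + 1) * R ^ 2) := Nat.mul_le_mul_left _ hHk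
      _ = (k + 1) * (18 * R ^ 2) := by ring
  have hR2 : 1 ≤ R ^ 2 := Nat.one_le_pow _ _ (by omega)
  omega

theorem taskTrivR : TaskTrivR := by
  intro H R b δ u hR hH hδ hg
  classical
  have h := Finset.card_le_mul_card_image_of_maps_to (s := solR H b δ u)
    (t := Finset.Icc (-(8 * (H : ℤ))) (8 * (H : ℤ))) (f := Prod.fst)
    (by
      intro p hp
      unfold solR at hp
      exact (Finset.mem_product.1 (Finset.mem_filter.1 hp).1).1)
    (19 * R ^ 2) (fun v _ => trivR_fibre H R b δ u v hR hH hδ hg)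
  refine h.trans ?_
  have hc : (Finset.Icc (-(8 * (H : ℤ))) (8 * (H : ℤ))).card = 16 * H + 1 := by
    rw [Int.card_Icc]
    omega
  rw [hc]
  have h1 : 19 * R ^ 2 * (16 * H + 1) ≤ 19 * R ^ 2 * (17 * H) :=
    Nat.mul_le_mul_left _ (by omega)
  refine h1.trans ?_
  nlinarith [Nat.zero_le (H * R ^ 2)]

end Pool.Agent.H674R3.HenR
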