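import Pool.Agent.H674R3.HenR

/-!
HENON project (helper674), part 2, task Vand (helper187): few roots of a quadratic congruence in an
interval.
-/

set_option autoImplicit false

open Finset

namespace Pool.Agent.H674R3.HenR

theorem three_roots {b α β γ : ℤ} {ℓ G : ℕ} (hg : Int.gcd b α ≤ G) (hb : G * ℓ ^ 3 < b.natAbs)
    {x y z : ℤ} (hx : b ∣ α * x ^ 2 + β * x + γ) (hy : b ∣ α * y ^ 2 + β * y + γ)
    (hz : b ∣ α * z ^ 2 + β * z + γ) (hxy : x ≠ y) (hxz : x ≠ z) (hyz : y ≠ z)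
    (h1 : |x - y| ≤ (ℓ : ℤ)) (h2 : |x - z| ≤ (ℓ : ℤ)) (h3 : |y - z| ≤ (ℓ : ℤ)) : False := by
  have hV : b ∣ α * ((x - y) * (x - z) * (y - z)) := by
    have e : α * ((x - y) * (x - z) * (y - z)) = (α * x ^ 2 + β * x + γ) * (y - z) -
        (α * y ^ 2 + β * y + γ) * (x - z) + (α * z ^ 2 + β * z + γ) * (x - y) := by ring
    rw [e]
    exact dvd_add (dvd_sub (hx.mul_right _) (hy.mul_right _)) (hz.mul_right _)
  set V : ℤ := (x - y) * (x - z) * (y - z) with hVdef
  have hV0 : V ≠ 0 := mul_ne_zero (mul_ne_zero (sub_ne_zero.2 hxy) (sub_ne_zero.2 hxz))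
    (sub_ne_zero.2 hyz)
  have hVle : V.natAbs ≤ ℓ ^ 3 := by
    rw [hVdef, Int.natAbs_mul, Int.natAbs_mul]
    have k1 : (x - y).natAbs ≤ ℓ := by zify; exact h1
    have k2 : (x - z).natAbs ≤ ℓ := by zify; exact h2
    have k3 : (y - z).natAbs ≤ ℓ := by zify; exact h3
    calc (x - y).natAbs * (x - z).natAbs * (y - z).natAbs ≤ ℓ * ℓ * ℓ :=
          Nat.mul_le_mul (Nat.mul_le_mul k1 k2) k3
      _ = ℓ ^ 3 := by ring
  have hd : b.natAbs ∣ Int.gcd b α * V.natAbs := by
    have hd2 : b.natAbs ∣ α.natAbs * V.natAbs := by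
      rw [← Int.natAbs_mul]
      exact Int.natAbs_dvd_natAbs.2 hV
    have : Int.gcd b α * V.natAbs = Nat.gcd (b.natAbs * V.natAbs) (α.natAbs * V.natAbs) := by
      rw [Nat.gcd_mul_right]
      rfl
    rw [this]
    exact Nat.dvd_gcd (Dvd.intro _ rfl) hd2
  have hb0 : b ≠ 0 := by
    rintro rfl
    simp at hb
  have hpos : 0 < Int.gcd b α * V.natAbs :=
    Nat.mul_pos (Int.gcd_pos_of_ne_zero_left _ hb0) (Int.natAbs_pos.2 hV0)
  have hle := Nat.le_of_dvd hpos hd
  have : Int.gcd b α * V.natAbs ≤ G * ℓ ^ 3 := Nat.mul_le_mul hg hVle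
  omega

theorem taskVand : TaskVand := by
  intro b α β γ ℓ G L S hg hb hroot hdist
  rcases S.eq_empty_or_nonempty with rfl | hne
  · simp
  set m := S.min' hne with hm
  have hmS : m ∈ S := S.min'_mem hne
  have hmle : ∀ i ∈ S, m ≤ i := fun i hi => S.min'_le i hi
  have key : S.card ≤ 2 * (Finset.range (L / (ℓ + 1) + 1)).card := by
    refine Finset.card_le_mul_card_image_of_maps_to
      (f := fun i : ℤ => (i - m).toNat / (ℓ + 1)) ?_ 2 ?_
    · intro i hi
      have h1 := hmle i hi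
      have h2 := hdist i hi m hmS
      have h3 : (i - m).toNat ≤ L := by
        have : |i - m| = i - m := abs_of_nonneg (by omega)
        omega
      exact Finset.mem_range.2 (Nat.lt_succ_of_le (Nat.div_le_div_right h3))
    · intro k _
      by_contra hcon
      obtain ⟨x, hx, y, hy, z, hz, hxy, hxz, hyz⟩ := Finset.two_lt_card.1 (not_le.1 hcon)
      have blk : ∀ i ∈ S.filter (fun i : ℤ => (i - m).toNat / (ℓ + 1) = k),
          i ∈ S ∧ ((k : ℤ) * (ℓ + 1) ≤ i - m ∧ i - m ≤ (k : ℤ) * (ℓ + 1) + ℓ) := by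
        intro i hi
        obtain ⟨hiS, hik⟩ := Finset.mem_filter.1 hi
        have h1 := hmle i hiS
        have h4 : k * (ℓ + 1) ≤ (i - m).toNat := by
          rw [← hik]; exact Nat.div_mul_le_self _ _
        have h5 : (i - m).toNat < (k + 1) * (ℓ + 1) := by
          rw [← hik, mul_comm]; exact Nat.lt_mul_div_succ _ (Nat.succ_pos ℓ)
        have h6 : ((i - m).toNat : ℤ) = i - m := Int.toNat_of_nonneg (by omega)
        refine ⟨hiS, ?_, ?_⟩
        · rw [← h6]; exact_mod_cast h4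
        · rw [← h6]
          have h7 : (i - m).toNat ≤ k * (ℓ + 1) + ℓ := by
            have : (k + 1) * (ℓ + 1) = k * (ℓ + 1) + (ℓ + 1) := by ring
            omega
          exact_mod_cast h7
      obtain ⟨hxS, x1, x2⟩ := blk x hx
      obtain ⟨hyS, y1, y2⟩ := blk y hy
      obtain ⟨hzS, z1, z2⟩ := blk z hz
      exact three_roots hg hb (hroot x hxS) (hroot y hyS) (hroot z hzS) hxy hxz hyz
        (abs_le.2 ⟨by linarith, by linarith⟩) (abs_le.2 ⟨by linarith, by linarith⟩)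
        (abs_le.2 ⟨by linarith, by linarith⟩)
  simpa using key

end Pool.Agent.H674R3.HenR
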