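import Pool.Agent.H674R3.HenS

/-!
HENON project: few bad `u` for each `δ`.
-/

set_option autoImplicit false

open Finset

namespace Pool.Agent.H674R3.Hen

theorem taskBad : TaskBad := by
  intro H R δ hR hRH hH S hS
  classical
  obtain ⟨D, hD⟩ : ∃ D, D = δ.natAbs := ⟨_, rfl⟩
  have hDδ : |δ| = (D : ℤ) := by rw [hD]; exact Int.abs_eq_natAbs δ
  have hHD : H ≤ R * D := by
    rw [hDδ] at hH
    exact_mod_cast hH
  have hR0 : 0 < R := by omega
  have hD8 : R ^ 8 ≤ D := by
    have h1 : R * R ^ 8 ≤ R * D := by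
      calc R * R ^ 8 = R ^ 9 := by ring
        _ ≤ H := hRH
        _ ≤ R * D := hHD
    exact Nat.le_of_mul_le_mul_left h1 hR0
  have hRD : R < D := by
    have h1 : R ^ 2 ≤ R ^ 8 := Nat.pow_le_pow_right hR0 (by norm_num)
    have h2 : R < R ^ 2 := by nlinarith
    omega
  have hD0 : 0 < D := by omega
  obtain ⟨P, hP⟩ : ∃ P : Finset (ℤ × ℤ), P = (((Finset.Icc (0 : ℤ) R) ×ˢ
    (Finset.Icc (-(24 * (R : ℤ) ^ 3)) (24 * (R : ℤ) ^ 3))).filter (fun p => p.2 - p.1 ≠ 0)) :=
    ⟨_, rfl⟩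
  have hsub : S ⊆ P.biUnion (fun p => S.filter (fun u => δ ∣ u * (p.2 - p.1) - p.1)) := by
    intro u hu
    obtain ⟨hu1, h, r, hh0, hhR, hr, hne, hdvd⟩ := hS u hu
    rw [Finset.mem_biUnion]
    refine ⟨(h, r), ?_, ?_⟩
    · rw [hP, Finset.mem_filter, Finset.mem_product, Finset.mem_Icc, Finset.mem_Icc]
      refine ⟨⟨⟨hh0, hhR⟩, abs_le.1 hr⟩, ?_⟩
      intro hs
      simp only at hs
      rw [hs, mul_zero, zero_sub] at hdvd
      have h1 : δ ∣ h := (dvd_neg).1 hdvd
      have hne' : h ≠ 0 := by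
        rcases hne with h2 | h2
        · exact h2
        · intro h3
          apply h2
          omega
      have h2 := Int.le_of_dvd (by omega) ((abs_dvd _ _).2 h1)
      rw [hDδ] at h2
      have : (D : ℤ) ≤ R := le_trans h2 hhR
      omega
    · rw [Finset.mem_filter]
      exact ⟨hu, hdvd⟩
  have hcard : ∀ p ∈ P, (S.filter (fun u => δ ∣ u * (p.2 - p.1) - p.1)).card ≤
      400 * R ^ 4 + 1 := by
    rintro ⟨h, r⟩ hp
    rw [hP, Finset.mem_filter, Finset.mem_product, Finset.mem_Icc, Finset.mem_Icc] at hp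
    obtain ⟨⟨⟨hh0, hhR⟩, hr1, hr2⟩, hs⟩ := hp
    simp only at hh0 hhR hr1 hr2 hs ⊢
    obtain ⟨s, hsd⟩ : ∃ s, s = r - h := ⟨_, rfl⟩
    rw [← hsd] at hs ⊢
    obtain ⟨m, hm⟩ : ∃ m, m = s.natAbs := ⟨_, rfl⟩
    have hm0 : 0 < m := by rw [hm]; exact Int.natAbs_pos.2 hs
    have hsm : |s| = (m : ℤ) := by rw [hm]; exact Int.abs_eq_natAbs s
    have hm25 : m ≤ 25 * R ^ 3 := by
      have h1 : (R : ℤ) ≤ (R : ℤ) ^ 3 := by
        have : (1 : ℤ) ≤ R := by exact_mod_cast hR0
        nlinarith [mul_nonneg (by linarith : (0 : ℤ) ≤ R) (by linarith : (0 : ℤ) ≤ R - 1),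
          mul_nonneg (mul_nonneg (by linarith : (0 : ℤ) ≤ R) (by linarith : (0 : ℤ) ≤ R - 1))
            (by linarith : (0 : ℤ) ≤ R)]
      have h2 : |s| ≤ 25 * (R : ℤ) ^ 3 := by
        rw [hsd, abs_le]
        constructor <;> linarith
      rw [hsm] at h2
      exact_mod_cast h2
    obtain ⟨k, hk⟩ : ∃ k, k = (D - 1) / m := ⟨_, rfl⟩
    have hk1 : k * m < D := by
      have := Nat.div_mul_le_self (D - 1) m
      rw [← hk] at this
      omega
    have hk2 : D ≤ (k + 1) * m := by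
      have h1 := Nat.div_add_mod (D - 1) m
      have h2 := Nat.mod_lt (D - 1) hm0
      rw [← hk] at h1
      have h3 : (k + 1) * m = m * k + m := by ring
      omega
    have hsp := spaced (S.filter (fun u => δ ∣ u * s - h)) (16 * H) k (by
        intro x hx y hy
        have hx1 := (hS x (Finset.mem_filter.1 hx).1).1
        have hy1 := (hS y (Finset.mem_filter.1 hy).1).1
        rw [abs_le] at hx1 hy1 ⊢
        push_cast
        constructor <;> linarith [hx1.1, hx1.2, hy1.1, hy1.2]) (by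
        intro x hx y hy hxy
        have hx1 := (Finset.mem_filter.1 hx).2
        have hy1 := (Finset.mem_filter.1 hy).2
        have h1 : δ ∣ (x - y) * s := by
          have := dvd_sub hx1 hy1
          have e : x * s - h - (y * s - h) = (x - y) * s := by ring
          rwa [e] at this
        have h2 : δ.natAbs ∣ ((x - y) * s).natAbs := Int.natAbs_dvd_natAbs.2 h1
        rw [Int.natAbs_mul, ← hD, ← hm] at h2
        have hxy0 : 0 < (x - y).natAbs := Int.natAbs_pos.2 (sub_ne_zero.2 hxy)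
        have h3 := Nat.le_of_dvd (Nat.mul_pos hxy0 hm0) h2
        have h4 : k < (x - y).natAbs := by
          have : k * m < (x - y).natAbs * m := lt_of_lt_of_le hk1 h3
          exact lt_of_mul_lt_mul_right this (Nat.zero_le m)
        rw [Int.abs_eq_natAbs]
        exact_mod_cast h4)
    refine le_trans hsp ?_
    have h5 : 16 * H / (k + 1) ≤ 400 * R ^ 4 := by
      apply Nat.div_le_of_le_mul
      calc 16 * H ≤ 16 * (R * D) := Nat.mul_le_mul_left _ hHD
        _ ≤ 16 * (R * ((k + 1) * m)) := Nat.mul_le_mul_left _ (Nat.mul_le_mul_left _ hk2)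
        _ ≤ 16 * (R * ((k + 1) * (25 * R ^ 3))) :=
          Nat.mul_le_mul_left _ (Nat.mul_le_mul_left _ (Nat.mul_le_mul_left _ hm25))
        _ = (k + 1) * (400 * R ^ 4) := by ring
    omega
  have hPc : P.card ≤ (R + 1) * (48 * R ^ 3 + 1) := by
    rw [hP]
    refine le_trans (Finset.card_filter_le _ _) ?_
    rw [Finset.card_product, Int.card_Icc, Int.card_Icc]
    apply Nat.mul_le_mul
    · omega
    · have : (24 * (R : ℤ) ^ 3 + 1 - -(24 * (R : ℤ) ^ 3)) = ((48 * R ^ 3 + 1 : ℕ) : ℤ) := by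
        push_cast
        ring
      rw [this, Int.toNat_natCast]
  calc S.card ≤ (P.biUnion (fun p => S.filter (fun u => δ ∣ u * (p.2 - p.1) - p.1))).card :=
        Finset.card_le_card hsub
    _ ≤ P.card * (400 * R ^ 4 + 1) := Finset.card_biUnion_le_card_mul _ _ _ hcard
    _ ≤ ((R + 1) * (48 * R ^ 3 + 1)) * (400 * R ^ 4 + 1) := Nat.mul_le_mul_right _ hPc
    _ ≤ ((2 * R) * (49 * R ^ 3)) * (401 * R ^ 4) := by
        have h1 : 1 ≤ R ^ 3 := Nat.one_le_pow _ _ hR0
        have h2 : 1 ≤ R ^ 4 := Nat.one_le_pow _ _ hR0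
        apply Nat.mul_le_mul
        · apply Nat.mul_le_mul
          · omega
          · omega
        · omega
    _ = 39298 * R ^ 8 := by ring
    _ ≤ 50000 * R ^ 8 := Nat.mul_le_mul_right _ (by norm_num)

end Pool.Agent.H674R3.Hen
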