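import Pool.Agent.H674R3.HenS

/-! # TaskGood (helper929). -/

set_option autoImplicit false

open Finset

namespace Pool.Agent.H674R3.Hen

namespace Good929

variable {H R : ℕ} {δ u : ℤ}

theorem mem_sol {p : ℤ × ℤ} (hp : p ∈ sol H δ u) :
    |p.1| ≤ 8 * (H : ℤ) ∧ |p.2| ≤ 9 * (H : ℤ) ∧ |p.1 * p.2 - δ * u| ≤ 8 * (H : ℤ) ∧
      δ ∣ u * (p.2 - u - p.1) - p.1 := by
  rw [sol, Finset.mem_filter, Finset.mem_product, Finset.mem_Icc, Finset.mem_Icc] at hp
  exact ⟨abs_le.2 ⟨by linarith [hp.1.1.1], hp.1.1.2⟩, abs_le.2 ⟨by linarith [hp.1.2.1], hp.1.2.2⟩,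
    hp.2.1, hp.2.2⟩

/-- distinct solutions are far apart -/
theorem far (hbad : ¬ Bad R δ u) {p q : ℤ × ℤ} (hp : p ∈ sol H δ u) (hq : q ∈ sol H δ u)
    (hpq : p ≠ q) (h1 : |p.1 - q.1| ≤ (R : ℤ)) (h2 : |p.2 - q.2| ≤ 24 * (R : ℤ) ^ 3) : False := by
  apply hbad
  have d1 := (mem_sol hp).2.2.2
  have d2 := (mem_sol hq).2.2.2
  have d3 := dvd_sub d1 d2
  have hne : p.1 - q.1 ≠ 0 ∨ p.2 - q.2 ≠ 0 := by
    by_contra hcon
    push Not at hcon
    exact hpq (Prod.ext (by linarith [hcon.1]) (by linarith [hcon.2]))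
  rcases le_total 0 (p.1 - q.1) with h0 | h0
  · refine ⟨p.1 - q.1, p.2 - q.2, h0, (le_abs_self _).trans h1, h2, hne, ?_⟩
    have e : u * (p.2 - q.2 - (p.1 - q.1)) - (p.1 - q.1) =
        u * (p.2 - u - p.1) - p.1 - (u * (q.2 - u - q.1) - q.1) := by ring
    rw [e]; exact d3
  · refine ⟨-(p.1 - q.1), -(p.2 - q.2), by linarith, (neg_le_abs _).trans h1, by rwa [abs_neg],
      ?_, ?_⟩
    · rcases hne with h | h
      · left; exact neg_ne_zero.2 h
      · right; exact neg_ne_zero.2 h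
    · have e : u * (-(p.2 - q.2) - -(p.1 - q.1)) - -(p.1 - q.1) =
        -(u * (p.2 - u - p.1) - p.1 - (u * (q.2 - u - q.1) - q.1)) := by ring
      rw [e, dvd_neg]; exact d3

theorem big_close (hR : 2 ≤ R) (hδ : |δ| ≤ (H : ℤ)) (hu : |u| ≤ 8 * (H : ℤ)) {p q : ℤ × ℤ}
    (hp : p ∈ sol H δ u) (hq : q ∈ sol H δ u) (h1 : |p.1 - q.1| ≤ (R : ℤ))
    (hpH : (H : ℤ) < R * |p.1|) (hqH : (H : ℤ) < R * |q.1|) : |p.2 - q.2| ≤ 24 * (R : ℤ) ^ 3 := by
  obtain ⟨-, -, m1, -⟩ := mem_sol hp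
  obtain ⟨-, -, m2, -⟩ := mem_sol hq
  have hR' : (2 : ℤ) ≤ R := by exact_mod_cast hR
  have hH0 : (0 : ℤ) ≤ H := by positivity
  set a := |p.1| with ha
  set b := |q.1| with hb
  have ha0 : 0 < a := by
    have : 0 ≤ a := abs_nonneg _
    rcases this.lt_or_eq with h | h
    · exact h
    · rw [← h] at hpH; linarith [mul_zero (R : ℤ)]
  have hb0 : 0 < b := by
    have : 0 ≤ b := abs_nonneg _
    rcases this.lt_or_eq with h | h
    · exact h
    · rw [← h] at hqH; linarith [mul_zero (R : ℤ)]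
  have key : p.1 * q.1 * (p.2 - q.2) = δ * u * (q.1 - p.1) + q.1 * (p.1 * p.2 - δ * u)
      - p.1 * (q.1 * q.2 - δ * u) := by ring
  have hdu : |δ * u| ≤ 8 * (H : ℤ) ^ 2 := by
    rw [abs_mul]
    calc |δ| * |u| ≤ H * (8 * H) := mul_le_mul hδ hu (abs_nonneg _) hH0
      _ = 8 * (H : ℤ) ^ 2 := by ring
  have hT : a * b * |p.2 - q.2| ≤ 8 * (H : ℤ) ^ 2 * R + b * (8 * H) + a * (8 * H) := by
    have h3 : a * b * |p.2 - q.2| = |p.1 * q.1 * (p.2 - q.2)| := by
      rw [abs_mul, abs_mul]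
    rw [h3, key]
    have h4 : |δ * u * (q.1 - p.1)| ≤ 8 * (H : ℤ) ^ 2 * R := by
      rw [abs_mul, abs_sub_comm]
      exact mul_le_mul hdu h1 (abs_nonneg _) (by positivity)
    have h5 : |q.1 * (p.1 * p.2 - δ * u)| ≤ b * (8 * H) := by
      rw [abs_mul]
      exact mul_le_mul_of_nonneg_left m1 hb0.le
    have h6 : |p.1 * (q.1 * q.2 - δ * u)| ≤ a * (8 * H) := by
      rw [abs_mul]
      exact mul_le_mul_of_nonneg_left m2 ha0.le
    have h7 := abs_sub (δ * u * (q.1 - p.1) + q.1 * (p.1 * p.2 - δ * u))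
      (p.1 * (q.1 * q.2 - δ * u))
    have h8 := abs_add_le (δ * u * (q.1 - p.1)) (q.1 * (p.1 * p.2 - δ * u))
    linarith
  have hHH : (H : ℤ) ^ 2 ≤ R ^ 2 * (a * b) := by
    have := mul_le_mul hpH.le hqH.le hH0 (by positivity)
    calc (H : ℤ) ^ 2 = H * H := by ring
      _ ≤ R * a * (R * b) := this
      _ = R ^ 2 * (a * b) := by ring
  have e1 : 8 * (H : ℤ) ^ 2 * R ≤ 8 * R ^ 3 * (a * b) := by
    have := mul_le_mul_of_nonneg_right hHH (show (0 : ℤ) ≤ 8 * R by positivity)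
    calc 8 * (H : ℤ) ^ 2 * R = (H : ℤ) ^ 2 * (8 * R) := by ring
      _ ≤ R ^ 2 * (a * b) * (8 * R) := this
      _ = 8 * R ^ 3 * (a * b) := by ring
  have e2 : b * (8 * (H : ℤ)) ≤ 8 * R * (a * b) := by
    have := mul_le_mul_of_nonneg_left hpH.le (show (0 : ℤ) ≤ 8 * b by positivity)
    calc b * (8 * (H : ℤ)) = 8 * b * H := by ring
      _ ≤ 8 * b * (R * a) := this
      _ = 8 * R * (a * b) := by ring
  have e3 : a * (8 * (H : ℤ)) ≤ 8 * R * (a * b) := by
    have := mul_le_mul_of_nonneg_left hqH.le (show (0 : ℤ) ≤ 8 * a by positivity)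
    calc a * (8 * (H : ℤ)) = 8 * a * H := by ring
      _ ≤ 8 * a * (R * b) := this
      _ = 8 * R * (a * b) := by ring
  have hR3 : (R : ℤ) ≤ R ^ 3 := by
    have : (1 : ℤ) ≤ R ^ 2 := by nlinarith
    calc (R : ℤ) = R * 1 := by ring
      _ ≤ R * R ^ 2 := mul_le_mul_of_nonneg_left this (by positivity)
      _ = R ^ 3 := by ring
  have hab : 0 < a * b := mul_pos ha0 hb0
  have hfin : a * b * |p.2 - q.2| ≤ a * b * (24 * (R : ℤ) ^ 3) := by
    have e4 : (8 * (R : ℤ) ^ 3 + 16 * R) * (a * b) ≤ 24 * (R : ℤ) ^ 3 * (a * b) :=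
      mul_le_mul_of_nonneg_right (by linarith) hab.le
    nlinarith
  exact le_of_mul_le_mul_left hfin hab

theorem fiber (hbad : ¬ Bad R δ u) (v : ℤ) (hv : v ≠ 0) :
    ((sol H δ u).filter (fun p => p.1 = v)).card ≤
      16 * H / v.natAbs / (24 * R ^ 3 + 1) + 1 := by
  have hinj : Set.InjOn Prod.snd (((sol H δ u).filter (fun p => p.1 = v) :
      Finset (ℤ × ℤ)) : Set (ℤ × ℤ)) := by
    intro p hp q hq hpq
    rw [Finset.mem_coe, Finset.mem_filter] at hp hq
    exact Prod.ext (hp.2.trans hq.2.symm) hpq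
  rw [← Finset.card_image_of_injOn hinj]
  apply spaced
  · intro x hx y hy
    rw [Finset.mem_image] at hx hy
    obtain ⟨p, hp, rfl⟩ := hx
    obtain ⟨q, hq, rfl⟩ := hy
    rw [Finset.mem_filter] at hp hq
    obtain ⟨-, -, m1, -⟩ := mem_sol hp.1
    obtain ⟨-, -, m2, -⟩ := mem_sol hq.1
    rw [hp.2] at m1
    rw [hq.2] at m2
    have h1 : |v * (p.2 - q.2)| ≤ 16 * (H : ℤ) := by
      have := abs_sub (v * p.2 - δ * u) (v * q.2 - δ * u)
      have e : v * (p.2 - q.2) = (v * p.2 - δ * u) - (v * q.2 - δ * u) := by ring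
      rw [e]; linarith
    rw [abs_mul] at h1
    have hv0 : (0 : ℤ) < |v| := abs_pos.2 hv
    have h2 : |p.2 - q.2| ≤ 16 * (H : ℤ) / |v| := by
      rw [Int.le_ediv_iff_mul_le hv0]
      linarith [mul_comm |v| |p.2 - q.2|]
    rw [Int.natCast_div, Int.natCast_natAbs]
    push_cast
    exact h2
  · intro x hx y hy hxy
    rw [Finset.mem_image] at hx hy
    obtain ⟨p, hp, rfl⟩ := hx
    obtain ⟨q, hq, rfl⟩ := hy
    rw [Finset.mem_filter] at hp hq
    by_contra hcon
    push Not at hcon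
    refine far hbad hp.1 hq.1 (fun h => hxy (by rw [h])) ?_ (by push_cast at hcon; exact hcon)
    rw [hp.2, hq.2]; simp

end Good929

open Good929 in
theorem taskGood : TaskGood := by
  intro H R δ u hR hRH hδ hu hHR hbad
  classical
  have hR' : (2 : ℤ) ≤ R := by exact_mod_cast hR
  set A := (sol H δ u).filter (fun p => p.1 = 0) with hA
  set B := (sol H δ u).filter (fun p => p.1 ≠ 0 ∧ (R : ℤ) * |p.1| ≤ H) with hB
  set C := (sol H δ u).filter (fun p => (H : ℤ) < R * |p.1|) with hC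
  have hcover : sol H δ u ⊆ C ∪ A ∪ B := by
    intro p hp
    rw [Finset.mem_union, Finset.mem_union, hA, hB, hC, Finset.mem_filter, Finset.mem_filter,
      Finset.mem_filter]
    by_cases h0 : p.1 = 0
    · left; right; exact ⟨hp, h0⟩
    · by_cases h1 : (H : ℤ) < R * |p.1|
      · left; left; exact ⟨hp, h1⟩
      · right; exact ⟨hp, h0, not_lt.1 h1⟩
  have hcard := (Finset.card_le_card hcover).trans
    ((Finset.card_union_le _ _).trans (Nat.add_le_add_right (Finset.card_union_le _ _) _))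
  -- C
  have hCfar : ∀ p ∈ C, ∀ q ∈ C, p ≠ q → (R : ℤ) < |p.1 - q.1| := by
    intro p hp q hq hpq
    rw [hC, Finset.mem_filter] at hp hq
    by_contra hcon
    push Not at hcon
    exact far hbad hp.1 hq.1 hpq hcon (big_close hR hδ hu hp.1 hq.1 hcon hp.2 hq.2)
  have hCcard : C.card ≤ 16 * H / (R + 1) + 1 := by
    have hinj : Set.InjOn Prod.fst (C : Set (ℤ × ℤ)) := by
      intro p hp q hq hpq
      by_contra hne
      have := hCfar p hp q hq hne
      rw [hpq] at this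
      simp at this
      linarith
    rw [← Finset.card_image_of_injOn hinj]
    apply spaced
    · intro x hx y hy
      rw [Finset.mem_image] at hx hy
      obtain ⟨p, hp, rfl⟩ := hx
      obtain ⟨q, hq, rfl⟩ := hy
      rw [hC, Finset.mem_filter] at hp hq
      have h1 := (mem_sol hp.1).1
      have h2 := (mem_sol hq.1).1
      have h3 := abs_sub p.1 q.1
      push_cast
      linarith
    · intro x hx y hy hxy
      rw [Finset.mem_image] at hx hy
      obtain ⟨p, hp, rfl⟩ := hx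
      obtain ⟨q, hq, rfl⟩ := hy
      exact hCfar p hp q hq (fun h => hxy (by rw [h]))
  -- A
  have hAcard : A.card ≤ 18 * H / (24 * R ^ 3 + 1) + 1 := by
    have hinj : Set.InjOn Prod.snd (A : Set (ℤ × ℤ)) := by
      intro p hp q hq hpq
      rw [Finset.mem_coe, hA, Finset.mem_filter] at hp hq
      exact Prod.ext (hp.2.trans hq.2.symm) hpq
    rw [← Finset.card_image_of_injOn hinj]
    apply spaced
    · intro x hx y hy
      rw [Finset.mem_image] at hx hy
      obtain ⟨p, hp, rfl⟩ := hx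
      obtain ⟨q, hq, rfl⟩ := hy
      rw [hA, Finset.mem_filter] at hp hq
      have h1 := (mem_sol hp.1).2.1
      have h2 := (mem_sol hq.1).2.1
      have h3 := abs_sub p.2 q.2
      push_cast
      linarith
    · intro x hx y hy hxy
      rw [Finset.mem_image] at hx hy
      obtain ⟨p, hp, rfl⟩ := hx
      obtain ⟨q, hq, rfl⟩ := hy
      rw [hA, Finset.mem_filter] at hp hq
      by_contra hcon
      push Not at hcon
      refine far hbad hp.1 hq.1 (fun h => hxy (by rw [h])) ?_ (by push_cast at hcon; exact hcon)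
      rw [hp.2, hq.2]; simp
  -- B
  have hBcover : B ⊆ (Finset.Icc 1 (H / R)).biUnion (fun n : ℕ =>
      (sol H δ u).filter (fun p => p.1 = (n : ℤ)) ∪
        (sol H δ u).filter (fun p => p.1 = -(n : ℤ))) := by
    intro p hp
    rw [hB, Finset.mem_filter] at hp
    obtain ⟨hp1, hp0, hpH⟩ := hp
    rw [Finset.mem_biUnion]
    refine ⟨p.1.natAbs, ?_, ?_⟩
    · rw [Finset.mem_Icc]
      refine ⟨Int.natAbs_pos.2 hp0, ?_⟩
      rw [Nat.le_div_iff_mul_le (by omega)]
      have : ((p.1.natAbs * R : ℕ) : ℤ) ≤ (H : ℤ) := by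
        push_cast
        linarith [mul_comm |p.1| (R : ℤ)]
      exact_mod_cast this
    · rw [Finset.mem_union, Finset.mem_filter, Finset.mem_filter]
      rcases Int.natAbs_eq p.1 with h | h
      · left; exact ⟨hp1, h⟩
      · right; exact ⟨hp1, h⟩
  have hBcard : B.card ≤ 2 * ∑ v ∈ Finset.Icc 1 (H / R), (16 * H / v / (24 * R ^ 3 + 1) + 1) := by
    refine (Finset.card_le_card hBcover).trans (Finset.card_biUnion_le.trans ?_)
    rw [Finset.mul_sum]
    refine Finset.sum_le_sum fun n hn => ?_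
    rw [Finset.mem_Icc] at hn
    have hn0 : (n : ℤ) ≠ 0 := by exact_mod_cast (by omega : n ≠ 0)
    have f1 := fiber (H := H) (R := R) (δ := δ) (u := u) hbad (n : ℤ) hn0
    have f2 := fiber (H := H) (R := R) (δ := δ) (u := u) hbad (-(n : ℤ)) (neg_ne_zero.2 hn0)
    rw [Int.natAbs_natCast] at f1
    rw [Int.natAbs_neg, Int.natAbs_natCast] at f2
    refine (Finset.card_union_le _ _).trans ?_
    linarith
  calc (sol H δ u).card ≤ C.card + A.card + B.card := hcard
    _ ≤ _ := by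
      have := Nat.add_le_add (Nat.add_le_add hCcard hAcard) hBcard
      exact this

end Pool.Agent.H674R3.Hen
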