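import Mathlib
import Pool.Agent.H674R3.HenS

/-!
HENON project: the total count `TaskSum`.
-/

set_option autoImplicit false

open Finset

namespace Pool.Agent.H674R3.Hen

namespace TS

lemma sum_div (n A : ℕ) :
    ((∑ v ∈ Finset.Icc 1 n, (A / v + 1) : ℕ) : ℝ) ≤ A * (1 + Real.log n) + n := by
  have h1 : (∑ v ∈ Finset.Icc 1 n, ((v : ℝ))⁻¹) ≤ 1 + Real.log n := by
    have h := harmonic_le_one_add_log n
    rw [harmonic_eq_sum_Icc] at h
    push_cast at h
    exact h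
  push_cast
  rw [Finset.sum_add_distrib]
  have h2 : ∑ v ∈ Finset.Icc 1 n, (((A / v : ℕ)) : ℝ) ≤ A * ∑ v ∈ Finset.Icc 1 n, ((v : ℝ))⁻¹ := by
    rw [Finset.mul_sum]
    refine Finset.sum_le_sum fun v _ => ?_
    rw [← div_eq_mul_inv]
    exact Nat.cast_div_le
  have h3 : (A : ℝ) * ∑ v ∈ Finset.Icc 1 n, ((v : ℝ))⁻¹ ≤ A * (1 + Real.log n) :=
    mul_le_mul_of_nonneg_left h1 (by positivity)
  have h4 : ∑ _v ∈ Finset.Icc 1 n, (1 : ℝ) = n := by simp
  linarith

lemma tr_le (H : ℕ) (hH : 1 ≤ H) :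
    (((18 * H + 1) + 2 * ∑ v ∈ Finset.Icc 1 (8 * H), (16 * H / v + 1) : ℕ) : ℝ) ≤
      200 * H * (1 + Real.log H) := by
  have h1 := sum_div (8 * H) (16 * H)
  have hh : (1 : ℝ) ≤ H := by exact_mod_cast hH
  have hl : 0 ≤ Real.log H := Real.log_nonneg hh
  have h8 : Real.log ((8 * H : ℕ) : ℝ) ≤ 3 + Real.log H := by
    push_cast
    rw [Real.log_mul (by norm_num) (by positivity)]
    have : Real.log 8 ≤ 3 := by
      have h2 : Real.log 8 = 3 * Real.log 2 := by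
        rw [show (8 : ℝ) = 2 ^ 3 by norm_num, Real.log_pow]; norm_num
      have := Real.log_two_lt_d9
      linarith
    linarith
  have h3 : ((16 * H : ℕ) : ℝ) * (1 + Real.log ((8 * H : ℕ) : ℝ)) ≤
      16 * H * (4 + Real.log H) := by
    push_cast at h8 ⊢
    exact mul_le_mul_of_nonneg_left (by linarith) (by positivity)
  rw [Nat.cast_add, Nat.cast_mul 2]
  have h5 : ((8 * H : ℕ) : ℝ) = 8 * H := by push_cast; ring
  have h6 : ((18 * H + 1 : ℕ) : ℝ) = 18 * H + 1 := by push_cast; ring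
  rw [h5] at h1
  rw [h5] at h3
  rw [h6]
  have h7 : ((2 : ℕ) : ℝ) = 2 := by norm_num
  rw [h7]
  nlinarith [mul_nonneg (by linarith : (0 : ℝ) ≤ H) hl]

lemma g_le (H R : ℕ) (hR : 2 ≤ R) (hHR : R ^ 9 ≤ H) :
    (((16 * H / (R + 1) + 1) + (18 * H / (24 * R ^ 3 + 1) + 1)
    + 2 * ∑ v ∈ Finset.Icc 1 (H / R), (16 * H / v / (24 * R ^ 3 + 1) + 1) : ℕ) : ℝ) ≤
      100 * ((H : ℝ) / R) * (1 + Real.log H) := by
  have hr : (2 : ℝ) ≤ R := by exact_mod_cast hR
  have hRH : R ≤ H := (Nat.le_self_pow (by norm_num) R).trans hHR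
  have hrh : (R : ℝ) ≤ H := by exact_mod_cast hRH
  have hR0 : (0 : ℝ) < R := by linarith
  have hH0 : (0 : ℝ) < H := by linarith
  have hl : 0 ≤ Real.log H := Real.log_nonneg (by linarith)
  have hq1 : (1 : ℝ) ≤ (H : ℝ) / R := by rw [le_div_iff₀ hR0]; linarith
  have hR3 : R ≤ 24 * R ^ 3 + 1 := by
    have : R ≤ R ^ 3 := Nat.le_self_pow (by norm_num) R
    omega
  have e1 : ((16 * H / (R + 1) : ℕ) : ℝ) ≤ 16 * ((H : ℝ) / R) := by
    refine Nat.cast_div_le.trans ?_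
    push_cast
    rw [mul_div_assoc]
    refine mul_le_mul_of_nonneg_left ?_ (by norm_num)
    exact div_le_div_of_nonneg_left hH0.le hR0 (by linarith)
  have e2 : ((18 * H / (24 * R ^ 3 + 1) : ℕ) : ℝ) ≤ 18 * ((H : ℝ) / R) := by
    refine Nat.cast_div_le.trans ?_
    have hR3' : (R : ℝ) ≤ ((24 * R ^ 3 + 1 : ℕ) : ℝ) := by exact_mod_cast hR3
    rw [Nat.cast_mul 18, mul_div_assoc]
    refine mul_le_mul_of_nonneg_left ?_ (by norm_num)
    exact div_le_div_of_nonneg_left hH0.le hR0 hR3'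
  have e3 : ((∑ v ∈ Finset.Icc 1 (H / R), (16 * H / v / (24 * R ^ 3 + 1) + 1) : ℕ) : ℝ) ≤
      16 * ((H : ℝ) / R) * (1 + Real.log H) + (H : ℝ) / R := by
    have hn : ((H / R : ℕ) : ℝ) ≤ (H : ℝ) / R := Nat.cast_div_le
    have hn1 : 1 ≤ H / R := Nat.div_pos hRH (by omega)
    have hn0 : (0 : ℝ) < ((H / R : ℕ) : ℝ) := by exact_mod_cast hn1
    have hnH : ((H / R : ℕ) : ℝ) ≤ H := by exact_mod_cast Nat.div_le_self H R
    have h1 : (∑ v ∈ Finset.Icc 1 (H / R), ((v : ℝ))⁻¹) ≤ 1 + Real.log H := by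
      have h := harmonic_le_one_add_log (H / R)
      rw [harmonic_eq_sum_Icc] at h
      push_cast at h
      refine h.trans ?_
      have := Real.log_le_log hn0 hnH
      linarith
    rw [Nat.cast_sum]
    have h2 : ∀ v ∈ Finset.Icc 1 (H / R), ((16 * H / v / (24 * R ^ 3 + 1) + 1 : ℕ) : ℝ) ≤
        16 * ((H : ℝ) / R) * ((v : ℝ))⁻¹ + 1 := by
      intro v hv
      have hv1 : 1 ≤ v := (Finset.mem_Icc.1 hv).1
      have hv0 : (0 : ℝ) < v := by exact_mod_cast hv1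
      rw [Nat.cast_add, Nat.cast_one]
      have hR3' : (R : ℝ) ≤ ((24 * R ^ 3 + 1 : ℕ) : ℝ) := by exact_mod_cast hR3
      have h3 : ((16 * H / v / (24 * R ^ 3 + 1) : ℕ) : ℝ) ≤ ((16 * H / v : ℕ) : ℝ) / R :=
        Nat.cast_div_le.trans (div_le_div_of_nonneg_left (by positivity) hR0 hR3')
      have h4 : ((16 * H / v : ℕ) : ℝ) ≤ 16 * H / v := by
        refine Nat.cast_div_le.trans (le_of_eq ?_)
        push_cast; ring
      have h5 : ((16 * H / v : ℕ) : ℝ) / R ≤ (16 * H / v) / R :=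
        div_le_div_of_nonneg_right h4 hR0.le
      have h6 : (16 * (H : ℝ) / v) / R = 16 * ((H : ℝ) / R) * ((v : ℝ))⁻¹ := by
        field_simp
      linarith
    refine (Finset.sum_le_sum h2).trans ?_
    rw [Finset.sum_add_distrib, ← Finset.mul_sum]
    have h7 : ∑ _v ∈ Finset.Icc 1 (H / R), (1 : ℝ) = ((H / R : ℕ) : ℝ) := by simp
    rw [h7]
    have h8 : 16 * ((H : ℝ) / R) * ∑ v ∈ Finset.Icc 1 (H / R), ((v : ℝ))⁻¹ ≤
        16 * ((H : ℝ) / R) * (1 + Real.log H) := mul_le_mul_of_nonneg_left h1 (by positivity)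
    linarith
  rw [Nat.cast_add, Nat.cast_add, Nat.cast_add, Nat.cast_add, Nat.cast_mul 2]
  have h7 : ((2 : ℕ) : ℝ) = 2 := by norm_num
  rw [h7, Nat.cast_one]
  have hql : 0 ≤ (H : ℝ) / R * Real.log H := by positivity
  nlinarith

end TS

open TS in
theorem taskSum : TaskSum := by
  classical
  intro hBad hTriv hGood
  refine ⟨10 ^ 9, by norm_num, fun H R hR hHR => ?_⟩
  have hr : (2 : ℝ) ≤ R := by exact_mod_cast hR
  have hRH : R ≤ H := (Nat.le_self_pow (by norm_num) R).trans hHR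
  have hrh : (R : ℝ) ≤ H := by exact_mod_cast hRH
  have hR0 : (0 : ℝ) < R := by linarith
  have hH0 : (0 : ℝ) < H := by linarith
  have hH1 : 1 ≤ H := by omega
  have hl : 0 ≤ Real.log H := Real.log_nonneg (by linarith)
  set l : ℝ := 1 + Real.log H with hldef
  have hl1 : 1 ≤ l := by linarith
  set q : ℝ := (H : ℝ) / R with hq
  have hq1 : (1 : ℝ) ≤ q := by rw [hq, le_div_iff₀ hR0]; linarith
  have hR8 : (R : ℝ) ^ 8 ≤ q := by
    rw [hq, le_div_iff₀ hR0]
    have : ((R ^ 9 : ℕ) : ℝ) ≤ H := by exact_mod_cast hHR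
    push_cast at this
    have e : (R : ℝ) ^ 8 * R = (R : ℝ) ^ 9 := by ring
    rw [e]
    exact this
  set tr : ℝ := 200 * H * l with htr
  set g : ℝ := 100 * q * l with hg
  have htr0 : 0 ≤ tr := by positivity
  have hg0 : 0 ≤ g := by positivity
  have hA : ∀ δ u : ℤ, ((sol H δ u).card : ℝ) ≤ tr := fun δ u =>
    le_trans (by exact_mod_cast hTriv H δ u) (tr_le H hH1)
  have hB : ∀ δ u : ℤ, |δ| ≤ (H : ℤ) → |u| ≤ 8 * (H : ℤ) → (H : ℤ) ≤ R * |δ| → ¬ Bad R δ u →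
      ((sol H δ u).card : ℝ) ≤ g := fun δ u h1 h2 h3 h4 =>
    le_trans (by exact_mod_cast hGood H R δ u hR hHR h1 h2 h3 h4) (g_le H R hR hHR)
  set U := Finset.Icc (-(8 * (H : ℤ))) (8 * (H : ℤ)) with hU
  have hUc : (U.card : ℝ) = 16 * H + 1 := by
    rw [hU, Int.card_Icc]
    have : ((8 * (H : ℤ) + 1 - -(8 * (H : ℤ))).toNat) = 16 * H + 1 := by omega
    rw [this]; push_cast; ring
  set K : ℝ := 50000 * (R : ℝ) ^ 8 * tr + (16 * H + 1) * g with hK
  have hK0 : 0 ≤ K := by positivity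
  have hC : ∀ δ : ℤ, |δ| ≤ (H : ℤ) → (H : ℤ) ≤ R * |δ| →
      ∑ u ∈ U, ((sol H δ u).card : ℝ) ≤ K := by
    intro δ h1 h2
    have e1 : ∑ u ∈ U, ((sol H δ u).card : ℝ) ≤ ∑ u ∈ U, ((if Bad R δ u then tr else 0) + g) := by
      refine Finset.sum_le_sum fun u hu => ?_
      have hu' : |u| ≤ 8 * (H : ℤ) := by
        rw [hU, Finset.mem_Icc] at hu
        exact abs_le.2 hu
      by_cases hb : Bad R δ u
      · rw [if_pos hb]
        have := hA δ u
        linarith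
      · rw [if_neg hb, zero_add]
        exact hB δ u h1 hu' h2 hb
    refine e1.trans ?_
    rw [Finset.sum_add_distrib, ← Finset.sum_filter, Finset.sum_const, Finset.sum_const,
      nsmul_eq_mul, nsmul_eq_mul, hUc]
    have e2 : (((U.filter fun u => Bad R δ u).card : ℕ) : ℝ) ≤ 50000 * (R : ℝ) ^ 8 := by
      have := hBad H R δ hR hHR h2 (U.filter fun u => Bad R δ u) (by
        intro u hu
        rw [Finset.mem_filter] at hu
        refine ⟨?_, hu.2⟩
        have hu1 := hu.1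
        rw [hU, Finset.mem_Icc] at hu1
        exact abs_le.2 hu1)
      exact_mod_cast this
    have e3 := mul_le_mul_of_nonneg_right e2 htr0
    linarith
  have hD : ∀ δ : ℤ, ∑ u ∈ U, ((sol H δ u).card : ℝ) ≤ (16 * H + 1) * tr := by
    intro δ
    refine (Finset.sum_le_sum fun u _ => hA δ u).trans ?_
    rw [Finset.sum_const, nsmul_eq_mul, hUc]
  have hE : (((Finset.Icc (-(H : ℤ)) H).filter (fun δ => δ ≠ 0)).card : ℝ) ≤ 3 * H := by
    have h1 : ((Finset.Icc (-(H : ℤ)) H).filter (fun δ => δ ≠ 0)).card ≤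
        (Finset.Icc (-(H : ℤ)) H).card := Finset.card_filter_le _ _
    rw [Int.card_Icc] at h1
    have h2 : ((Finset.Icc (-(H : ℤ)) H).filter (fun δ => δ ≠ 0)).card ≤ 3 * H := by omega
    exact_mod_cast h2
  have hF : ((((Finset.Icc (-(H : ℤ)) H).filter (fun δ => δ ≠ 0)).filter
      (fun δ => R * |δ| < (H : ℤ))).card : ℝ) ≤ 3 * q := by
    have h1 : (((Finset.Icc (-(H : ℤ)) H).filter (fun δ => δ ≠ 0)).filter
      (fun δ => R * |δ| < (H : ℤ))) ⊆ Finset.Icc (-((H / R : ℕ) : ℤ)) ((H / R : ℕ) : ℤ) := by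
      intro δ hδ
      rw [Finset.mem_filter] at hδ
      rw [Finset.mem_Icc, ← abs_le]
      have h2 : (R : ℤ) * |δ| < H := hδ.2
      have h3 : δ.natAbs ≤ H / R := by
        rw [Nat.le_div_iff_mul_le (by omega)]
        have : ((R * δ.natAbs : ℕ) : ℤ) < H := by
          push_cast
          exact h2
        have h4 : R * δ.natAbs < H := by exact_mod_cast this
        rw [mul_comm]
        exact h4.le
      have : |δ| = (δ.natAbs : ℤ) := Int.abs_eq_natAbs δ
      rw [this]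
      exact_mod_cast h3
    have h2 := Finset.card_le_card h1
    rw [Int.card_Icc] at h2
    have h3 : (((Finset.Icc (-(H : ℤ)) H).filter (fun δ => δ ≠ 0)).filter
      (fun δ => R * |δ| < (H : ℤ))).card ≤ 2 * (H / R) + 1 := by omega
    have h4 : ((((Finset.Icc (-(H : ℤ)) H).filter (fun δ => δ ≠ 0)).filter
      (fun δ => R * |δ| < (H : ℤ))).card : ℝ) ≤ ((2 * (H / R) + 1 : ℕ) : ℝ) := by
      exact_mod_cast h3
    refine h4.trans ?_
    push_cast
    have h5 : ((H / R : ℕ) : ℝ) ≤ q := Nat.cast_div_le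
    linarith
  have hT : ((∑ δ ∈ (Finset.Icc (-(H : ℤ)) H).filter (fun δ => δ ≠ 0),
      ∑ u ∈ U, (sol H δ u).card : ℕ) : ℝ) ≤ 3 * q * ((16 * H + 1) * tr) + 3 * H * K := by
    push_cast
    have e1 : ∑ δ ∈ (Finset.Icc (-(H : ℤ)) H).filter (fun δ => δ ≠ 0),
        ∑ u ∈ U, ((sol H δ u).card : ℝ) ≤
        ∑ δ ∈ (Finset.Icc (-(H : ℤ)) H).filter (fun δ => δ ≠ 0),
          ((if R * |δ| < (H : ℤ) then (16 * (H : ℝ) + 1) * tr else 0) + K) := by
      refine Finset.sum_le_sum fun δ hδ => ?_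
      rw [Finset.mem_filter, Finset.mem_Icc] at hδ
      by_cases hc : R * |δ| < (H : ℤ)
      · rw [if_pos hc]
        have := hD δ
        linarith
      · rw [if_neg hc, zero_add]
        exact hC δ (abs_le.2 hδ.1) (not_lt.1 hc)
    refine e1.trans ?_
    rw [Finset.sum_add_distrib, ← Finset.sum_filter, Finset.sum_const, Finset.sum_const,
      nsmul_eq_mul, nsmul_eq_mul]
    have e2 := mul_le_mul_of_nonneg_right hF (by positivity : 0 ≤ (16 * (H : ℝ) + 1) * tr)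
    have e3 := mul_le_mul_of_nonneg_right hE hK0
    linarith
  refine hT.trans ?_
  have hH1r : (1 : ℝ) ≤ H := by exact_mod_cast hH1
  have h16 : 16 * (H : ℝ) + 1 ≤ 17 * H := by linarith
  have k1 : 3 * q * ((16 * H + 1) * tr) ≤ 3 * q * ((17 * H) * tr) := by
    refine mul_le_mul_of_nonneg_left (mul_le_mul_of_nonneg_right h16 htr0) (by positivity)
  have k2 : K ≤ 50000 * q * tr + (17 * H) * g := by
    rw [hK]
    have := mul_le_mul_of_nonneg_right (mul_le_mul_of_nonneg_left hR8 (by norm_num : (0:ℝ) ≤ 50000)) htr0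
    have := mul_le_mul_of_nonneg_right h16 hg0
    linarith
  have k3 : 3 * H * K ≤ 3 * H * (50000 * q * tr + (17 * H) * g) :=
    mul_le_mul_of_nonneg_left k2 (by positivity)
  have k4 : (H : ℝ) ^ 3 / R = q * H ^ 2 := by rw [hq]; ring
  rw [k4]
  have k5 : 3 * q * ((17 * H) * tr) + 3 * H * (50000 * q * tr + (17 * H) * g) =
      30015300 * (q * H ^ 2 * l) := by rw [htr, hg]; ring
  have k6 : 0 ≤ q * H ^ 2 * l := by positivity
  linarith

end Pool.Agent.H674R3.Hen
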