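import Pool.Agent.H674R3.HenS

set_option autoImplicit false

open Finset

/-! Task Triv of project HENON674 (helper581). -/

namespace Pool.Agent.H674R3.Hen

/-- the fibre over `v` -/
noncomputable def fibT (H : ℕ) (δ u v : ℤ) : Finset ℤ :=
  ((sol H δ u).filter (fun p => p.1 = v)).image Prod.snd

lemma card_fibT (H : ℕ) (δ u v : ℤ) :
    ((sol H δ u).filter (fun p => p.1 = v)).card = (fibT H δ u v).card := by
  unfold fibT
  rw [Finset.card_image_of_injOn]
  intro p hp q hq hpq
  rw [Finset.mem_coe, Finset.mem_filter] at hp hq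
  exact Prod.ext (hp.2.trans hq.2.symm) hpq

lemma mem_fibT {H : ℕ} {δ u v t : ℤ} (h : t ∈ fibT H δ u v) :
    -(9 * (H : ℤ)) ≤ t ∧ t ≤ 9 * (H : ℤ) ∧ |v * t - δ * u| ≤ 8 * (H : ℤ) := by
  unfold fibT sol at h
  rw [Finset.mem_image] at h
  obtain ⟨p, hp, rfl⟩ := h
  rw [Finset.mem_filter, Finset.mem_filter, Finset.mem_product, Finset.mem_Icc,
    Finset.mem_Icc] at hp
  obtain ⟨⟨⟨_, h2⟩, h3, _⟩, h5⟩ := hp
  rw [← h5]
  exact ⟨h2.1, h2.2, h3⟩

lemma fibT_zero (H : ℕ) (δ u : ℤ) : (fibT H δ u 0).card ≤ 18 * H + 1 := by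
  have h : fibT H δ u 0 ⊆ Finset.Icc (-(9 * (H : ℤ))) (9 * (H : ℤ)) := by
    intro t ht
    have := mem_fibT ht
    rw [Finset.mem_Icc]
    exact ⟨this.1, this.2.1⟩
  refine (Finset.card_le_card h).trans ?_
  rw [Int.card_Icc]
  omega

lemma fibT_ne (H : ℕ) (δ u v : ℤ) (hv : v ≠ 0) :
    (fibT H δ u v).card ≤ 16 * H / v.natAbs + 1 := by
  have h := spaced (fibT H δ u v) (16 * H / v.natAbs) 0 ?_ ?_
  · simpa using h
  · intro x hx y hy
    have h1 := (mem_fibT hx).2.2
    have h2 := (mem_fibT hy).2.2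
    have h3 : |v * (x - y)| ≤ 16 * (H : ℤ) := by
      have e : v * (x - y) = (v * x - δ * u) - (v * y - δ * u) := by ring
      rw [e]
      have := abs_sub (v * x - δ * u) (v * y - δ * u)
      linarith
    have h4 : (x - y).natAbs * v.natAbs ≤ 16 * H := by
      have h5 : ((v * (x - y)).natAbs : ℤ) ≤ 16 * (H : ℤ) := by
        rw [Int.natCast_natAbs]; exact h3
      rw [Int.natAbs_mul, mul_comm] at h5
      exact_mod_cast h5
    have h6 : (x - y).natAbs ≤ 16 * H / v.natAbs :=
      (Nat.le_div_iff_mul_le (Int.natAbs_pos.2 hv)).2 h4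
    rw [← Int.natCast_natAbs]
    exact_mod_cast h6
  · intro x _ y _ hxy
    have : 0 < |x - y| := abs_pos.2 (sub_ne_zero.2 hxy)
    simpa using this

theorem taskTriv : TaskTriv := by
  intro H δ u
  set F : ℤ → Finset (ℤ × ℤ) := fun v => (sol H δ u).filter (fun p => p.1 = v) with hF
  have hcov : sol H δ u ⊆ F 0 ∪ (Finset.Icc 1 (8 * H)).biUnion
      (fun n : ℕ => F (n : ℤ) ∪ F (-(n : ℤ))) := by
    intro p hp
    have hp' := hp
    unfold sol at hp'
    rw [Finset.mem_filter, Finset.mem_product, Finset.mem_Icc, Finset.mem_Icc] at hp'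
    obtain ⟨⟨⟨h1, h2⟩, _⟩, _⟩ := hp'
    rw [Finset.mem_union, Finset.mem_biUnion]
    by_cases h0 : p.1 = 0
    · left
      rw [hF, Finset.mem_filter]
      exact ⟨hp, h0⟩
    · right
      refine ⟨p.1.natAbs, ?_, ?_⟩
      · rw [Finset.mem_Icc]
        omega
      · rw [Finset.mem_union]
        rcases Int.natAbs_eq p.1 with h | h
        · left
          rw [hF, Finset.mem_filter]
          exact ⟨hp, h⟩
        · right
          rw [hF, Finset.mem_filter]
          exact ⟨hp, h⟩
  refine (Finset.card_le_card hcov).trans ((Finset.card_union_le _ _).trans ?_)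
  refine add_le_add ?_ ?_
  · rw [hF]
    show ((sol H δ u).filter (fun p => p.1 = 0)).card ≤ _
    rw [card_fibT]
    exact fibT_zero H δ u
  · refine Finset.card_biUnion_le.trans ?_
    rw [Finset.mul_sum]
    refine Finset.sum_le_sum fun n hn => ?_
    rw [Finset.mem_Icc] at hn
    refine (Finset.card_union_le _ _).trans ?_
    have a1 : (F (n : ℤ)).card ≤ 16 * H / n + 1 := by
      show ((sol H δ u).filter (fun p => p.1 = (n : ℤ))).card ≤ _
      rw [card_fibT]
      have := fibT_ne H δ u (n : ℤ) (by omega)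
      simpa using this
    have a2 : (F (-(n : ℤ))).card ≤ 16 * H / n + 1 := by
      show ((sol H δ u).filter (fun p => p.1 = (-(n : ℤ)))).card ≤ _
      rw [card_fibT]
      have := fibT_ne H δ u (-(n : ℤ)) (by omega)
      simpa using this
    omega

end Pool.Agent.H674R3.Hen
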