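import Pool.Agent.H322R2.Final2

/-!
Two integer points of arbitrary heights on two curves `G + R₁ = 0`, `G + R₂ = 0` near the same
real root at infinity (monic case), and the selection of that root.
-/

open Polynomial Finset

namespace Pool.Agent.H674R3

open Pool.Agent.H322R2

theorem two_mono {d : ℕ} (hd : 4 ≤ d) {G : ℤ[X][X]} (hm : G.Monic) (hdeg : G.natDegree = d)
    (hT : TD d G) (hirr : Irreducible ((lead d G).map (Int.castRingHom ℚ))) (η : ℝ)
    (hη : evf η (lead d G) = 0) {H1 H2 : ℝ} (hH1 : 1 ≤ H1) (hH2 : 1 ≤ H2)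
    (hG1 : pn (pn zn) G ≤ H1) (hG2 : pn (pn zn) G ≤ H2) {R1 R2 : ℤ[X][X]}
    (hR1 : TD (d - 4) R1) (hR2 : TD (d - 4) R2) (hp1 : pn (pn zn) R1 ≤ H1)
    (hp2 : pn (pn zn) R2 ≤ H2) (hq1 : Prime (G + R1)) (hq2 : Prime (G + R2)) {a1 b1 a2 b2 : ℤ}
    (hz1 : ev a1 b1 (G + R1) = 0) (hz2 : ev a2 b2 (G + R2) = 0)
    (hn1 : |(b1 : ℝ) / a1 - η| ≤ cR d (2 * H1)) (hn2 : |(b2 : ℝ) / a2 - η| ≤ cR d (2 * H2))
    (ha1 : (bB d (2 * H1)) ^ (kap d) ≤ |(a1 : ℝ)|) :
    |(a2 : ℝ)| ≤ (|(a1 : ℝ)| * bB d (2 * H2)) ^ (kap d) := by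
  have hd0 : 0 < d := by omega
  obtain ⟨hgm, hgd⟩ := lead_monic hm hdeg
  have hgd0 : 0 < (lead d G).natDegree := by omega
  have hPt : ∀ (H : ℝ) (R : ℤ[X][X]) (a b : ℤ), 1 ≤ H → pn (pn zn) G ≤ H → TD (d - 4) R →
      pn (pn zn) R ≤ H → Prime (G + R) → ev a b (G + R) = 0 →
      |(b : ℝ) / a - η| ≤ cR d (2 * H) →
      Pt (os hgm) (sR η hη) d (G + R) (2 * H) (AdjoinRoot.root (lead d G)) a b := by
    intro H R a b hH hG hR hp hq hz hn
    obtain ⟨H', hH'⟩ : ∃ H', H' = 2 * H := ⟨_, rfl⟩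
    rw [← hH'] at hn ⊢
    have hH'1 : 1 ≤ H' := by linarith
    have hT' := TD_add hd hT hR
    have hlead := lead_add_of_TD (G := G) hd hR 0 (by omega)
    rw [Nat.sub_zero] at hlead
    have hpn' : pn (pn zn) (G + R) ≤ H' := (map_add_le_add _ _ _).trans (by linarith)
    have hRn : R.natDegree < G.natDegree := by have := hR.1; omega
    have hdeg' : R.degree < G.degree := degree_lt_degree hRn
    have hpg : pn zn (lead d G) ≤ H := (pn_lead_le hdeg.le).trans hG
    have hηH : |η| ≤ H := root_norm_le (lead d G) hgm H hH hpg η hη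
    have hgd' : (derivative (lead d G)).natDegree ≤ d := (natDegree_derivative_le _).trans (by omega)
    have hpd : pn zn (derivative (lead d G)) ≤ d * H' := by
      refine (pn_derivative_le zn _).trans ?_
      rw [hgd]
      exact mul_le_mul_of_nonneg_left (by linarith) (by positivity)
    have hdR : (4 : ℝ) ≤ d := by exact_mod_cast hd
    have hder0 : derivative (lead d G) ≠ 0 := by
      intro h
      have h1 := natDegree_eq_zero_of_derivative_eq_zero h
      omega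
    have hder : 1 ≤ |evf η (derivative (lead d G))| * cD d H' :=
      one_le_of_root (lead d G) d hd0 hgm hgd (derivative (lead d G))
        (nrm_ne_of_irr_deg hgm hgd hirr _ hder0 (by
          have := natDegree_derivative_le (lead d G); omega))
        (1 + H') (d * H') (by linarith) (by linarith) hpd (by nlinarith) hgd' η hη
        (by rw [Real.norm_eq_abs]; linarith)
    refine ⟨hm.add_of_left hdeg', ?_, hq, hT', hH'1, hpn', ?_, ?_, ?_, ?_, hz,
      by rw [sR_root]; exact hn⟩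
    · rw [natDegree_add_eq_left_of_natDegree_lt hRn, hdeg]
    · rw [hlead]; exact evf_root
    · exact (os_root hgm).trans (by linarith)
    · rw [sR_root]; linarith
    · rw [hlead, sR_root]; exact hder
  have h1 := two_int (by omega) (os_one hgm) (abs_sR_le hgm hgd0 η hη)
    (AdjoinRoot.powerBasisAux' hgm) 1 (le_refl _) (abs_repr_le hgm hgd0)
    (by rw [Fintype.card_fin]; exact hgd0) (by rw [Fintype.card_fin]; omega)
    (hPt H1 R1 a1 b1 hH1 hG1 hR1 hp1 hq1 hz1 hn1) (hPt H2 R2 a2 b2 hH2 hG2 hR2 hp2 hq2 hz2 hn2) ha1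
  rwa [mul_one] at h1

theorem sel_mono {d : ℕ} (hd : 4 ≤ d) {G : ℤ[X][X]} (hm : G.Monic) (hdeg : G.natDegree = d)
    (hT : TD d G) (hirr : Irreducible ((lead d G).map (Int.castRingHom ℚ))) {H : ℝ} (hH : 1 ≤ H)
    (hG : pn (pn zn) G ≤ H) {R : ℤ[X][X]} (hR1 : TD (d - 4) R) (hR2 : pn (pn zn) R ≤ H)
    {a b : ℤ} (hz : ev a b (G + R) = 0) (ha : (2 + 2 * H) ^ (128 * d ^ 3) ≤ |(a : ℝ)|) :
    ∃ η : ℝ, evf η (lead d G) = 0 ∧ |(b : ℝ) / a - η| ≤ cR d (2 * H) := by
  have hd0 : 0 < d := by omega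
  obtain ⟨hgm, hgd⟩ := lead_monic hm hdeg
  have hder0 : derivative (lead d G) ≠ 0 := by
    intro h
    have h1 := natDegree_eq_zero_of_derivative_eq_zero h
    omega
  have hn := nrm_ne_of_irr_deg hgm hgd hirr _ hder0 (by
        have := natDegree_derivative_le (lead d G); omega)
  have hT' := TD_add hd hT hR1
  have hlead := lead_add_of_TD (G := G) hd hR1 0 (by omega)
  rw [Nat.sub_zero] at hlead
  have hpn' : pn (pn zn) (G + R) ≤ 2 * H := (map_add_le_add _ _ _).trans (by linarith)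
  have hRn : R.natDegree < G.natDegree := by have := hR1.1; omega
  have hm' : (G + R).Monic := hm.add_of_left (degree_lt_degree hRn)
  have hdeg' : (G + R).natDegree = d := by
    rw [natDegree_add_eq_left_of_natDegree_lt hRn, hdeg]
  have hP1 : (1 : ℝ) ≤ |(a : ℝ)| := (one_le_pow₀ (by linarith)).trans ha
  have hP0 : a ≠ 0 := by
    intro h; rw [h] at hP1; simp at hP1; linarith
  obtain ⟨η, e1, e2, -, -⟩ := root_sel hd0 hm' hdeg' hT' (show 1 ≤ 2 * H by linarith) hpn'
    (by rw [hlead]; exact hn) a b hP0 hz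
    ((thr_le hd0 (show 1 ≤ 2 * H by linarith)).trans ha)
  rw [hlead] at e1
  exact ⟨η, e1, e2⟩

end Pool.Agent.H674R3
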