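import Pool.Agent.H322R2.Final2

/-!
An integer point on `F + R = 0`, `deg R ≤ deg F - 4`, in the coordinates in which the leading form
is monic.
-/

open Polynomial Finset

namespace Pool.Agent.H674R3

open Pool.Agent.H322R2

/-- the size of the monic model -/
noncomputable def MM (d : ℕ) (H : ℕ) : ℝ := ((H : ℝ) * (1 + d) ^ d) ^ d

lemma one_le_MM {d H : ℕ} (hH : 1 ≤ H) : 1 ≤ MM d H := by
  have hH1 : (1 : ℝ) ≤ H := by exact_mod_cast hH
  unfold MM
  apply one_le_pow₀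
  apply one_le_mul_of_one_le_of_one_le hH1
  apply one_le_pow₀
  have : (0 : ℝ) ≤ d := by positivity
  linarith

lemma two_add_MM_le {d H : ℕ} (hd : 4 ≤ d) (hH : 1 ≤ H) :
    2 + 2 * MM d H ≤ (((d : ℝ) + 1) * H) ^ (d ^ 2 + 1) := by
  have hH1 : (1 : ℝ) ≤ H := by exact_mod_cast hH
  have hd4 : (4 : ℝ) ≤ d := by exact_mod_cast hd
  have hM1 := one_le_MM (d := d) hH
  obtain ⟨w, hw⟩ : ∃ w : ℝ, w = ((d : ℝ) + 1) * (H : ℝ) := ⟨_, rfl⟩
  have hw5 : 5 ≤ w := by rw [hw]; nlinarith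
  have hMw : MM d H ≤ w ^ (d ^ 2) := by
    unfold MM
    rw [sq, pow_mul]
    apply pow_le_pow_left₀ (by positivity)
    rw [hw, mul_pow, mul_comm, add_comm 1 (d : ℝ)]
    apply mul_le_mul_of_nonneg_left _ (by positivity)
    calc (H : ℝ) = (H : ℝ) ^ 1 := by rw [pow_one]
      _ ≤ _ := pow_le_pow_right₀ hH1 (by omega)
  rw [← hw, pow_succ]
  nlinarith

theorem trip {F R : MvPolynomial (Fin 2) ℤ} {u H d : ℕ} {x y : ℤ} (hdd : d = F.totalDegree)
    (hd : 4 ≤ d)
    (hirr : Irreducible (MvPolynomial.map (Int.castRingHom ℚ)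
      (MvPolynomial.homogeneousComponent F.totalDegree F)))
    (hu : u ≤ d) (hcl : lc F u ≠ 0) (hR : R.totalDegree + 4 ≤ F.totalDegree)
    (hFH : len F ≤ H) (hRH : len R ≤ H) (hz : MvPolynomial.eval ![x, y] (F + R) = 0) :
    pn (pn zn) (GG F u) ≤ MM d H ∧ TD (d - 4) (RR F R u) ∧ pn (pn zn) (RR F R u) ≤ MM d H ∧
    Prime (GG F u + RR F R u) ∧ ev (y - u * x) (lc F u * x) (GG F u + RR F R u) = 0 ∧
    |(x : ℝ)| ≤ (((d : ℝ) + 1) * H) ^ (d ^ 2 + 2) * max 1 |((y - u * x : ℤ) : ℝ)| ∧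
    |(y : ℝ)| ≤ (((d : ℝ) + 1) * H) ^ (d ^ 2 + 2) * max 1 |((y - u * x : ℤ) : ℝ)| := by
  have hF0 : F ≠ 0 := by
    rintro rfl
    simp at hdd
    omega
  have hHn : 1 ≤ H := (len_pos hF0).trans hFH
  have hH1 : (1 : ℝ) ≤ H := by exact_mod_cast hHn
  have hd4 : (4 : ℝ) ≤ d := by exact_mod_cast hd
  obtain ⟨w, hw⟩ : ∃ w : ℝ, w = ((d : ℝ) + 1) * (H : ℝ) := ⟨_, rfl⟩
  have hw5 : 5 ≤ w := by rw [hw]; nlinarith
  obtain ⟨H2, hH2⟩ : ∃ H2 : ℝ, H2 = (H : ℝ) * (1 + d) ^ d := ⟨_, rfl⟩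
  have hH21 : 1 ≤ H2 := by
    rw [hH2]
    exact one_le_mul_of_one_le_of_one_le hH1 (one_le_pow₀ (by linarith))
  have hpn2 : ∀ R : MvPolynomial (Fin 2) ℤ, R.totalDegree ≤ d → len R ≤ H →
      pn (pn zn) (F2 R u) ≤ H2 := by
    intro R hR1 hR2
    refine (pn_toB_le u R).trans ?_
    rw [hH2]
    apply mul_le_mul
    · exact_mod_cast hR2
    · have h3 : (1 + (u : ℝ)) ^ R.totalDegree ≤ (1 + d) ^ R.totalDegree := by
        apply pow_le_pow_left₀ (by positivity)
        have : (u : ℝ) ≤ d := by exact_mod_cast hu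
        linarith
      refine h3.trans ?_
      exact pow_le_pow_right₀ (by linarith) hR1
    · positivity
    · linarith
  obtain ⟨M, hM⟩ : ∃ M : ℝ, M = MM d H := ⟨_, rfl⟩
  have hM' : M = H2 ^ d := by rw [hM, hH2]; rfl
  have hM1 : 1 ≤ M := by rw [hM]; exact one_le_MM hHn
  rw [← hM]
  have hpnF : pn (pn zn) (F2 F u) ≤ H2 := hpn2 F hdd.ge hFH
  have hpnG : pn (pn zn) (GG F u) ≤ M := by
    rw [hM', hdd]
    exact pn_GG hcl hH21 hpnF (by omega)
  obtain ⟨K, hK⟩ : ∃ K : ℝ, K = 2 + 2 * M := ⟨_, rfl⟩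
  have hK1 : 1 ≤ K := by linarith
  have hKw : K ≤ w ^ (d ^ 2 + 1) := by
    rw [hK, hM, hw]; exact two_add_MM_le hd hHn
  obtain ⟨a, ha⟩ : ∃ a : ℤ, a = y - u * x := ⟨_, rfl⟩
  rw [← ha, ← hw]
  have hGp := GG_pert hcl (by omega) hR
  have hcl' : lc (F + R) u ≠ 0 := by rw [lc_pert (by omega) hR]; exact hcl
  have hdeg' := totalDegree_pert (by omega) hR
  have hRR1 : TD (d - 4) (RR F R u) := by rw [hdd]; exact RR_TD hR
  have hRR2 : pn (pn zn) (RR F R u) ≤ M := by
    rw [hM', hdd]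
    exact pn_RR hH21 hpnF (hpn2 R (by omega) hRH) hcl (by omega)
  have hirrF : Irreducible (MvPolynomial.map (Int.castRingHom ℚ) (F + R)) := by
    have hinj : Function.Injective (Int.castRingHom ℚ) := Int.cast_injective
    have e1 : (MvPolynomial.map (Int.castRingHom ℚ) (F + R)).totalDegree = F.totalDegree := by
      rw [MvPolynomial.totalDegree, MvPolynomial.support_map_of_injective _ hinj,
        ← MvPolynomial.totalDegree, hdeg']
    apply irr_of_lead
    · rw [e1]; omega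
    · rw [e1]
      have e2 : MvPolynomial.homogeneousComponent F.totalDegree
          (MvPolynomial.map (Int.castRingHom ℚ) (F + R))
          = MvPolynomial.map (Int.castRingHom ℚ)
            (MvPolynomial.homogeneousComponent F.totalDegree (F + R)) := by
        ext m
        rw [MvPolynomial.coeff_homogeneousComponent, MvPolynomial.coeff_map,
          MvPolynomial.coeff_map, MvPolynomial.coeff_homogeneousComponent]
        split_ifs <;> simp
      have e3 := comp_pert (by omega) hR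
      rw [hdeg'] at e3
      rw [e2, e3]
      exact hirr
  have hprime : Prime (GG F u + RR F R u) := by
    rw [← hGp]
    exact GG_prime hcl' (by omega) hirrF
  have hzero : ev a (lc F u * x) (GG F u + RR F R u) = 0 := by
    rw [← hGp, ← lc_pert (u := u) (by omega) hR, ev_GG hcl' (by omega)]
    have h5 := ev_toB (S := ℤ) x a (shE ℤ u (F + R))
    have h6 : MvPolynomial.eval₂ (Int.castRingHom ℤ) ![x, a] (shE ℤ u (F + R))
        = MvPolynomial.eval ![x, a] (shE ℤ u (F + R)) := by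
      rw [MvPolynomial.eval, MvPolynomial.coe_eval₂Hom]
      congr 1
    rw [h6, eval_shE] at h5
    have h7 : (![(![x, a] : Fin 2 → ℤ) 0, (![x, a] : Fin 2 → ℤ) 1 + u * (![x, a] : Fin 2 → ℤ) 0]
        : Fin 2 → ℤ) = ![x, y] := by
      ext i
      fin_cases i
      · simp
      · simp [ha]
    rw [h7, hz] at h5
    rw [F2, h5, mul_zero]
  have hm' : (GG F u + RR F R u).Monic := by rw [← hGp]; exact GG_monic hcl'
  have hdm' : (GG F u + RR F R u).natDegree = d := by rw [← hGp, GG_natDegree hcl', hdeg', hdd]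
  have hTm' : TD d (GG F u + RR F R u) := by
    have := GG_TD hcl'
    rw [hdeg', hGp] at this
    rw [hdd]; exact this
  have hpnm' : pn (pn zn) (GG F u + RR F R u) ≤ 2 * M :=
    (map_add_le_add _ _ _).trans (by linarith)
  have hbb := abs_b_le hm' hdm' hTm' (show 1 ≤ 2 * M by linarith) hpnm' a (lc F u * x) hzero
  have hlc1 : 1 ≤ |((lc F u : ℤ) : ℝ)| := by
    have : 1 ≤ |lc F u| := Int.one_le_abs hcl
    exact_mod_cast this
  obtain ⟨B, hB⟩ : ∃ B, B = max 1 |(a : ℝ)| := ⟨_, rfl⟩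
  have hB1 : 1 ≤ B := by rw [hB]; exact le_max_left _ _
  have hBa : |(a : ℝ)| ≤ B := by rw [hB]; exact le_max_right _ _
  rw [← hB] at hbb ⊢
  have hxb : |(x : ℝ)| ≤ 2 * M * B := by
    refine le_trans ?_ hbb
    push_cast
    rw [abs_mul]
    exact le_mul_of_one_le_left (abs_nonneg _) hlc1
  have h5 : (d + 1) * (2 * M) ≤ w ^ (d ^ 2 + 2) := by
    have h6 : 2 * M ≤ w ^ (d ^ 2 + 1) := by linarith
    have h7 : (d : ℝ) + 1 ≤ w := by
      rw [hw]; exact le_mul_of_one_le_right (by linarith) hH1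
    calc ((d : ℝ) + 1) * (2 * M) ≤ w * w ^ (d ^ 2 + 1) :=
          mul_le_mul h7 h6 (by linarith) (by linarith)
      _ = w ^ (d ^ 2 + 2) := by rw [mul_comm, ← pow_succ]
  have hy1 : |(y : ℝ)| ≤ (d + 1) * (2 * M) * B := by
    have h5 : (y : ℝ) = a + u * x := by rw [ha]; push_cast; ring
    rw [h5]
    refine (abs_add_le _ _).trans ?_
    rw [abs_mul, Nat.abs_cast]
    have h6 : (u : ℝ) ≤ d := by exact_mod_cast hu
    have h7 : (u : ℝ) * |(x : ℝ)| ≤ d * (2 * M * B) :=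
      mul_le_mul h6 hxb (abs_nonneg _) (by linarith)
    have h8 : B ≤ 2 * M * B := le_mul_of_one_le_left (by linarith) (by linarith)
    have h9 : ((d : ℝ) + 1) * (2 * M) * B = 2 * M * B + d * (2 * M * B) := by ring
    linarith
  have hx2 : |(x : ℝ)| ≤ (d + 1) * (2 * M) * B := by
    refine hxb.trans ?_
    apply mul_le_mul_of_nonneg_right _ (by linarith)
    nlinarith
  exact ⟨hpnG, hRR1, hRR2, hprime, hzero,
    hx2.trans (mul_le_mul_of_nonneg_right h5 (by linarith)),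
    hy1.trans (mul_le_mul_of_nonneg_right h5 (by linarith))⟩

end Pool.Agent.H674R3
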